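import Pool.Agent.N879.PZ.Stm
import Pool.Agent.Y969.SM.Bas

set_option autoImplicit false

/-!
Project PZ (helper879), leaf GCM (helper628): almost all points are regular.
-/

namespace Pool.Agent.N879.PZ

open Complex Filter Topology MeasureTheory Set
open Pool.Agent.Y969.GP (ff V V1 ht lam PS FR co cr PX mk mB)

noncomputable section

namespace Gcmaux

/-- the mean of a window integral -/
lemma mean_window (f : ℝ → ℝ) (hf : Continuous f) (h0 : ∀ x, 0 ≤ f x) (T U : ℝ) (hT : 0 ≤ T)
    (hU : 0 ≤ U) :
    ∫ t in (0 : ℝ)..T, (∫ u in t..(t + U), f u) ≤ U * ∫ u in (0 : ℝ)..(T + U), f u := by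
  set G : ℝ → ℝ := fun x => ∫ u in (0 : ℝ)..x, f u with hG
  have hGc : Continuous G := by
    refine intervalIntegral.continuous_primitive (fun a b => hf.intervalIntegrable a b) 0
  have hfi : ∀ a b : ℝ, IntervalIntegrable f volume a b := fun a b => hf.intervalIntegrable a b
  have hGi : ∀ a b : ℝ, IntervalIntegrable G volume a b := fun a b => hGc.intervalIntegrable a b
  have hG0 : ∀ x, 0 ≤ x → 0 ≤ G x := fun x hx =>
    intervalIntegral.integral_nonneg hx fun u _ => h0 u
  have hmono : ∀ x y, x ≤ y → G x ≤ G y := by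
    intro x y hxy
    have h1 : G y - G x = ∫ u in x..y, f u :=
      intervalIntegral.integral_interval_sub_left (hfi 0 y) (hfi 0 x)
    have h2 : 0 ≤ ∫ u in x..y, f u := intervalIntegral.integral_nonneg hxy fun u _ => h0 u
    linarith
  have hwin : ∀ t, ∫ u in t..(t + U), f u = G (t + U) - G t := fun t =>
    (intervalIntegral.integral_interval_sub_left (hfi 0 (t + U)) (hfi 0 t)).symm
  have e1 : ∫ t in (0 : ℝ)..T, (∫ u in t..(t + U), f u)
      = (∫ t in U..(T + U), G t) - ∫ t in (0 : ℝ)..T, G t := by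
    simp_rw [hwin]
    rw [intervalIntegral.integral_sub]
    · rw [intervalIntegral.integral_comp_add_right (fun x => G x) U, zero_add]
    · exact (hGc.comp (continuous_id.add continuous_const)).intervalIntegrable 0 T
    · exact hGi 0 T
  have e2 : (∫ t in U..(T + U), G t) = (∫ t in U..T, G t) + ∫ t in T..(T + U), G t :=
    (intervalIntegral.integral_add_adjacent_intervals (hGi U T) (hGi T (T + U))).symm
  have e3 : (∫ t in (0 : ℝ)..T, G t) = (∫ t in (0 : ℝ)..U, G t) + ∫ t in U..T, G t :=
    (intervalIntegral.integral_add_adjacent_intervals (hGi 0 U) (hGi U T)).symm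
  have h3 : 0 ≤ ∫ t in (0 : ℝ)..U, G t :=
    intervalIntegral.integral_nonneg hU fun t ht => hG0 t ht.1
  have h4 : ∫ t in T..(T + U), G t ≤ ∫ _t in T..(T + U), G (T + U) := by
    refine intervalIntegral.integral_mono_on (by linarith) (hGi _ _)
      intervalIntegrable_const fun t ht => hmono _ _ ht.2
  rw [intervalIntegral.integral_const, smul_eq_mul, add_sub_cancel_left] at h4
  rw [e1, e2, e3]
  change _ ≤ U * G (T + U)
  linarith

end Gcmaux

theorem t_GCM (h : S_M4L) : S_GCM := by
  obtain ⟨C, A, hC, hM⟩ := h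
  refine ⟨C * 2 * 2 ^ A, A, by positivity, fun T U W hT hU hUT hW => ?_⟩
  have hU0 : 0 < U := by linarith
  have hW0 : 0 < W := by linarith
  have hT0 : 0 < T := by linarith
  have hc : Continuous fun u => ff u ^ 2 := Pool.Agent.Y969.SM.ff_cont.pow 2
  have hfi : ∀ a b : ℝ, IntervalIntegrable (fun u => ff u ^ 2) volume a b := fun a b =>
    hc.intervalIntegrable a b
  set g : ℝ → ℝ := fun t => ∫ u in t..(t + U), ff u ^ 2 with hg
  have hgc : Continuous g := by
    have hG : Continuous fun x : ℝ => ∫ u in (0 : ℝ)..x, ff u ^ 2 :=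
      intervalIntegral.continuous_primitive (fun a b => hfi a b) 0
    have : g = fun t => (∫ u in (0 : ℝ)..(t + U), ff u ^ 2) - ∫ u in (0 : ℝ)..t, ff u ^ 2 := by
      funext t
      exact (intervalIntegral.integral_interval_sub_left (hfi 0 (t + U)) (hfi 0 t)).symm
    rw [this]
    exact (hG.comp (continuous_id.add continuous_const)).sub hG
  have hg0 : ∀ t, 0 ≤ g t := fun t =>
    intervalIntegral.integral_nonneg (by linarith) fun u _ => sq_nonneg _
  have hmean : ∫ t in Icc 0 T, g t ≤ U * (C * (2 * T) * (2 * Real.log T) ^ A) := by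
    rw [integral_Icc_eq_integral_Ioc, ← intervalIntegral.integral_of_le hT0.le]
    refine (Gcmaux.mean_window (fun u => ff u ^ 2) hc (fun x => sq_nonneg _) T U hT0.le
      hU0.le).trans ?_
    refine mul_le_mul_of_nonneg_left ?_ hU0.le
    have h1 : ∫ u in (0 : ℝ)..(T + U), ff u ^ 2 ≤ ∫ u in (0 : ℝ)..(2 * T), ff u ^ 2 := by
      rw [← intervalIntegral.integral_add_adjacent_intervals (hfi 0 (T + U)) (hfi (T + U) (2 * T))]
      have : 0 ≤ ∫ u in (T + U)..(2 * T), ff u ^ 2 :=
        intervalIntegral.integral_nonneg (by linarith) fun u _ => sq_nonneg _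
      linarith
    refine (h1.trans (hM (2 * T) (by linarith))).trans ?_
    refine mul_le_mul_of_nonneg_left ?_ (by positivity)
    refine pow_le_pow_left₀ (Real.log_nonneg (by linarith)) ?_ A
    rw [Real.log_mul (by norm_num) hT0.ne']
    have : Real.log 2 ≤ Real.log T := Real.log_le_log (by norm_num) (by linarith)
    linarith
  have hmk := mul_meas_ge_le_integral_of_nonneg (μ := volume.restrict (Icc 0 T))
    (Filter.Eventually.of_forall hg0) (hgc.continuousOn.integrableOn_compact isCompact_Icc) (U * W)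
  have hsub : Icc 0 T \ Gs U W ⊆ {t | U * W ≤ g t} ∩ Icc 0 T := by
    intro t ht
    refine ⟨?_, ht.1⟩
    have h2 : ¬ g t ≤ U * W := ht.2
    exact (not_le.1 h2).le
  have hmeas : MeasurableSet {t | U * W ≤ g t} := (isClosed_le continuous_const hgc).measurableSet
  have hreal : (volume.restrict (Icc 0 T)).real {t | U * W ≤ g t} ≤
      C * 2 * 2 ^ A * T * Real.log T ^ A / W := by
    rw [le_div_iff₀ hW0]
    have h5 := hmk.trans hmean
    have h6 : U * ((volume.restrict (Icc 0 T)).real {t | U * W ≤ g t} * W)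
        ≤ U * (C * 2 * 2 ^ A * T * Real.log T ^ A) := by
      calc U * ((volume.restrict (Icc 0 T)).real {t | U * W ≤ g t} * W)
          = U * W * (volume.restrict (Icc 0 T)).real {t | U * W ≤ g t} := by ring
        _ ≤ U * (C * (2 * T) * (2 * Real.log T) ^ A) := h5
        _ = U * (C * 2 * 2 ^ A * T * Real.log T ^ A) := by rw [mul_pow]; ring
    exact le_of_mul_le_mul_left h6 hU0
  calc volume (Icc 0 T \ Gs U W) ≤ volume ({t | U * W ≤ g t} ∩ Icc 0 T) := measure_mono hsub
    _ = (volume.restrict (Icc 0 T)) {t | U * W ≤ g t} := (Measure.restrict_apply hmeas).symm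
    _ = ENNReal.ofReal ((volume.restrict (Icc 0 T)).real {t | U * W ≤ g t}) := by
        rw [measureReal_def, ENNReal.ofReal_toReal]
        exact measure_ne_top _ _
    _ ≤ ENNReal.ofReal (C * 2 * 2 ^ A * T * Real.log T ^ A / W) := ENNReal.ofReal_le_ofReal hreal

end

end Pool.Agent.N879.PZ
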