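import Pool.Agent.N879.PZ.Stm
import Pool.Agent.Y587.GP.V
import Pool.Agent.Y545.GP.CR

set_option autoImplicit false

/-! PZ, part M4L: the fourth moment of zeta, up to a power of the logarithm. -/

namespace Pool.Agent.N879.PZ

namespace M4laux

open Complex Filter Topology MeasureTheory Set
open Pool.Agent.Y969.GP (ff V ht lam PS FR co cr PX)

lemma ff_cont : Continuous ff := by
  unfold ff
  refine Continuous.pow (Continuous.norm ?_) 2
  rw [continuous_iff_continuousAt]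
  intro u
  have hne : (1 / 2 + I * u : ℂ) ≠ 1 := by
    intro h
    have h1 := congrArg Complex.re h
    simp at h1
  exact (differentiableAt_riemannZeta hne).continuousAt.comp
    (f := fun u : ℝ => (1 / 2 + I * u : ℂ)) (by fun_prop)

lemma ee_cont (p : ℕ × ℕ) : Continuous fun u : ℝ => ee u p := by
  unfold ee
  fun_prop

lemma of_mem_FR {X : ℕ} {p : ℕ × ℕ} (h : p ∈ FR X) :
    1 ≤ p.1 ∧ 1 ≤ p.2 ∧ p.1 * p.2 ≤ X ∧ Nat.Coprime p.1 p.2 := by
  unfold FR PS at h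
  rw [Finset.mem_filter, Finset.mem_filter, Finset.mem_product, Finset.mem_Icc, Finset.mem_Icc] at h
  exact ⟨h.1.1.1.1, h.1.1.2.1, h.1.2, h.2⟩

lemma mem_FR_of {X : ℕ} {p : ℕ × ℕ} (h1 : 1 ≤ p.1) (h2 : 1 ≤ p.2) (h3 : p.1 * p.2 ≤ X)
    (h4 : Nat.Coprime p.1 p.2) : p ∈ FR X := by
  unfold FR PS
  rw [Finset.mem_filter, Finset.mem_filter, Finset.mem_product, Finset.mem_Icc, Finset.mem_Icc]
  exact ⟨⟨⟨⟨h1, (Nat.le_mul_of_pos_right _ h2).trans h3⟩, h2, (Nat.le_mul_of_pos_left _ h1).trans h3⟩,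
    h3⟩, h4⟩

lemma sum_FR_le (X : ℕ) : ∑ q ∈ FR X, (ht q)⁻¹ ≤ (1 + Real.log X) ^ 2 := by
  have h1 : ∑ m ∈ Finset.Icc 1 X, ((m : ℝ))⁻¹ ≤ 1 + Real.log X := by
    have h1 := harmonic_le_one_add_log X
    have h2 : ∑ m ∈ Finset.Icc 1 X, ((m : ℝ))⁻¹ = ((harmonic X : ℚ) : ℝ) := by
      rw [harmonic_eq_sum_Icc]
      push_cast
      ring
    rw [h2]; exact h1
  have h0 : 0 ≤ ∑ m ∈ Finset.Icc 1 X, ((m : ℝ))⁻¹ := Finset.sum_nonneg fun m _ => by positivity
  calc ∑ q ∈ FR X, (ht q)⁻¹ ≤ ∑ q ∈ Finset.Icc 1 X ×ˢ Finset.Icc 1 X, (ht q)⁻¹ := by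
        refine Finset.sum_le_sum_of_subset_of_nonneg ?_ ?_
        · exact (Finset.filter_subset _ _).trans (Finset.filter_subset _ _)
        · intro q _ _
          unfold ht
          positivity
    _ = (∑ m ∈ Finset.Icc 1 X, ((m : ℝ))⁻¹) * ∑ m ∈ Finset.Icc 1 X, ((m : ℝ))⁻¹ := by
        rw [Finset.sum_product, Finset.sum_mul]
        refine Finset.sum_congr rfl fun m _ => ?_
        rw [Finset.mul_sum]
        refine Finset.sum_congr rfl fun n _ => ?_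
        unfold ht
        rw [mul_inv]
    _ ≤ (1 + Real.log X) * (1 + Real.log X) := by
        gcongr
    _ = _ := by ring

/-- the block of the pairs with `2 ^ i ≤ ht p < 2 ^ (i + 1)` -/
def Bl (X i : ℕ) : Finset (ℕ × ℕ) := (FR X).filter (fun p => Nat.log 2 (p.1 * p.2) = i)

lemma Bl_sub {X i : ℕ} {p : ℕ × ℕ} (h : p ∈ Bl X i) : p ∈ FR X := (Finset.mem_filter.1 h).1

lemma Bl_low {X i : ℕ} {p : ℕ × ℕ} (h : p ∈ Bl X i) : (2 : ℝ) ^ i ≤ ht p := by
  have h1 := of_mem_FR (Bl_sub h)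
  have h2 := (Finset.mem_filter.1 h).2
  have h3 : p.1 * p.2 ≠ 0 := by
    have := Nat.mul_pos h1.1 h1.2.1
    omega
  have h4 := Nat.pow_log_le_self 2 h3
  rw [h2] at h4
  unfold ht
  exact_mod_cast h4

lemma Bl_FR (X i : ℕ) : Bl X i ⊆ FR (2 ^ (i + 1)) := by
  intro p h
  have h1 := of_mem_FR (Bl_sub h)
  have h2 := (Finset.mem_filter.1 h).2
  have h4 : p.1 * p.2 < 2 ^ (Nat.log 2 (p.1 * p.2) + 1) := Nat.lt_pow_succ_log_self (by norm_num) _
  rw [h2] at h4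
  exact mem_FR_of h1.1 h1.2.1 h4.le h1.2.2.2

lemma Bl_card (X i : ℕ) : ((Bl X i).card : ℝ) ≤ 2 * 2 ^ i * (1 + Real.log X) ^ 2 := by
  calc ((Bl X i).card : ℝ) = ∑ _p ∈ Bl X i, (1 : ℝ) := by simp
    _ ≤ ∑ p ∈ Bl X i, 2 * 2 ^ i * (ht p)⁻¹ := by
        refine Finset.sum_le_sum fun p hp => ?_
        have h1 := of_mem_FR (Bl_sub hp)
        have h2 := (Finset.mem_filter.1 hp).2
        have h4 : p.1 * p.2 < 2 ^ (Nat.log 2 (p.1 * p.2) + 1) := Nat.lt_pow_succ_log_self (by norm_num) _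
        rw [h2] at h4
        have h5 : ht p ≤ 2 * 2 ^ i := by
          unfold ht
          rw [← pow_succ']
          exact_mod_cast h4.le
        have h6 : 0 < ht p := lt_of_lt_of_le (by positivity) (Bl_low hp)
        rw [← div_eq_mul_inv, one_le_div h6]
        exact h5
    _ = 2 * 2 ^ i * ∑ p ∈ Bl X i, (ht p)⁻¹ := by rw [Finset.mul_sum]
    _ ≤ 2 * 2 ^ i * ∑ p ∈ FR X, (ht p)⁻¹ := by
        refine mul_le_mul_of_nonneg_left ?_ (by positivity)
        refine Finset.sum_le_sum_of_subset_of_nonneg (Finset.filter_subset _ _) ?_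
        intro q _ _
        unfold ht
        positivity
    _ ≤ 2 * 2 ^ i * (1 + Real.log X) ^ 2 := by
        exact mul_le_mul_of_nonneg_left (sum_FR_le X) (by positivity)

/-- the number `min(1, (2Y/K)^2)` -/
lemma min_bound {Y K : ℝ} (hY : 0 < Y) (hK : 0 < K) :
    (2 * Y + 2 * K) * (min 1 ((2 * Y / K) ^ 2)) ^ 2 ≤ 6 * Y := by
  obtain ⟨m, hm⟩ : ∃ m : ℝ, m = min 1 ((2 * Y / K) ^ 2) := ⟨_, rfl⟩
  rw [← hm]
  have hm0 : 0 ≤ m := by rw [hm]; exact le_min zero_le_one (by positivity)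
  have hm1 : m ≤ 1 := by rw [hm]; exact min_le_left _ _
  have hm2 : m ≤ (2 * Y / K) ^ 2 := by rw [hm]; exact min_le_right _ _
  have hmz : K * m ^ 2 ≤ 2 * Y := by
    rcases le_or_gt K (2 * Y) with h | h
    · nlinarith [pow_le_one₀ hm0 hm1 (n := 2)]
    · have hz : 2 * Y / K ≤ 1 := by rw [div_le_one hK]; exact h.le
      have hz0 : 0 ≤ 2 * Y / K := by positivity
      have h2 : m ^ 2 ≤ m := by nlinarith
      have h3 : m ≤ 2 * Y / K := hm2.trans (by nlinarith)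
      have h4 : K * (2 * Y / K) = 2 * Y := by field_simp
      calc K * m ^ 2 ≤ K * (2 * Y / K) := mul_le_mul_of_nonneg_left (h2.trans h3) hK.le
        _ = 2 * Y := h4
  nlinarith [pow_le_one₀ hm0 hm1 (n := 2)]

theorem block (h1 : S_AFX) (h2 : S_CRD) (h3 : S_LT) : ∃ C : ℝ, 0 < C ∧ ∀ Y : ℝ, 1 ≤ Y →
    ∫ u in Y..(2 * Y), ff u ^ 2 ≤ C * Y * (1 + Real.log Y) ^ 7 := by
  obtain ⟨CA, hCA, hA⟩ := h1
  obtain ⟨CC, hCC, hC⟩ := h2
  obtain ⟨CL, hCL, hL⟩ := h3
  obtain ⟨-, -, C0, hC0, hcr⟩ := Pool.Agent.Y545.GP.t_CR Pool.Agent.Y587.GP.t_V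
  refine ⟨2 * (96 * CL * CC ^ 2 * 3 ^ 7) + 2 * CA ^ 2, by positivity, fun Y hY => ?_⟩
  have hY0 : 0 < Y := by linarith
  have hY2 : Y ≤ 2 * Y := by linarith
  obtain ⟨X, hX⟩ : ∃ X : ℕ, X = ⌈(2 * Y) ^ 2⌉₊ := ⟨_, rfl⟩
  have hXl : (2 * Y) ^ 2 ≤ X := by rw [hX]; exact Nat.le_ceil _
  have hXu : (X : ℝ) ≤ 5 * Y ^ 2 := by
    have := Nat.ceil_lt_add_one (by positivity : 0 ≤ (2 * Y) ^ 2)
    rw [← hX] at this
    nlinarith
  have hX1 : (1 : ℝ) ≤ X := by nlinarith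
  have hX1' : 1 ≤ X := by exact_mod_cast hX1
  have hlX : 0 ≤ Real.log X := Real.log_nonneg hX1
  have hlY : 0 ≤ Real.log Y := Real.log_nonneg hY
  obtain ⟨l, hl⟩ : ∃ l : ℝ, l = 1 + Real.log X := ⟨_, rfl⟩
  have hl1 : 1 ≤ l := by rw [hl]; linarith
  have hlY3 : l ≤ 3 * (1 + Real.log Y) := by
    have e1 : Real.log X ≤ Real.log 5 + 2 * Real.log Y := by
      calc Real.log X ≤ Real.log (5 * Y ^ 2) := Real.log_le_log (by linarith) hXu
        _ = Real.log 5 + 2 * Real.log Y := by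
            rw [Real.log_mul (by norm_num) (by positivity), Real.log_pow]
            norm_num
    have e2 : Real.log 5 ≤ 2 := by
      have h5 : Real.log 5 ≤ Real.log (Real.exp 2) := by
        apply Real.log_le_log (by norm_num)
        have := Real.exp_one_gt_d9
        have e3 : Real.exp 2 = Real.exp 1 * Real.exp 1 := by rw [← Real.exp_add]; norm_num
        rw [e3]
        nlinarith
      rwa [Real.log_exp] at h5
    rw [hl]
    linarith
  obtain ⟨M, hM⟩ : ∃ M : ℕ, M = Nat.log 2 X + 1 := ⟨_, rfl⟩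
  have hMl : (M : ℝ) ≤ 2 * l := by
    have e1 : (2 : ℝ) ^ (Nat.log 2 X) ≤ X := by
      exact_mod_cast Nat.pow_log_le_self 2 (by omega : X ≠ 0)
    have e2 : (Nat.log 2 X : ℝ) * Real.log 2 ≤ Real.log X := by
      rw [← Real.log_pow]
      exact Real.log_le_log (by positivity) e1
    have e3 : (1 / 2 : ℝ) ≤ Real.log 2 := by have := Real.log_two_gt_d9; linarith
    have e4 : (Nat.log 2 X : ℝ) * (1 / 2) ≤ Real.log X :=
      (mul_le_mul_of_nonneg_left e3 (Nat.cast_nonneg _)).trans e2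
    rw [hM, hl]
    push_cast
    linarith
  -- the terms
  obtain ⟨g, hg⟩ : ∃ g : ℝ → ℕ × ℕ → ℂ, g = fun u p => ((cr X p u : ℝ) : ℂ) * ee u p := ⟨_, rfl⟩
  have hgc : ∀ p ∈ FR X, ContinuousOn (fun u => g u p) (Icc Y (2 * Y)) := by
    intro p hp
    rw [hg]
    refine ContinuousOn.mul ?_ (ee_cont p).continuousOn
    refine continuous_ofReal.comp_continuousOn ?_
    intro x hx
    exact (hcr X p hp x (by linarith [hx.1])).1.continuousAt.continuousWithinAt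
  have hSc : ∀ i, ContinuousOn (fun u => ‖∑ p ∈ Bl X i, g u p‖ ^ 2) (Icc Y (2 * Y)) := by
    intro i
    refine (ContinuousOn.norm ?_).pow 2
    exact continuousOn_finsetSum _ fun p hp => hgc p (Bl_sub hp)
  have hTc : ContinuousOn (fun u => ‖∑ p ∈ FR X, g u p‖ ^ 2) (Icc Y (2 * Y)) := by
    refine (ContinuousOn.norm ?_).pow 2
    exact continuousOn_finsetSum _ fun p hp => hgc p hp
  -- one block
  have hblock : ∀ i ∈ Finset.range M, ∫ u in Y..(2 * Y), ‖∑ p ∈ Bl X i, g u p‖ ^ 2 ≤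
      24 * CL * CC ^ 2 * Y * l ^ 5 := by
    intro i hi
    obtain ⟨K, hK⟩ : ∃ K : ℝ, K = 2 ^ i := ⟨_, rfl⟩
    have hK0 : 0 < K := by rw [hK]; positivity
    have hKX : K ≤ X := by
      have e1 : i ≤ Nat.log 2 X := by
        have := Finset.mem_range.1 hi
        omega
      have e2 : 2 ^ i ≤ X := (Nat.pow_le_pow_right (by norm_num) e1).trans
        (Nat.pow_log_le_self 2 (by omega))
      rw [hK]
      exact_mod_cast e2
    obtain ⟨m, hm⟩ : ∃ m : ℝ, m = min 1 ((2 * Y / K) ^ 2) := ⟨_, rfl⟩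
    have hm0 : 0 ≤ m := by rw [hm]; exact le_min zero_le_one (by positivity)
    obtain ⟨w, hw⟩ : ∃ w : ℝ, w = CC * l * (√K)⁻¹ * m := ⟨_, rfl⟩
    have hw0 : 0 ≤ w := by rw [hw]; positivity
    have hbd : ∀ p ∈ Bl X i, ∀ x ∈ Icc Y (2 * Y),
        CC * (1 + Real.log X) * (√(ht p))⁻¹ * min 1 ((x / ht p) ^ 2) ≤ w := by
      intro p hp x hx
      have e1 : K ≤ ht p := by rw [hK]; exact Bl_low hp
      have e2 : (√(ht p))⁻¹ ≤ (√K)⁻¹ := by
        apply inv_anti₀ (Real.sqrt_pos.2 hK0)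
        exact Real.sqrt_le_sqrt e1
      have e3 : min 1 ((x / ht p) ^ 2) ≤ m := by
        rw [hm]
        refine min_le_min_left _ ?_
        have e4 : 0 ≤ x / ht p := div_nonneg (by linarith [hx.1]) (by linarith)
        have e5 : x / ht p ≤ 2 * Y / K := div_le_div₀ (by positivity) hx.2 hK0 e1
        exact pow_le_pow_left₀ e4 e5 2
      rw [hw, ← hl]
      have e6 : 0 ≤ min 1 ((x / ht p) ^ 2) := le_min zero_le_one (by positivity)
      gcongr
    have hK' : ((2 ^ (i + 1) : ℕ) : ℝ) = 2 * K := by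
      rw [hK, pow_succ']
      push_cast
      ring
    have key := (hL (2 ^ (i + 1)) Y (2 * Y) w (Bl X i) (fun p x => ((cr X p x : ℝ) : ℂ))
      (fun p x => ((deriv (cr X p) x : ℝ) : ℂ)) Nat.one_le_two_pow (by linarith) hY0.le hY2 hw0
      (Bl_FR X i) ?_ ?_ ?_ ?_).1 (fun _ => 1)
    · have e1 : ∀ t : ℝ, (∑ p ∈ Bl X i, (1 : ℂ) * (((cr X p t : ℝ) : ℂ) * ee t p)) =
          ∑ p ∈ Bl X i, g t p := by
        intro t
        rw [hg]
        exact Finset.sum_congr rfl fun p _ => one_mul _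
      simp only [e1] at key
      refine key.trans ?_
      rw [hK']
      have e2 : ∑ _p ∈ Bl X i, ‖(1 : ℂ)‖ ^ 2 = ((Bl X i).card : ℝ) := by simp
      rw [e2]
      have e3 : ((Bl X i).card : ℝ) ≤ 2 * K * l ^ 2 := by
        rw [hK, hl]
        exact Bl_card X i
      have e4 : w ^ 2 = CC ^ 2 * l ^ 2 * K⁻¹ * m ^ 2 := by
        rw [hw, mul_pow, mul_pow, mul_pow, inv_pow, Real.sq_sqrt hK0.le]
      have e5 : 1 + Real.log (2 * K) ≤ 2 * l := by
        rw [Real.log_mul (by norm_num) hK0.ne']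
        have f1 : Real.log K ≤ Real.log X := Real.log_le_log hK0 hKX
        have f2 : Real.log 2 ≤ 1 := by linarith [Real.log_two_lt_d9]
        rw [hl]
        linarith
      have e50 : 0 ≤ 1 + Real.log (2 * K) := by
        have : 0 ≤ Real.log (2 * K) := Real.log_nonneg (by
          have : (1 : ℝ) ≤ K := by rw [hK]; exact one_le_pow₀ (by norm_num)
          linarith)
        linarith
      have e6 := min_bound hY0 hK0
      rw [← hm] at e6
      calc CL * ((2 * Y + 2 * K) * (1 + Real.log (2 * K))) * w ^ 2 * ((Bl X i).card : ℝ)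
          ≤ CL * ((2 * Y + 2 * K) * (2 * l)) * w ^ 2 * (2 * K * l ^ 2) := by gcongr
        _ = 4 * CL * CC ^ 2 * l ^ 5 * ((2 * Y + 2 * K) * m ^ 2) := by
            rw [e4]
            field_simp
            ring
        _ ≤ 4 * CL * CC ^ 2 * l ^ 5 * (6 * Y) :=
            mul_le_mul_of_nonneg_left e6 (by positivity)
        _ = 24 * CL * CC ^ 2 * Y * l ^ 5 := by ring
    · intro p hp x hx
      exact (hcr X p (Bl_sub hp) x (by linarith [hx.1])).1.hasDerivAt.ofReal_comp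
    · intro p hp
      refine continuous_ofReal.comp_continuousOn ?_
      intro x hx
      exact (hcr X p (Bl_sub hp) x (by linarith [hx.1])).2.1.continuousAt.continuousWithinAt
    · intro p hp x hx
      have f1 := of_mem_FR (Bl_sub hp)
      have f2 := (hC X p x hX1' f1.1 f1.2.1 (by linarith [hx.1])).1
      rw [Complex.norm_real, Real.norm_eq_abs]
      exact f2.trans (hbd p hp x hx)
    · intro p hp
      have f1 := of_mem_FR (Bl_sub hp)
      have h5 : ∀ x ∈ Icc Y (2 * Y), ‖((deriv (cr X p) x : ℝ) : ℂ)‖ ≤ w * x⁻¹ := by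
        intro x hx
        have hx0 : 0 < x := by linarith [hx.1]
        have h7 := (hC X p x hX1' f1.1 f1.2.1 hx0).2.trans (hbd p hp x hx)
        rw [abs_mul, abs_of_pos hx0] at h7
        rw [Complex.norm_real, Real.norm_eq_abs, ← div_eq_mul_inv, le_div_iff₀ hx0]
        linarith
      have hcont : ContinuousOn (fun x => ‖((deriv (cr X p) x : ℝ) : ℂ)‖) (Icc Y (2 * Y)) := by
        refine (continuous_ofReal.comp_continuousOn ?_).norm
        intro x hx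
        exact (hcr X p (Bl_sub hp) x (by linarith [hx.1])).2.1.continuousAt.continuousWithinAt
      have hinv : ContinuousOn (fun x : ℝ => x⁻¹) (Icc Y (2 * Y)) :=
        continuousOn_inv₀.mono fun x hx => by
          simp only [mem_compl_iff, mem_singleton_iff]
          linarith [hx.1]
      calc ∫ x in Y..(2 * Y), ‖((deriv (cr X p) x : ℝ) : ℂ)‖ ≤ ∫ x in Y..(2 * Y), w * x⁻¹ := by
            refine intervalIntegral.integral_mono_on hY2 ?_ ?_ h5
            · exact hcont.intervalIntegrable_of_Icc hY2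
            · exact (hinv.const_smul w).intervalIntegrable_of_Icc hY2
        _ = w * Real.log 2 := by
            rw [intervalIntegral.integral_const_mul, integral_inv_of_pos hY0 (by linarith)]
            congr 2
            field_simp
        _ ≤ w := by
            have : Real.log 2 ≤ 1 := by linarith [Real.log_two_lt_d9]
            nlinarith
  -- all blocks
  have hpart : ∀ u : ℝ, ∑ p ∈ FR X, g u p = ∑ i ∈ Finset.range M, ∑ p ∈ Bl X i, g u p := by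
    intro u
    refine (Finset.sum_fiberwise_of_maps_to (fun p hp => ?_) _).symm
    have f1 := of_mem_FR hp
    have f2 : Nat.log 2 (p.1 * p.2) ≤ Nat.log 2 X := Nat.log_mono_right f1.2.2.1
    rw [Finset.mem_range]
    omega
  have htot : ∫ u in Y..(2 * Y), ‖∑ p ∈ FR X, g u p‖ ^ 2 ≤ 96 * CL * CC ^ 2 * Y * l ^ 7 := by
    have hpt : ∀ u ∈ Icc Y (2 * Y), ‖∑ p ∈ FR X, g u p‖ ^ 2 ≤
        (M : ℝ) * ∑ i ∈ Finset.range M, ‖∑ p ∈ Bl X i, g u p‖ ^ 2 := by
      intro u _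
      rw [hpart u]
      have f1 : ‖∑ i ∈ Finset.range M, ∑ p ∈ Bl X i, g u p‖ ≤
          ∑ i ∈ Finset.range M, ‖∑ p ∈ Bl X i, g u p‖ := norm_sum_le _ _
      have f2 := sq_sum_le_card_mul_sum_sq (s := Finset.range M) (f := fun i => ‖∑ p ∈ Bl X i, g u p‖)
      rw [Finset.card_range] at f2
      exact (pow_le_pow_left₀ (norm_nonneg _) f1 2).trans f2
    have hci : ∀ i ∈ Finset.range M,
        IntervalIntegrable (fun u => ‖∑ p ∈ Bl X i, g u p‖ ^ 2) volume Y (2 * Y) :=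
      fun i _ => (hSc i).intervalIntegrable_of_Icc hY2
    have hsumc : ContinuousOn (fun u => ∑ i ∈ Finset.range M, ‖∑ p ∈ Bl X i, g u p‖ ^ 2)
        (Icc Y (2 * Y)) := continuousOn_finsetSum _ fun i _ => hSc i
    calc ∫ u in Y..(2 * Y), ‖∑ p ∈ FR X, g u p‖ ^ 2
        ≤ ∫ u in Y..(2 * Y), (M : ℝ) * ∑ i ∈ Finset.range M, ‖∑ p ∈ Bl X i, g u p‖ ^ 2 := by
          refine intervalIntegral.integral_mono_on hY2 (hTc.intervalIntegrable_of_Icc hY2) ?_ hpt
          exact (hsumc.const_smul (M : ℝ)).intervalIntegrable_of_Icc hY2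
      _ = (M : ℝ) * ∑ i ∈ Finset.range M, ∫ u in Y..(2 * Y), ‖∑ p ∈ Bl X i, g u p‖ ^ 2 := by
          rw [intervalIntegral.integral_const_mul, intervalIntegral.integral_finsetSum hci]
      _ ≤ (M : ℝ) * ∑ _i ∈ Finset.range M, 24 * CL * CC ^ 2 * Y * l ^ 5 := by
          refine mul_le_mul_of_nonneg_left (Finset.sum_le_sum hblock) (Nat.cast_nonneg _)
      _ = (M : ℝ) * ((M : ℝ) * (24 * CL * CC ^ 2 * Y * l ^ 5)) := by
          rw [Finset.sum_const, Finset.card_range, nsmul_eq_mul]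
      _ ≤ (2 * l) * ((2 * l) * (24 * CL * CC ^ 2 * Y * l ^ 5)) := by gcongr
      _ = 96 * CL * CC ^ 2 * Y * l ^ 7 := by ring
  -- the approximation
  have hpt2 : ∀ u ∈ Icc Y (2 * Y), ff u ^ 2 ≤ 2 * ‖∑ p ∈ FR X, g u p‖ ^ 2 + 2 * CA ^ 2 := by
    intro u hu
    have hu1 : 1 ≤ u := hY.trans hu.1
    have h1 : u ^ 2 ≤ X := (pow_le_pow_left₀ (by linarith) hu.2 2).trans hXl
    have h2 := hA u X hu1 h1
    have h3 : u ^ (-(1 / 4) : ℝ) ≤ 1 := Real.rpow_le_one_of_one_le_of_nonpos hu1 (by norm_num)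
    have h6 : ‖(ff u : ℂ) - ∑ p ∈ FR X, g u p‖ ≤ CA := by
      rw [hg]
      refine h2.trans ?_
      calc CA * u ^ (-(1 / 4) : ℝ) ≤ CA * 1 := by gcongr
        _ = CA := mul_one _
    have h4 : ‖(ff u : ℂ)‖ ≤ ‖∑ p ∈ FR X, g u p‖ + CA := by
      calc ‖(ff u : ℂ)‖ = ‖∑ p ∈ FR X, g u p + ((ff u : ℂ) - ∑ p ∈ FR X, g u p)‖ := by
            congr 1; ring
        _ ≤ ‖∑ p ∈ FR X, g u p‖ + ‖(ff u : ℂ) - ∑ p ∈ FR X, g u p‖ := norm_add_le _ _
        _ ≤ ‖∑ p ∈ FR X, g u p‖ + CA := by linarith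
    have h5 : 0 ≤ ff u := by unfold Pool.Agent.Y969.GP.ff; positivity
    rw [Complex.norm_real, Real.norm_of_nonneg h5] at h4
    nlinarith [norm_nonneg (∑ p ∈ FR X, g u p), sq_nonneg (‖∑ p ∈ FR X, g u p‖ - CA)]
  have hfin : ∫ u in Y..(2 * Y), ff u ^ 2 ≤
      2 * (∫ u in Y..(2 * Y), ‖∑ p ∈ FR X, g u p‖ ^ 2) + 2 * CA ^ 2 * Y := by
    calc ∫ u in Y..(2 * Y), ff u ^ 2
        ≤ ∫ u in Y..(2 * Y), (2 * ‖∑ p ∈ FR X, g u p‖ ^ 2 + 2 * CA ^ 2) := by
          refine intervalIntegral.integral_mono_on hY2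
            ((ff_cont.pow 2).intervalIntegrable _ _) ?_ hpt2
          exact ((hTc.const_smul (2 : ℝ)).add continuousOn_const).intervalIntegrable_of_Icc hY2
      _ = 2 * (∫ u in Y..(2 * Y), ‖∑ p ∈ FR X, g u p‖ ^ 2) + 2 * CA ^ 2 * Y := by
          rw [intervalIntegral.integral_add, intervalIntegral.integral_const_mul,
            intervalIntegral.integral_const, smul_eq_mul]
          · ring
          · exact (hTc.const_smul (2 : ℝ)).intervalIntegrable_of_Icc hY2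
          · simp
  have hlp : l ^ 7 ≤ 3 ^ 7 * (1 + Real.log Y) ^ 7 := by
    rw [← mul_pow]
    exact pow_le_pow_left₀ (by linarith) hlY3 7
  have h1p : 1 ≤ (1 + Real.log Y) ^ 7 := one_le_pow₀ (by linarith)
  calc ∫ u in Y..(2 * Y), ff u ^ 2
      ≤ 2 * (96 * CL * CC ^ 2 * Y * l ^ 7) + 2 * CA ^ 2 * Y := by linarith
    _ ≤ 2 * (96 * CL * CC ^ 2 * Y * (3 ^ 7 * (1 + Real.log Y) ^ 7)) +
        2 * CA ^ 2 * Y * (1 + Real.log Y) ^ 7 := by
        have e1 : 2 * CA ^ 2 * Y * 1 ≤ 2 * CA ^ 2 * Y * (1 + Real.log Y) ^ 7 :=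
          mul_le_mul_of_nonneg_left h1p (by positivity)
        have e2 : 96 * CL * CC ^ 2 * Y * l ^ 7 ≤ 96 * CL * CC ^ 2 * Y * (3 ^ 7 * (1 + Real.log Y) ^ 7) :=
          mul_le_mul_of_nonneg_left hlp (by positivity)
        linarith
    _ = (2 * (96 * CL * CC ^ 2 * 3 ^ 7) + 2 * CA ^ 2) * Y * (1 + Real.log Y) ^ 7 := by ring

end M4laux

open Complex Filter Topology MeasureTheory Set
open Pool.Agent.Y969.GP (ff V ht lam PS FR co cr PX)

theorem t_M4L (h1 : S_AFX) (h2 : S_CRD) (h3 : S_LT) : S_M4L := by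
  obtain ⟨C, hC, hb⟩ := M4laux.block h1 h2 h3
  have hi : ∀ a b : ℝ, IntervalIntegrable (fun u => ff u ^ 2) volume a b :=
    fun a b => (M4laux.ff_cont.pow 2).intervalIntegrable a b
  obtain ⟨K0, hK0⟩ : ∃ K0 : ℝ, K0 = ∫ u in (0 : ℝ)..1, ff u ^ 2 := ⟨_, rfl⟩
  have hK00 : 0 ≤ K0 := by
    rw [hK0]
    exact intervalIntegral.integral_nonneg (by norm_num) fun u _ => by positivity
  have hdy : ∀ n : ℕ, ∫ u in (1 : ℝ)..2 ^ n, ff u ^ 2 ≤ C * 2 ^ n * (1 + Real.log (2 ^ n)) ^ 7 := by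
    intro n
    induction n with
    | zero =>
      simp only [pow_zero, intervalIntegral.integral_same]
      positivity
    | succ n ih =>
      have e1 : (1 : ℝ) ≤ 2 ^ n := one_le_pow₀ (by norm_num)
      have e2 := hb (2 ^ n) e1
      have e3 : (2 : ℝ) * 2 ^ n = 2 ^ (n + 1) := by rw [pow_succ']
      rw [e3] at e2
      rw [← intervalIntegral.integral_add_adjacent_intervals (hi 1 (2 ^ n)) (hi (2 ^ n) (2 ^ (n + 1)))]
      have e4 : 0 ≤ Real.log ((2 : ℝ) ^ n) := Real.log_nonneg e1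
      have e5 : Real.log ((2 : ℝ) ^ n) ≤ Real.log (2 ^ (n + 1)) :=
        Real.log_le_log (by positivity) (by rw [← e3]; linarith)
      have e6 : (1 + Real.log ((2 : ℝ) ^ n)) ^ 7 ≤ (1 + Real.log (2 ^ (n + 1))) ^ 7 :=
        pow_le_pow_left₀ (by linarith) (by linarith) 7
      calc (∫ u in (1 : ℝ)..2 ^ n, ff u ^ 2) + ∫ u in (2 : ℝ) ^ n..2 ^ (n + 1), ff u ^ 2
          ≤ C * 2 ^ n * (1 + Real.log (2 ^ n)) ^ 7 + C * 2 ^ n * (1 + Real.log (2 ^ n)) ^ 7 :=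
            add_le_add ih e2
        _ ≤ C * 2 ^ n * (1 + Real.log (2 ^ (n + 1))) ^ 7 + C * 2 ^ n * (1 + Real.log (2 ^ (n + 1))) ^ 7 := by
            gcongr
        _ = C * 2 ^ (n + 1) * (1 + Real.log (2 ^ (n + 1))) ^ 7 := by rw [pow_succ' (2 : ℝ) n]; ring
  refine ⟨K0 + C * 2 * 3 ^ 7, 7, by positivity, fun T hT => ?_⟩
  have hT0 : 0 < T := by linarith
  have hlT : 1 ≤ Real.log T := by
    rw [Real.le_log_iff_exp_le hT0]
    have := Real.exp_one_lt_d9
    linarith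
  -- the power of two above `T`
  obtain ⟨n, hn1, hn2⟩ : ∃ n : ℕ, T ≤ 2 ^ n ∧ (2 : ℝ) ^ n ≤ 2 * T := by
    obtain ⟨n, hn1, hn2⟩ := exists_nat_pow_near (by linarith : 1 ≤ T) (by norm_num : (1 : ℝ) < 2)
    refine ⟨n + 1, hn2.le, ?_⟩
    rw [pow_succ']
    linarith
  have hlog : 1 + Real.log (2 ^ n) ≤ 3 * Real.log T := by
    have e1 : Real.log ((2 : ℝ) ^ n) ≤ Real.log (2 * T) := Real.log_le_log (by positivity) hn2
    rw [Real.log_mul (by norm_num) hT0.ne'] at e1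
    have e2 : Real.log 2 ≤ 1 := by linarith [Real.log_two_lt_d9]
    linarith
  have hlog0 : 0 ≤ 1 + Real.log ((2 : ℝ) ^ n) := by
    have := Real.log_nonneg (by linarith : (1 : ℝ) ≤ 2 ^ n)
    linarith
  have hmono : ∫ u in (0 : ℝ)..T, ff u ^ 2 ≤ ∫ u in (0 : ℝ)..2 ^ n, ff u ^ 2 := by
    rw [← intervalIntegral.integral_add_adjacent_intervals (hi 0 T) (hi T (2 ^ n))]
    have : 0 ≤ ∫ u in T..2 ^ n, ff u ^ 2 :=
      intervalIntegral.integral_nonneg hn1 fun u _ => by positivity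
    linarith
  have hsplit : ∫ u in (0 : ℝ)..2 ^ n, ff u ^ 2 = K0 + ∫ u in (1 : ℝ)..2 ^ n, ff u ^ 2 := by
    rw [hK0, intervalIntegral.integral_add_adjacent_intervals (hi 0 1) (hi 1 _)]
  have hlp : 1 ≤ Real.log T ^ 7 := one_le_pow₀ hlT
  calc ∫ u in (0 : ℝ)..T, ff u ^ 2 ≤ K0 + ∫ u in (1 : ℝ)..2 ^ n, ff u ^ 2 := by linarith
    _ ≤ K0 + C * 2 ^ n * (1 + Real.log (2 ^ n)) ^ 7 := by linarith [hdy n]
    _ ≤ K0 + C * (2 * T) * (3 * Real.log T) ^ 7 := by gcongr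
    _ = K0 * 1 + C * 2 * 3 ^ 7 * (T * Real.log T ^ 7) := by ring
    _ ≤ K0 * (T * Real.log T ^ 7) + C * 2 * 3 ^ 7 * (T * Real.log T ^ 7) := by
        have : 1 ≤ T * Real.log T ^ 7 := by nlinarith
        have := mul_le_mul_of_nonneg_left this hK00
        linarith
    _ = (K0 + C * 2 * 3 ^ 7) * T * Real.log T ^ 7 := by ring

end Pool.Agent.N879.PZ
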