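import Pool.Agent.N879.PZ.Stm
import Pool.Agent.Y620.SX.CRA
import Pool.Agent.Y587.GP.V
import Pool.Agent.Y379.GP.Sp
import Pool.Agent.Y545.GP.CR
import Pool.Agent.Y969.SM.Bas

set_option autoImplicit false

/-!
Project PZ, task TW (helper34): the twisted second moment, leading term.
-/

namespace Pool.Agent.N879.PZ

open Complex Filter Topology MeasureTheory Set
open Pool.Agent.Y969.GP (ff V V1 ht lam PS FR co cr PX mB)

noncomputable section

namespace Twaux

lemma one_le_ht {q : ℕ × ℕ} (h1 : 1 ≤ q.1) (h2 : 1 ≤ q.2) : 1 ≤ ht q := by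
  unfold ht
  have h3 : (1 : ℝ) ≤ q.1 := by exact_mod_cast h1
  have h4 : (1 : ℝ) ≤ q.2 := by exact_mod_cast h2
  nlinarith

lemma wt1 {T r : ℝ} (hT : 0 ≤ T) (hr : 0 < r) : (√r)⁻¹ * min 1 ((T / r) ^ 2) * r ≤ √T := by
  have hs : 0 < √r := Real.sqrt_pos.2 hr
  have h0 : (√r)⁻¹ * r = √r := by
    rw [inv_mul_eq_div, Real.div_sqrt]
  have h1 : (√r)⁻¹ * min 1 ((T / r) ^ 2) * r = √r * min 1 ((T / r) ^ 2) := by
    rw [mul_right_comm, h0]
  rw [h1]
  by_cases h : r ≤ T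
  · calc √r * min 1 ((T / r) ^ 2) ≤ √r * 1 := by gcongr; exact min_le_left _ _
      _ = √r := mul_one _
      _ ≤ √T := Real.sqrt_le_sqrt h
  · push Not at h
    have h2 : T / r ≤ 1 := by rw [div_le_one hr]; exact h.le
    have h3 : 0 ≤ T / r := by positivity
    have h4 : (T / r) ^ 2 ≤ √(T / r) := by
      apply Real.le_sqrt_of_sq_le
      have h5 : (T / r) ^ 2 ≤ T / r := by nlinarith
      nlinarith [pow_nonneg h3 2]
    calc √r * min 1 ((T / r) ^ 2) ≤ √r * (T / r) ^ 2 := by gcongr; exact min_le_right _ _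
      _ ≤ √r * √(T / r) := by gcongr
      _ = √(r * (T / r)) := (Real.sqrt_mul hr.le _).symm
      _ = √T := by congr 1; field_simp

lemma mk_ge {K x : ℝ} (hK : 0 < K) (h : 1 / K ≤ |x|) : |x|⁻¹ ≤ 2 * Pool.Agent.Y969.GP.mk K x := by
  have hx : 0 < |x| := lt_of_lt_of_le (by positivity) h
  have h1 : 1 ≤ K * |x| := by
    rw [div_le_iff₀ hK] at h
    linarith [mul_comm K |x|]
  unfold Pool.Agent.Y969.GP.mk
  rw [inv_eq_one_div, mul_div_assoc', div_le_div_iff₀ hx (by positivity)]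
  nlinarith

/-- the row sums with the weights -/
lemma row (C : ℝ) (hC : 0 < C) (h : ∀ (X : ℕ) (T θ : ℝ), 1 ≤ X → 1 ≤ T →
      ∑ p ∈ FR X, Pool.Agent.Y969.GP.mk T (lam p - θ) ≤ C * ((T + X) * (1 + Real.log X)))
    (T : ℝ) (hT : 1 ≤ T) (X : ℕ) (hX : 1 ≤ X) (q : ℕ × ℕ) (h1 : 1 ≤ q.1) (h2 : 1 ≤ q.2)
    (hc : Nat.Coprime q.1 q.2) :
    ∑ p ∈ (FR X).erase q, (√(ht p))⁻¹ * min 1 ((T / ht p) ^ 2) * |lam p - lam q|⁻¹ ≤
      12 * C * ht q * √T * (2 + Real.log X + Real.log (ht q)) * (Nat.log 2 X + 1) := by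
  classical
  set H : ℕ := q.1 * q.2 with hH
  have hH1 : 1 ≤ H := Nat.mul_pos h1 h2
  have hHr : (1 : ℝ) ≤ H := by exact_mod_cast hH1
  have hHt : ht q = H := by unfold ht; rw [hH]; push_cast; ring
  set KK : ℕ → ℕ := fun k => 2 ^ (k + 1) * H with hKK
  have hKK1 : ∀ k, 1 ≤ KK k := fun k => Nat.mul_pos (by positivity) hH1
  have hKKr : ∀ k, (KK k : ℝ) = 2 * 2 ^ k * H := fun k => by
    simp only [hKK]; push_cast; ring
  set F : ℕ → ℕ × ℕ → ℝ := fun k p => (√(2 ^ k))⁻¹ * min 1 ((T / 2 ^ k) ^ 2) *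
    (2 * Pool.Agent.Y969.GP.mk (2 * KK k) (lam p - lam q)) with hF
  have hmk : ∀ k x, 0 ≤ Pool.Agent.Y969.GP.mk (2 * KK k) x := fun k x => by
    unfold Pool.Agent.Y969.GP.mk; positivity
  have hF0 : ∀ k p, 0 ≤ F k p := fun k p => by
    have := hmk k (lam p - lam q)
    simp only [hF]; positivity
  have step1 : ∀ p ∈ (FR X).erase q, (√(ht p))⁻¹ * min 1 ((T / ht p) ^ 2) * |lam p - lam q|⁻¹ ≤
      ∑ k ∈ Finset.range (Nat.log 2 X + 1), if p ∈ FR (KK k) then F k p else 0 := by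
    intro p hp
    rw [Finset.mem_erase] at hp
    obtain ⟨hne, hpX⟩ := hp
    obtain ⟨ha, hb, hab, hcop⟩ := Pool.Agent.Y545.GP.mem_FR.1 hpX
    have hN1 : 1 ≤ p.1 * p.2 := Nat.mul_pos ha hb
    set k := Nat.log 2 (p.1 * p.2) with hk
    have hk1 : 2 ^ k ≤ p.1 * p.2 := Nat.pow_log_le_self 2 (by omega)
    have hk2 : p.1 * p.2 < 2 ^ (k + 1) := Nat.lt_pow_succ_log_self (by norm_num) _
    have hkX : k ≤ Nat.log 2 X := Nat.log_mono_right hab
    have hpK : p ∈ FR (KK k) := by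
      rw [Pool.Agent.Y545.GP.mem_FR]
      refine ⟨ha, hb, ?_, hcop⟩
      calc p.1 * p.2 ≤ 2 ^ (k + 1) * 1 := by omega
        _ ≤ 2 ^ (k + 1) * H := Nat.mul_le_mul_left _ hH1
    have hqK : q ∈ FR (KK k) := by
      rw [Pool.Agent.Y545.GP.mem_FR]
      refine ⟨h1, h2, ?_, hc⟩
      calc q.1 * q.2 = 1 * H := by rw [one_mul]
        _ ≤ 2 ^ (k + 1) * H := Nat.mul_le_mul_right _ (Nat.one_le_two_pow)
    have hsp := Pool.Agent.Y379.GP.t_SP.1 (KK k) p q hpK hqK hne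
    have hKpos : (0 : ℝ) < 2 * KK k := by
      have : (1 : ℝ) ≤ KK k := by exact_mod_cast hKK1 k
      linarith
    have h3 := mk_ge hKpos hsp
    have hhp : (2 : ℝ) ^ k ≤ ht p := by
      unfold ht
      exact_mod_cast hk1
    have h2k : (0 : ℝ) < 2 ^ k := by positivity
    have hht : 0 < ht p := lt_of_lt_of_le h2k hhp
    have hT0 : 0 ≤ T := by linarith
    have h4 : (√(ht p))⁻¹ * min 1 ((T / ht p) ^ 2) * |lam p - lam q|⁻¹ ≤ F k p := by
      simp only [hF]
      apply mul_le_mul _ h3 (by positivity) (by positivity)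
      apply mul_le_mul _ _ (by positivity) (by positivity)
      · exact inv_anti₀ (Real.sqrt_pos.2 h2k) (Real.sqrt_le_sqrt hhp)
      · apply min_le_min le_rfl
        gcongr
    refine h4.trans ?_
    have h5 := Finset.single_le_sum (f := fun k => if p ∈ FR (KK k) then F k p else 0)
      (s := Finset.range (Nat.log 2 X + 1)) (fun i _ => by
        split_ifs
        · exact hF0 i p
        · exact le_rfl) (Finset.mem_range.2 (Nat.lt_succ_of_le hkX))
    simpa [hpK] using h5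
  have step2 : ∀ k, ∑ p ∈ (FR X).erase q, (if p ∈ FR (KK k) then F k p else 0) ≤
      ∑ p ∈ FR (KK k), F k p := by
    intro k
    rw [← Finset.sum_filter]
    apply Finset.sum_le_sum_of_subset_of_nonneg
    · intro p hp
      exact (Finset.mem_filter.1 hp).2
    · intro p _ _
      exact hF0 k p
  have step3 : ∀ k ∈ Finset.range (Nat.log 2 X + 1), ∑ p ∈ FR (KK k), F k p ≤
      12 * C * ht q * √T * (2 + Real.log X + Real.log (ht q)) := by
    intro k hk
    have hkX : 2 ^ k ≤ X := by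
      have : k ≤ Nat.log 2 X := by
        have := Finset.mem_range.1 hk
        omega
      exact (Nat.pow_le_pow_right (by norm_num) this).trans (Nat.pow_log_le_self 2 (by omega))
    have h2k : (0 : ℝ) < 2 ^ k := by positivity
    have hkXr : (2 : ℝ) ^ k ≤ X := by exact_mod_cast hkX
    have hK1 : (1 : ℝ) ≤ KK k := by exact_mod_cast hKK1 k
    have e1 : ∑ p ∈ FR (KK k), F k p = (√(2 ^ k))⁻¹ * min 1 ((T / 2 ^ k) ^ 2) *
        (2 * ∑ p ∈ FR (KK k), Pool.Agent.Y969.GP.mk (2 * KK k) (lam p - lam q)) := by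
      simp only [hF]
      rw [← Finset.mul_sum, ← Finset.mul_sum]
    have e2 := h (KK k) (2 * KK k) (lam q) (hKK1 k) (by linarith)
    have e3 : Real.log (KK k) ≤ 1 + Real.log X + Real.log (ht q) := by
      rw [hKKr, Real.log_mul (by positivity) (by positivity), Real.log_mul (by norm_num) (by positivity), hHt]
      have := Real.log_le_log h2k hkXr
      have h6 : Real.log 2 ≤ 1 := by
        have := Real.log_two_lt_d9
        linarith
      linarith
    have e4 := wt1 (T := T) (by linarith) h2k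
    have e5 : 0 ≤ (√(2 ^ k))⁻¹ * min 1 ((T / 2 ^ k) ^ 2) := by positivity
    have e6 : 0 ≤ Real.log (KK k) := Real.log_nonneg hK1
    calc ∑ p ∈ FR (KK k), F k p ≤ (√(2 ^ k))⁻¹ * min 1 ((T / 2 ^ k) ^ 2) *
        (2 * (C * ((2 * KK k + KK k) * (1 + Real.log (KK k))))) := by
          rw [e1]
          gcongr
      _ = 12 * C * H * ((√(2 ^ k))⁻¹ * min 1 ((T / 2 ^ k) ^ 2) * 2 ^ k) * (1 + Real.log (KK k)) := by
          rw [hKKr]; ring
      _ ≤ 12 * C * H * √T * (1 + Real.log (KK k)) := by gcongr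
      _ ≤ 12 * C * H * √T * (2 + Real.log X + Real.log (ht q)) := by
          apply mul_le_mul_of_nonneg_left _ (by positivity)
          linarith
      _ = _ := by rw [hHt]
  calc ∑ p ∈ (FR X).erase q, (√(ht p))⁻¹ * min 1 ((T / ht p) ^ 2) * |lam p - lam q|⁻¹
      ≤ ∑ p ∈ (FR X).erase q, ∑ k ∈ Finset.range (Nat.log 2 X + 1), (if p ∈ FR (KK k) then F k p else 0) :=
        Finset.sum_le_sum step1
    _ = ∑ k ∈ Finset.range (Nat.log 2 X + 1), ∑ p ∈ (FR X).erase q, (if p ∈ FR (KK k) then F k p else 0) :=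
        Finset.sum_comm
    _ ≤ ∑ k ∈ Finset.range (Nat.log 2 X + 1), 12 * C * ht q * √T * (2 + Real.log X + Real.log (ht q)) :=
        Finset.sum_le_sum fun k hk => (step2 k).trans (step3 k hk)
    _ = _ := by
        rw [Finset.sum_const, Finset.card_range, nsmul_eq_mul]
        push_cast
        ring

/-- integration by parts -/
lemma ibp (f f' : ℝ → ℝ) (a T B x : ℝ) (ha : 0 < a) (haT : a ≤ T) (hx : x ≠ 0)
    (hf : ∀ t ∈ Icc a T, HasDerivAt f (f' t) t) (hf' : ContinuousOn f' (Icc a T))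
    (hb : ∀ t ∈ Icc a T, |f t| ≤ B) (hb' : ∀ t ∈ Icc a T, |t * f' t| ≤ B) :
    ‖∫ t in a..T, (f t : ℂ) * cexp (I * ((t * x : ℝ) : ℂ))‖ ≤ B * (2 + Real.log (T / a)) * |x|⁻¹ := by
  have hxc : (I * (x : ℂ)) ≠ 0 := mul_ne_zero I_ne_zero (by exact_mod_cast hx)
  have hu : uIcc a T = Icc a T := uIcc_of_le haT
  have he : ∀ t : ℝ, HasDerivAt (fun t : ℝ => cexp (I * ((t * x : ℝ) : ℂ)))
      (cexp (I * ((t * x : ℝ) : ℂ)) * (I * x)) t := by
    intro t
    have h1 : HasDerivAt (fun t : ℝ => I * ((t * x : ℝ) : ℂ)) (I * x) t := by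
      have h2 : HasDerivAt (fun t : ℝ => ((t : ℝ) : ℂ)) 1 t := Complex.ofRealCLM.hasDerivAt
      have h3 := (h2.mul_const (x : ℂ)).const_mul I
      simpa using h3
    exact h1.cexp
  have hen : ∀ t : ℝ, ‖cexp (I * ((t * x : ℝ) : ℂ))‖ = 1 := fun t => by
    rw [mul_comm]; exact Complex.norm_exp_ofReal_mul_I _
  have hec : Continuous fun t : ℝ => cexp (I * ((t * x : ℝ) : ℂ)) := by fun_prop
  have hfc : ContinuousOn f (Icc a T) := fun t ht' => (hf t ht').continuousAt.continuousWithinAt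
  have hG : ∀ t ∈ uIcc a T, HasDerivAt (fun t => (f t : ℂ) * (cexp (I * ((t * x : ℝ) : ℂ)) * (I * x)⁻¹))
      ((f' t : ℂ) * (cexp (I * ((t * x : ℝ) : ℂ)) * (I * x)⁻¹) +
        (f t : ℂ) * cexp (I * ((t * x : ℝ) : ℂ))) t := by
    intro t ht'
    rw [hu] at ht'
    have h1 := ((hf t ht').ofReal_comp).mul ((he t).mul_const ((I * x : ℂ)⁻¹))
    rw [mul_assoc (cexp (I * ((t * x : ℝ) : ℂ))), mul_inv_cancel₀ hxc, mul_one] at h1
    exact h1
  have i1 : IntervalIntegrable (fun t => (f' t : ℂ) * (cexp (I * ((t * x : ℝ) : ℂ)) * (I * x)⁻¹)) volume a T := by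
    apply ContinuousOn.intervalIntegrable
    rw [hu]
    exact (Complex.continuous_ofReal.comp_continuousOn hf').mul (by fun_prop)
  have i2 : IntervalIntegrable (fun t => (f t : ℂ) * cexp (I * ((t * x : ℝ) : ℂ))) volume a T := by
    apply ContinuousOn.intervalIntegrable
    rw [hu]
    exact (Complex.continuous_ofReal.comp_continuousOn hfc).mul (by fun_prop)
  have hFT := intervalIntegral.integral_eq_sub_of_hasDerivAt hG (i1.add i2)
  rw [intervalIntegral.integral_add i1 i2] at hFT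
  have e1 : ∫ t in a..T, (f t : ℂ) * cexp (I * ((t * x : ℝ) : ℂ)) =
      (f T : ℂ) * (cexp (I * ((T * x : ℝ) : ℂ)) * (I * x)⁻¹) -
      (f a : ℂ) * (cexp (I * ((a * x : ℝ) : ℂ)) * (I * x)⁻¹) -
      ∫ t in a..T, (f' t : ℂ) * (cexp (I * ((t * x : ℝ) : ℂ)) * (I * x)⁻¹) := by
    rw [← hFT]; ring
  have hnx : ‖(I * (x : ℂ))⁻¹‖ = |x|⁻¹ := by
    rw [norm_inv, norm_mul, Complex.norm_I, one_mul, Complex.norm_real, Real.norm_eq_abs]
  have hbd : ∀ t ∈ Icc a T, ‖(f t : ℂ) * (cexp (I * ((t * x : ℝ) : ℂ)) * (I * x)⁻¹)‖ ≤ B * |x|⁻¹ := by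
    intro t ht'
    rw [norm_mul, norm_mul, hen, one_mul, hnx, Complex.norm_real, Real.norm_eq_abs]
    exact mul_le_mul_of_nonneg_right (hb t ht') (by positivity)
  have h3 : ‖∫ t in a..T, (f' t : ℂ) * (cexp (I * ((t * x : ℝ) : ℂ)) * (I * x)⁻¹)‖ ≤
      B * |x|⁻¹ * Real.log (T / a) := by
    have h4 : ‖∫ t in a..T, (f' t : ℂ) * (cexp (I * ((t * x : ℝ) : ℂ)) * (I * x)⁻¹)‖ ≤
        ∫ t in a..T, B * |x|⁻¹ * t⁻¹ := by
      apply intervalIntegral.norm_integral_le_of_norm_le haT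
      · filter_upwards with t ht'
        have ht2 : t ∈ Icc a T := ⟨ht'.1.le, ht'.2⟩
        have htp : 0 < t := lt_trans ha ht'.1
        have h5 := hb' t ht2
        rw [abs_mul, abs_of_pos htp] at h5
        rw [norm_mul, norm_mul, hen, one_mul, hnx, Complex.norm_real, Real.norm_eq_abs]
        have h6 : |f' t| ≤ B * t⁻¹ := by
          rw [← div_eq_mul_inv, le_div_iff₀ htp]
          linarith [mul_comm t |f' t|]
        calc |f' t| * |x|⁻¹ ≤ B * t⁻¹ * |x|⁻¹ := by gcongr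
          _ = _ := by ring
      · apply ContinuousOn.intervalIntegrable
        rw [hu]
        intro t ht'
        have : t ≠ 0 := (lt_of_lt_of_le ha ht'.1).ne'
        exact (continuousAt_const.mul (continuousAt_inv₀ this)).continuousWithinAt
    rw [intervalIntegral.integral_const_mul, integral_inv_of_pos ha (lt_of_lt_of_le ha haT)] at h4
    exact h4
  rw [e1]
  calc _ ≤ ‖(f T : ℂ) * (cexp (I * ((T * x : ℝ) : ℂ)) * (I * x)⁻¹)‖ +
      ‖(f a : ℂ) * (cexp (I * ((a * x : ℝ) : ℂ)) * (I * x)⁻¹)‖ +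
      ‖∫ t in a..T, (f' t : ℂ) * (cexp (I * ((t * x : ℝ) : ℂ)) * (I * x)⁻¹)‖ :=
        (norm_sub_le _ _).trans (by gcongr; exact norm_sub_le _ _)
    _ ≤ B * |x|⁻¹ + B * |x|⁻¹ + B * |x|⁻¹ * Real.log (T / a) := by
        gcongr
        · exact hbd T ⟨haT, le_rfl⟩
        · exact hbd a ⟨le_rfl, haT⟩
    _ = _ := by ring

lemma main_int (a T h : ℝ) (ha : 1 ≤ a) (haT : a ≤ T) (hh : 1 ≤ h) :
    |(∫ t in a..T, (Real.log (t / (2 * Real.pi * h)) + 2 * Real.eulerMascheroniConstant)) - T * Real.log T| ≤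
      10 * T * (1 + Real.log h + a / T * Real.log T) := by
  have ha0 : 0 < a := by linarith
  have hT0 : 0 < T := by linarith
  have hpi := Real.pi_pos
  have e0 : ∀ t ∈ uIcc a T, Real.log (t / (2 * Real.pi * h)) + 2 * Real.eulerMascheroniConstant =
      Real.log t + (2 * Real.eulerMascheroniConstant - Real.log (2 * Real.pi * h)) := by
    intro t ht'
    rw [uIcc_of_le haT] at ht'
    have : 0 < t := lt_of_lt_of_le ha0 ht'.1
    rw [Real.log_div this.ne' (by positivity)]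
    ring
  have e1 : (∫ t in a..T, (Real.log (t / (2 * Real.pi * h)) + 2 * Real.eulerMascheroniConstant)) =
      (T * Real.log T - a * Real.log a - T + a) +
        (T - a) * (2 * Real.eulerMascheroniConstant - Real.log (2 * Real.pi * h)) := by
    rw [intervalIntegral.integral_congr e0, intervalIntegral.integral_add, integral_log,
      intervalIntegral.integral_const, smul_eq_mul]
    · exact intervalIntegral.intervalIntegrable_log (by
        rw [uIcc_of_le haT]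
        intro h
        exact absurd h.1 (not_le.2 ha0))
    · exact intervalIntegrable_const
  have g1 := Real.one_half_lt_eulerMascheroniConstant
  have g2 := Real.eulerMascheroniConstant_lt_two_thirds
  have g3 : Real.log (2 * Real.pi * h) = Real.log (2 * Real.pi) + Real.log h :=
    Real.log_mul (by positivity) (by positivity)
  have g4 : Real.log (2 * Real.pi) ≤ 6 := by
    have := Real.log_le_sub_one_of_pos (x := 2 * Real.pi) (by positivity)
    have := Real.pi_lt_d2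
    linarith
  have g5 : 0 ≤ Real.log (2 * Real.pi) := Real.log_nonneg (by have := Real.pi_gt_three; linarith)
  have g6 : 0 ≤ Real.log h := Real.log_nonneg hh
  have g7 : Real.log a ≤ Real.log T := Real.log_le_log ha0 haT
  have g8 : 0 ≤ Real.log a := Real.log_nonneg ha
  have g9 : T * (a / T * Real.log T) = a * Real.log T := by field_simp
  have g10 : 0 ≤ a * Real.log a := by positivity
  have g11 : a * Real.log a ≤ a * Real.log T := by gcongr
  have g12 : |2 * Real.eulerMascheroniConstant - Real.log (2 * Real.pi * h)| ≤ 6 + Real.log h := by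
    rw [g3, abs_le]
    constructor <;> linarith
  have g13 : |(T - a) * (2 * Real.eulerMascheroniConstant - Real.log (2 * Real.pi * h))| ≤ T * (6 + Real.log h) := by
    rw [abs_mul, abs_of_nonneg (by linarith : 0 ≤ T - a)]
    exact mul_le_mul (by linarith) g12 (abs_nonneg _) hT0.le
  rw [e1]
  have g14 := abs_le.1 g13
  have g15 : 0 ≤ T * Real.log h := by positivity
  have g16 : 10 * T * (1 + Real.log h + a / T * Real.log T) = 10 * T + 10 * (T * Real.log h) + 10 * (a * Real.log T) := by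
    rw [← g9]; ring
  rw [g16, abs_le]
  constructor <;> nlinarith

lemma ee_norm (t : ℝ) (p : ℕ × ℕ) : ‖ee t p‖ = 1 := by
  unfold ee
  rw [mul_comm]; exact Complex.norm_exp_ofReal_mul_I _

lemma ee_mul (t : ℝ) (p' p q : ℕ × ℕ) (h : lam q = -lam p) :
    ee t p' * ee t p = cexp (I * ((t * (lam p' - lam q) : ℝ) : ℂ)) := by
  unfold ee
  rw [← Complex.exp_add, h]
  congr 1
  push_cast
  ring

lemma ee_cont (p : ℕ × ℕ) : Continuous fun t : ℝ => ee t p := by
  unfold ee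
  fun_prop

/-- the numerical bounds -/
lemma num {T H : ℝ} {X : ℕ} (hT : 3 ≤ T) (hH1 : 1 ≤ H) (hH : H ≤ T ^ (1 / 16 : ℝ)) (hX1 : 1 ≤ X)
    (hX : (X : ℝ) ≤ 2 * T ^ 2) :
    (1 + Real.log X) * (2 + Real.log T) * (H * √T * (2 + Real.log X + Real.log H) * (Nat.log 2 X + 1)) ≤
      1500000 * T ^ (15 / 16 : ℝ) := by
  have hT0 : 0 < T := by linarith
  set Y := T ^ (1 / 16 : ℝ) with hY
  have hY1 : 1 ≤ Y := Real.one_le_rpow (by linarith) (by norm_num)
  have hL : Real.log T ≤ 16 * Y := by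
    have := Real.log_le_rpow_div hT0.le (by norm_num : (0:ℝ) < 1 / 16)
    rw [← hY] at this
    linarith
  have hL0 : 0 ≤ Real.log T := Real.log_nonneg (by linarith)
  have hX0 : (1 : ℝ) ≤ X := by exact_mod_cast hX1
  have hlX : Real.log X ≤ 33 * Y := by
    have h1 : Real.log X ≤ Real.log (2 * T ^ 2) := Real.log_le_log (by linarith) hX
    rw [Real.log_mul (by norm_num) (by positivity), Real.log_pow] at h1
    have := Real.log_two_lt_d9
    push_cast at h1
    linarith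
  have hlX0 : 0 ≤ Real.log X := Real.log_nonneg hX0
  have hlH : Real.log H ≤ Y := by
    have := Real.log_le_sub_one_of_pos (x := H) (by linarith)
    linarith
  have hlH0 : 0 ≤ Real.log H := Real.log_nonneg hH1
  have hk : (Nat.log 2 X : ℝ) ≤ 66 * Y := by
    have h1 : 2 ^ (Nat.log 2 X) ≤ X := Nat.pow_log_le_self 2 (by omega)
    have h2 : ((2 : ℝ) ^ (Nat.log 2 X)) ≤ X := by exact_mod_cast h1
    have h3 := Real.log_le_log (by positivity) h2
    rw [Real.log_pow] at h3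
    have h4 := Real.log_two_gt_d9
    have h5 : (0 : ℝ) ≤ Nat.log 2 X := Nat.cast_nonneg _
    nlinarith
  have hsq : √T = Y ^ 8 := by
    rw [Real.sqrt_eq_rpow, hY, ← Real.rpow_natCast, ← Real.rpow_mul hT0.le]
    norm_num
  have h15 : T ^ (15 / 16 : ℝ) = Y ^ 15 := by
    rw [hY, ← Real.rpow_natCast, ← Real.rpow_mul hT0.le]
    norm_num
  rw [hsq, h15]
  calc (1 + Real.log X) * (2 + Real.log T) * (H * Y ^ 8 * (2 + Real.log X + Real.log H) * (Nat.log 2 X + 1))
      ≤ (34 * Y) * (18 * Y) * (Y * Y ^ 8 * (36 * Y) * (67 * Y)) := by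
        gcongr <;> linarith
    _ = 1476144 * Y ^ 13 := by ring
    _ ≤ 1500000 * Y ^ 13 := by gcongr; norm_num
    _ ≤ 1500000 * Y ^ 15 := by gcongr; norm_num

/-- one term off the diagonal -/
lemma offt (C : ℝ) (hC : 0 < C) (hD : ∀ (X : ℕ) (p : ℕ × ℕ) (u : ℝ), 1 ≤ X → 1 ≤ p.1 → 1 ≤ p.2 → 0 < u →
      |cr X p u| ≤ C * (1 + Real.log X) * (√(ht p))⁻¹ * min 1 ((u / ht p) ^ 2) ∧
      |u * deriv (cr X p) u| ≤ C * (1 + Real.log X) * (√(ht p))⁻¹ * min 1 ((u / ht p) ^ 2))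
    (X : ℕ) (hX : 1 ≤ X) (a T : ℝ) (ha : 1 ≤ a) (haT : a ≤ T) (p p' q : ℕ × ℕ) (hlam : lam q = -lam p)
    (hp' : p' ∈ FR X) (hne : lam p' ≠ lam q) :
    ‖∫ t in a..T, ((cr X p' t : ℝ) : ℂ) * ee t p' * ee t p‖ ≤
      C * ((1 + Real.log X) * (2 + Real.log T)) *
        ((√(ht p'))⁻¹ * min 1 ((T / ht p') ^ 2) * |lam p' - lam q|⁻¹) := by
  obtain ⟨ha1, hb1, hab, hcop⟩ := Pool.Agent.Y545.GP.mem_FR.1 hp'
  have hht : 1 ≤ ht p' := one_le_ht ha1 hb1
  have ha0 : 0 < a := by linarith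
  have hX0 : (1 : ℝ) ≤ X := by exact_mod_cast hX
  have hlX0 : 0 ≤ Real.log X := Real.log_nonneg hX0
  obtain ⟨C5, hC5, hCR⟩ := (Pool.Agent.Y545.GP.t_CR Pool.Agent.Y587.GP.t_V).2.2
  have hmono : ∀ t ∈ Icc a T, C * (1 + Real.log X) * (√(ht p'))⁻¹ * min 1 ((t / ht p') ^ 2) ≤
      C * (1 + Real.log X) * (√(ht p'))⁻¹ * min 1 ((T / ht p') ^ 2) := by
    intro t ht'
    have : 0 < t := lt_of_lt_of_le ha0 ht'.1
    apply mul_le_mul_of_nonneg_left _ (by positivity)
    apply min_le_min le_rfl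
    have h5 := ht'.2
    gcongr
  have hib := ibp (cr X p') (deriv (cr X p')) a T
    (C * (1 + Real.log X) * (√(ht p'))⁻¹ * min 1 ((T / ht p') ^ 2)) (lam p' - lam q) ha0 haT
    (sub_ne_zero.2 hne)
    (fun t ht' => (hCR X p' hp' t (lt_of_lt_of_le ha0 ht'.1)).1.hasDerivAt)
    (fun t ht' => (hCR X p' hp' t (lt_of_lt_of_le ha0 ht'.1)).2.1.continuousAt.continuousWithinAt)
    (fun t ht' => (hD X p' t hX ha1 hb1 (lt_of_lt_of_le ha0 ht'.1)).1.trans (hmono t ht'))
    (fun t ht' => (hD X p' t hX ha1 hb1 (lt_of_lt_of_le ha0 ht'.1)).2.trans (hmono t ht'))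
  have e1 : (∫ t in a..T, ((cr X p' t : ℝ) : ℂ) * ee t p' * ee t p) =
      ∫ t in a..T, ((cr X p' t : ℝ) : ℂ) * cexp (I * ((t * (lam p' - lam q) : ℝ) : ℂ)) := by
    apply intervalIntegral.integral_congr
    intro t _
    simp only
    rw [mul_assoc, ee_mul t p' p q hlam]
  rw [e1]
  refine hib.trans ?_
  have h6 : Real.log (T / a) ≤ Real.log T := by
    apply Real.log_le_log (div_pos (by linarith) ha0)
    exact div_le_self (by linarith) ha
  calc C * (1 + Real.log X) * (√(ht p'))⁻¹ * min 1 ((T / ht p') ^ 2) * (2 + Real.log (T / a)) * |lam p' - lam q|⁻¹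
      ≤ C * (1 + Real.log X) * (√(ht p'))⁻¹ * min 1 ((T / ht p') ^ 2) * (2 + Real.log T) * |lam p' - lam q|⁻¹ := by
        gcongr
    _ = _ := by ring

/-- the diagonal term -/
lemma diag (C : ℝ) (hC : 0 < C) (hM : ∀ (X : ℕ) (p : ℕ × ℕ) (u : ℝ), 1 ≤ p.1 → 1 ≤ p.2 →
      1 ≤ u → u ^ (1 + 1 : ℝ) ≤ (X : ℝ) → ht p ≤ u ^ (1 / 2 : ℝ) →
      |√(ht p) * cr X p u - (Real.log (u / (2 * Real.pi * ht p)) + 2 * Real.eulerMascheroniConstant)| ≤
        C * u ^ (-(1 / 4) : ℝ))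
    (X : ℕ) (a T : ℝ) (ha : 1 ≤ a) (haT : a ≤ T) (q : ℕ × ℕ) (hq : q ∈ FR X)
    (hX : T ^ 2 ≤ X) (hqa : ht q ≤ a ^ (1 / 2 : ℝ)) :
    |(∫ t in a..T, cr X q t) - T * Real.log T * (√(ht q))⁻¹| ≤
      10 * T * (1 + Real.log (ht q) + a / T * Real.log T) * (√(ht q))⁻¹ + C * a ^ (-(1 / 4) : ℝ) * T := by
  obtain ⟨ha1, hb1, hab, hcop⟩ := Pool.Agent.Y545.GP.mem_FR.1 hq
  have hht : 1 ≤ ht q := one_le_ht ha1 hb1
  have ha0 : 0 < a := by linarith
  have hT0 : 0 < T := by linarith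
  have hs : 0 < √(ht q) := Real.sqrt_pos.2 (by linarith)
  have hs1 : 1 ≤ √(ht q) := Real.one_le_sqrt.2 hht
  obtain ⟨C5, hC5, hCR⟩ := (Pool.Agent.Y545.GP.t_CR Pool.Agent.Y587.GP.t_V).2.2
  have hc1 : IntervalIntegrable (cr X q) volume a T := by
    apply ContinuousOn.intervalIntegrable
    rw [uIcc_of_le haT]
    intro t ht'
    exact (hCR X q hq t (lt_of_lt_of_le ha0 ht'.1)).1.continuousAt.continuousWithinAt
  have hc2 : IntervalIntegrable (fun t => Real.log (t / (2 * Real.pi * ht q)) + 2 * Real.eulerMascheroniConstant)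
      volume a T := by
    apply ContinuousOn.intervalIntegrable
    rw [uIcc_of_le haT]
    intro t ht'
    have htp : 0 < t := lt_of_lt_of_le ha0 ht'.1
    apply ContinuousAt.continuousWithinAt
    apply ContinuousAt.add _ continuousAt_const
    apply ContinuousAt.log (by fun_prop)
    have := Real.pi_pos
    positivity
  have h1 : |∫ t in a..T, (√(ht q) * cr X q t - (Real.log (t / (2 * Real.pi * ht q)) +
      2 * Real.eulerMascheroniConstant))| ≤ C * a ^ (-(1 / 4) : ℝ) * |T - a| := by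
    rw [← Real.norm_eq_abs]
    apply intervalIntegral.norm_integral_le_of_norm_le_const
    intro t ht'
    rw [uIoc_of_le haT] at ht'
    have hta : a ≤ t := ht'.1.le
    have ht1 : 1 ≤ t := ha.trans hta
    rw [Real.norm_eq_abs]
    refine (hM X q t ha1 hb1 ht1 ?_ ?_).trans ?_
    · have e : (1 + 1 : ℝ) = 2 := by norm_num
      rw [e, Real.rpow_two]
      refine le_trans ?_ hX
      have := ht'.2
      gcongr
    · exact hqa.trans (Real.rpow_le_rpow ha0.le hta (by norm_num))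
    · gcongr ?_ * ?_
      exact Real.rpow_le_rpow_of_nonpos ha0 hta (by norm_num)
  rw [intervalIntegral.integral_sub (hc1.const_mul _) hc2, intervalIntegral.integral_const_mul] at h1
  have h2 := main_int a T (ht q) ha haT hht
  set J := ∫ t in a..T, cr X q t
  set M := ∫ t in a..T, (Real.log (t / (2 * Real.pi * ht q)) + 2 * Real.eulerMascheroniConstant)
  set E := 10 * T * (1 + Real.log (ht q) + a / T * Real.log T)
  have h3 : |√(ht q) * J - T * Real.log T| ≤ E + C * a ^ (-(1 / 4) : ℝ) * T := by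
    have h4 : √(ht q) * J - T * Real.log T = (√(ht q) * J - M) + (M - T * Real.log T) := by ring
    rw [h4]
    have h5 : C * a ^ (-(1 / 4) : ℝ) * |T - a| ≤ C * a ^ (-(1 / 4) : ℝ) * T := by
      rw [abs_of_nonneg (by linarith)]
      gcongr
      linarith
    refine (abs_add_le _ _).trans ?_
    linarith
  have h6 : J - T * Real.log T * (√(ht q))⁻¹ = (√(ht q) * J - T * Real.log T) * (√(ht q))⁻¹ := by
    field_simp
  rw [h6, abs_mul, abs_of_pos (inv_pos.2 hs)]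
  have h7 : 0 ≤ C * a ^ (-(1 / 4) : ℝ) * T := by positivity
  have h8 : (√(ht q))⁻¹ ≤ 1 := inv_le_one_of_one_le₀ hs1
  calc |√(ht q) * J - T * Real.log T| * (√(ht q))⁻¹ ≤ (E + C * a ^ (-(1 / 4) : ℝ) * T) * (√(ht q))⁻¹ := by gcongr
    _ = E * (√(ht q))⁻¹ + C * a ^ (-(1 / 4) : ℝ) * T * (√(ht q))⁻¹ := by ring
    _ ≤ E * (√(ht q))⁻¹ + C * a ^ (-(1 / 4) : ℝ) * T * 1 := by gcongr
    _ = _ := by ring

end Twaux

open Twaux

theorem t_TW (h1 : S_AFX) (h2 : S_CRD) : S_TW := by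
  classical
  obtain ⟨C1, hC1, hA⟩ := h1
  obtain ⟨C2, hC2, hD⟩ := h2
  obtain ⟨C3, hC3, hR⟩ := Pool.Agent.Y379.GP.t_SP.2
  obtain ⟨C4, hC4, hM⟩ := Pool.Agent.Y620.SX.t_CRA' 1 one_pos
  obtain ⟨C5, hC5, hCR⟩ := (Pool.Agent.Y545.GP.t_CR Pool.Agent.Y587.GP.t_V).2.2
  refine ⟨10 + C1 + C4 + 18000000 * C2 * C3, by positivity, ?_⟩
  intro T a p hT ha haT hp1 hp2 hcop hht
  have hT0 : 0 < T := by linarith
  have hT1 : 1 ≤ T := by linarith
  have ha1 : 1 ≤ a := (Real.one_le_rpow hT1 (by norm_num)).trans ha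
  have ha0 : 0 < a := by linarith
  set q : ℕ × ℕ := (p.2, p.1) with hq
  have hlam : lam q = -lam p := by simp only [lam, hq]; ring
  have hhtq : ht q = ht p := by simp only [ht, hq]; ring
  have hh1 : 1 ≤ ht p := one_le_ht hp1 hp2
  set X : ℕ := ⌈T ^ 2⌉₊ with hX
  have hXge : T ^ 2 ≤ X := Nat.le_ceil _
  have hXle : (X : ℝ) ≤ 2 * T ^ 2 := by
    have := (Nat.ceil_lt_add_one (by positivity : (0:ℝ) ≤ T ^ 2)).le
    nlinarith
  have hX1r : (1 : ℝ) ≤ X := le_trans (by nlinarith) hXge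
  have hX1 : 1 ≤ X := by exact_mod_cast hX1r
  have hY : T ^ (1 / 16 : ℝ) ≤ T := by
    have := Real.rpow_le_rpow_of_exponent_le hT1 (by norm_num : (1 / 16 : ℝ) ≤ 1)
    rwa [Real.rpow_one] at this
  have hqX : q ∈ FR X := by
    rw [Pool.Agent.Y545.GP.mem_FR]
    refine ⟨hp2, hp1, ?_, hcop.symm⟩
    have : ((p.2 * p.1 : ℕ) : ℝ) ≤ X := by
      push_cast
      have h3 : ht p ≤ X := (hht.trans hY).trans (le_trans (by nlinarith) hXge)
      unfold ht at h3
      linarith [mul_comm (p.1 : ℝ) p.2]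
    exact_mod_cast this
  -- step A
  have hcc : ∀ p' ∈ FR X, ContinuousOn (fun t : ℝ => ((cr X p' t : ℝ) : ℂ)) (uIcc a T) := by
    intro p' hp'
    rw [uIcc_of_le haT]
    intro t ht'
    exact (Complex.continuous_ofReal.continuousAt.comp
      (hCR X p' hp' t (lt_of_lt_of_le ha0 ht'.1)).1.continuousAt).continuousWithinAt
  have hterm : ∀ p' ∈ FR X, IntervalIntegrable (fun t : ℝ => ((cr X p' t : ℝ) : ℂ) * ee t p' * ee t p) volume a T := by
    intro p' hp'
    apply ContinuousOn.intervalIntegrable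
    exact ((hcc p' hp').mul (ee_cont p').continuousOn).mul (ee_cont p).continuousOn
  have hff : IntervalIntegrable (fun t : ℝ => (ff t : ℂ) * ee t p) volume a T := by
    apply Continuous.intervalIntegrable
    exact (Complex.continuous_ofReal.comp Pool.Agent.Y969.SM.ff_cont).mul (ee_cont p)
  have hsum : IntervalIntegrable (fun t : ℝ => ∑ p' ∈ FR X, ((cr X p' t : ℝ) : ℂ) * ee t p' * ee t p) volume a T := by
    apply ContinuousOn.intervalIntegrable
    exact continuousOn_finsetSum _ fun p' hp' =>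
      ((hcc p' hp').mul (ee_cont p').continuousOn).mul (ee_cont p).continuousOn
  have hpow : a ^ (-(1 / 4) : ℝ) ≤ T ^ (-(1 / 16) : ℝ) := by
    calc a ^ (-(1 / 4) : ℝ) ≤ (T ^ (7 / 8 : ℝ)) ^ (-(1 / 4) : ℝ) :=
          Real.rpow_le_rpow_of_nonpos (by positivity) ha (by norm_num)
      _ = T ^ (-(7 / 32) : ℝ) := by rw [← Real.rpow_mul hT0.le]; norm_num
      _ ≤ T ^ (-(1 / 16) : ℝ) := Real.rpow_le_rpow_of_exponent_le hT1 (by norm_num)
  have hT15 : T ^ (-(1 / 16) : ℝ) * T = T ^ (15 / 16 : ℝ) := by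
    rw [← Real.rpow_add_one hT0.ne']; norm_num
  have hstepA : ‖(∫ t in a..T, (ff t : ℂ) * ee t p) -
      ∫ t in a..T, ∑ p' ∈ FR X, ((cr X p' t : ℝ) : ℂ) * ee t p' * ee t p‖ ≤ C1 * T ^ (15 / 16 : ℝ) := by
    rw [← intervalIntegral.integral_sub hff hsum]
    have h3 : ‖∫ t in a..T, ((ff t : ℂ) * ee t p - ∑ p' ∈ FR X, ((cr X p' t : ℝ) : ℂ) * ee t p' * ee t p)‖ ≤
        C1 * a ^ (-(1 / 4) : ℝ) * |T - a| := by
      apply intervalIntegral.norm_integral_le_of_norm_le_const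
      intro t ht'
      rw [uIoc_of_le haT] at ht'
      have hta : a ≤ t := ht'.1.le
      have ht1 : 1 ≤ t := ha1.trans hta
      rw [← Finset.sum_mul, ← sub_mul, norm_mul, ee_norm, mul_one]
      refine (hA t X ht1 (le_trans ?_ hXge)).trans ?_
      · have := ht'.2
        gcongr
      · gcongr ?_ * ?_
        exact Real.rpow_le_rpow_of_nonpos ha0 hta (by norm_num)
    refine h3.trans ?_
    rw [abs_of_nonneg (by linarith), ← hT15]
    calc C1 * a ^ (-(1 / 4) : ℝ) * (T - a) ≤ C1 * T ^ (-(1 / 16) : ℝ) * T := by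
          gcongr
          linarith
      _ = _ := by ring
  -- step B
  have hstepB : (∫ t in a..T, ∑ p' ∈ FR X, ((cr X p' t : ℝ) : ℂ) * ee t p' * ee t p) =
      ((∫ t in a..T, cr X q t : ℝ) : ℂ) +
        ∑ p' ∈ (FR X).erase q, ∫ t in a..T, ((cr X p' t : ℝ) : ℂ) * ee t p' * ee t p := by
    rw [intervalIntegral.integral_finsetSum hterm, ← Finset.add_sum_erase _ _ hqX]
    congr 1
    rw [← intervalIntegral.integral_ofReal]
    apply intervalIntegral.integral_congr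
    intro t _
    simp only
    rw [mul_assoc, ee_mul t q p q hlam]
    simp
  -- step C
  have hstepC := diag C4 hC4 hM X a T ha1 haT q hqX hXge (by
    rw [hhtq]
    refine hht.trans ?_
    calc T ^ (1 / 16 : ℝ) ≤ T ^ (7 / 16 : ℝ) := Real.rpow_le_rpow_of_exponent_le hT1 (by norm_num)
      _ = (T ^ (7 / 8 : ℝ)) ^ (1 / 2 : ℝ) := by rw [← Real.rpow_mul hT0.le]; norm_num
      _ ≤ a ^ (1 / 2 : ℝ) := Real.rpow_le_rpow (by positivity) ha (by norm_num))
  rw [hhtq] at hstepC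
  -- step D
  have hstepD : ‖∑ p' ∈ (FR X).erase q, ∫ t in a..T, ((cr X p' t : ℝ) : ℂ) * ee t p' * ee t p‖ ≤
      18000000 * C2 * C3 * T ^ (15 / 16 : ℝ) := by
    have h3 : ∀ p' ∈ (FR X).erase q, ‖∫ t in a..T, ((cr X p' t : ℝ) : ℂ) * ee t p' * ee t p‖ ≤
        C2 * ((1 + Real.log X) * (2 + Real.log T)) *
          ((√(ht p'))⁻¹ * min 1 ((T / ht p') ^ 2) * |lam p' - lam q|⁻¹) := by
      intro p' hp'
      rw [Finset.mem_erase] at hp'
      apply offt C2 hC2 hD X hX1 a T ha1 haT p p' q hlam hp'.2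
      intro hcon
      have h4 := Pool.Agent.Y379.GP.t_SP.1 X p' q hp'.2 hqX hp'.1
      rw [hcon, sub_self, abs_zero] at h4
      have h5 : 0 < 1 / (2 * (X : ℝ)) := by positivity
      linarith
    have h6 := row C3 hC3 hR T hT1 X hX1 q hp2 hp1 hcop.symm
    rw [hhtq] at h6
    have h7 := num hT hh1 hht hX1 hXle
    have hlX0 : 0 ≤ Real.log X := Real.log_nonneg hX1r
    have hL0 : 0 ≤ Real.log T := Real.log_nonneg hT1
    calc ‖∑ p' ∈ (FR X).erase q, ∫ t in a..T, ((cr X p' t : ℝ) : ℂ) * ee t p' * ee t p‖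
        ≤ ∑ p' ∈ (FR X).erase q, C2 * ((1 + Real.log X) * (2 + Real.log T)) *
          ((√(ht p'))⁻¹ * min 1 ((T / ht p') ^ 2) * |lam p' - lam q|⁻¹) := norm_sum_le_of_le _ h3
      _ = C2 * ((1 + Real.log X) * (2 + Real.log T)) * ∑ p' ∈ (FR X).erase q,
          ((√(ht p'))⁻¹ * min 1 ((T / ht p') ^ 2) * |lam p' - lam q|⁻¹) := by rw [Finset.mul_sum]
      _ ≤ C2 * ((1 + Real.log X) * (2 + Real.log T)) *
          (12 * C3 * ht p * √T * (2 + Real.log X + Real.log (ht p)) * (Nat.log 2 X + 1)) := by gcongr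
      _ = 12 * C2 * C3 * ((1 + Real.log X) * (2 + Real.log T) *
          (ht p * √T * (2 + Real.log X + Real.log (ht p)) * (Nat.log 2 X + 1))) := by ring
      _ ≤ 12 * C2 * C3 * (1500000 * T ^ (15 / 16 : ℝ)) := by gcongr
      _ = _ := by ring
  -- conclusion
  have hfin : (∫ t in a..T, (ff t : ℂ) * ee t p) - ((T * Real.log T * (√(ht p))⁻¹ : ℝ) : ℂ) =
      ((∫ t in a..T, (ff t : ℂ) * ee t p) -
        ∫ t in a..T, ∑ p' ∈ FR X, ((cr X p' t : ℝ) : ℂ) * ee t p' * ee t p) +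
      ((((∫ t in a..T, cr X q t) - T * Real.log T * (√(ht p))⁻¹ : ℝ) : ℂ) +
        ∑ p' ∈ (FR X).erase q, ∫ t in a..T, ((cr X p' t : ℝ) : ℂ) * ee t p' * ee t p) := by
    rw [hstepB]
    push_cast
    ring
  rw [hfin]
  have hlh : 0 ≤ Real.log (ht p) := Real.log_nonneg hh1
  have hL0 : 0 ≤ Real.log T := Real.log_nonneg hT1
  have hE : 0 ≤ T * (1 + Real.log (ht p) + a / T * Real.log T) * (√(ht p))⁻¹ := by positivity
  have hT15p : 0 ≤ T ^ (15 / 16 : ℝ) := by positivity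
  have h9 : C4 * a ^ (-(1 / 4) : ℝ) * T ≤ C4 * T ^ (15 / 16 : ℝ) := by
    rw [← hT15]
    calc C4 * a ^ (-(1 / 4) : ℝ) * T ≤ C4 * T ^ (-(1 / 16) : ℝ) * T := by gcongr
      _ = _ := by ring
  have hstepC' : ‖(((∫ t in a..T, cr X q t) - T * Real.log T * (√(ht p))⁻¹ : ℝ) : ℂ)‖ ≤
      10 * T * (1 + Real.log (ht p) + a / T * Real.log T) * (√(ht p))⁻¹ + C4 * a ^ (-(1 / 4) : ℝ) * T := by
    rw [Complex.norm_real, Real.norm_eq_abs]
    exact hstepC
  refine (norm_add_le _ _).trans ((add_le_add hstepA ((norm_add_le _ _).trans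
    (add_le_add hstepC' hstepD))).trans ?_)
  have hC : 0 ≤ C1 + C4 + 18000000 * C2 * C3 := by positivity
  have e1 : 10 * T * (1 + Real.log (ht p) + a / T * Real.log T) * (√(ht p))⁻¹ =
      10 * (T * (1 + Real.log (ht p) + a / T * Real.log T) * (√(ht p))⁻¹) := by ring
  have e2 : (10 + C1 + C4 + 18000000 * C2 * C3) * T * (1 + Real.log (ht p) + a / T * Real.log T) * (√(ht p))⁻¹ =
      10 * (T * (1 + Real.log (ht p) + a / T * Real.log T) * (√(ht p))⁻¹) +
      (C1 + C4 + 18000000 * C2 * C3) * (T * (1 + Real.log (ht p) + a / T * Real.log T) * (√(ht p))⁻¹) := by ring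
  rw [e1, e2]
  have e3 := mul_nonneg hC hE
  nlinarith

end

end Pool.Agent.N879.PZ

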