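import Pool.Agent.Y969.SM.Stm2
import Pool.Agent.N879.QM.Stm

set_option autoImplicit false

/-!
Project PZ (helper879): moments of zeta with shifts of the size of a power of `log T`. Definitions and statements.
-/

namespace Pool.Agent.N879.PZ

open Complex Filter Topology MeasureTheory Set
open Pool.Agent.Y969.GP (ff V V1 ht lam PS FR co cr PX mk mB)
open Pool.Agent.Y969.SM (kx)
open Pool.Agent.W184.NZ (w1)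

noncomputable section

/-! ### Definitions -/

/-- the character `e^(iux)` -/
def ee (u : ℝ) (p : ℕ × ℕ) : ℂ := cexp (I * ((u * lam p : ℝ) : ℂ))

/-- the short polynomial -/
def P1 (N : ℕ) (u : ℝ) : ℂ := ∑ p ∈ FR N, (((√(ht p))⁻¹ : ℝ) : ℂ) * ee u p

/-- the short model of `|ζ(1/2+iu)|²` -/
def DN (N : ℕ) (u : ℝ) : ℂ := ∑ p ∈ FR N, (((√(ht p))⁻¹ *
  (Real.log (max u 1 / (2 * Real.pi * ht p)) + 2 * Real.eulerMascheroniConstant) : ℝ) : ℂ) * ee u p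

/-- the high frequencies -/
def HH (N X : ℕ) (u : ℝ) : ℂ := ∑ p ∈ (FR X).filter (fun p => (N : ℝ) < ht p), ((cr X p u : ℝ) : ℂ) * ee u p

/-- the regular points: the fourth moment of zeta over `[t, t+U]` is at most `U V` -/
def Gs (U V : ℝ) : Set ℝ := {t | ∫ u in t..(t + U), ff u ^ 2 ≤ U * V}

/-- a weight on `[a,b]` -/
def Wb (a b : ℝ) (F : ℝ → ℂ) : Prop := Measurable F ∧ ∃ M : ℝ, ∀ t ∈ Icc a b, ‖F t‖ ≤ M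

/-- parameters -/
def Par (T U a : ℝ) (N : ℕ) : Prop := 3 ≤ T ∧ 1 ≤ U ∧ U ≤ T ^ (1 / 4 : ℝ) ∧ T ^ (7 / 8 : ℝ) ≤ a ∧ a ≤ T ∧
  1 ≤ N ∧ (N : ℝ) ≤ T ^ (1 / 16 : ℝ) ∧ (N : ℝ) ≤ U

/-! ### Analysis -/

/-- AFX: `|ζ|²` as a Dirichlet polynomial -/
def S_AFX : Prop := ∃ C : ℝ, 0 < C ∧ ∀ (u : ℝ) (X : ℕ), 1 ≤ u → u ^ 2 ≤ X →
  ‖(ff u : ℂ) - ∑ p ∈ FR X, ((cr X p u : ℝ) : ℂ) * ee u p‖ ≤ C * u ^ (-(1 / 4) : ℝ)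

/-- CRD: size of the coefficients, with decay -/
def S_CRD : Prop := ∃ C : ℝ, 0 < C ∧ ∀ (X : ℕ) (p : ℕ × ℕ) (u : ℝ), 1 ≤ X → 1 ≤ p.1 → 1 ≤ p.2 → 0 < u →
  |cr X p u| ≤ C * (1 + Real.log X) * (√(ht p))⁻¹ * min 1 ((u / ht p) ^ 2) ∧
  |u * deriv (cr X p) u| ≤ C * (1 + Real.log X) * (√(ht p))⁻¹ * min 1 ((u / ht p) ^ 2)

/-- LC: large sieve over the shifts -/
def S_LC : Prop := ∃ C : ℝ, 0 < C ∧ ∀ (K : ℕ) (U : ℝ) (S : Finset (ℕ × ℕ)) (b : ℕ × ℕ → ℂ), 1 ≤ K → 1 ≤ U →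
  S ⊆ FR K → ∫ c in (0 : ℝ)..U, ‖∑ p ∈ S, b p * ee c p‖ ^ 2 ≤ C * (U + K) * ∑ p ∈ S, ‖b p‖ ^ 2

/-- LT: large sieve over `t` with amplitudes, and its dual -/
def S_LT : Prop := ∃ C : ℝ, 0 < C ∧ ∀ (K : ℕ) (a T w : ℝ) (S : Finset (ℕ × ℕ)) (A A' : ℕ × ℕ → ℝ → ℂ),
  1 ≤ K → 1 ≤ T → 0 ≤ a → a ≤ T → 0 ≤ w → S ⊆ FR K →
  (∀ p ∈ S, ∀ x ∈ Icc a T, HasDerivAt (A p) (A' p x) x) → (∀ p ∈ S, ContinuousOn (A' p) (Icc a T)) →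
  (∀ p ∈ S, ∀ x ∈ Icc a T, ‖A p x‖ ≤ w) → (∀ p ∈ S, ∫ x in a..T, ‖A' p x‖ ≤ w) →
  (∀ b : ℕ × ℕ → ℂ, ∫ t in a..T, ‖∑ p ∈ S, b p * (A p t * ee t p)‖ ^ 2 ≤
    C * ((T + K) * (1 + Real.log K)) * w ^ 2 * ∑ p ∈ S, ‖b p‖ ^ 2) ∧
  ∀ F : ℝ → ℂ, Wb a T F → ∑ p ∈ S, ‖∫ t in a..T, F t * (A p t * ee t p)‖ ^ 2 ≤
    C * ((T + K) * (1 + Real.log K)) * w ^ 2 * ∫ t in a..T, ‖F t‖ ^ 2

/-- KH: the high frequencies as an operator -/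
def S_KH : Prop := ∃ (C : ℝ) (A : ℕ), 0 < C ∧ ∀ (T U a : ℝ) (N X : ℕ) (F : ℝ → ℂ), Par T U a N →
  (2 * T) ^ 2 ≤ X → (X : ℝ) ≤ 5 * T ^ 2 → Wb a T F →
  ∫ c in (0 : ℝ)..U, ‖∫ t in a..T, F t * HH N X (t + c)‖ ^ 2 ≤
    C * Real.log T ^ A * (T * (U / N + 1)) * ∫ t in a..T, ‖F t‖ ^ 2

/-- KL: the low frequencies -/
def S_KL : Prop := ∃ C : ℝ, 0 < C ∧ ∀ (u : ℝ) (N X : ℕ), 1 ≤ u → 1 ≤ N → (N : ℝ) ≤ u ^ (1 / 2 : ℝ) → u ^ 2 ≤ X →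
  ‖(∑ p ∈ (FR X).filter (fun p => ht p ≤ (N : ℝ)), ((cr X p u : ℝ) : ℂ) * ee u p) - DN N u‖ ≤
    C * (N : ℝ) ^ 2 * u ^ (-(1 / 4) : ℝ)

/-- KER: `|ζ|²` minus the short model, as an operator -/
def S_KER : Prop := ∃ (C : ℝ) (A : ℕ), 0 < C ∧ ∀ (T U a : ℝ) (N : ℕ) (F : ℝ → ℂ), Par T U a N → Wb a T F →
  ∫ c in (0 : ℝ)..U, ‖∫ t in a..T, F t * ((ff (t + c) : ℂ) - DN N (t + c))‖ ^ 2 ≤
    C * Real.log T ^ A * (T * (U / N + 1)) * ∫ t in a..T, ‖F t‖ ^ 2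

/-- TELC: replacement of all the factors -/
def S_TELC : Prop := ∀ (n : ℕ) (a b U K W : ℝ) (G : Set ℝ) (w f g : ℝ → ℂ), a ≤ b → 0 < U → 0 ≤ K → 0 ≤ W →
  MeasurableSet G → Wb a b w → Continuous f → Continuous g →
  (∀ F : ℝ → ℂ, Wb a b F → ∫ c in (0 : ℝ)..U, ‖∫ t in a..b, F t * (f (t + c) - g (t + c))‖ ^ 2 ≤
    K * ∫ t in a..b, ‖F t‖ ^ 2) →
  (∀ t ∈ G, t ∈ Icc a b → ∫ c in (0 : ℝ)..U, ‖f (t + c)‖ ^ 2 ≤ W) →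
  (∀ t ∈ G, t ∈ Icc a b → ∫ c in (0 : ℝ)..U, ‖g (t + c)‖ ^ 2 ≤ W) →
  ∫ c, ‖∫ t in G ∩ Icc a b, w t * (∏ j : Fin n, f (t + c j) - ∏ j, g (t + c j))‖ ^ 2 ∂(mB n 0 U) ≤
    4 ^ n * K * W ^ (n - 1) * ∫ t in G ∩ Icc a b, ‖w t‖ ^ 2

/-- CTG: continuity in the shifts -/
def S_CTG : Prop := ∀ (n : ℕ) (a b : ℝ) (D : Set ℝ) (w : ℝ → ℂ) (g : Fin n → ℝ → ℂ), a ≤ b → MeasurableSet D →
  D ⊆ Icc a b → Wb a b w → (∀ j, Continuous (g j)) →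
  Continuous fun c : Fin n → ℝ => ∫ t in D, w t * ∏ j, g j (t + c j)

/-- FUB: mean values over the shifts -/
def S_FUB : Prop := ∀ (n : ℕ) (a b U : ℝ) (D : Set ℝ) (w : ℝ → ℂ) (g : Fin n → ℝ → ℂ), a ≤ b → 0 < U →
  MeasurableSet D → D ⊆ Icc a b → Wb a b w → (∀ j, Continuous (g j)) →
  ∫ c, ‖∫ t in D, w t * ∏ j, g j (t + c j)‖ ∂(mB n 0 U) ≤
    ∫ t in D, ‖w t‖ * ∏ j, ∫ c in (0 : ℝ)..U, ‖g j (t + c)‖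

/-- M4L: fourth moment -/
def S_M4L : Prop := ∃ (C : ℝ) (A : ℕ), 0 < C ∧ ∀ T : ℝ, 3 ≤ T → ∫ u in (0 : ℝ)..T, ff u ^ 2 ≤ C * T * Real.log T ^ A

/-- WIN: windows of the model -/
def S_WIN : Prop := ∃ C : ℝ, 0 < C ∧ ∀ (T U a : ℝ) (N : ℕ), Par T U a N → ∀ t : ℝ, a ≤ t → t ≤ T →
  ∫ c in (0 : ℝ)..U, ‖P1 N (t + c)‖ ^ 2 ≤ C * U * (1 + Real.log N) ^ 2 ∧
  ∫ c in (0 : ℝ)..U, ‖DN N (t + c)‖ ^ 2 ≤ C * U * (1 + Real.log N) ^ 4 * Real.log T ^ 2 ∧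
  ∫ c in (0 : ℝ)..U, ‖DN N (t + c) - (Real.log T : ℂ) * P1 N (t + c)‖ ^ 2 ≤
    C * U * (1 + Real.log N) ^ 4 * (1 + Real.log (T / a)) ^ 2

/-- GCM: almost all points are regular -/
def S_GCM : Prop := ∃ (C : ℝ) (A : ℕ), 0 < C ∧ ∀ T U W : ℝ, 3 ≤ T → 1 ≤ U → U ≤ T → 1 ≤ W →
  volume (Icc 0 T \ Gs U W) ≤ ENNReal.ofReal (C * T * Real.log T ^ A / W)

/-- SML: the small `t` -/
def S_SML : Prop := ∀ n : ℕ, ∃ (C : ℝ) (A : ℕ), 0 < C ∧ ∀ (T U a W : ℝ) (N : ℕ), Par T U a N → 1 ≤ W →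
  ∫ c, ‖∫ t in Gs U W ∩ Icc 0 a, (ff t : ℂ) * ∏ j : Fin n, (ff (t + c j) : ℂ)‖ ∂(mB n 0 U) ≤
    C * a * Real.log T ^ A * (U * √W) ^ n

/-- GCD: the irregular points in the model -/
def S_GCD : Prop := ∀ n : ℕ, ∃ (C : ℝ) (A : ℕ), 0 < C ∧ ∀ (T U a W : ℝ) (N : ℕ), Par T U a N → 1 ≤ W →
  ∫ c, ‖∫ t in Icc a T \ Gs U W, (ff t : ℂ) * ∏ j : Fin n, DN N (t + c j)‖ ∂(mB n 0 U) ≤
    C * Real.log T ^ A * T * (√W)⁻¹ * U ^ n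

/-- LED: the leading term of the model -/
def S_LED : Prop := ∀ n : ℕ, ∃ C : ℝ, 0 < C ∧ ∀ (T U a : ℝ) (N : ℕ), Par T U a N →
  ∫ c, ‖∫ t in Icc a T, (ff t : ℂ) * (∏ j : Fin n, DN N (t + c j) -
      ∏ j : Fin n, ((Real.log T : ℂ) * P1 N (t + c j)))‖ ∂(mB n 0 U) ≤
    C * (1 + Real.log N) ^ (2 * n) * (1 + Real.log (T / a)) * Real.log T ^ n * T * U ^ n

/-- TW: the twisted second moment, leading term -/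
def S_TW : Prop := ∃ C : ℝ, 0 < C ∧ ∀ (T a : ℝ) (p : ℕ × ℕ), 3 ≤ T → T ^ (7 / 8 : ℝ) ≤ a → a ≤ T →
  1 ≤ p.1 → 1 ≤ p.2 → Nat.Coprime p.1 p.2 → ht p ≤ T ^ (1 / 16 : ℝ) →
  ‖(∫ t in a..T, (ff t : ℂ) * ee t p) - ((T * Real.log T * (√(ht p))⁻¹ : ℝ) : ℂ)‖ ≤
    C * T * (1 + Real.log (ht p) + a / T * Real.log T) * (√(ht p))⁻¹ + C * T ^ (15 / 16 : ℝ)

/-! ### The main term -/

/-- the local density -/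
def loc1 {n : ℕ} (c : Fin n → ℝ) (p : ℕ) : ℝ :=
  (1 - 1 / (p : ℝ)) ^ (n + 1) * ∫ θ in (0:ℝ)..1,
    1 / (‖1 - cexp (2 * Real.pi * I * θ) * (p : ℂ) ^ (-(1 / 2) : ℂ)‖ ^ 2 *
      ∏ j, ‖1 - cexp (2 * Real.pi * I * θ) * (p : ℂ) ^ (-(1 / 2 + I * c j))‖ ^ 2)

/-- the product of the local densities over the primes up to `y` -/
def SS1 {n : ℕ} (y : ℝ) (c : Fin n → ℝ) : ℝ :=
  ∏ p ∈ (Finset.range (⌊y⌋₊ + 1)).filter Nat.Prime, loc1 c p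

/-- the truncated main term -/
def BY1 (n Y : ℕ) (c : Fin n → ℝ) : ℂ :=
  ∑ q ∈ (Fintype.piFinset fun _ : Fin n => FR Y).filter (fun q => ∏ j, ht (q j) ≤ Y),
    (w1 (∏ j, (q j).1, ∏ j, (q j).2) : ℂ) * ∏ j, cexp (I * ((c j * lam (q j) : ℝ) : ℂ))

/-- the zeta factors of the main term -/
def zp1 {n : ℕ} (c : Fin n → ℝ) : ℝ :=
  (∏ j, ‖riemannZeta (1 + I * c j)‖ ^ 2) *
    ∏ i, ∏ j ∈ Finset.Ioi i, ‖riemannZeta (1 + I * (c i - c j))‖ ^ 2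

/-- the inverse of their Euler factors at `p` -/
def ep1 {n : ℕ} (c : Fin n → ℝ) (p : ℕ) : ℝ :=
  (∏ j, ‖1 - (p : ℂ) ^ (-(1 + I * c j))‖ ^ 2) *
    ∏ i, ∏ j ∈ Finset.Ioi i, ‖1 - (p : ℂ) ^ (-(1 + I * (c i - c j)))‖ ^ 2

/-- the arithmetic factor -/
def AA1 {n : ℕ} (c : Fin n → ℝ) : ℝ := ∏' p : Nat.Primes, loc1 c p * ep1 c p

/-- the coefficient of the local factor -/
def lc1 {n : ℕ} (p : ℕ) (k : Fin n → ℤ) : ℝ := (p : ℝ) ^ (-((kx k : ℝ) / 2))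

/-- MSQ: the mean square of the low part -/
def S_MSQ : Prop := ∀ (n C1 B2 : ℕ) (ε : ℝ), 1 ≤ C1 → 1 ≤ B2 → 0 < ε → ∃ Y₀ : ℕ, ∀ Y : ℕ, Y₀ ≤ Y →
  ∀ᶠ T : ℝ in atTop, ∀ (U a : ℝ) (N : ℕ), N = ⌊Real.log T ^ C1⌋₊ → a = T / Real.log T ^ B2 →
  4 * (N : ℝ) ^ (2 * n + 1) ≤ U → Par T U a N →
  ∫ c, ‖(∫ t in Icc a T, (ff t : ℂ) * ∏ j : Fin n, P1 N (t + c j)) - ((T * Real.log T : ℝ) : ℂ) * BY1 n Y c‖ ^ 2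
    ∂(mB n 0 U) ≤ ε * (U ^ n * (T * Real.log T) ^ 2)

/-- LOC1: the local density as a Fourier series -/
def S_LOC1 : Prop := ∀ (n p : ℕ), p.Prime → ∀ c : Fin n → ℝ,
  (Summable fun k : Fin n → ℤ => lc1 p k) ∧
  ((loc1 c p : ℝ) : ℂ) = ∑' k : Fin n → ℤ, (lc1 p k : ℂ) *
    ∏ j, cexp (-(I * ((c j * Real.log p * k j : ℝ) : ℂ)))

/-- LSM1: bounds for the local sums -/
def S_LSM1 : Prop := ∀ n : ℕ, ∃ C : ℝ, 0 < C ∧ ∀ p : ℕ, p.Prime →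
  (Summable fun k : Fin n → ℤ => lc1 p k * (p : ℝ) ^ ((1 / 4 : ℝ) * ∑ j, ((k j).natAbs : ℝ))) ∧
  ∑' k : Fin n → ℤ, lc1 p k * (p : ℝ) ^ ((1 / 4 : ℝ) * ∑ j, ((k j).natAbs : ℝ)) ≤ 1 + C * (p : ℝ) ^ (-(1 / 2) : ℝ)

open Classical in
/-- EUT1: the product of the local sums against the truncated sum over the tuples -/
def S_EUT1 : Prop := ∀ n : ℕ, ∃ C : ℝ, 0 < C ∧ ∀ (y W : ℕ) (c : Fin n → ℝ), 1 ≤ y → 1 ≤ W →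
  ‖(∏ p ∈ (Finset.range (y + 1)).filter Nat.Prime, ∑' k : Fin n → ℤ, (lc1 p k : ℂ) *
      ∏ j, cexp (-(I * ((c j * Real.log p * k j : ℝ) : ℂ)))) -
    ∑ q ∈ (Fintype.piFinset fun _ : Fin n => FR W).filter
        (fun q => ∏ j, ht (q j) ≤ W ∧ ∀ p : ℕ, p.Prime → p ∣ ∏ j, ((q j).1 * (q j).2) → p ≤ y),
      (w1 (∏ j, (q j).1, ∏ j, (q j).2) : ℂ) * ∏ j, cexp (I * ((c j * lam (q j) : ℝ) : ℂ))‖ ≤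
    (W : ℝ) ^ (-(1 / 4) : ℝ) * Real.exp (C * √y)

/-- EUL1: the truncated main term against the product -/
def S_EUL1 : Prop := ∀ (n : ℕ) (ε : ℝ), 0 < ε → ∃ Y₀ : ℕ, ∀ Y : ℕ, Y₀ ≤ Y → ∀ᶠ U : ℝ in atTop,
  ∫ c, ‖BY1 n Y c - ((SS1 (Real.log U) c : ℝ) : ℂ)‖ ∂(mB n 0 U) ≤ ε * U ^ n

/-- LB1: the product of the local densities is rarely small -/
def S_LB1 : Prop := ∀ (n : ℕ) (ε : ℝ), 0 < ε → ∃ η : ℝ, 0 < η ∧ ∀ᶠ U : ℝ in atTop,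
  (mB n 0 U).real {c | SS1 (Real.log U) c ≤ η} ≤ ε * U ^ n

/-- AA1: the arithmetic factor converges -/
def S_AA1 : Prop := ∀ n : ℕ, ∃ C : ℝ, 0 < C ∧ ∀ c : Fin n → ℝ,
  (∀ p : ℕ, p.Prime → 0 ≤ loc1 c p * ep1 c p ∧ |loc1 c p * ep1 c p - 1| ≤ C / (p : ℝ) ^ 2) ∧
  (∀ y : ℝ, 1 ≤ y → |(∏ p ∈ (Finset.range (⌊y⌋₊ + 1)).filter Nat.Prime, loc1 c p * ep1 c p) - AA1 c| ≤ C / y) ∧
  (∀ y : ℝ, 1 ≤ y → 0 ≤ (∏ p ∈ (Finset.range (⌊y⌋₊ + 1)).filter Nat.Prime, loc1 c p * ep1 c p) ∧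
    (∏ p ∈ (Finset.range (⌊y⌋₊ + 1)).filter Nat.Prime, loc1 c p * ep1 c p) ≤ C) ∧ |AA1 c| ≤ C

/-- ZE1: the product of the local densities against the zeta factors -/
def S_ZE1 : Prop := ∀ (n : ℕ) (ε : ℝ), 0 < ε → ∀ᶠ U : ℝ in atTop,
  (mB n 0 U).real {c | ε ≤ |SS1 (Real.log U) c - zp1 c * AA1 c|} ≤ ε * U ^ n

/-! ### The theorem -/

/-- the moment over the regular points -/
def MG {n : ℕ} (T U W : ℝ) (c : Fin n → ℝ) : ℝ := ∫ t in Gs U W ∩ Icc 0 T, ff t * ∏ j, ff (t + c j)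

/-- the theorem, in the mean -/
def S_MEAN : Prop := ∀ n : ℕ, ∃ C₀ B₀ : ℕ, ∀ ε : ℝ, 0 < ε → ∃ Y₀ : ℕ, ∀ Y : ℕ, Y₀ ≤ Y → ∀ᶠ T : ℝ in atTop,
  ∀ U : ℝ, Real.log T ^ C₀ ≤ U → U ≤ T ^ (1 / 4 : ℝ) →
  ∫ c, ‖((MG T U (Real.log T ^ B₀) c / (T * Real.log T ^ (n + 1)) : ℝ) : ℂ) - BY1 n Y c‖ ∂(mB n 0 U) ≤ ε * U ^ n

/-- the theorem -/
def S_MAIN : Prop := ∀ n : ℕ, ∃ C₀ B₀ : ℕ, ∀ ε : ℝ, 0 < ε → ∀ᶠ T : ℝ in atTop, ∀ U : ℝ,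
  Real.log T ^ C₀ ≤ U → U ≤ T ^ (1 / 4 : ℝ) →
  volume (Icc 0 T \ Gs U (Real.log T ^ B₀)) ≤ ENNReal.ofReal (T / Real.log T) ∧
  volume {c : Fin n → ℝ | (∀ j, 0 ≤ c j ∧ c j ≤ U) ∧
    ¬ |MG T U (Real.log T ^ B₀) c / (zp1 c * AA1 c * (T * Real.log T ^ (n + 1))) - 1| ≤ ε} ≤
      ENNReal.ofReal (ε * U ^ n)

end

end Pool.Agent.N879.PZ
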