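import Pool.Agent.N879.PZ.Stm
import Pool.Agent.Y81.SX.AAP

set_option autoImplicit false

/-! Project PZ: the arithmetic factor (statement S_AA1; helper335, adapted from Y81/SX/LocExp, AAP). -/

namespace Pool.Agent.N879.PZ

namespace Aa1aux

open Finset Filter Topology MeasureTheory Complex
open Pool.Agent.Y969.SM (kx)
open Pool.Agent.Y81.SX.LocExp (mul_exp SS4 not_mem sum_SS4 EE EE_norm EE_zero EE_single EE_single'
  EE_diff kx_single kx_single' kx_diff rpow_kx sum_cos_le)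
open Pool.Agent.Y81.SX.AAP (prod_exp norm_sq_factor)

noncomputable section

/-- the coefficient of `1/p` -/
def B1 {n : ℕ} (c : Fin n → ℝ) (p : ℕ) : ℝ :=
  2 * ∑ j, Real.cos (c j * Real.log p) + ∑ i, ∑ j ∈ Finset.Ioi i, 2 * Real.cos ((c i - c j) * Real.log p)

lemma B1_abs {n : ℕ} (c : Fin n → ℝ) (p : ℕ) : |B1 c p| ≤ 4 * n + 2 * n ^ 2 := by
  have h := Pool.Agent.Y81.SX.LocExp.BB_abs c p
  unfold B1
  have h1 : |2 * ∑ j, Real.cos (c j * Real.log p)| ≤ 2 * n := by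
    rw [abs_mul, abs_of_pos (by norm_num : (0:ℝ) < 2)]
    have := sum_cos_le (p := p) c
    linarith
  have h2 : |∑ i, ∑ j ∈ Finset.Ioi i, 2 * Real.cos ((c i - c j) * Real.log p)| ≤ 2 * n ^ 2 := by
    have h3 : ∀ i : Fin n, |∑ j ∈ Finset.Ioi i, 2 * Real.cos ((c i - c j) * Real.log p)| ≤ 2 * n := by
      intro i
      have h4 : |∑ j ∈ Finset.Ioi i, 2 * Real.cos ((c i - c j) * Real.log p)| ≤ ∑ j ∈ Finset.Ioi i, (2 : ℝ) := by
        refine (Finset.abs_sum_le_sum_abs _ _).trans (Finset.sum_le_sum fun j _ => ?_)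
        rw [abs_mul, abs_of_pos (by norm_num : (0:ℝ) < 2)]
        have := Real.abs_cos_le_one ((c i - c j) * Real.log p)
        linarith
      rw [Finset.sum_const, nsmul_eq_mul] at h4
      have h5 : ((Finset.Ioi i).card : ℝ) ≤ n := by
        have := Finset.card_le_univ (Finset.Ioi i)
        rw [Fintype.card_fin] at this
        exact_mod_cast this
      linarith
    have h6 : |∑ i, ∑ j ∈ Finset.Ioi i, 2 * Real.cos ((c i - c j) * Real.log p)| ≤ ∑ i : Fin n, (2 * (n : ℝ)) :=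
      (Finset.abs_sum_le_sum_abs _ _).trans (Finset.sum_le_sum fun i _ => h3 i)
    rw [Finset.sum_const, nsmul_eq_mul, Finset.card_univ, Fintype.card_fin] at h6
    linarith
  have h7 : (0 : ℝ) ≤ n := Nat.cast_nonneg n
  refine (abs_add_le _ _).trans ?_
  linarith

/-- the size of the coefficients -/
lemma lc1_tail {n p : ℕ} (hp : p.Prime) {k : Fin n → ℤ} (hk : 4 ≤ kx k) :
    lc1 p k ≤ 4 * lc1 2 k / (p : ℝ) ^ 2 := by
  have hp2 : (2 : ℝ) ≤ p := by exact_mod_cast hp.two_le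
  have hp0 : (0 : ℝ) < p := by linarith
  unfold lc1
  have hkx : (4 : ℝ) ≤ kx k := by exact_mod_cast hk
  have h1 : (p : ℝ) ^ (-((kx k : ℝ) / 2)) = (p : ℝ) ^ (-(((kx k : ℝ) - 4) / 2)) / (p : ℝ) ^ 2 := by
    rw [← Real.rpow_natCast (p : ℝ) 2, ← Real.rpow_sub hp0]
    congr 1
    push_cast
    ring
  have h2 : (p : ℝ) ^ (-(((kx k : ℝ) - 4) / 2)) ≤ (2 : ℝ) ^ (-(((kx k : ℝ) - 4) / 2)) :=
    Real.rpow_le_rpow_of_nonpos (by norm_num) hp2 (by linarith)
  have h3 : (2 : ℝ) ^ (-(((kx k : ℝ) - 4) / 2)) = 4 * (2 : ℝ) ^ (-((kx k : ℝ) / 2)) := by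
    have : (4 : ℝ) = (2 : ℝ) ^ (2 : ℝ) := by norm_num
    rw [this, ← Real.rpow_add (by norm_num)]
    congr 1
    norm_num
    ring
  rw [h1]
  refine (div_le_div_of_nonneg_right (h2.trans h3.le) (by positivity)).trans (le_of_eq ?_)
  push_cast
  rfl

lemma lc1_nonneg {n p : ℕ} (k : Fin n → ℤ) : 0 ≤ lc1 p k := by
  unfold lc1
  positivity

lemma lc1_zero {n p : ℕ} : lc1 p (0 : Fin n → ℤ) = 1 := by
  unfold lc1 kx
  simp

lemma lc1_single {n p : ℕ} (j : Fin n) : lc1 p (Pi.single j 1 : Fin n → ℤ) = 1 / (p : ℝ) := by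
  unfold lc1
  rw [kx_single, rpow_kx]

lemma lc1_single' {n p : ℕ} (j : Fin n) : lc1 p (Pi.single j (-1) : Fin n → ℤ) = 1 / (p : ℝ) := by
  unfold lc1
  rw [kx_single', rpow_kx]

lemma lc1_diff {n p : ℕ} {i j : Fin n} (h : j ≠ i) :
    lc1 p (Pi.single i 1 - Pi.single j 1 : Fin n → ℤ) = 1 / (p : ℝ) := by
  unfold lc1
  rw [kx_diff h, rpow_kx]

/-- the finite sum -/
lemma fin_sum {n p : ℕ} (c : Fin n → ℝ) :
    ∑ k ∈ SS4 n, (lc1 p k : ℂ) * EE c p k = ((1 + B1 c p / p : ℝ) : ℂ) := by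
  rw [sum_SS4]
  simp_rw [lc1_single, lc1_single', EE_single, EE_single', EE_zero, lc1_zero]
  have e1 : ∑ i, ∑ j ∈ ({i}ᶜ : Finset (Fin n)), ((lc1 p (Pi.single i 1 - Pi.single j 1 : Fin n → ℤ) : ℝ) : ℂ) *
      EE c p (Pi.single i 1 - Pi.single j 1) = ∑ i, ∑ j ∈ ({i}ᶜ : Finset (Fin n)), ((1 / (p : ℝ) : ℝ) : ℂ) *
      cexp (((-((c i - c j) * Real.log p) : ℝ) : ℂ) * I) := by
    refine Finset.sum_congr rfl fun i _ => Finset.sum_congr rfl fun j hj => ?_
    have hj' : j ≠ i := by simpa using hj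
    rw [lc1_diff hj', EE_diff]
  rw [e1, ← Finset.sum_sum_Ioi_add_eq_sum_sum_off_diag (fun j i => ((1 / (p : ℝ) : ℝ) : ℂ) *
      cexp (((-((c i - c j) * Real.log p) : ℝ) : ℂ) * I))]
  have e2 : ∀ i j : Fin n, ((1 / (p : ℝ) : ℝ) : ℂ) * cexp (((-((c i - c j) * Real.log p) : ℝ) : ℂ) * I) +
      ((1 / (p : ℝ) : ℝ) : ℂ) * cexp (((-((c j - c i) * Real.log p) : ℝ) : ℂ) * I) =
      ((1 / (p : ℝ) * (2 * Real.cos ((c i - c j) * Real.log p)) : ℝ) : ℂ) := by
    intro i j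
    have : -((c j - c i) * Real.log p) = (c i - c j) * Real.log p := by ring
    rw [this, ← mul_add, Pool.Agent.Y81.SX.LocExp.two_cos]
    push_cast; ring
  simp_rw [e2]
  rw [← add_assoc (∑ j, _) (∑ j, _) _, ← Finset.sum_add_distrib]
  have e3 : ∀ j : Fin n, ((1 / (p : ℝ) : ℝ) : ℂ) * cexp (((-(c j * Real.log p) : ℝ) : ℂ) * I) +
      ((1 / (p : ℝ) : ℝ) : ℂ) * cexp (((c j * Real.log p : ℝ) : ℂ) * I) =
      ((1 / (p : ℝ) * (2 * Real.cos (c j * Real.log p)) : ℝ) : ℂ) := by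
    intro j
    rw [← mul_add, Pool.Agent.Y81.SX.LocExp.two_cos]
    push_cast; ring
  simp_rw [e3]
  simp_rw [← Complex.ofReal_sum]
  simp_rw [← Finset.mul_sum]
  unfold B1
  push_cast
  simp_rw [← Finset.mul_sum]
  ring

/-- first order expansion of the local density -/
theorem loc1_exp (h : S_LOC1) (n : ℕ) : ∃ C : ℝ, 0 < C ∧ ∀ p : ℕ, p.Prime → ∀ c : Fin n → ℝ,
    |loc1 c p - (1 + B1 c p / p)| ≤ C / (p : ℝ) ^ 2 := by
  classical
  set M : ℝ := ∑' k : Fin n → ℤ, lc1 2 k with hM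
  have hs2 : Summable fun k : Fin n → ℤ => lc1 2 k := (h n 2 Nat.prime_two 0).1
  have hM0 : 0 ≤ M := tsum_nonneg fun k => lc1_nonneg k
  refine ⟨4 * M + 1, by positivity, ?_⟩
  intro p hp c
  have hp2 : (2 : ℝ) ≤ p := by exact_mod_cast hp.two_le
  have hp0 : (0 : ℝ) < p := by linarith
  obtain ⟨hs, hl⟩ := h n p hp c
  set T : ℂ := ∑' k : Fin n → ℤ, (lc1 p k : ℂ) * ∏ j, cexp (-(I * ((c j * Real.log p * k j : ℝ) : ℂ))) with hT
  have hsum : HasSum (fun k : Fin n → ℤ => (lc1 p k : ℂ) * EE c p k) T := by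
    have : Summable (fun k : Fin n → ℤ => (lc1 p k : ℂ) * EE c p k) := by
      refine Summable.of_norm ?_
      refine hs.congr fun k => ?_
      rw [norm_mul, EE_norm, mul_one, Complex.norm_real, Real.norm_of_nonneg (lc1_nonneg k)]
    exact this.hasSum
  have h1 : HasSum (fun k : Fin n → ℤ => if k ∈ SS4 n then (lc1 p k : ℂ) * EE c p k else 0)
      (∑ k ∈ SS4 n, (lc1 p k : ℂ) * EE c p k) := by
    have := hasSum_sum_of_ne_finset_zero (f := fun k : Fin n → ℤ =>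
      if k ∈ SS4 n then (lc1 p k : ℂ) * EE c p k else 0) (s := SS4 n) (L := .unconditional _)
      (fun k hk => if_neg hk)
    have e : ∑ k ∈ SS4 n, (if k ∈ SS4 n then (lc1 p k : ℂ) * EE c p k else 0) =
        ∑ k ∈ SS4 n, (lc1 p k : ℂ) * EE c p k := Finset.sum_congr rfl fun k hk => if_pos hk
    rw [e] at this
    exact this
  rw [fin_sum c] at h1
  have h2 := hsum.sub h1
  have h3 : ‖T - ((1 + B1 c p / p : ℝ) : ℂ)‖ ≤ 4 * M / (p : ℝ) ^ 2 := by
    refine h2.norm_le_of_bounded (g := fun k : Fin n → ℤ => 4 * lc1 2 k / (p : ℝ) ^ 2)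
      ((hs2.hasSum.mul_left 4).div_const _) ?_
    intro k
    by_cases hk : k ∈ SS4 n
    · simp only [hk, if_true, sub_self, norm_zero]
      have := lc1_nonneg (p := 2) k
      positivity
    · simp only [hk, if_false, sub_zero]
      rw [norm_mul, EE_norm, mul_one, Complex.norm_real, Real.norm_of_nonneg (lc1_nonneg k)]
      exact lc1_tail hp (not_mem hk)
  have e2 : |loc1 c p - (1 + B1 c p / p)| = ‖((loc1 c p - (1 + B1 c p / p) : ℝ) : ℂ)‖ := by
    rw [Complex.norm_real, Real.norm_eq_abs]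
  rw [e2, Complex.ofReal_sub, hl]
  refine h3.trans ?_
  gcongr
  linarith

/-- first order expansion of the zeta factors -/
theorem ep1_exp (n : ℕ) : ∃ C : ℝ, 0 < C ∧ ∀ p : ℕ, p.Prime → ∀ c : Fin n → ℝ,
    |ep1 c p - (1 + -B1 c p / p)| ≤ C / (p : ℝ) ^ 2 := by
  set N : ℝ := (n : ℝ) ^ 2 + n with hN
  set K : ℝ := 9 * N ^ 2 * Real.exp (3 * N) + N with hK
  have hN0 : 0 ≤ N := by positivity
  have hK0 : 0 ≤ K := by positivity
  set K2 : ℝ := (2 * N) * (2 * N) + K * (1 + 2 * N) + K * (1 + 2 * N) + K * K with hK2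
  have hK20 : 0 ≤ K2 := by positivity
  refine ⟨K2 + 1, by positivity, ?_⟩
  intro p hp c
  have hp1 : (1 : ℝ) ≤ p := by exact_mod_cast hp.one_le
  have hp0 : (0 : ℝ) < p := by linarith
  have a1 := prod_exp (Finset.univ : Finset (Fin n)) N (by simp [hN])
    (fun j => c j * Real.log p) hp1
  have a2 := prod_exp ((Finset.univ : Finset (Fin n)).sigma fun i => Finset.Ioi i) N (by
    rw [Finset.card_sigma]
    push_cast
    have : ∑ i : Fin n, ((Finset.Ioi i).card : ℝ) ≤ ∑ i : Fin n, (n : ℝ) := by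
      refine Finset.sum_le_sum fun i _ => ?_
      have := Finset.card_le_univ (Finset.Ioi i)
      rw [Fintype.card_fin] at this
      exact_mod_cast this
    rw [Finset.sum_const, nsmul_eq_mul, Finset.card_univ, Fintype.card_fin] at this
    rw [hN]
    nlinarith [(Nat.cast_nonneg n : (0 : ℝ) ≤ n)])
    (fun x => (c x.1 - c x.2) * Real.log p) hp1
  set s1 := ∑ j, Real.cos (c j * Real.log p) with hs1
  set s2 := ∑ x ∈ (Finset.univ : Finset (Fin n)).sigma fun i => Finset.Ioi i,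
    Real.cos ((c x.1 - c x.2) * Real.log p) with hs2
  set P1 := ∏ j : Fin n, (1 + (-(2 / (p : ℝ)) * Real.cos (c j * Real.log p) + 1 / (p : ℝ) ^ 2)) with hP1
  set P2 := ∏ x ∈ (Finset.univ : Finset (Fin n)).sigma fun i => Finset.Ioi i,
    (1 + (-(2 / (p : ℝ)) * Real.cos ((c x.1 - c x.2) * Real.log p) + 1 / (p : ℝ) ^ 2)) with hP2
  have e1 : ep1 c p = P1 * P2 := by
    unfold ep1
    congr 1
    · rw [hP1]
      refine Finset.prod_congr rfl fun j _ => ?_
      rw [← norm_sq_factor hp]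
    · rw [hP2, Finset.prod_sigma]
      refine Finset.prod_congr rfl fun i _ => Finset.prod_congr rfl fun j _ => ?_
      simp only
      rw [← norm_sq_factor hp]
      push_cast
      rfl
  have e2 : B1 c p = 2 * s1 + 2 * s2 := by
    have e20 : 2 * s2 = ∑ i, ∑ j ∈ Finset.Ioi i, 2 * Real.cos ((c i - c j) * Real.log p) := by
      rw [hs2, Finset.sum_sigma, Finset.mul_sum]
      refine Finset.sum_congr rfl fun i _ => ?_
      rw [Finset.mul_sum]
    rw [e20]
    rfl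
  have b1 : |(-2 * s1)| ≤ 2 * N := by
    rw [abs_mul]
    have : |s1| ≤ n := sum_cos_le c
    have h2 : |(-2 : ℝ)| = 2 := by norm_num
    rw [h2, hN]
    nlinarith [sq_nonneg (n : ℝ)]
  have b2 : |(-2 * s2)| ≤ 2 * N := by
    rw [abs_mul]
    have h3 : |s2| ≤ (n : ℝ) ^ 2 := by
      have h4 : |s2| ≤ ∑ x ∈ (Finset.univ : Finset (Fin n)).sigma fun i => Finset.Ioi i, (1 : ℝ) :=
        (Finset.abs_sum_le_sum_abs _ _).trans (Finset.sum_le_sum fun j _ => Real.abs_cos_le_one _)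
      rw [Finset.sum_sigma] at h4
      have h5 : ∑ i : Fin n, ∑ _j ∈ Finset.Ioi i, (1 : ℝ) ≤ ∑ i : Fin n, (n : ℝ) := by
        refine Finset.sum_le_sum fun i _ => ?_
        rw [Finset.sum_const, nsmul_eq_mul, mul_one]
        have := Finset.card_le_univ (Finset.Ioi i)
        rw [Fintype.card_fin] at this
        exact_mod_cast this
      rw [Finset.sum_const, nsmul_eq_mul, Finset.card_univ, Fintype.card_fin] at h5
      linarith [h4.trans h5]
    have h2 : |(-2 : ℝ)| = 2 := by norm_num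
    rw [h2, hN]
    nlinarith [(Nat.cast_nonneg n : (0 : ℝ) ≤ n)]
  rw [← hK] at a1 a2
  have c1 := mul_exp hp1 a1 a2 b1 b2 hK0 hK0
  rw [← hK2] at c1
  rw [e1]
  have e3 : (1 : ℝ) + -B1 c p / p = 1 + ((-2 * s1) + (-2 * s2)) / p := by
    rw [e2]; ring
  rw [e3]
  refine c1.trans ?_
  gcongr
  linarith

/-- the factors -/
theorem fac (h : S_LOC1) (n : ℕ) : ∃ C : ℝ, 0 < C ∧ ∀ p : ℕ, p.Prime → ∀ c : Fin n → ℝ,
    |loc1 c p * ep1 c p - 1| ≤ C / (p : ℝ) ^ 2 := by
  obtain ⟨C1, hC1, h1⟩ := loc1_exp h n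
  obtain ⟨C2, hC2, h2⟩ := ep1_exp n
  set B : ℝ := 4 * n + 2 * n ^ 2 with hB
  have hB0 : 0 ≤ B := by positivity
  refine ⟨B * B + C1 * (1 + B) + C2 * (1 + B) + C1 * C2, by positivity, ?_⟩
  intro p hp c
  have hp1 : (1 : ℝ) ≤ p := by exact_mod_cast hp.one_le
  have hb : |-B1 c p| ≤ B := by rw [abs_neg]; exact B1_abs c p
  have h3 := mul_exp hp1 (h1 p hp c) (h2 p hp c) (A := B) (B := B) (B1_abs c p) hb hC1.le hC2.le
  rw [add_neg_cancel, zero_div, add_zero] at h3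
  exact h3

lemma loc1_nonneg {n : ℕ} (c : Fin n → ℝ) {p : ℕ} (hp : p.Prime) : 0 ≤ loc1 c p := by
  have hp1 : (1 : ℝ) ≤ p := by exact_mod_cast hp.one_le
  unfold loc1
  have h1 : 0 ≤ 1 - 1 / (p : ℝ) := by
    have : 1 / (p : ℝ) ≤ 1 := by rw [div_le_one (by linarith)]; exact hp1
    linarith
  refine mul_nonneg (pow_nonneg h1 _) ?_
  refine intervalIntegral.integral_nonneg (by norm_num) fun θ _ => ?_
  refine one_div_nonneg.2 (mul_nonneg (by positivity) (Finset.prod_nonneg fun j _ => by positivity))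

lemma ep1_nonneg {n : ℕ} (c : Fin n → ℝ) (p : ℕ) : 0 ≤ ep1 c p := by
  unfold ep1
  refine mul_nonneg (Finset.prod_nonneg fun j _ => by positivity)
    (Finset.prod_nonneg fun i _ => Finset.prod_nonneg fun j _ => by positivity)

/-- the factors indexed by all natural numbers -/
def gg {n : ℕ} (c : Fin n → ℝ) (m : ℕ) : ℝ := if m.Prime then loc1 c m * ep1 c m else 1

lemma gg_prod {n : ℕ} (c : Fin n → ℝ) (N : ℕ) :
    ∏ p ∈ (Finset.range N).filter Nat.Prime, loc1 c p * ep1 c p = ∏ m ∈ Finset.range N, gg c m := by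
  unfold gg
  rw [Finset.prod_filter]

lemma AA_eq {n : ℕ} (c : Fin n → ℝ) : AA1 c = ∏' m : ℕ, gg c m := by
  unfold AA1
  have h := tprod_subtype {m : ℕ | m.Prime} (fun p : ℕ => loc1 c p * ep1 c p)
  have e : (∏' p : Nat.Primes, loc1 c p * ep1 c p) =
      ∏' x : ({m : ℕ | m.Prime} : Set ℕ), loc1 c (x : ℕ) * ep1 c (x : ℕ) := rfl
  rw [e, h]
  refine tprod_congr fun m => ?_
  unfold gg
  by_cases hm : m.Prime
  · rw [if_pos hm, Set.mulIndicator_of_mem (by exact hm)]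
  · rw [if_neg hm, Set.mulIndicator_of_notMem (by exact hm)]

end

end Aa1aux

open Finset Filter Topology MeasureTheory Complex Aa1aux in
theorem t_AA1 (h : S_LOC1) : S_AA1 := by
  intro n
  obtain ⟨C, hC, hf⟩ := fac h n
  refine ⟨C + Real.exp (2 * C) + 2 * C * Real.exp (4 * C), by positivity, ?_⟩
  intro c
  have hg : ∀ m : ℕ, |gg c m - 1| ≤ C * ((m : ℝ) ^ 2)⁻¹ := by
    intro m
    unfold gg
    split_ifs with hm
    · rw [← div_eq_mul_inv]; exact hf m hm c
    · rw [sub_self, abs_zero]; positivity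
  have hg0 : ∀ m : ℕ, 0 ≤ gg c m := by
    intro m
    unfold gg
    split_ifs with hm
    · exact mul_nonneg (loc1_nonneg c hm) (ep1_nonneg c m)
    · norm_num
  have hsum : Summable fun m : ℕ => ‖gg c m - 1‖ := by
    refine Summable.of_nonneg_of_le (fun m => norm_nonneg _) (fun m => ?_)
      ((Real.summable_nat_pow_inv.2 (by norm_num : 1 < 2)).mul_left C)
    rw [Real.norm_eq_abs]
    exact hg m
  have hmul : Multipliable (gg c) := by
    have := multipliable_one_add_of_summable hsum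
    simpa using this
  have hlim : Tendsto (fun N => ∏ m ∈ Finset.range N, gg c m) atTop (𝓝 (AA1 c)) := by
    rw [AA_eq]
    exact hmul.hasProd.tendsto_prod_nat
  have hprod1 : ∀ s : Finset ℕ, |∏ m ∈ s, gg c m - 1| ≤ Real.exp (C * ∑ m ∈ s, ((m : ℝ) ^ 2)⁻¹) - 1 := by
    intro s
    have h1 := Finset.norm_prod_one_add_sub_one_le s (fun m => gg c m - 1)
    simp only [add_sub_cancel, Real.norm_eq_abs] at h1
    refine h1.trans ?_
    have h2 : ∑ m ∈ s, |gg c m - 1| ≤ C * ∑ m ∈ s, ((m : ℝ) ^ 2)⁻¹ := by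
      rw [Finset.mul_sum]
      exact Finset.sum_le_sum fun m _ => hg m
    have h3 := Real.exp_le_exp.2 h2
    linarith
  have hbd : ∀ N : ℕ, |∏ m ∈ Finset.range N, gg c m| ≤ Real.exp (2 * C) := by
    intro N
    have h1 := hprod1 (Finset.range N)
    have h2 : ∑ m ∈ Finset.range N, ((m : ℝ) ^ 2)⁻¹ ≤ 2 := by
      have h3 := sum_Ioo_inv_sq_le (α := ℝ) 0 N
      have h4 : ∑ m ∈ Finset.range N, ((m : ℝ) ^ 2)⁻¹ = ∑ m ∈ Finset.Ioo 0 N, ((m : ℝ) ^ 2)⁻¹ := by
        symm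
        refine Finset.sum_subset (fun m hm => ?_) (fun m hm hm' => ?_)
        · rw [Finset.mem_Ioo] at hm; rw [Finset.mem_range]; exact hm.2
        · rw [Finset.mem_range] at hm
          rw [Finset.mem_Ioo] at hm'
          have : m = 0 := by omega
          subst this; simp
      rw [h4]
      norm_num at h3
      exact h3
    have h5 : Real.exp (C * ∑ m ∈ Finset.range N, ((m : ℝ) ^ 2)⁻¹) ≤ Real.exp (2 * C) := by
      apply Real.exp_le_exp.2
      nlinarith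
    have h6 := abs_add_le (∏ m ∈ Finset.range N, gg c m - 1) 1
    rw [sub_add_cancel, abs_one] at h6
    linarith
  have hAA : |AA1 c| ≤ Real.exp (2 * C) :=
    le_of_tendsto hlim.abs (Eventually.of_forall hbd)
  have hE1 := Real.exp_pos (2 * C)
  have hE2 : 0 < 2 * C * Real.exp (4 * C) := by positivity
  refine ⟨fun p hp => ⟨mul_nonneg (loc1_nonneg c hp) (ep1_nonneg c p), ?_⟩, ?_, ?_, by linarith⟩
  · refine (hf p hp c).trans ?_
    gcongr
    linarith
  · intro y hy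
    rw [gg_prod]
    have hfl : 1 ≤ ⌊y⌋₊ := Nat.le_floor (by simpa using hy)
    have hy2 : y < (⌊y⌋₊ : ℝ) + 1 := Nat.lt_floor_add_one y
    have key : ∀ᶠ M in atTop, |∏ m ∈ Finset.range (⌊y⌋₊ + 1), gg c m - ∏ m ∈ Finset.range M, gg c m| ≤
        2 * C * Real.exp (4 * C) / y := by
      filter_upwards [eventually_ge_atTop (⌊y⌋₊ + 1)] with M hM
      rw [← Finset.prod_range_mul_prod_Ico _ hM]
      set P := ∏ m ∈ Finset.range (⌊y⌋₊ + 1), gg c m
      set Q := ∏ m ∈ Finset.Ico (⌊y⌋₊ + 1) M, gg c m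
      have e : P - P * Q = -(P * (Q - 1)) := by ring
      rw [e, abs_neg, abs_mul]
      have h1 := hprod1 (Finset.Ico (⌊y⌋₊ + 1) M)
      have h2 : ∑ m ∈ Finset.Ico (⌊y⌋₊ + 1) M, ((m : ℝ) ^ 2)⁻¹ ≤ 2 / y := by
        have h3 := sum_Ioo_inv_sq_le (α := ℝ) ⌊y⌋₊ M
        have h4 : Finset.Ico (⌊y⌋₊ + 1) M = Finset.Ioo ⌊y⌋₊ M := by
          ext m; simp [Finset.mem_Ico, Finset.mem_Ioo]
        rw [h4]
        refine h3.trans ?_
        apply div_le_div_of_nonneg_left (by norm_num) (by linarith) hy2.le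
      have h5 : Real.exp (C * ∑ m ∈ Finset.Ico (⌊y⌋₊ + 1) M, ((m : ℝ) ^ 2)⁻¹) - 1 ≤
          2 * C / y * Real.exp (2 * C) := by
        set t := C * ∑ m ∈ Finset.Ico (⌊y⌋₊ + 1) M, ((m : ℝ) ^ 2)⁻¹ with ht
        have ht0 : 0 ≤ t := by positivity
        have ht1 : t ≤ 2 * C / y := by
          calc t ≤ C * (2 / y) := by rw [ht]; gcongr
            _ = _ := by ring
        have ht2 : t ≤ 2 * C := ht1.trans (div_le_self (by positivity) hy)
        have h6 : Real.exp t - 1 ≤ t * Real.exp t := by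
          have h7 : 1 - t ≤ Real.exp (-t) := by
            have := Real.add_one_le_exp (-t); linarith
          have h8 : Real.exp (-t) * Real.exp t = 1 := by rw [← Real.exp_add]; simp
          nlinarith [Real.exp_pos t]
        calc Real.exp t - 1 ≤ t * Real.exp t := h6
          _ ≤ 2 * C / y * Real.exp (2 * C) := by
            have := Real.exp_le_exp.2 ht2
            gcongr
      calc |P| * |Q - 1| ≤ Real.exp (2 * C) * (2 * C / y * Real.exp (2 * C)) := by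
            refine mul_le_mul (hbd _) (h1.trans h5) (abs_nonneg _) (Real.exp_pos _).le
        _ = 2 * C * (Real.exp (2 * C) * Real.exp (2 * C)) / y := by ring
        _ = 2 * C * Real.exp (4 * C) / y := by
          rw [← Real.exp_add]
          congr 3
          ring
    have h9 : |∏ m ∈ Finset.range (⌊y⌋₊ + 1), gg c m - AA1 c| ≤ 2 * C * Real.exp (4 * C) / y :=
      le_of_tendsto (tendsto_const_nhds.sub hlim).abs key
    refine h9.trans ?_
    gcongr
    linarith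
  · intro y _
    rw [gg_prod]
    refine ⟨Finset.prod_nonneg fun m _ => hg0 m, ?_⟩
    have := (le_abs_self _).trans (hbd (⌊y⌋₊ + 1))
    linarith


end Pool.Agent.N879.PZ
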