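import Pool.Agent.N879.PZ.Stm

set_option autoImplicit false

/-!
Project PZ (helper879), tasks CTG and FUB (helper402): continuity in the shifts, mean values over the shifts.
-/

namespace Pool.Agent.N879.PZ

open Complex Filter Topology MeasureTheory Set
open Pool.Agent.Y969.GP (mB)

namespace Ctgaux

theorem cont_prod {n : ℕ} (g : Fin n → ℝ → ℂ) (hg : ∀ j, Continuous (g j)) :
    Continuous fun z : (Fin n → ℝ) × ℝ => ∏ j, g j (z.2 + z.1 j) := by
  refine continuous_finsetProd _ fun j _ => (hg j).comp ?_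
  exact continuous_snd.add ((continuous_apply j).comp continuous_fst)

theorem bd {n : ℕ} (g : Fin n → ℝ → ℂ) (hg : ∀ j, Continuous (g j)) (K : Set (Fin n → ℝ)) (hK : IsCompact K)
    (a b : ℝ) : ∃ B : ℝ, ∀ c ∈ K, ∀ t ∈ Icc a b, ‖∏ j, g j (t + c j)‖ ≤ B := by
  obtain ⟨B, hB⟩ := (hK.prod (isCompact_Icc (a := a) (b := b))).exists_bound_of_continuousOn
    (cont_prod g hg).continuousOn
  exact ⟨B, fun c hc t ht => hB (c, t) ⟨hc, ht⟩⟩

theorem mB_eq (n : ℕ) (U : ℝ) :
    mB n 0 U = (volume : Measure (Fin n → ℝ)).restrict (Set.univ.pi fun _ => Icc (0 : ℝ) U) := by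
  unfold Pool.Agent.Y969.GP.mB
  rw [← Measure.restrict_pi_pi]
  rfl

theorem D_fin {a b : ℝ} {D : Set ℝ} (hD : D ⊆ Icc a b) : IsFiniteMeasure (volume.restrict D) := by
  refine ⟨?_⟩
  rw [Measure.restrict_apply_univ]
  exact (measure_mono hD).trans_lt (by rw [Real.volume_Icc]; exact ENNReal.ofReal_lt_top)

end Ctgaux

/-- CTG -/
theorem t_CTG : S_CTG := by
  intro n a b D w g _ hDm hD hw hg
  obtain ⟨hwm, M, hM⟩ := hw
  have := Ctgaux.D_fin hD
  rw [continuous_iff_continuousAt]
  intro c0
  obtain ⟨B, hB⟩ := Ctgaux.bd g hg (Metric.closedBall c0 1) (isCompact_closedBall c0 1) a b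
  refine continuousAt_of_dominated (bound := fun _ => M * B) ?_ ?_ (integrable_const _) ?_
  · refine Eventually.of_forall fun c => ?_
    refine (hwm.mul ?_).aestronglyMeasurable
    exact ((Ctgaux.cont_prod g hg).comp (continuous_const.prodMk continuous_id)).measurable
  · filter_upwards [Metric.closedBall_mem_nhds c0 one_pos] with c hc
    rw [ae_restrict_iff' hDm]
    refine Eventually.of_forall fun t ht => ?_
    rw [norm_mul]
    have h1 := hM t (hD ht)
    exact mul_le_mul h1 (hB c hc t (hD ht)) (norm_nonneg _) ((norm_nonneg _).trans h1)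
  · refine Eventually.of_forall fun t => ?_
    refine (continuous_const.mul ?_).continuousAt
    exact (Ctgaux.cont_prod g hg).comp (continuous_id.prodMk continuous_const)

/-- FUB -/
theorem t_FUB : S_FUB := by
  intro n a b U D w g _ hU hDm hD hw hg
  obtain ⟨hwm, M, hM⟩ := hw
  have := Ctgaux.D_fin hD
  have hbox : MeasurableSet (Set.univ.pi fun _ : Fin n => Icc (0 : ℝ) U) :=
    MeasurableSet.univ_pi fun _ => measurableSet_Icc
  have hcomp : IsCompact (Set.univ.pi fun _ : Fin n => Icc (0 : ℝ) U) := isCompact_univ_pi fun _ => isCompact_Icc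
  have hfin : IsFiniteMeasure (mB n 0 U) := by
    rw [Ctgaux.mB_eq]
    exact ⟨by rw [Measure.restrict_apply_univ]; exact hcomp.measure_lt_top⟩
  obtain ⟨B, hB⟩ := Ctgaux.bd g hg _ hcomp a b
  let f : (Fin n → ℝ) → ℝ → ℝ := fun c t => ‖w t‖ * ∏ j, ‖g j (t + c j)‖
  have hfeq : ∀ c t, ‖w t * ∏ j, g j (t + c j)‖ = f c t := by
    intro c t
    simp only [f, norm_mul, norm_prod]
  have hint : Integrable (Function.uncurry f) ((mB n 0 U).prod (volume.restrict D)) := by
    have hms : Measurable (Function.uncurry f) := by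
      have h1 : Measurable fun z : (Fin n → ℝ) × ℝ => ‖w z.2 * ∏ j, g j (z.2 + z.1 j)‖ :=
        ((hwm.comp measurable_snd).mul (Ctgaux.cont_prod g hg).measurable).norm
      have h2 : Function.uncurry f = fun z : (Fin n → ℝ) × ℝ => ‖w z.2 * ∏ j, g j (z.2 + z.1 j)‖ :=
        funext fun z => (hfeq z.1 z.2).symm
      rw [h2]
      exact h1
    refine Integrable.of_bound hms.aestronglyMeasurable (M * B) ?_
    rw [Ctgaux.mB_eq, Measure.prod_restrict, ae_restrict_iff' (hbox.prod hDm)]
    refine Eventually.of_forall fun z hz => ?_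
    rw [Real.norm_eq_abs, abs_of_nonneg (by simp only [Function.uncurry, f]; positivity)]
    simp only [Function.uncurry]
    rw [← hfeq, norm_mul]
    have h1 := hM z.2 (hD hz.2)
    exact mul_le_mul h1 (hB z.1 hz.1 z.2 (hD hz.2)) (norm_nonneg _) ((norm_nonneg _).trans h1)
  have h1 : ∫ c, ‖∫ t in D, w t * ∏ j, g j (t + c j)‖ ∂(mB n 0 U) ≤
      ∫ c, (∫ t in D, f c t) ∂(mB n 0 U) := by
    refine integral_mono_of_nonneg (Eventually.of_forall fun c => norm_nonneg _) hint.integral_prod_left
      (Eventually.of_forall fun c => ?_)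
    simp only
    refine (norm_integral_le_integral_norm _).trans (le_of_eq ?_)
    exact integral_congr_ae (Eventually.of_forall fun t => hfeq c t)
  refine h1.trans (le_of_eq ?_)
  rw [integral_integral_swap hint]
  refine integral_congr_ae (Eventually.of_forall fun t => ?_)
  simp only [f]
  rw [integral_const_mul]
  congr 1
  unfold Pool.Agent.Y969.GP.mB
  rw [integral_fintype_prod_eq_prod (fun j x => ‖g j (t + x)‖)]
  refine Finset.prod_congr rfl fun j _ => ?_
  rw [intervalIntegral.integral_of_le hU.le, integral_Icc_eq_integral_Ioc]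

end Pool.Agent.N879.PZ
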