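import Pool.Agent.N879.PZ.Stm
import Pool.Agent.Y978.SX.EUL
import Pool.Agent.Y953.SX.Ort
import Pool.Agent.Y76.SX.ARI
import Pool.Agent.Y379.GP.Sp

set_option autoImplicit false

/-!
# Project PZ, part EUL1: the truncated main term against the product of the local densities
-/

namespace Pool.Agent.N879.PZ

open Finset Filter Topology MeasureTheory Complex
open Pool.Agent.Y969.GP (ht lam FR PS mB)
open Pool.Agent.W184.NZ (w1)
open Pool.Agent.Y978.SX (ex ex_norm ex_cont sm sm_cont sm_bd sm_int mass Tq mem_FR mem_pi Tq_eq Tq_eq2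
  Tq_one ht_le_Tq err_tendsto W_bd)

noncomputable section

namespace Eul1aux

/-- the weight of a tuple -/
def wq1 {n : ℕ} (q : Fin n → ℕ × ℕ) : ℝ := w1 (∏ j, (q j).1, ∏ j, (q j).2)

lemma wq1_sq {n Z : ℕ} {q : Fin n → ℕ × ℕ} (hq : q ∈ Fintype.piFinset (fun _ : Fin n => FR Z)) :
    wq1 q ^ 2 = Tq q ^ (-2 : ℝ) * (Nat.gcd (∏ j, (q j).1) (∏ j, (q j).2) : ℝ) ^ 2 := by
  have hT : 0 < Tq q := lt_of_lt_of_le one_pos (Tq_one hq)
  unfold wq1 w1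
  rw [Real.rpow_neg hT.le, Real.rpow_two]
  simp only
  rw [div_pow, ← Tq_eq, div_eq_inv_mul]

lemma sumw1 (h4 : Pool.Agent.Y969.SM.S_ARI) (n : ℕ) : ∃ C : ℝ, 0 < C ∧ ∀ Z : ℕ,
    (∑ q ∈ Fintype.piFinset (fun _ : Fin n => FR Z), wq1 q ^ 2 ≤ C) ∧
    ∀ Y : ℕ, 1 ≤ Y → ∑ q ∈ Fintype.piFinset (fun _ : Fin n => FR Z),
      (if (Y : ℝ) < Tq q then wq1 q ^ 2 else 0) ≤ C * (Y : ℝ) ^ (-(1 / 10) : ℝ) := by
  obtain ⟨C2, hC2, h2⟩ := h4 n (1 / 5) (by norm_num)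
  refine ⟨C2, hC2, fun Z => ⟨?_, fun Y hY => ?_⟩⟩
  · refine le_trans (sum_le_sum (g := fun q => Tq q ^ (-2 + 1 / 5 : ℝ) *
      (Nat.gcd (∏ j, (q j).1) (∏ j, (q j).2) : ℝ) ^ 2) fun q hq => ?_) (h2 Z)
    rw [wq1_sq hq]
    have h3 : Tq q ^ (-2 : ℝ) ≤ Tq q ^ (-2 + 1 / 5 : ℝ) :=
      Real.rpow_le_rpow_of_exponent_le (Tq_one hq) (by norm_num)
    gcongr
  · have hY0 : (0 : ℝ) < Y := by exact_mod_cast hY
    refine le_trans (sum_le_sum (g := fun q => (Y : ℝ) ^ (-(1 / 10) : ℝ) *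
      (Tq q ^ (-2 + 1 / 5 : ℝ) *
      (Nat.gcd (∏ j, (q j).1) (∏ j, (q j).2) : ℝ) ^ 2)) fun q hq => ?_) ?_
    · have hT : 0 < Tq q := lt_of_lt_of_le one_pos (Tq_one hq)
      split_ifs with h
      · rw [wq1_sq hq]
        have h3 : Tq q ^ (-2 : ℝ) ≤
            (Y : ℝ) ^ (-(1 / 10) : ℝ) * Tq q ^ (-2 + 1 / 5 : ℝ) := by
          have h6 : Tq q ^ (-2 : ℝ) =
              Tq q ^ (-(1 / 5) : ℝ) * Tq q ^ (-2 + 1 / 5 : ℝ) := by
            rw [← Real.rpow_add hT]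
            norm_num
          rw [h6]
          refine mul_le_mul_of_nonneg_right ?_ (by positivity)
          calc Tq q ^ (-(1 / 5) : ℝ) ≤ Tq q ^ (-(1 / 10) : ℝ) :=
                Real.rpow_le_rpow_of_exponent_le (Tq_one hq) (by norm_num)
            _ ≤ (Y : ℝ) ^ (-(1 / 10) : ℝ) :=
                Real.rpow_le_rpow_of_nonpos hY0 h.le (by norm_num)
        calc Tq q ^ (-2 : ℝ) * (Nat.gcd (∏ j, (q j).1) (∏ j, (q j).2) : ℝ) ^ 2 ≤
            (Y : ℝ) ^ (-(1 / 10) : ℝ) * Tq q ^ (-2 + 1 / 5 : ℝ) *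
              (Nat.gcd (∏ j, (q j).1) (∏ j, (q j).2) : ℝ) ^ 2 := by gcongr
          _ = _ := by ring
      · positivity
    · rw [← mul_sum]
      calc (Y : ℝ) ^ (-(1 / 10) : ℝ) * ∑ q ∈ Fintype.piFinset (fun _ : Fin n => FR Z),
            (Tq q ^ (-2 + 1 / 5 : ℝ) * (Nat.gcd (∏ j, (q j).1) (∏ j, (q j).2) : ℝ) ^ 2) ≤
          (Y : ℝ) ^ (-(1 / 10) : ℝ) * C2 :=
            mul_le_mul_of_nonneg_left (h2 Z) (by positivity)
        _ = _ := by ring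

/-- the truncated main term as a sum over larger tuples -/
lemma BY1_eq {n Y W : ℕ} (hYW : Y ≤ W) (c : Fin n → ℝ) :
    BY1 n Y c = sm W (fun q => if Tq q ≤ Y then (wq1 q : ℂ) else 0) c := by
  unfold BY1 sm
  simp_rw [ite_mul, zero_mul]
  rw [← Finset.sum_filter]
  refine Finset.sum_congr ?_ fun q _ => rfl
  ext q
  simp only [Finset.mem_filter, Fintype.mem_piFinset]
  constructor
  · rintro ⟨h1, h2⟩
    refine ⟨fun j => ?_, h2⟩
    have h3 := mem_FR.1 (h1 j)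
    exact mem_FR.2 ⟨⟨⟨h3.1.1.1, h3.1.1.2.trans hYW⟩, h3.1.2.1, h3.1.2.2.trans hYW⟩,
      h3.2.1.trans hYW, h3.2.2⟩
  · rintro ⟨h1, h2⟩
    refine ⟨fun j => ?_, h2⟩
    have h3 := mem_FR.1 (h1 j)
    have h4 : ht (q j) ≤ Y := (ht_le_Tq (Fintype.mem_piFinset.2 h1) j).trans h2
    have h5 : (q j).1 * (q j).2 ≤ Y := by
      unfold ht at h4
      exact_mod_cast h4
    exact mem_FR.2 ⟨⟨⟨h3.1.1.1, le_trans (Nat.le_mul_of_pos_right _ h3.1.2.1) h5⟩,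
      h3.1.2.1, le_trans (Nat.le_mul_of_pos_left _ h3.1.1.1) h5⟩, h5, h3.2.2⟩

end Eul1aux

open Eul1aux

theorem t_EUL1 (h1 : S_LOC1) (h2 : S_EUT1) : S_EUL1 := by
  classical
  have h3 : Pool.Agent.Y969.SM.S_ORT := Pool.Agent.Y953.SX.t_ORT Pool.Agent.Y379.GP.t_SP
  have h4 : Pool.Agent.Y969.SM.S_ARI := Pool.Agent.Y76.SX.t_ARI
  intro n ε hε
  obtain ⟨Cw, hCw, hw⟩ := sumw1 h4 n
  obtain ⟨Ce, hCe, he⟩ := h2 n
  obtain ⟨δ, hδ⟩ : ∃ δ : ℝ, δ = ε / 4 := ⟨_, rfl⟩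
  have hδ0 : 0 < δ := by rw [hδ]; positivity
  have hY : ∀ᶠ Y : ℕ in atTop, 1 / δ * (2 * (Cw * (Y : ℝ) ^ (-(1 / 10) : ℝ))) ≤ ε / 4 := by
    have h6 : Tendsto (fun Y : ℕ => 1 / δ * (2 * (Cw * (Y : ℝ) ^ (-(1 / 10) : ℝ)))) atTop
        (𝓝 (1 / δ * (2 * (Cw * 0)))) := by
      refine Tendsto.const_mul _ (Tendsto.const_mul _ (Tendsto.const_mul _ ?_))
      exact (tendsto_rpow_neg_atTop (by norm_num : (0 : ℝ) < 1 / 10)).comp
        tendsto_natCast_atTop_atTop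
    rw [mul_zero, mul_zero, mul_zero] at h6
    exact h6.eventually_le_const (by positivity)
  obtain ⟨Y₀, hY₀⟩ := eventually_atTop.1 (hY.and (eventually_ge_atTop 1))
  refine ⟨Y₀, fun Y hYY => ?_⟩
  obtain ⟨hY1, hY2⟩ := hY₀ Y hYY
  have hβ0 : 0 < 1 / (4 * (n : ℝ) + 8) := by positivity
  have hfl : Tendsto (fun U : ℝ => ⌊Real.log U⌋₊) atTop atTop :=
    tendsto_nat_floor_atTop.comp Real.tendsto_log_atTop
  have hfW : Tendsto (fun U : ℝ => ⌊U ^ (1 / (4 * (n : ℝ) + 8))⌋₊) atTop atTop :=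
    tendsto_nat_floor_atTop.comp (tendsto_rpow_atTop hβ0)
  have hE := err_tendsto Ce _ hCe hβ0
  filter_upwards [eventually_ge_atTop 16, hfl.eventually (eventually_ge_atTop Y),
    hfW.eventually (eventually_ge_atTop Y),
    hE.eventually_le_const (show (0 : ℝ) < ε / 4 by positivity)] with U hU hy hWY hp2
  have hWb := W_bd n hU
  have hU0 : 0 ≤ U := by linarith
  obtain ⟨y, hyd⟩ : ∃ y : ℕ, y = ⌊Real.log U⌋₊ := ⟨_, rfl⟩
  obtain ⟨W, hWd⟩ : ∃ W : ℕ, W = ⌊U ^ (1 / (4 * (n : ℝ) + 8))⌋₊ := ⟨_, rfl⟩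
  rw [← hyd] at hy hp2
  rw [← hWd] at hWY hp2 hWb
  have hy1 : 1 ≤ y := hY2.trans hy
  have hW1 : 1 ≤ W := hY2.trans hWY
  obtain ⟨E, hEd⟩ : ∃ E : ℝ, E = (W : ℝ) ^ (-(1 / 4) : ℝ) * Real.exp (Ce * √(y : ℝ)) := ⟨_, rfl⟩
  rw [← hEd] at hp2
  -- the two sums
  obtain ⟨cond, hcond⟩ : ∃ cond : (Fin n → ℕ × ℕ) → Prop, cond = fun q => ∏ j, ht (q j) ≤ W ∧
    ∀ p : ℕ, p.Prime → p ∣ ∏ j, ((q j).1 * (q j).2) → p ≤ y := ⟨_, rfl⟩
  obtain ⟨aD, haD⟩ : ∃ aD : (Fin n → ℕ × ℕ) → ℂ, aD = fun q => if cond q then (wq1 q : ℂ) else 0 :=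
    ⟨_, rfl⟩
  obtain ⟨aB, haB⟩ : ∃ aB : (Fin n → ℕ × ℕ) → ℂ, aB = fun q => if Tq q ≤ Y then (wq1 q : ℂ) else 0 :=
    ⟨_, rfl⟩
  obtain ⟨L, hL⟩ : ∃ L : (Fin n → ℝ) → ℂ, L = fun c =>
    ∏ p ∈ (Finset.range (y + 1)).filter Nat.Prime, ∑' k : Fin n → ℤ, (lc1 p k : ℂ) *
      ∏ j, cexp (-(I * ((c j * Real.log p * k j : ℝ) : ℂ))) := ⟨_, rfl⟩
  have hSS : ∀ c : Fin n → ℝ, ((SS1 (Real.log U) c : ℝ) : ℂ) = L c := by
    intro c
    unfold SS1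
    rw [ofReal_prod, ← hyd, prod_congr rfl (fun p hp => (h1 n p (mem_filter.1 hp).2 c).2), hL]
  have hDL : ∀ c : Fin n → ℝ, ‖L c - sm W aD c‖ ≤ E := by
    intro c
    have h6 := he y W c hy1 hW1
    rw [hEd, hL]
    refine le_trans (le_of_eq ?_) h6
    congr 2
    rw [haD]
    unfold sm
    simp_rw [ite_mul, zero_mul]
    rw [← Finset.sum_filter, hcond]
    refine Finset.sum_congr ?_ fun q _ => rfl
    ext q
    simp only [Finset.mem_filter]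
  have hX : ∀ c : Fin n → ℝ, BY1 n Y c - sm W aD c = sm W (fun q => aB q - aD q) c := by
    intro c
    rw [BY1_eq hWY, haB]
    unfold sm
    rw [← Finset.sum_sub_distrib]
    refine Finset.sum_congr rfl fun q _ => ?_
    ring
  have hXs : ∫ c, ‖sm W (fun q => aB q - aD q) c‖ ^ 2 ∂(mB n 0 U) ≤
      2 * U ^ n * (Cw * (Y : ℝ) ^ (-(1 / 10) : ℝ)) := by
    refine (h3 n W U (fun q => aB q - aD q) hW1 hWb).trans ?_
    refine mul_le_mul_of_nonneg_left ?_ (by positivity)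
    refine le_trans (sum_le_sum fun q hq => ?_) ((hw W).2 Y hY2)
    rw [haB, haD]
    by_cases hq1 : Tq q ≤ Y
    · have hc : cond q := by
        rw [hcond]
        refine ⟨hq1.trans (by exact_mod_cast hWY), fun p hp hpd => ?_⟩
        have hne : (∏ j, ((q j).1 * (q j).2)) ≠ 0 := by
          refine Finset.prod_ne_zero_iff.2 fun j _ => ?_
          have := mem_pi hq j
          exact Nat.mul_ne_zero (by omega) (by omega)
        have h6 := Nat.le_of_dvd (Nat.pos_of_ne_zero hne) hpd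
        rw [Tq_eq2] at hq1
        have h7 : (∏ j, ((q j).1 * (q j).2)) ≤ Y := by exact_mod_cast hq1
        omega
      simp only [if_pos hq1, if_pos hc, sub_self, norm_zero]
      rw [if_neg (not_lt.2 hq1)]
      norm_num
    · simp only [if_neg hq1]
      rw [if_pos (not_le.1 hq1), zero_sub, norm_neg]
      split_ifs
      · rw [Complex.norm_real, Real.norm_eq_abs, sq_abs]
      · rw [norm_zero, zero_pow two_ne_zero]
        positivity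
  have hpt : ∀ c : Fin n → ℝ, ‖BY1 n Y c - ((SS1 (Real.log U) c : ℝ) : ℂ)‖ ≤
      (δ + E) + 1 / δ * ‖sm W (fun q => aB q - aD q) c‖ ^ 2 := by
    intro c
    have e : BY1 n Y c - ((SS1 (Real.log U) c : ℝ) : ℂ) =
        sm W (fun q => aB q - aD q) c - (L c - sm W aD c) := by
      rw [← hX, hSS]
      ring
    rw [e]
    refine (norm_sub_le _ _).trans ?_
    have h7 := hDL c
    obtain ⟨x, hx⟩ : ∃ x : ℝ, x = ‖sm W (fun q => aB q - aD q) c‖ := ⟨_, rfl⟩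
    rw [← hx]
    have h10 : x ≤ δ + 1 / δ * x ^ 2 := by
      have h11 : δ + 1 / δ * x ^ 2 - x = ((x - δ / 2) ^ 2 + 3 / 4 * δ ^ 2) / δ := by
        field_simp
        ring
      have h12 : 0 ≤ ((x - δ / 2) ^ 2 + 3 / 4 * δ ^ 2) / δ := by positivity
      linarith
    linarith
  have hi1 := sm_int W (fun q => aB q - aD q) U (n := n)
  have hmain : ∫ c, ‖BY1 n Y c - ((SS1 (Real.log U) c : ℝ) : ℂ)‖ ∂(mB n 0 U) ≤
      ∫ c, ((δ + E) + 1 / δ * ‖sm W (fun q => aB q - aD q) c‖ ^ 2) ∂(mB n 0 U) :=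
    integral_mono_of_nonneg (ae_of_all _ fun c => norm_nonneg _)
      ((integrable_const _).add (hi1.const_mul _)) (ae_of_all _ hpt)
  rw [integral_add (integrable_const _) (hi1.const_mul _), integral_const_mul,
    integral_const, mass n hU0, smul_eq_mul] at hmain
  have hUn : 0 ≤ U ^ n := by positivity
  have h6 : 1 / δ * ∫ c, ‖sm W (fun q => aB q - aD q) c‖ ^ 2 ∂(mB n 0 U) ≤ U ^ n * (ε / 4) := by
    calc 1 / δ * ∫ c, ‖sm W (fun q => aB q - aD q) c‖ ^ 2 ∂(mB n 0 U) ≤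
          1 / δ * (2 * U ^ n * (Cw * (Y : ℝ) ^ (-(1 / 10) : ℝ))) := by gcongr
      _ = U ^ n * (1 / δ * (2 * (Cw * (Y : ℝ) ^ (-(1 / 10) : ℝ)))) := by ring
      _ ≤ _ := by gcongr
  have h8 : U ^ n * (δ + E) + U ^ n * (ε / 4) ≤ ε * U ^ n := by
    have h9 : U ^ n * (δ + E) + U ^ n * (ε / 4) = U ^ n * (ε / 4 + E + ε / 4) := by
      rw [hδ]
      ring
    rw [h9, mul_comm ε]
    refine mul_le_mul_of_nonneg_left ?_ hUn
    linarith
  linarith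

end

end Pool.Agent.N879.PZ
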