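import Pool.Agent.N879.PZ.Stm
import Pool.Agent.Y983.SX.EUT
import Pool.Agent.Y686.SX.Lsm

/-!
Project PZ, task EUT1 (helper642): bounds for the local sums without the linear factor, and the product of
the local sums against the truncated sum over the tuples. Adapted from `Pool.Agent.Y686.SX.Lsm` (helper686)
and `Pool.Agent.Y983.SX.EUT` (helper983).
-/

set_option autoImplicit false

namespace Pool.Agent.N879.PZ

open Finset Filter Topology MeasureTheory Complex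
open Pool.Agent.Y969.GP (ff ht lam FR PX cr V mB)
open Pool.Agent.Y969.SM (kx lc)
open Pool.Agent.W184.NZ (w1)
open Pool.Agent.Y983.SX.EUT (PP PP_prime mem_PP kk L1 L1log Q fac_zero fac_prod prime_dvd_prod
  natAbs_kk ht_q exp_q BR kk_inj fac_prodpow dvd_prodpow kk_surj Q_of_mem mem_of_Q SZ BR_tendsto
  sum_inv_sqrt)

noncomputable section

namespace Eut1aux

theorem lc1_nonneg {n : ℕ} {p : ℕ} (_hp : p.Prime) (k : Fin n → ℤ) : 0 ≤ lc1 p k := by
  unfold lc1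
  positivity

theorem lc1_le {n : ℕ} {p : ℕ} (hp : p.Prime) (k : Fin n → ℤ) : lc1 p k ≤ lc p k := by
  unfold lc1 lc
  have h1 : (1:ℝ) ≤ p := by exact_mod_cast hp.one_le
  have h2 : 0 ≤ ((p:ℝ) - 1) / ((p:ℝ) + 1) := div_nonneg (by linarith) (by linarith)
  have h3 : (0 : ℝ) ≤ ((∑ j, k j).natAbs : ℝ) := Nat.cast_nonneg _
  apply le_mul_of_one_le_right (by positivity)
  nlinarith [mul_nonneg h3 h2]

end Eut1aux

open Eut1aux

/-- bounds for the local sums -/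
theorem t_LSM1 : S_LSM1 := by
  intro n
  obtain ⟨C, hC, h⟩ := Pool.Agent.Y686.SX.t_LSM n
  refine ⟨C, hC, fun p hp => ?_⟩
  obtain ⟨h1, h2⟩ := h p hp
  have hle : ∀ k : Fin n → ℤ, lc1 p k * (p : ℝ) ^ ((1 / 4 : ℝ) * ∑ j, ((k j).natAbs : ℝ)) ≤
      lc p k * (p : ℝ) ^ ((1 / 4 : ℝ) * ∑ j, ((k j).natAbs : ℝ)) := fun k =>
    mul_le_mul_of_nonneg_right (lc1_le hp k) (Real.rpow_nonneg (Nat.cast_nonneg _) _)
  have hs : Summable fun k : Fin n → ℤ => lc1 p k * (p : ℝ) ^ ((1 / 4 : ℝ) * ∑ j, ((k j).natAbs : ℝ)) :=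
    Summable.of_nonneg_of_le (fun k => mul_nonneg (lc1_nonneg hp k)
      (Real.rpow_nonneg (Nat.cast_nonneg _) _)) hle h1
  exact ⟨hs, (hs.tsum_le_tsum hle h1).trans h2⟩

namespace Eut1aux

theorem w1_eq {P : Finset ℕ} {H L : ℕ} (hH : H ≠ 0) (hL : L ≠ 0)
    (hHP : ∀ p, p.Prime → p ∣ H → p ∈ P) (hLP : ∀ p, p.Prime → p ∣ L → p ∈ P) :
    w1 (H, L) = ∏ p ∈ P, ((p : ℝ) ^ (min (H.factorization p) (L.factorization p)) /
      ((p : ℝ) ^ H.factorization p * (p : ℝ) ^ L.factorization p)) := by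
  rw [Finset.prod_div_distrib, Finset.prod_mul_distrib]
  unfold w1
  have hg : Nat.gcd H L ≠ 0 := Nat.gcd_ne_zero_left hH
  rw [← L1 hH hHP, ← L1 hL hLP]
  congr 1
  rw [L1 hg (fun p hp hd => hHP p hp (hd.trans (Nat.gcd_dvd_left H L)))]
  apply Finset.prod_congr rfl
  intro p _
  rw [Nat.factorization_gcd hH hL]
  rfl

theorem lc1_eq {n : ℕ} {p : ℕ} (hp : p.Prime) (A B : Fin n → ℕ) (hAB : ∀ j, A j = 0 ∨ B j = 0) :
    lc1 p (fun j => (A j : ℤ) - (B j : ℤ)) =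
      (p : ℝ) ^ (min (∑ j, A j) (∑ j, B j)) / ((p : ℝ) ^ (∑ j, A j) * (p : ℝ) ^ (∑ j, B j)) := by
  unfold lc1
  have e1 : ∑ j, ((A j : ℤ) - (B j : ℤ)) = ((∑ j, A j : ℕ) : ℤ) - ((∑ j, B j : ℕ) : ℤ) := by
    rw [Finset.sum_sub_distrib]
    push_cast
    rfl
  have e2 : ∑ j, ((A j : ℤ) - (B j : ℤ)).natAbs = (∑ j, A j) + ∑ j, B j := by
    rw [← Finset.sum_add_distrib]
    apply Finset.sum_congr rfl
    intro j _
    rcases hAB j with h | h <;> rw [h] <;> omega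
  have hp0 : (0:ℝ) < p := Nat.cast_pos.mpr hp.pos
  unfold kx
  rw [e2, e1]
  set a := ∑ j, A j
  set b := ∑ j, B j
  have h3 : (((a + b + ((a : ℤ) - (b : ℤ)).natAbs : ℕ) : ℝ)) = 2 * ((a : ℝ) + b) - 2 * (min a b : ℕ) := by
    have h4 : a + b + ((a : ℤ) - (b : ℤ)).natAbs + 2 * min a b = 2 * (a + b) := by omega
    have h5 : (((a + b + ((a : ℤ) - (b : ℤ)).natAbs + 2 * min a b : ℕ) : ℝ)) =
        ((2 * (a + b) : ℕ) : ℝ) := by rw [h4]
    push_cast at h5 ⊢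
    linarith
  rw [h3, ← pow_add, ← Real.rpow_natCast, ← Real.rpow_natCast, ← Real.rpow_sub hp0]
  congr 1
  push_cast
  ring

variable {n : ℕ} {P : Finset ℕ} {q : Fin n → ℕ × ℕ}

theorem w1_q (hPp : ∀ p ∈ P, p.Prime) (hq : Q P q) :
    w1 (∏ j, (q j).1, ∏ j, (q j).2) = ∏ p ∈ P, lc1 p (kk q p) := by
  rw [w1_eq (Finset.prod_ne_zero_iff.mpr fun j _ => (hq j).1)
    (Finset.prod_ne_zero_iff.mpr fun j _ => (hq j).2.1)
    (prime_dvd_prod fun j => (hq j).2.2.2.1) (prime_dvd_prod fun j => (hq j).2.2.2.2)]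
  apply Finset.prod_congr rfl
  intro p hp
  rw [fac_prod (fun j => (hq j).1), fac_prod (fun j => (hq j).2.1)]
  exact (lc1_eq (hPp p hp) _ _ fun j => fac_zero (hPp p hp) (hq j).2.2.1).symm

/-- the local terms -/
def av (c : Fin n → ℝ) (p : ℕ) (k : Fin n → ℤ) : ℂ :=
  (lc1 p k : ℂ) * ∏ j, cexp (-(I * ((c j * Real.log p * k j : ℝ) : ℂ)))

theorem val_q (hPp : ∀ p ∈ P, p.Prime) (hq : Q P q) (c : Fin n → ℝ) :
    (w1 (∏ j, (q j).1, ∏ j, (q j).2) : ℂ) * ∏ j, cexp (I * ((c j * lam (q j) : ℝ) : ℂ)) =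
      ∏ p ∈ P, av c p (kk q p) := by
  rw [w1_q hPp hq, exp_q hPp hq, Complex.ofReal_prod, ← Finset.prod_mul_distrib]
  rfl

open Classical in
/-- the truncated sum -/
def TS {n : ℕ} (y W : ℕ) (c : Fin n → ℝ) : ℂ :=
  ∑ q ∈ (Fintype.piFinset fun _ : Fin n => FR W).filter
        (fun q => ∏ j, ht (q j) ≤ W ∧ ∀ p : ℕ, p.Prime → p ∣ ∏ j, ((q j).1 * (q j).2) → p ≤ y),
      (w1 (∏ j, (q j).1, ∏ j, (q j).2) : ℂ) * ∏ j, cexp (I * ((c j * lam (q j) : ℝ) : ℂ))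

open Classical in
theorem finite_id {y W R : ℕ} (hR : W ≤ R) (c : Fin n → ℝ) :
    TS y W c = ∑ x ∈ (Fintype.piFinset fun _ : PP y => BR n R).filter (fun x => SZ x ≤ W),
      ∏ p : PP y, av c p (x p) := by
  unfold TS
  have hPp : ∀ p ∈ PP y, p.Prime := fun p hp => PP_prime hp
  have hsz : ∀ q : Fin n → ℕ × ℕ, Q (PP y) q → SZ (fun p : PP y => kk q (p : ℕ)) = ∏ j, ht (q j) := by
    intro q hq
    rw [ht_q hPp hq]
    exact Finset.prod_coe_sort (PP y) (fun p => (p : ℝ) ^ (∑ j, (kk q p j).natAbs))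
  apply Finset.sum_bij (fun (q : Fin n → ℕ × ℕ) _ => fun p : PP y => kk q (p : ℕ))
  · intro q hq
    obtain ⟨h1, h2, h3⟩ := Finset.mem_filter.mp hq
    have hQ := Q_of_mem h1 h3
    refine Finset.mem_filter.mpr ⟨Fintype.mem_piFinset.mpr fun p => ?_, ?_⟩
    · refine Fintype.mem_piFinset.mpr fun j => ?_
      have h4 := natAbs_kk (hPp p p.2) hQ j
      have h5 := (mem_of_Q hQ h2).2.2 j
      have h6 := Nat.factorization_lt (p : ℕ) (hQ j).1
      have h7 := Nat.factorization_lt (p : ℕ) (hQ j).2.1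
      have h8 := fac_zero (hPp p p.2) (hQ j).2.2.1
      rw [Finset.mem_Icc]
      omega
    · rw [hsz q hQ]
      exact h2
  · intro q hq q' hq' h
    obtain ⟨h1, h2, h3⟩ := Finset.mem_filter.mp hq
    obtain ⟨h1', h2', h3'⟩ := Finset.mem_filter.mp hq'
    exact kk_inj (Q_of_mem h1 h3) (Q_of_mem h1' h3') hPp fun p hp => congrFun h ⟨p, hp⟩
  · intro x hx
    obtain ⟨h1, h2⟩ := Finset.mem_filter.mp hx
    obtain ⟨q, hQ, hq⟩ := kk_surj hPp (fun p => if h : p ∈ PP y then x ⟨p, h⟩ else 0)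
    have h3 : (fun p : PP y => kk q (p : ℕ)) = x := by
      funext p
      rw [hq p p.2, dif_pos p.2]
    have h4 : ∏ j, ht (q j) ≤ W := by
      rw [← hsz q hQ, h3]
      exact h2
    have h5 := mem_of_Q hQ h4
    exact ⟨q, Finset.mem_filter.mpr ⟨h5.1, h4, h5.2.1⟩, h3⟩
  · intro q hq
    obtain ⟨h1, h2, h3⟩ := Finset.mem_filter.mp hq
    have hQ := Q_of_mem h1 h3
    rw [val_q hPp hQ]
    exact (Finset.prod_coe_sort (PP y) (fun p => av c p (kk q p))).symm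

theorem norm_av {p : ℕ} (hp : p.Prime) (c : Fin n → ℝ) (k : Fin n → ℤ) : ‖av c p k‖ = lc1 p k := by
  unfold av
  rw [norm_mul, Complex.norm_real, Real.norm_eq_abs, abs_of_nonneg (lc1_nonneg hp k), norm_prod,
    Finset.prod_eq_one, mul_one]
  intro j _
  rw [← mul_neg, ← Complex.ofReal_neg, mul_comm, Complex.norm_exp_ofReal_mul_I]

open Classical in
theorem est {y W R : ℕ} (hWR : W ≤ R) (hW : 1 ≤ W) (c : Fin n → ℝ) (B : ℕ → ℝ)
    (hB : ∀ p ∈ PP y, ∑ k ∈ BR n R, lc1 p k * (p : ℝ) ^ ((1 / 4 : ℝ) * ∑ j, ((k j).natAbs : ℝ)) ≤ B p) :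
    ‖(∏ p ∈ PP y, ∑ k ∈ BR n R, av c p k) - TS y W c‖ ≤
      (W : ℝ) ^ (-(1 / 4) : ℝ) * ∏ p ∈ PP y, B p := by
  have hPp : ∀ p ∈ PP y, p.Prime := fun p hp => PP_prime hp
  have hW0 : (0:ℝ) < W := by exact_mod_cast hW
  have h0 : ∏ p ∈ PP y, ∑ k ∈ BR n R, av c p k =
      ∑ x ∈ Fintype.piFinset fun _ : PP y => BR n R, ∏ p : PP y, av c p (x p) := by
    rw [← Finset.prod_coe_sort (PP y) (fun p => ∑ k ∈ BR n R, av c p k), Finset.prod_univ_sum]
  rw [h0, finite_id hWR, ← Finset.sum_filter_add_sum_filter_not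
    (Fintype.piFinset fun _ : PP y => BR n R) (fun x => SZ x ≤ W), add_sub_cancel_left]
  refine (norm_sum_le _ _).trans ?_
  let G : (PP y → Fin n → ℤ) → ℝ := fun x =>
    ∏ p : PP y, (lc1 p (x p) * ((p : ℕ) : ℝ) ^ ((1 / 4 : ℝ) * ∑ j, ((x p j).natAbs : ℝ)))
  have hG0 : ∀ x, 0 ≤ G x := fun x => Finset.prod_nonneg fun p _ =>
    mul_nonneg (lc1_nonneg (hPp p p.2) _) (Real.rpow_nonneg (Nat.cast_nonneg _) _)
  have hG : ∀ x, G x = (∏ p : PP y, lc1 p (x p)) * SZ x ^ (1 / 4 : ℝ) := by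
    intro x
    change ∏ p : PP y, (lc1 p (x p) * ((p : ℕ) : ℝ) ^ ((1 / 4 : ℝ) * ∑ j, ((x p j).natAbs : ℝ))) = _
    rw [Finset.prod_mul_distrib]
    congr 1
    unfold SZ
    rw [← Real.finsetProd_rpow _ _ fun p _ => by positivity]
    apply Finset.prod_congr rfl
    intro p _
    rw [← Real.rpow_natCast, ← Real.rpow_mul (Nat.cast_nonneg _), mul_comm]
    push_cast
    rfl
  have h1 : ∀ x ∈ (Fintype.piFinset fun _ : PP y => BR n R).filter (fun x => ¬ SZ x ≤ W),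
      ‖∏ p : PP y, av c p (x p)‖ ≤ (W : ℝ) ^ (-(1 / 4) : ℝ) * G x := by
    intro x hx
    have h2 := not_le.mp (Finset.mem_filter.mp hx).2
    rw [norm_prod, Finset.prod_congr rfl fun (p : PP y) _ => norm_av (hPp p p.2) c (x p), hG]
    have h3 : 0 ≤ ∏ p : PP y, lc1 p (x p) := Finset.prod_nonneg fun p _ => lc1_nonneg (hPp p p.2) _
    have h4 : 1 ≤ (W : ℝ) ^ (-(1 / 4) : ℝ) * SZ x ^ (1 / 4 : ℝ) := by
      rw [Real.rpow_neg hW0.le, inv_mul_eq_div, one_le_div (Real.rpow_pos_of_pos hW0 _)]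
      exact Real.rpow_le_rpow hW0.le h2.le (by norm_num)
    calc ∏ p : PP y, lc1 p (x p) ≤ (∏ p : PP y, lc1 p (x p)) *
          ((W : ℝ) ^ (-(1 / 4) : ℝ) * SZ x ^ (1 / 4 : ℝ)) := le_mul_of_one_le_right h3 h4
      _ = _ := by ring
  refine (Finset.sum_le_sum h1).trans ?_
  rw [← Finset.mul_sum]
  refine mul_le_mul_of_nonneg_left ?_ (Real.rpow_nonneg hW0.le _)
  refine (Finset.sum_le_sum_of_subset_of_nonneg (Finset.filter_subset _ _)
    fun x _ _ => hG0 x).trans ?_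
  have h2 : ∑ x ∈ Fintype.piFinset fun _ : PP y => BR n R, G x =
      ∏ p : PP y, ∑ k ∈ BR n R, lc1 (p : ℕ) k * ((p : ℕ) : ℝ) ^ ((1 / 4 : ℝ) * ∑ j, ((k j).natAbs : ℝ)) :=
    (Finset.prod_univ_sum (fun _ : PP y => BR n R) (fun (p : PP y) (k : Fin n → ℤ) =>
      lc1 (p : ℕ) k * ((p : ℕ) : ℝ) ^ ((1 / 4 : ℝ) * ∑ j, ((k j).natAbs : ℝ)))).symm
  rw [h2, ← Finset.prod_coe_sort (PP y) B]
  apply Finset.prod_le_prod
  · intro p _
    exact Finset.sum_nonneg fun k _ =>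
      mul_nonneg (lc1_nonneg (hPp p p.2) _) (Real.rpow_nonneg (Nat.cast_nonneg _) _)
  · intro p _
    exact hB p p.2

end Eut1aux

/-- the product of the local sums against the truncated sum over the tuples -/
theorem t_EUT1 (h : S_LSM1) : S_EUT1 := by
  intro n
  obtain ⟨C, hC, hLSM⟩ := h n
  refine ⟨2 * C, by positivity, fun y W c _ hW => ?_⟩
  have hPp : ∀ p ∈ PP y, p.Prime := fun p hp => PP_prime hp
  change ‖(∏ p ∈ PP y, ∑' k : Fin n → ℤ, av c p k) - TS y W c‖ ≤ _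
  have hW0 : (0:ℝ) < W := by exact_mod_cast hW
  have hsum : ∀ p ∈ PP y, Summable (fun k : Fin n → ℤ => av c p k) := by
    intro p hp
    apply Summable.of_norm
    have h1 := (hLSM p (hPp p hp)).1
    refine Summable.of_nonneg_of_le (fun k => norm_nonneg _) (fun k => ?_) h1
    rw [norm_av (hPp p hp)]
    apply le_mul_of_one_le_right (lc1_nonneg (hPp p hp) k)
    apply Real.one_le_rpow
    · exact_mod_cast (hPp p hp).one_le
    · positivity
  have hlim : Tendsto (fun R : ℕ => (∏ p ∈ PP y, ∑ k ∈ BR n R, av c p k) - TS y W c) atTop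
      (𝓝 ((∏ p ∈ PP y, ∑' k : Fin n → ℤ, av c p k) - TS y W c)) := by
    apply Tendsto.sub_const
    apply tendsto_finsetProd
    intro p hp
    exact (hsum p hp).hasSum.comp (BR_tendsto n)
  refine le_of_tendsto hlim.norm ?_
  filter_upwards [eventually_ge_atTop W] with R hR
  have h1 := est (y := y) hR hW c (fun p => 1 + C * (p : ℝ) ^ (-(1 / 2) : ℝ)) (fun p hp =>
    ((hLSM p (hPp p hp)).1.sum_le_tsum _ fun k _ =>
      mul_nonneg (lc1_nonneg (hPp p hp) _) (Real.rpow_nonneg (Nat.cast_nonneg _) _)).trans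
      (hLSM p (hPp p hp)).2)
  refine h1.trans (mul_le_mul_of_nonneg_left ?_ (Real.rpow_nonneg hW0.le _))
  calc ∏ p ∈ PP y, (1 + C * (p : ℝ) ^ (-(1 / 2) : ℝ))
      ≤ ∏ p ∈ PP y, Real.exp (C * (p : ℝ) ^ (-(1 / 2) : ℝ)) := by
        apply Finset.prod_le_prod
        · intro p _
          positivity
        · intro p _
          rw [add_comm]
          exact Real.add_one_le_exp _
    _ = Real.exp (∑ p ∈ PP y, C * (p : ℝ) ^ (-(1 / 2) : ℝ)) := (Real.exp_sum _ _).symm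
    _ ≤ Real.exp (2 * C * √y) := by
        apply Real.exp_le_exp.mpr
        rw [← Finset.mul_sum]
        have h2 : ∑ p ∈ PP y, (p : ℝ) ^ (-(1 / 2) : ℝ) ≤
            ∑ m ∈ Finset.range (y + 1), (m : ℝ) ^ (-(1 / 2) : ℝ) :=
          Finset.sum_le_sum_of_subset_of_nonneg (Finset.filter_subset _ _)
            fun m _ _ => Real.rpow_nonneg (Nat.cast_nonneg _) _
        have h3 := h2.trans (sum_inv_sqrt y)
        calc C * ∑ p ∈ PP y, (p : ℝ) ^ (-(1 / 2) : ℝ) ≤ C * (2 * √y) :=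
              mul_le_mul_of_nonneg_left h3 hC.le
          _ = 2 * C * √y := by ring

end

end Pool.Agent.N879.PZ
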