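import Pool.Agent.N879.PZ.Stm
import Pool.Agent.Y587.GP.V
import Pool.Agent.Y545.GP.CR

set_option autoImplicit false

/-!
Project PZ (helper879), part KER: `|ζ|²` minus the short model, as an operator.
-/

namespace Pool.Agent.N879.PZ

open Complex Filter Topology MeasureTheory Set
open Pool.Agent.Y969.GP (ff V V1 ht lam PS FR co cr PX mk mB)

noncomputable section

namespace Keraux

lemma FR_pos {X : ℕ} {p : ℕ × ℕ} (hp : p ∈ FR X) : 0 < ht p := by
  unfold FR PS at hp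
  rw [Finset.mem_filter, Finset.mem_filter, Finset.mem_product, Finset.mem_Icc, Finset.mem_Icc] at hp
  have h1 : 0 < p.1 := hp.1.1.1.1
  have h2 : 0 < p.2 := hp.1.1.2.1
  unfold ht
  positivity

lemma cr_cont {X : ℕ} {p : ℕ × ℕ} (hp : p ∈ FR X) : ContinuousOn (cr X p) (Ioi 0) := by
  obtain ⟨-, -, C, -, h⟩ := Pool.Agent.Y545.GP.t_CR Pool.Agent.Y587.GP.t_V
  intro u hu
  exact (h X p hp u hu).1.continuousAt.continuousWithinAt

lemma ee_cont (p : ℕ × ℕ) : Continuous fun u : ℝ => ee u p := by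
  unfold ee
  fun_prop

lemma HH_cont (N X : ℕ) : ContinuousOn (HH N X) (Ioi 0) := by
  unfold HH
  refine continuousOn_finsetSum _ fun p hp => ?_
  have hp' : p ∈ FR X := (Finset.mem_filter.1 hp).1
  exact (Complex.continuous_ofReal.comp_continuousOn (cr_cont hp')).mul (ee_cont p).continuousOn

lemma DN_cont (N : ℕ) : Continuous (DN N) := by
  unfold DN
  refine continuous_finsetSum _ fun p hp => ?_
  have hp' : 0 < ht p := FR_pos hp
  refine Continuous.mul ?_ (ee_cont p)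
  refine Complex.continuous_ofReal.comp ?_
  refine continuous_const.mul ((Continuous.log ?_ fun u => ?_).add continuous_const)
  · exact (continuous_id.max continuous_const).div_const _
  · have : (0 : ℝ) < max u 1 := lt_of_lt_of_le one_pos (le_max_right _ _)
    have hpi := Real.pi_pos
    positivity

lemma ff_cont : Continuous fun u : ℝ => ((ff u : ℝ) : ℂ) := by
  have h : Continuous fun u : ℝ => riemannZeta (1 / 2 + I * u) := by
    rw [continuous_iff_continuousAt]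
    intro u
    have h1 : (1 / 2 + I * u : ℂ) ≠ 1 := by
      intro h
      have := congrArg Complex.re h
      norm_num at this
    exact ContinuousAt.comp (f := fun u : ℝ => (1 / 2 + I * u : ℂ)) (differentiableAt_riemannZeta h1).continuousAt
      (by fun_prop)
  unfold ff
  exact Complex.continuous_ofReal.comp (h.norm.pow 2)

/-- the pointwise error -/
lemma er_bound (h1 : S_AFX) (h3 : S_KL) : ∃ C : ℝ, 0 < C ∧ ∀ (u : ℝ) (N X : ℕ), 1 ≤ u → 1 ≤ N →
    (N : ℝ) ≤ u ^ (1 / 2 : ℝ) → u ^ 2 ≤ X →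
    ‖(ff u : ℂ) - DN N u - HH N X u‖ ≤ C * (N : ℝ) ^ 2 * u ^ (-(1 / 4) : ℝ) := by
  obtain ⟨C1, hC1, h1⟩ := h1
  obtain ⟨C3, hC3, h3⟩ := h3
  refine ⟨C1 + C3, by positivity, fun u N X hu hN hNu huX => ?_⟩
  have e1 := h1 u X hu huX
  have e3 := h3 u N X hu hN hNu huX
  have hsplit : ∑ p ∈ FR X, ((cr X p u : ℝ) : ℂ) * ee u p =
      (∑ p ∈ (FR X).filter (fun p => ht p ≤ (N : ℝ)), ((cr X p u : ℝ) : ℂ) * ee u p) + HH N X u := by
    unfold HH
    rw [← Finset.sum_filter_add_sum_filter_not (FR X) (fun p => ht p ≤ (N : ℝ))]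
    congr 1
    refine Finset.sum_congr ?_ fun _ _ => rfl
    ext p
    simp only [Finset.mem_filter, not_le]
  have hN1 : (1 : ℝ) ≤ (N : ℝ) ^ 2 := one_le_pow₀ (by exact_mod_cast hN)
  have hu0 : 0 ≤ u ^ (-(1 / 4) : ℝ) := Real.rpow_nonneg (by linarith) _
  have hid : (ff u : ℂ) - DN N u - HH N X u = ((ff u : ℂ) - ∑ p ∈ FR X, ((cr X p u : ℝ) : ℂ) * ee u p) +
      ((∑ p ∈ (FR X).filter (fun p => ht p ≤ (N : ℝ)), ((cr X p u : ℝ) : ℂ) * ee u p) - DN N u) := by
    rw [hsplit]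
    ring
  rw [hid]
  refine (norm_add_le _ _).trans ?_
  calc _ ≤ C1 * u ^ (-(1 / 4) : ℝ) + C3 * (N : ℝ) ^ 2 * u ^ (-(1 / 4) : ℝ) := add_le_add e1 e3
    _ ≤ C1 * (N : ℝ) ^ 2 * u ^ (-(1 / 4) : ℝ) + C3 * (N : ℝ) ^ 2 * u ^ (-(1 / 4) : ℝ) := by
        have : C1 * 1 ≤ C1 * (N : ℝ) ^ 2 := mul_le_mul_of_nonneg_left hN1 hC1.le
        have := mul_le_mul_of_nonneg_right this hu0
        linarith
    _ = _ := by ring

lemma int_of_bd {E : Type*} [NormedAddCommGroup E] {f : ℝ → E} {a b : ℝ} (hab : a ≤ b)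
    (hf : AEStronglyMeasurable f (volume.restrict (Icc a b))) (M : ℝ) (h : ∀ t ∈ Icc a b, ‖f t‖ ≤ M) :
    IntervalIntegrable f volume a b := by
  rw [intervalIntegrable_iff_integrableOn_Icc_of_le hab]
  exact Integrable.of_bound hf M ((ae_restrict_iff' measurableSet_Icc).2 (ae_of_all _ h))

/-- Cauchy-Schwarz -/
lemma cs {g : ℝ → ℝ} {a b : ℝ} (hab : a ≤ b) (hg : IntervalIntegrable g volume a b)
    (hg2 : IntervalIntegrable (fun t => g t ^ 2) volume a b) :
    (∫ t in a..b, g t) ^ 2 ≤ (b - a) * ∫ t in a..b, g t ^ 2 := by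
  rcases hab.eq_or_lt with rfl | hlt
  · simp
  set I1 := ∫ t in a..b, g t with hI1
  set s : ℝ := I1 / (b - a) with hs
  have hba : 0 < b - a := by linarith
  have h0 : 0 ≤ ∫ t in a..b, (g t - s) ^ 2 :=
    intervalIntegral.integral_nonneg hab fun t _ => sq_nonneg _
  have h1 : ∫ t in a..b, (g t - s) ^ 2 = (∫ t in a..b, g t ^ 2) - 2 * s * I1 + s ^ 2 * (b - a) := by
    have e : (fun t => (g t - s) ^ 2) = fun t => (g t ^ 2 - 2 * s * g t) + s ^ 2 := by
      funext t; ring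
    rw [e, intervalIntegral.integral_add (hg2.sub (hg.const_mul _)) intervalIntegrable_const,
      intervalIntegral.integral_sub hg2 (hg.const_mul _), intervalIntegral.integral_const_mul,
      intervalIntegral.integral_const, smul_eq_mul]
    ring
  rw [h1] at h0
  have h2 : s * (b - a) = I1 := by rw [hs]; field_simp
  have h3 : I1 ^ 2 ≤ (b - a) * ∫ t in a..b, g t ^ 2 := by
    have e : (∫ t in a..b, g t ^ 2) - 2 * s * I1 + s ^ 2 * (b - a) = (∫ t in a..b, g t ^ 2) - s * I1 := by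
      rw [← h2]; ring
    rw [e] at h0
    have h4 : s * I1 * (b - a) ≤ (∫ t in a..b, g t ^ 2) * (b - a) :=
      mul_le_mul_of_nonneg_right (by linarith) hba.le
    have h5 : s * I1 * (b - a) = I1 ^ 2 := by
      calc s * I1 * (b - a) = (s * (b - a)) * I1 := by ring
        _ = I1 ^ 2 := by rw [h2]; ring
    linarith
  exact h3

/-- continuity in the shift -/
lemma par_cont {a b U : ℝ} (ha : 0 < a) (hab : a ≤ b) {F H : ℝ → ℂ} (hF : Wb a b F)
    (hH : ContinuousOn H (Ioi 0)) :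
    ContinuousOn (fun c : ℝ => ∫ t in a..b, F t * H (t + c)) (Icc 0 U) := by
  obtain ⟨hFm, M, hM⟩ := hF
  have hcpt : IsCompact (Icc a (b + U)) := isCompact_Icc
  obtain ⟨B, hB⟩ := hcpt.exists_bound_of_continuousOn
    (hH.mono fun x hx => lt_of_lt_of_le ha hx.1)
  have hM0 : 0 ≤ M := (norm_nonneg _).trans (hM a ⟨le_rfl, hab⟩)
  have hcc : ∀ c ∈ Icc 0 U, ContinuousOn (fun t => H (t + c)) (Icc a b) := by
    intro c hc
    refine hH.comp (by fun_prop) fun t ht => ?_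
    exact lt_of_lt_of_le ha (le_trans ht.1 (by linarith [hc.1]))
  intro c₀ hc₀
  refine intervalIntegral.continuousWithinAt_of_dominated_interval (bound := fun _ => M * B) ?_ ?_ ?_ ?_
  · filter_upwards [self_mem_nhdsWithin] with c hc
    rw [uIoc_of_le hab]
    have h1 : AEStronglyMeasurable (fun t => H (t + c)) (volume.restrict (Ioc a b)) :=
      ((hcc c hc).mono Ioc_subset_Icc_self).aestronglyMeasurable measurableSet_Ioc
    exact hFm.aestronglyMeasurable.mul h1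
  · filter_upwards [self_mem_nhdsWithin] with c hc
    refine ae_of_all _ fun t ht => ?_
    rw [uIoc_of_le hab] at ht
    rw [norm_mul]
    exact mul_le_mul (hM t ⟨ht.1.le, ht.2⟩)
      (hB (t + c) ⟨by linarith [ht.1, hc.1], by linarith [ht.2, hc.2]⟩) (norm_nonneg _) hM0
  · exact intervalIntegrable_const
  · refine ae_of_all _ fun t ht => ?_
    rw [uIoc_of_le hab] at ht
    refine ContinuousWithinAt.mul continuousWithinAt_const ?_
    have h1 : ContinuousAt H (t + c₀) := by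
      refine hH.continuousAt (Ioi_mem_nhds ?_)
      linarith [ht.1, hc₀.1]
    exact (ContinuousAt.comp (f := fun c : ℝ => t + c) h1 (by fun_prop)).continuousWithinAt

lemma log_ge {T : ℝ} (hT : 3 ≤ T) : 1 ≤ Real.log T := by
  rw [Real.le_log_iff_exp_le (by linarith)]
  exact (Real.exp_one_lt_d9.le.trans (by norm_num)).trans hT

end Keraux

open Keraux in
theorem t_KER (h1 : S_AFX) (h2 : S_KH) (h3 : S_KL) : S_KER := by
  obtain ⟨C, hC, her⟩ := er_bound h1 h3
  obtain ⟨C2, A, hC2, h2⟩ := h2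
  refine ⟨2 * C2 + 2 * C ^ 2, A, by positivity, ?_⟩
  intro T U a N F hPar hF
  obtain ⟨hT, hU1, hU, ha1, haT, hN1, hN2, hNU⟩ := hPar
  have hT0 : (0 : ℝ) < T := by linarith
  have hT1 : (1 : ℝ) ≤ T := by linarith
  have hT78 : (1 : ℝ) ≤ T ^ (7 / 8 : ℝ) := Real.one_le_rpow hT1 (by norm_num)
  have ha : 1 ≤ a := hT78.trans ha1
  have ha0 : 0 < a := by linarith
  have hU0 : 0 ≤ U := by linarith
  have hUT : U ≤ T := hU.trans (by
    calc T ^ (1 / 4 : ℝ) ≤ T ^ (1 : ℝ) := Real.rpow_le_rpow_of_exponent_le hT1 (by norm_num)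
      _ = T := Real.rpow_one T)
  have hNr : (1 : ℝ) ≤ N := by exact_mod_cast hN1
  set X : ℕ := ⌈(2 * T) ^ 2⌉₊ with hX
  have hX1 : (2 * T) ^ 2 ≤ X := Nat.le_ceil _
  have hX2 : (X : ℝ) ≤ 5 * T ^ 2 := by
    have := Nat.ceil_lt_add_one (a := (2 * T) ^ 2) (by positivity)
    nlinarith
  have hK := h2 T U a N X F ⟨hT, hU1, hU, ha1, haT, hN1, hN2, hNU⟩ hX1 hX2 hF
  have hKc := par_cont (U := U) ha0 haT hF (HH_cont N X)
  obtain ⟨hFm, M, hM⟩ := hF
  set D : ℝ := C * (N : ℝ) ^ 2 * T ^ (-(7 / 32) : ℝ) with hD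
  have hD0 : 0 ≤ D := by positivity
  -- the pointwise bound
  have hpt : ∀ u ∈ Icc a (T + U), ‖(ff u : ℂ) - DN N u - HH N X u‖ ≤ D := by
    intro u hu
    have hu1 : 1 ≤ u := ha.trans hu.1
    have hu0 : 0 < u := by linarith
    have hT78u : T ^ (7 / 8 : ℝ) ≤ u := ha1.trans hu.1
    have hNu : (N : ℝ) ≤ u ^ (1 / 2 : ℝ) := by
      calc (N : ℝ) ≤ T ^ (1 / 16 : ℝ) := hN2
        _ ≤ T ^ (7 / 16 : ℝ) := Real.rpow_le_rpow_of_exponent_le hT1 (by norm_num)
        _ = (T ^ (7 / 8 : ℝ)) ^ (1 / 2 : ℝ) := by rw [← Real.rpow_mul hT0.le]; norm_num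
        _ ≤ u ^ (1 / 2 : ℝ) := Real.rpow_le_rpow (by positivity) hT78u (by norm_num)
    have huX : u ^ 2 ≤ X := by
      refine le_trans ?_ hX1
      refine pow_le_pow_left₀ hu0.le ?_ 2
      linarith [hu.2]
    refine (her u N X hu1 hN1 hNu huX).trans ?_
    rw [hD]
    refine mul_le_mul_of_nonneg_left ?_ (by positivity)
    calc u ^ (-(1 / 4) : ℝ) ≤ (T ^ (7 / 8 : ℝ)) ^ (-(1 / 4) : ℝ) :=
          Real.rpow_le_rpow_of_nonpos (by positivity) hT78u (by norm_num)
      _ = T ^ (-(7 / 32) : ℝ) := by rw [← Real.rpow_mul hT0.le]; norm_num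
  -- the square integral of `F`
  have hFa : AEStronglyMeasurable F (volume.restrict (Icc a T)) := hFm.aestronglyMeasurable
  have hFn : IntervalIntegrable (fun t => ‖F t‖) volume a T :=
    int_of_bd haT hFa.norm M fun t ht => by rw [norm_norm]; exact hM t ht
  have hM0 : 0 ≤ M := (norm_nonneg _).trans (hM a ⟨le_rfl, haT⟩)
  have hFn2 : IntervalIntegrable (fun t => ‖F t‖ ^ 2) volume a T :=
    int_of_bd haT (hFa.norm.pow 2) (M ^ 2) fun t ht => by
      rw [norm_pow, norm_norm]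
      exact pow_le_pow_left₀ (norm_nonneg _) (hM t ht) 2
  set Q : ℝ := ∫ t in a..T, ‖F t‖ ^ 2 with hQ
  have hQ0 : 0 ≤ Q := intervalIntegral.integral_nonneg haT fun t _ => by positivity
  have hcs : (∫ t in a..T, ‖F t‖) ^ 2 ≤ T * Q := by
    refine (cs haT hFn hFn2).trans ?_
    exact mul_le_mul_of_nonneg_right (by linarith) hQ0
  -- the inner integrals
  have hint : ∀ c ∈ Icc 0 U, ∀ H : ℝ → ℂ, ContinuousOn H (Ioi 0) →
      IntervalIntegrable (fun t => F t * H (t + c)) volume a T := by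
    intro c hc H hH
    have hcc : ContinuousOn (fun t => H (t + c)) (Icc a T) := by
      refine hH.comp (by fun_prop) fun t ht => ?_
      exact lt_of_lt_of_le ha0 (le_trans ht.1 (by linarith [hc.1]))
    obtain ⟨B, hB⟩ := isCompact_Icc.exists_bound_of_continuousOn hcc
    refine int_of_bd haT (hFa.mul (hcc.aestronglyMeasurable measurableSet_Icc)) (M * B) fun t ht => ?_
    rw [norm_mul]
    exact mul_le_mul (hM t ht) (hB t ht) (norm_nonneg _) hM0
  have hec : ContinuousOn (fun u => (ff u : ℂ) - DN N u - HH N X u) (Ioi 0) :=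
    ((ff_cont.sub (DN_cont N)).continuousOn).sub (HH_cont N X)
  have key : ∀ c ∈ Icc 0 U, ‖∫ t in a..T, F t * ((ff (t + c) : ℂ) - DN N (t + c))‖ ^ 2 ≤
      2 * ‖∫ t in a..T, F t * HH N X (t + c)‖ ^ 2 + 2 * (D ^ 2 * (T * Q)) := by
    intro c hc
    have e1 : ∫ t in a..T, F t * ((ff (t + c) : ℂ) - DN N (t + c)) =
        (∫ t in a..T, F t * HH N X (t + c)) +
          ∫ t in a..T, F t * ((ff (t + c) : ℂ) - DN N (t + c) - HH N X (t + c)) := by
      rw [← intervalIntegral.integral_add (hint c hc _ (HH_cont N X))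
        (hint c hc (fun u => (ff u : ℂ) - DN N u - HH N X u) hec)]
      refine intervalIntegral.integral_congr fun t _ => ?_
      ring
    have e2 : ‖∫ t in a..T, F t * ((ff (t + c) : ℂ) - DN N (t + c) - HH N X (t + c))‖ ≤
        D * ∫ t in a..T, ‖F t‖ := by
      rw [← intervalIntegral.integral_const_mul]
      refine intervalIntegral.norm_integral_le_of_norm_le haT ?_ (hFn.const_mul D)
      refine ae_of_all _ fun t ht => ?_
      rw [norm_mul, mul_comm]
      exact mul_le_mul_of_nonneg_right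
        (hpt (t + c) ⟨by linarith [ht.1, hc.1], by linarith [ht.2, hc.2]⟩) (norm_nonneg _)
    have e3 : ‖∫ t in a..T, F t * ((ff (t + c) : ℂ) - DN N (t + c) - HH N X (t + c))‖ ^ 2 ≤
        D ^ 2 * (T * Q) := by
      refine (pow_le_pow_left₀ (norm_nonneg _) e2 2).trans ?_
      rw [mul_pow]
      exact mul_le_mul_of_nonneg_left hcs (by positivity)
    rw [e1]
    set x := ∫ t in a..T, F t * HH N X (t + c)
    set y := ∫ t in a..T, F t * ((ff (t + c) : ℂ) - DN N (t + c) - HH N X (t + c))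
    have e4 : ‖x + y‖ ^ 2 ≤ (‖x‖ + ‖y‖) ^ 2 := pow_le_pow_left₀ (norm_nonneg _) (norm_add_le _ _) 2
    nlinarith [sq_nonneg (‖x‖ - ‖y‖)]
  have hJint : IntervalIntegrable (fun c : ℝ => ‖∫ t in a..T, F t * HH N X (t + c)‖ ^ 2) volume 0 U :=
    (hKc.norm.pow 2).intervalIntegrable_of_Icc hU0
  have hstep : ∫ c in (0 : ℝ)..U, ‖∫ t in a..T, F t * ((ff (t + c) : ℂ) - DN N (t + c))‖ ^ 2 ≤
      2 * (∫ c in (0 : ℝ)..U, ‖∫ t in a..T, F t * HH N X (t + c)‖ ^ 2) + U * (2 * (D ^ 2 * (T * Q))) := by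
    calc _ ≤ ∫ c in (0 : ℝ)..U, (2 * ‖∫ t in a..T, F t * HH N X (t + c)‖ ^ 2 + 2 * (D ^ 2 * (T * Q))) := by
          rw [intervalIntegral.integral_of_le hU0, intervalIntegral.integral_of_le hU0]
          refine integral_mono_of_nonneg (ae_of_all _ fun c => by positivity) ?_ ?_
          · have := (hJint.const_mul 2).add (intervalIntegrable_const (c := 2 * (D ^ 2 * (T * Q))))
            rwa [intervalIntegrable_iff_integrableOn_Ioc_of_le hU0] at this
          · exact (ae_restrict_iff' measurableSet_Ioc).2 (ae_of_all _ fun c hc => key c ⟨hc.1.le, hc.2⟩)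
      _ = _ := by
          rw [intervalIntegral.integral_add (hJint.const_mul 2) intervalIntegrable_const,
            intervalIntegral.integral_const_mul, intervalIntegral.integral_const, smul_eq_mul, sub_zero]
  -- the numerical bound
  have hND : (N : ℝ) ^ 5 * T ^ (-(7 / 16) : ℝ) ≤ 1 := by
    have e1 : (N : ℝ) ^ 5 ≤ T ^ (7 / 16 : ℝ) := by
      calc (N : ℝ) ^ 5 ≤ (T ^ (1 / 16 : ℝ)) ^ 5 := pow_le_pow_left₀ (by positivity) hN2 5
        _ = T ^ (5 / 16 : ℝ) := by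
            rw [← Real.rpow_natCast, ← Real.rpow_mul hT0.le]
            norm_num
        _ ≤ T ^ (7 / 16 : ℝ) := Real.rpow_le_rpow_of_exponent_le hT1 (by norm_num)
    calc (N : ℝ) ^ 5 * T ^ (-(7 / 16) : ℝ) ≤ T ^ (7 / 16 : ℝ) * T ^ (-(7 / 16) : ℝ) :=
          mul_le_mul_of_nonneg_right e1 (by positivity)
      _ = 1 := by rw [← Real.rpow_add hT0]; norm_num
  have hD2 : D ^ 2 ≤ C ^ 2 / N := by
    have e1 : D ^ 2 = C ^ 2 / N * ((N : ℝ) ^ 5 * T ^ (-(7 / 16) : ℝ)) := by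
      have e2 : (T ^ (-(7 / 32) : ℝ)) ^ 2 = T ^ (-(7 / 16) : ℝ) := by
        rw [← Real.rpow_natCast, ← Real.rpow_mul hT0.le]
        norm_num
      rw [hD, mul_pow, mul_pow, e2]
      field_simp
    rw [e1]
    calc C ^ 2 / N * ((N : ℝ) ^ 5 * T ^ (-(7 / 16) : ℝ)) ≤ C ^ 2 / N * 1 :=
          mul_le_mul_of_nonneg_left hND (by positivity)
      _ = _ := mul_one _
  have hlog : (1 : ℝ) ≤ Real.log T ^ A := one_le_pow₀ (log_ge hT)
  refine hstep.trans ?_
  have f1 : U * (2 * (D ^ 2 * (T * Q))) ≤ 2 * C ^ 2 * Real.log T ^ A * (T * (U / N + 1)) * Q := by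
    calc U * (2 * (D ^ 2 * (T * Q))) ≤ U * (2 * ((C ^ 2 / N) * (T * Q))) := by gcongr
      _ = 2 * C ^ 2 * 1 * (T * (U / N)) * Q := by ring
      _ ≤ 2 * C ^ 2 * Real.log T ^ A * (T * (U / N + 1)) * Q := by
          gcongr
          linarith
  have f2 : 2 * (∫ c in (0 : ℝ)..U, ‖∫ t in a..T, F t * HH N X (t + c)‖ ^ 2) ≤
      2 * C2 * Real.log T ^ A * (T * (U / N + 1)) * Q := by
    calc _ ≤ 2 * (C2 * Real.log T ^ A * (T * (U / N + 1)) * Q) := mul_le_mul_of_nonneg_left hK (by norm_num)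
      _ = _ := by ring
  calc _ ≤ 2 * C2 * Real.log T ^ A * (T * (U / N + 1)) * Q +
        2 * C ^ 2 * Real.log T ^ A * (T * (U / N + 1)) * Q := add_le_add f2 f1
    _ = _ := by ring

end

end Pool.Agent.N879.PZ
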