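import Pool.Agent.N879.PZ.Stm
import Pool.Agent.Y620.SX.CRA

set_option autoImplicit false

/-!
Project PZ (helper879), task KL (helper885): the low frequencies.
-/

namespace Pool.Agent.N879.PZ

open Complex Filter Topology MeasureTheory Set
open Pool.Agent.Y969.GP (ff V V1 ht lam PS FR co cr PX mk mB)

namespace Klaux

theorem norm_ee (u : ℝ) (p : ℕ × ℕ) : ‖ee u p‖ = 1 := by
  unfold ee
  rw [mul_comm]
  exact Complex.norm_exp_ofReal_mul_I _

theorem mem_FR {X : ℕ} {p : ℕ × ℕ} : p ∈ FR X ↔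
    ((1 ≤ p.1 ∧ p.1 ≤ X) ∧ (1 ≤ p.2 ∧ p.2 ≤ X)) ∧ p.1 * p.2 ≤ X ∧ Nat.Coprime p.1 p.2 := by
  unfold FR PS
  simp only [Finset.mem_filter, Finset.mem_product, Finset.mem_Icc]
  tauto

theorem filter_eq {N X : ℕ} (h : N ≤ X) :
    (FR X).filter (fun p => ht p ≤ (N : ℝ)) = FR N := by
  ext p
  rw [Finset.mem_filter, mem_FR, mem_FR]
  have hh : ht p ≤ (N : ℝ) ↔ p.1 * p.2 ≤ N := by
    unfold ht
    exact_mod_cast Iff.rfl
  rw [hh]
  constructor
  · rintro ⟨⟨⟨⟨a1, _⟩, a3, _⟩, _, a6⟩, a7⟩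
    refine ⟨⟨⟨a1, ?_⟩, a3, ?_⟩, a7, a6⟩
    · exact le_trans (Nat.le_mul_of_pos_right _ a3) a7
    · exact le_trans (Nat.le_mul_of_pos_left _ a1) a7
  · rintro ⟨⟨⟨a1, a2⟩, a3, a4⟩, a5, a6⟩
    exact ⟨⟨⟨⟨a1, a2.trans h⟩, a3, a4.trans h⟩, a5.trans h, a6⟩, a5⟩

theorem card_FR (N : ℕ) : (FR N).card ≤ N ^ 2 := by
  unfold FR PS
  refine (Finset.card_filter_le _ _).trans ((Finset.card_filter_le _ _).trans ?_)
  rw [Finset.card_product, Nat.card_Icc]
  simp [pow_two]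

end Klaux

open Klaux

theorem t_KL : S_KL := by
  obtain ⟨C, hC, H⟩ := Pool.Agent.Y620.SX.t_CRA' (1 / 4) (by norm_num)
  refine ⟨C, hC, fun u N X hu hN hNu hX => ?_⟩
  have hu0 : 0 < u := by linarith
  have h12 : u ^ (1 / 2 : ℝ) ≤ u ^ (2 : ℕ) := by
    rw [← Real.rpow_natCast]
    exact Real.rpow_le_rpow_of_exponent_le hu (by norm_num)
  have h54 : u ^ (1 + 1 / 4 : ℝ) ≤ (X : ℝ) := by
    refine le_trans ?_ hX
    rw [← Real.rpow_natCast]
    exact Real.rpow_le_rpow_of_exponent_le hu (by norm_num)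
  have hNX : N ≤ X := by
    have : (N : ℝ) ≤ X := hNu.trans (h12.trans hX)
    exact_mod_cast this
  rw [filter_eq hNX]
  unfold DN
  rw [← Finset.sum_sub_distrib]
  have hmax : max u 1 = u := max_eq_left hu
  rw [hmax]
  have hterm : ∀ p ∈ FR N, ‖((cr X p u : ℝ) : ℂ) * ee u p - (((√(ht p))⁻¹ *
      (Real.log (u / (2 * Real.pi * ht p)) + 2 * Real.eulerMascheroniConstant) : ℝ) : ℂ) * ee u p‖ ≤
      C * u ^ (-(1 / 4) : ℝ) := by
    intro p hp
    obtain ⟨⟨⟨a1, _⟩, a3, _⟩, a5, _⟩ := mem_FR.1 hp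
    have hht1 : 1 ≤ ht p := by
      unfold ht
      have : 1 ≤ p.1 * p.2 := Nat.mul_pos a1 a3
      exact_mod_cast this
    have hhtN : ht p ≤ N := by
      unfold ht
      exact_mod_cast a5
    have h1 := H X p u a1 a3 hu h54 (hhtN.trans hNu)
    have hs1 : 1 ≤ √(ht p) := by
      rw [Real.one_le_sqrt]
      exact hht1
    have hs0 : 0 < √(ht p) := by linarith
    rw [← sub_mul, norm_mul, norm_ee, mul_one, ← Complex.ofReal_sub, Complex.norm_real,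
      Real.norm_eq_abs]
    have h2 : cr X p u - (√(ht p))⁻¹ *
        (Real.log (u / (2 * Real.pi * ht p)) + 2 * Real.eulerMascheroniConstant) =
        (√(ht p))⁻¹ * (√(ht p) * cr X p u -
          (Real.log (u / (2 * Real.pi * ht p)) + 2 * Real.eulerMascheroniConstant)) := by
      rw [mul_sub, ← mul_assoc, inv_mul_cancel₀ hs0.ne', one_mul]
    rw [h2, abs_mul, abs_of_pos (inv_pos.2 hs0)]
    have h3 : (√(ht p))⁻¹ ≤ 1 := inv_le_one_of_one_le₀ hs1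
    calc _ ≤ 1 * (C * u ^ (-(1 / 4) : ℝ)) := by
          refine mul_le_mul h3 h1 (abs_nonneg _) zero_le_one
      _ = _ := one_mul _
  refine (norm_sum_le_of_le _ hterm).trans ?_
  rw [Finset.sum_const, nsmul_eq_mul]
  have hcard : ((FR N).card : ℝ) ≤ (N : ℝ) ^ 2 := by
    exact_mod_cast card_FR N
  have hpos : 0 ≤ C * u ^ (-(1 / 4) : ℝ) := by positivity
  calc ((FR N).card : ℝ) * (C * u ^ (-(1 / 4) : ℝ)) ≤ (N : ℝ) ^ 2 * (C * u ^ (-(1 / 4) : ℝ)) :=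
        mul_le_mul_of_nonneg_right hcard hpos
    _ = _ := by ring

end Pool.Agent.N879.PZ
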