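import Pool.Agent.N879.PZ.Stm
import Pool.Agent.Y781.SX.LB

set_option autoImplicit false

/-! Project PZ (helper879), job LB1 (helper695): the product of the local densities is rarely small.
Adapted from Pool/Agent/Y781/SX/LB1.lean and Pool/Agent/Y781/SX/LB.lean (helper781). -/

namespace Pool.Agent.N879.PZ

open Finset Filter Topology MeasureTheory Complex
open Pool.Agent.Y969.GP (ff ht lam FR PX cr V mB PS)
open Pool.Agent.Y969.SM (kx mB_int loc_ne S_ORT)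
open Pool.Agent.Y781.SX (K2 kx_cast two_abs_le mem_K2 K2_abs kx_zero parity kx_four exp_low norm_fac fr pq lam_pq
  pq_mem pq_inj Qm Py' TT mem_TT Qm_mem Qm_inj EE EE_cont EE_re sum_inv_sq)

noncomputable section

namespace Lb1aux


lemma lc_nonneg {n p : ℕ} (k : Fin n → ℤ) : 0 ≤ lc1 p k := by
  unfold lc1
  positivity

lemma lc_zero {n p : ℕ} : lc1 p (0 : Fin n → ℤ) = 1 := by
  simp [lc1, kx]

lemma lc_K2 {n p : ℕ} (hp : p.Prime) {k : Fin n → ℤ} (hk : k ∈ K2 n) : lc1 p k ≤ 3 / p := by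
  have hp0 : (0 : ℝ) < p := by exact_mod_cast hp.pos
  have h2 := mem_K2.mp hk
  unfold lc1
  rw [h2]
  have h6 : (p : ℝ) ^ (-(((2 : ℕ) : ℝ) / 2)) = 1 / p := by
    rw [show (-(((2 : ℕ) : ℝ) / 2)) = (-1 : ℝ) by norm_num, Real.rpow_neg_one, one_div]
  rw [h6]
  apply div_le_div_of_nonneg_right _ hp0.le
  norm_num

lemma lc_tail {n p : ℕ} (hp : p.Prime) {k : Fin n → ℤ} (hk : 4 ≤ kx k) :
    lc1 p k ≤ 12 / (p : ℝ) ^ 2 * lc1 2 k := by
  have hp0 : (0 : ℝ) < p := by exact_mod_cast hp.pos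
  have hp2 : (2 : ℝ) ≤ p := by exact_mod_cast hp.two_le
  have hK : (2 : ℝ) ≤ (kx k : ℝ) / 2 := by
    have : (4 : ℝ) ≤ kx k := by exact_mod_cast hk
    linarith
  have h2 : (p : ℝ) ^ (-((kx k : ℝ) / 2)) ≤ 4 / (p : ℝ) ^ 2 * ((2 : ℕ) : ℝ) ^ (-((kx k : ℝ) / 2)) := by
    have e1 : (p : ℝ) = (p / 2) * 2 := by ring
    have e2 : (p : ℝ) ^ (-((kx k : ℝ) / 2)) = (p / 2 : ℝ) ^ (-((kx k : ℝ) / 2)) * 2 ^ (-((kx k : ℝ) / 2)) := by
      conv_lhs => rw [e1]
      rw [Real.mul_rpow (by positivity) (by norm_num)]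
    have e3 : (p / 2 : ℝ) ^ (-((kx k : ℝ) / 2)) ≤ (p / 2 : ℝ) ^ (-2 : ℝ) :=
      Real.rpow_le_rpow_of_exponent_le (by linarith) (by linarith)
    have e4 : (p / 2 : ℝ) ^ (-2 : ℝ) = 4 / (p : ℝ) ^ 2 := by
      rw [Real.rpow_neg (by positivity), show (2 : ℝ) = ((2 : ℕ) : ℝ) by norm_num, Real.rpow_natCast]
      push_cast
      field_simp
      norm_num
    rw [e2, ← e4]
    push_cast
    exact mul_le_mul_of_nonneg_right e3 (by positivity)
  have h3 : 0 ≤ lc1 2 k := lc_nonneg k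
  have h4 : lc1 p k ≤ 4 / (p : ℝ) ^ 2 * lc1 2 k := h2
  refine h4.trans (mul_le_mul_of_nonneg_right ?_ h3)
  exact div_le_div_of_nonneg_right (by norm_num) (by positivity)

lemma term_re {n : ℕ} (p : ℕ) (k : Fin n → ℤ) (c : Fin n → ℝ) :
    ((lc1 p k : ℂ) * ∏ j, cexp (-(I * ((c j * Real.log p * k j : ℝ) : ℂ)))).re
      = lc1 p k * Real.cos (fr p k c) := by
  rw [← Complex.exp_sum]
  have e : ∑ j, -(I * ((c j * Real.log p * k j : ℝ) : ℂ)) = ((-(fr p k c) : ℝ) : ℂ) * I := by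
    unfold fr
    push_cast
    rw [Finset.sum_neg_distrib, ← Finset.mul_sum]
    ring
  rw [e, Complex.re_ofReal_mul, Complex.exp_ofReal_mul_I_re, Real.cos_neg]

lemma term_norm {n : ℕ} {p : ℕ} (k : Fin n → ℤ) (c : Fin n → ℝ) :
    ‖(lc1 p k : ℂ) * ∏ j, cexp (-(I * ((c j * Real.log p * k j : ℝ) : ℂ)))‖ = lc1 p k := by
  rw [← Complex.exp_sum]
  have e : ∑ j, -(I * ((c j * Real.log p * k j : ℝ) : ℂ)) = ((-(fr p k c) : ℝ) : ℂ) * I := by
    unfold fr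
    push_cast
    rw [Finset.sum_neg_distrib, ← Finset.mul_sum]
    ring
  rw [e, norm_mul, Complex.norm_exp_ofReal_mul_I, mul_one, Complex.norm_real, Real.norm_eq_abs,
    abs_of_nonneg (lc_nonneg k)]

lemma loc_re (h : S_LOC1) {n p : ℕ} (hp : p.Prime) (c : Fin n → ℝ) :
    loc1 c p = ∑' k : Fin n → ℤ, lc1 p k * Real.cos (fr p k c) := by
  obtain ⟨hs, he⟩ := h n p hp c
  have h1 := congrArg Complex.re he
  rw [Complex.ofReal_re] at h1
  rw [h1, Complex.re_tsum]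
  · exact tsum_congr fun k => term_re p k c
  · refine Summable.of_norm ?_
    simp only [term_norm]
    exact hs

/-- the terms of size `1/p` -/
def Ap {n : ℕ} (p : ℕ) (c : Fin n → ℝ) : ℝ := ∑ k ∈ K2 n, lc1 p k * Real.cos (fr p k c)

lemma Ap_bd {n p : ℕ} (hp : p.Prime) (c : Fin n → ℝ) : |Ap p c| ≤ (K2 n).card * (3 / p) := by
  unfold Ap
  refine (Finset.abs_sum_le_sum_abs _ _).trans ?_
  rw [← nsmul_eq_mul]
  refine Finset.sum_le_card_nsmul _ _ _ fun k hk => ?_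
  rw [abs_mul, abs_of_nonneg (lc_nonneg k)]
  calc lc1 p k * |Real.cos (fr p k c)| ≤ lc1 p k * 1 :=
        mul_le_mul_of_nonneg_left (Real.abs_cos_le_one _) (lc_nonneg k)
    _ ≤ 3 / p := by rw [mul_one]; exact lc_K2 hp hk

/-- the constant of the tail -/
def C0 (n : ℕ) : ℝ := 12 * ∑' k : Fin n → ℤ, lc1 2 k

lemma C0_nonneg (n : ℕ) : 0 ≤ C0 n :=
  mul_nonneg (by norm_num) (tsum_nonneg fun k => lc_nonneg k)

lemma loc_low (h : S_LOC1) {n p : ℕ} (hp : p.Prime) (c : Fin n → ℝ) :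
    1 + Ap p c - C0 n / (p : ℝ) ^ 2 ≤ loc1 c p := by
  classical
  have hp0 : (0 : ℝ) < p := by exact_mod_cast hp.pos
  rw [loc_re h hp c]
  set g : (Fin n → ℤ) → ℝ := fun k => lc1 p k * Real.cos (fr p k c) with hg
  have hs2 : Summable fun k : Fin n → ℤ => lc1 2 k := (h n 2 Nat.prime_two 0).1
  have hsp : Summable fun k : Fin n → ℤ => lc1 p k := (h n p hp 0).1
  have hgb : ∀ k, |g k| ≤ lc1 p k := by
    intro k
    rw [hg]
    simp only
    rw [abs_mul, abs_of_nonneg (lc_nonneg k)]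
    calc lc1 p k * |Real.cos (fr p k c)| ≤ lc1 p k * 1 :=
          mul_le_mul_of_nonneg_left (Real.abs_cos_le_one _) (lc_nonneg k)
      _ = lc1 p k := mul_one _
  have hsg : Summable g := Summable.of_norm_bounded hsp hgb
  set F : Finset (Fin n → ℤ) := insert 0 (K2 n) with hF
  have h0 : (0 : Fin n → ℤ) ∉ K2 n := by
    rw [mem_K2]
    simp [kx]
  have hsF : Summable fun k => if k ∈ F then g k else 0 :=
    summable_of_ne_finset_zero (s := F) fun k hk => if_neg hk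
  have hsR : Summable fun k : Fin n → ℤ => 12 / (p : ℝ) ^ 2 * lc1 2 k := hs2.mul_left _
  have hle : ∑' k, ((if k ∈ F then g k else 0) - 12 / (p : ℝ) ^ 2 * lc1 2 k) ≤ ∑' k, g k := by
    refine Summable.tsum_le_tsum (fun k => ?_) (hsF.sub hsR) hsg
    have hl2 : 0 ≤ lc1 2 k := lc_nonneg k
    split_ifs with hk
    · have : 0 ≤ 12 / (p : ℝ) ^ 2 * lc1 2 k := by positivity
      linarith
    · rw [hF, Finset.mem_insert, not_or] at hk
      have h4 := lc_tail hp (kx_four hk.1 hk.2)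
      have h5 := (abs_le.mp (hgb k)).1
      linarith
  rw [Summable.tsum_sub hsF hsR, tsum_mul_left, tsum_eq_sum (s := F) (fun k hk => if_neg hk),
    Finset.sum_congr rfl (fun k hk => if_pos hk), hF, Finset.sum_insert h0] at hle
  have hg0 : lc1 p (0 : Fin n → ℤ) * Real.cos (fr p (0 : Fin n → ℤ) c) = 1 := by
    simp [lc_zero, fr]
  rw [hg0] at hle
  have e : C0 n / (p : ℝ) ^ 2 = 12 / (p : ℝ) ^ 2 * ∑' k : Fin n → ℤ, lc1 2 k := by
    unfold C0; ring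
  rw [e]
  exact hle

/-- a lower bound, uniform in the prime -/
def b0 (n : ℕ) : ℝ := (1 / 2) ^ (n + 1) * (1 / (4 * 4 ^ n))

lemma b0_pos (n : ℕ) : 0 < b0 n := by unfold b0; positivity

lemma loc_b0 {n p : ℕ} (hp : p.Prime) (c : Fin n → ℝ) : b0 n ≤ loc1 c p := by
  have hp2 : (2 : ℝ) ≤ p := by exact_mod_cast hp.two_le
  have hp0 : (p : ℂ) ≠ 0 := by exact_mod_cast hp.ne_zero
  unfold b0 loc1
  have h1 : (1 / 2 : ℝ) ≤ 1 - 1 / (p : ℝ) := by
    have : 1 / (p : ℝ) ≤ 1 / 2 := one_div_le_one_div_of_le (by norm_num) hp2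
    linarith
  have hne : ∀ (θ : ℝ) (s : ℂ), s.re = -(1 / 2) → 0 < ‖1 - cexp (2 * Real.pi * I * θ) * (p : ℂ) ^ s‖ :=
    fun θ s hs => norm_pos_iff.mpr (loc_ne hp.two_le θ s hs)
  have hden : ∀ θ : ℝ, 0 < (‖1 - cexp (2 * Real.pi * I * θ) * (p : ℂ) ^ (-(1 / 2) : ℂ)‖ ^ 2 *
      ∏ j, ‖1 - cexp (2 * Real.pi * I * θ) * (p : ℂ) ^ (-(1 / 2 + I * c j))‖ ^ 2) := by
    intro θ
    refine mul_pos (pow_pos (hne θ _ (by norm_num)) _) (Finset.prod_pos fun j _ =>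
      pow_pos (hne θ _ (by simp)) _)
  have hcont : Continuous fun θ : ℝ => 1 / (‖1 - cexp (2 * Real.pi * I * θ) * (p : ℂ) ^ (-(1 / 2) : ℂ)‖ ^ 2 *
      ∏ j, ‖1 - cexp (2 * Real.pi * I * θ) * (p : ℂ) ^ (-(1 / 2 + I * c j))‖ ^ 2) := by
    refine continuous_const.div ?_ fun θ => (hden θ).ne'
    fun_prop
  have h2 : (1 / (4 * 4 ^ n) : ℝ) ≤ ∫ θ in (0:ℝ)..1,
      1 / (‖1 - cexp (2 * Real.pi * I * θ) * (p : ℂ) ^ (-(1 / 2) : ℂ)‖ ^ 2 *
        ∏ j, ‖1 - cexp (2 * Real.pi * I * θ) * (p : ℂ) ^ (-(1 / 2 + I * c j))‖ ^ 2) := by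
    have h3 : ∫ _θ in (0:ℝ)..1, (1 / (4 * 4 ^ n) : ℝ) = 1 / (4 * 4 ^ n) := by simp
    rw [← h3]
    refine intervalIntegral.integral_mono_on (by norm_num) (by simp)
      (hcont.intervalIntegrable _ _) fun θ _ => ?_
    apply one_div_le_one_div_of_le (hden θ)
    refine mul_le_mul ?_ ?_ (Finset.prod_nonneg fun j _ => by positivity) (by norm_num)
    · calc ‖1 - cexp (2 * Real.pi * I * θ) * (p : ℂ) ^ (-(1 / 2) : ℂ)‖ ^ 2 ≤ 2 ^ 2 :=
            pow_le_pow_left₀ (norm_nonneg _) (norm_fac hp θ _ (by norm_num)) 2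
        _ = 4 := by norm_num
    · calc ∏ j, ‖1 - cexp (2 * Real.pi * I * θ) * (p : ℂ) ^ (-(1 / 2 + I * c j))‖ ^ 2
          ≤ ∏ _j : Fin n, (4 : ℝ) := by
            refine Finset.prod_le_prod (fun j _ => by positivity) fun j _ => ?_
            calc _ ≤ (2 : ℝ) ^ 2 := pow_le_pow_left₀ (norm_nonneg _) (norm_fac hp θ _ (by simp)) 2
              _ = 4 := by norm_num
        _ = 4 ^ n := by simp
  exact mul_le_mul (pow_le_pow_left₀ (by norm_num) h1 _) h2 (by positivity)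
    (pow_nonneg (by linarith) _)

/-- **the local density is bounded below by the exponential of its first terms** -/
theorem loc_exp (h : S_LOC1) (n : ℕ) : ∃ C1 : ℝ, 0 ≤ C1 ∧ ∀ p : ℕ, p.Prime → ∀ c : Fin n → ℝ,
    Real.exp (Ap p c - C1 / (p : ℝ) ^ 2) ≤ loc1 c p := by
  set κ : ℝ := ((K2 n).card : ℝ) with hκ
  have hκ0 : 0 ≤ κ := Nat.cast_nonneg _
  have hC0 := C0_nonneg n
  set P0 : ℝ := 6 * κ + 2 * C0 n + 2 with hP0
  have hP0' : 0 < P0 := by positivity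
  set C1 : ℝ := C0 n + 2 * (3 * κ + C0 n) ^ 2 + P0 ^ 2 * (3 * κ + |Real.log (b0 n)|) with hC1
  have hC1' : 0 ≤ C1 := by positivity
  refine ⟨C1, hC1', fun p hp c => ?_⟩
  have hp2 : (2 : ℝ) ≤ p := by exact_mod_cast hp.two_le
  have hp0 : (0 : ℝ) < p := by linarith
  have hA := Ap_bd hp c
  rw [← hκ] at hA
  rcases le_total (p : ℝ) P0 with hle | hge
  · refine le_trans ?_ (loc_b0 hp c)
    rw [← Real.le_log_iff_exp_le (b0_pos n)]
    have h1 : 3 * κ + |Real.log (b0 n)| ≤ C1 / (p : ℝ) ^ 2 := by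
      rw [le_div_iff₀ (by positivity)]
      have h2 : (p : ℝ) ^ 2 ≤ P0 ^ 2 := pow_le_pow_left₀ hp0.le hle 2
      have h3 : (3 * κ + |Real.log (b0 n)|) * (p : ℝ) ^ 2 ≤ (3 * κ + |Real.log (b0 n)|) * P0 ^ 2 :=
        mul_le_mul_of_nonneg_left h2 (by positivity)
      have h4 : 0 ≤ C0 n + 2 * (3 * κ + C0 n) ^ 2 := by positivity
      rw [hC1]
      linarith
    have h5 : Ap p c ≤ 3 * κ := by
      refine (le_abs_self _).trans (hA.trans ?_)
      have : (3 : ℝ) / p ≤ 3 := div_le_self (by norm_num) (by linarith)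
      calc κ * (3 / p) ≤ κ * 3 := mul_le_mul_of_nonneg_left this hκ0
        _ = 3 * κ := by ring
    have h6 := neg_abs_le (Real.log (b0 n))
    linarith
  · refine le_trans ?_ (loc_low h hp c)
    set x : ℝ := Ap p c - C0 n / (p : ℝ) ^ 2 with hx
    have hxa : |x| ≤ (3 * κ + C0 n) / p := by
      have h1 : C0 n / (p : ℝ) ^ 2 ≤ C0 n / p := by
        apply div_le_div_of_nonneg_left hC0 hp0
        nlinarith
      have h2 : 0 ≤ C0 n / (p : ℝ) ^ 2 := by positivity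
      calc |x| ≤ |Ap p c| + |C0 n / (p : ℝ) ^ 2| := abs_sub _ _
        _ ≤ κ * (3 / p) + C0 n / p := by rw [abs_of_nonneg h2]; exact add_le_add hA h1
        _ = (3 * κ + C0 n) / p := by ring
    have hx2 : x ^ 2 ≤ (3 * κ + C0 n) ^ 2 / (p : ℝ) ^ 2 := by
      rw [← sq_abs x, ← div_pow]
      exact pow_le_pow_left₀ (abs_nonneg _) hxa 2
    have hxl : -(1 / 2) ≤ x := by
      have h1 : (3 * κ + C0 n) / p ≤ 1 / 2 := by
        rw [div_le_iff₀ hp0]
        linarith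
      have := (abs_le.mp (hxa.trans h1)).1
      linarith
    have e1 := exp_low hxl
    have e4 : Real.exp (Ap p c - C1 / (p : ℝ) ^ 2) ≤ Real.exp (x - 2 * x ^ 2) := by
      apply Real.exp_le_exp.mpr
      have h1 : C1 / (p : ℝ) ^ 2 = C0 n / (p : ℝ) ^ 2 + 2 * ((3 * κ + C0 n) ^ 2 / (p : ℝ) ^ 2) +
          P0 ^ 2 * (3 * κ + |Real.log (b0 n)|) / (p : ℝ) ^ 2 := by
        rw [hC1]; ring
      have h2 : 0 ≤ P0 ^ 2 * (3 * κ + |Real.log (b0 n)|) / (p : ℝ) ^ 2 := by positivity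
      rw [h1]
      linarith
    refine e4.trans (e1.trans (le_of_eq ?_))
    rw [hx]; ring

/-- the trigonometric polynomial -/
def ZZ {n : ℕ} (y : ℝ) (c : Fin n → ℝ) : ℂ := ∑ t ∈ TT n y, (lc1 t.1 t.2 : ℂ) * EE (Qm t) c

lemma ZZ_cont {n : ℕ} (y : ℝ) : Continuous (ZZ (n := n) y) := by
  unfold ZZ
  exact continuous_finsetSum _ fun t _ => continuous_const.mul (EE_cont _)

lemma ZZ_re {n : ℕ} (y : ℝ) (c : Fin n → ℝ) : (ZZ y c).re = ∑ p ∈ Py' y, Ap p c := by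
  unfold ZZ Ap
  rw [Complex.re_sum, TT, Finset.sum_product]
  refine Finset.sum_congr rfl fun p hp => Finset.sum_congr rfl fun k hk => ?_
  rw [Complex.re_ofReal_mul, EE_re (t := (p, k)) (y := y) (Finset.mem_product.mpr ⟨hp, hk⟩)]

open Classical in
/-- the coefficients -/
def aa {n : ℕ} (y : ℝ) (q : Fin n → ℕ × ℕ) : ℂ :=
  ∑ t ∈ TT n y, if Qm t = q then (lc1 t.1 t.2 : ℂ) else 0

lemma ZZ_eq {n : ℕ} (y : ℝ) (c : Fin n → ℝ) :
    ZZ y c = ∑ q ∈ Fintype.piFinset (fun _ : Fin n => FR ⌊y⌋₊), aa y q * EE q c := by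
  classical
  unfold ZZ aa
  simp only [Finset.sum_mul]
  rw [Finset.sum_comm]
  refine Finset.sum_congr rfl fun t ht => ?_
  rw [Finset.sum_eq_single (Qm t)]
  · rw [if_pos rfl]
  · intro q _ hq
    rw [if_neg (Ne.symm hq), zero_mul]
  · intro h
    exact absurd (Qm_mem ht) h

lemma aa_sq {n : ℕ} (y : ℝ) (q : Fin n → ℕ × ℕ) [DecidableEq (Fin n → ℕ × ℕ)] :
    ‖aa y q‖ ^ 2 ≤ ∑ t ∈ TT n y, if Qm t = q then (lc1 t.1 t.2) ^ 2 else 0 := by
  unfold aa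
  by_cases h : ∃ t0 ∈ TT n y, Qm t0 = q
  · obtain ⟨t0, ht0, rfl⟩ := h
    rw [Finset.sum_eq_single t0, Finset.sum_eq_single t0, if_pos rfl, if_pos rfl, Complex.norm_real,
      Real.norm_eq_abs, sq_abs]
    · intro t ht hne
      rw [if_neg fun he => hne (Qm_inj ht ht0 he)]
    · intro h; exact absurd ht0 h
    · intro t ht hne
      rw [if_neg fun he => hne (Qm_inj ht ht0 he)]
    · intro h; exact absurd ht0 h
  · push Not at h
    have e2 : (∑ t ∈ TT n y, if Qm t = q then (lc1 t.1 t.2) ^ 2 else 0) = 0 :=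
      Finset.sum_eq_zero fun t ht => if_neg (h t ht)
    rw [e2]
    refine le_of_eq ?_
    rw [sq_eq_zero_iff, norm_eq_zero]
    exact Finset.sum_eq_zero fun t ht => if_neg (h t ht)

lemma aa_sum {n : ℕ} (y : ℝ) :
    ∑ q ∈ Fintype.piFinset (fun _ : Fin n => FR ⌊y⌋₊), ‖aa y q‖ ^ 2 ≤ 9 * (K2 n).card := by
  classical
  calc ∑ q ∈ Fintype.piFinset (fun _ : Fin n => FR ⌊y⌋₊), ‖aa y q‖ ^ 2
      ≤ ∑ q ∈ Fintype.piFinset (fun _ : Fin n => FR ⌊y⌋₊), ∑ t ∈ TT n y,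
          (if Qm t = q then (lc1 t.1 t.2) ^ 2 else 0) := Finset.sum_le_sum fun q _ => aa_sq y q
    _ = ∑ t ∈ TT n y, ∑ q ∈ Fintype.piFinset (fun _ : Fin n => FR ⌊y⌋₊),
          (if Qm t = q then (lc1 t.1 t.2) ^ 2 else 0) := Finset.sum_comm
    _ ≤ ∑ t ∈ TT n y, 9 * (1 / (t.1 : ℝ) ^ 2) := by
        refine Finset.sum_le_sum fun t ht => ?_
        obtain ⟨h1, h2, h3⟩ := mem_TT ht
        rw [Finset.sum_ite_eq, if_pos (Qm_mem ht)]
        have h4 := lc_K2 h1 h3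
        have h5 := lc_nonneg (p := t.1) t.2
        calc (lc1 t.1 t.2) ^ 2 ≤ (3 / (t.1 : ℝ)) ^ 2 := pow_le_pow_left₀ h5 h4 2
          _ = 9 * (1 / (t.1 : ℝ) ^ 2) := by ring
    _ = 9 * ((K2 n).card * ∑ p ∈ Py' y, 1 / (p : ℝ) ^ 2) := by
        unfold TT
        rw [Finset.sum_product, Finset.mul_sum, Finset.mul_sum]
        refine Finset.sum_congr rfl fun p _ => ?_
        change ∑ _x ∈ K2 n, 9 * (1 / (p : ℝ) ^ 2) = _
        rw [Finset.sum_const, nsmul_eq_mul]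
        ring
    _ ≤ 9 * ((K2 n).card * 1) := by
        apply mul_le_mul_of_nonneg_left _ (by norm_num)
        exact mul_le_mul_of_nonneg_left (sum_inv_sq y) (Nat.cast_nonneg _)
    _ = 9 * (K2 n).card := by ring

lemma ms (h : S_ORT) (n : ℕ) {U : ℝ} (hU : 1 ≤ Real.log U) (h2 : 4 * Real.log U ^ (2 * n + 1) ≤ U)
    (hU0 : 0 ≤ U) :
    ∫ c, ‖ZZ (n := n) (Real.log U) c‖ ^ 2 ∂(mB n 0 U) ≤ 18 * (K2 n).card * U ^ n := by
  have hZ1 : 1 ≤ ⌊Real.log U⌋₊ := by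
    rw [Nat.one_le_floor_iff]
    exact hU
  have hZ2 : (⌊Real.log U⌋₊ : ℝ) ≤ Real.log U := Nat.floor_le (by linarith)
  have h3 : 4 * (⌊Real.log U⌋₊ : ℝ) ^ (2 * n + 1) ≤ U := by
    refine le_trans ?_ h2
    have := pow_le_pow_left₀ (Nat.cast_nonneg _) hZ2 (2 * n + 1)
    linarith
  have h4 := h n ⌊Real.log U⌋₊ U (aa (Real.log U)) hZ1 h3
  have e : ∀ c : Fin n → ℝ, ZZ (Real.log U) c =
      ∑ q ∈ Fintype.piFinset (fun _ : Fin n => FR ⌊Real.log U⌋₊), aa (Real.log U) q *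
        ∏ j, cexp (I * ((c j * lam (q j) : ℝ) : ℂ)) := fun c => ZZ_eq _ c
  simp only [e]
  refine h4.trans ?_
  have h5 := aa_sum (n := n) (Real.log U)
  have h6 : 0 ≤ 2 * U ^ n := by positivity
  calc 2 * U ^ n * ∑ q ∈ Fintype.piFinset (fun _ : Fin n => FR ⌊Real.log U⌋₊), ‖aa (Real.log U) q‖ ^ 2
      ≤ 2 * U ^ n * (9 * (K2 n).card) := mul_le_mul_of_nonneg_left h5 h6
    _ = 18 * (K2 n).card * U ^ n := by ring

/-- **LB with the near orthogonality as a hypothesis** -/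
theorem t_LB0 (h : S_LOC1) (ho : S_ORT) : S_LB1 := by
  intro n ε hε
  obtain ⟨C1, hC1, hexp⟩ := loc_exp h n
  set κ : ℝ := ((K2 n).card : ℝ) with hκ
  have hκ0 : 0 ≤ κ := Nat.cast_nonneg _
  set M2 : ℝ := 18 * κ / ε + 1 with hM2
  have hM2' : 0 < M2 := by positivity
  set M : ℝ := Real.sqrt M2 with hM
  have hM0 : 0 ≤ M := Real.sqrt_nonneg _
  have hMsq : M ^ 2 = M2 := Real.sq_sqrt hM2'.le
  refine ⟨Real.exp (-M - C1), Real.exp_pos _, ?_⟩
  have hlog : ∀ᶠ U : ℝ in atTop, 4 * Real.log U ^ (2 * n + 1) ≤ U := by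
    have h1 := (Real.isLittleO_pow_log_id_atTop (n := 2 * n + 1)).bound (c := 1 / 4) (by norm_num)
    filter_upwards [h1, eventually_gt_atTop (0 : ℝ)] with U hU hU0
    rw [Real.norm_eq_abs, Real.norm_eq_abs, id, abs_of_pos hU0] at hU
    have := le_abs_self (Real.log U ^ (2 * n + 1))
    linarith
  filter_upwards [hlog, Real.tendsto_log_atTop.eventually_ge_atTop 1,
    eventually_gt_atTop (0 : ℝ)] with U h1 h2 h3
  have hms := ms ho n h2 h1 h3.le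
  rw [← hκ] at hms
  -- the lower bound for the product
  have hlow : ∀ c : Fin n → ℝ, Real.exp ((ZZ (Real.log U) c).re - C1) ≤ SS1 (Real.log U) c := by
    intro c
    have e1 : SS1 (Real.log U) c = ∏ p ∈ Py' (Real.log U), loc1 c p := rfl
    rw [e1]
    calc Real.exp ((ZZ (Real.log U) c).re - C1)
        ≤ Real.exp (∑ p ∈ Py' (Real.log U), (Ap p c - C1 / (p : ℝ) ^ 2)) := by
          apply Real.exp_le_exp.mpr
          rw [Finset.sum_sub_distrib, ZZ_re]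
          have : ∑ p ∈ Py' (Real.log U), C1 / (p : ℝ) ^ 2 ≤ C1 := by
            have e2 : ∑ p ∈ Py' (Real.log U), C1 / (p : ℝ) ^ 2 =
                C1 * ∑ p ∈ Py' (Real.log U), 1 / (p : ℝ) ^ 2 := by
              rw [Finset.mul_sum]
              exact Finset.sum_congr rfl fun p _ => by ring
            rw [e2]
            calc C1 * ∑ p ∈ Py' (Real.log U), 1 / (p : ℝ) ^ 2 ≤ C1 * 1 :=
                  mul_le_mul_of_nonneg_left (sum_inv_sq _) hC1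
              _ = C1 := mul_one _
          linarith
      _ = ∏ p ∈ Py' (Real.log U), Real.exp (Ap p c - C1 / (p : ℝ) ^ 2) := Real.exp_sum _ _
      _ ≤ ∏ p ∈ Py' (Real.log U), loc1 c p := by
          refine Finset.prod_le_prod (fun p _ => (Real.exp_pos _).le) fun p hp => ?_
          unfold Py' at hp
          rw [Finset.mem_filter] at hp
          exact hexp p hp.2 c
  -- the exceptional set
  have hsub : {c : Fin n → ℝ | SS1 (Real.log U) c ≤ Real.exp (-M - C1)} ⊆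
      {c | M2 ≤ ‖ZZ (n := n) (Real.log U) c‖ ^ 2} := by
    intro c hc
    have h4 : Real.exp ((ZZ (Real.log U) c).re - C1) ≤ Real.exp (-M - C1) := (hlow c).trans hc
    have h5 := Real.exp_le_exp.mp h4
    have h6 : M ≤ |(ZZ (Real.log U) c).re| := by
      have := neg_abs_le (ZZ (Real.log U) c).re
      linarith
    have h7 : M ≤ ‖ZZ (Real.log U) c‖ := h6.trans (Complex.abs_re_le_norm _)
    have h8 : M ^ 2 ≤ ‖ZZ (Real.log U) c‖ ^ 2 := pow_le_pow_left₀ hM0 h7 2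
    rw [hMsq] at h8
    exact h8
  have hint : Integrable (fun c : Fin n → ℝ => ‖ZZ (n := n) (Real.log U) c‖ ^ 2) (mB n 0 U) :=
    mB_int ((ZZ_cont _).norm.pow 2) 0 U
  have hch := mul_meas_ge_le_integral_of_nonneg (μ := mB n 0 U)
    (Filter.Eventually.of_forall fun c => sq_nonneg ‖ZZ (n := n) (Real.log U) c‖) hint M2
  have hmono : (mB n 0 U).real {c : Fin n → ℝ | SS1 (Real.log U) c ≤ Real.exp (-M - C1)} ≤
      (mB n 0 U).real {c | M2 ≤ ‖ZZ (n := n) (Real.log U) c‖ ^ 2} := measureReal_mono hsub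
  refine hmono.trans ?_
  have h9 : M2 * (mB n 0 U).real {c | M2 ≤ ‖ZZ (n := n) (Real.log U) c‖ ^ 2} ≤ 18 * κ * U ^ n :=
    hch.trans hms
  have h10 : 18 * κ ≤ M2 * ε := by
    rw [hM2]
    have : (18 * κ / ε + 1) * ε = 18 * κ + ε := by field_simp
    rw [this]
    linarith
  have h11 : 18 * κ * U ^ n ≤ M2 * (ε * U ^ n) := by
    calc 18 * κ * U ^ n ≤ M2 * ε * U ^ n := mul_le_mul_of_nonneg_right h10 (by positivity)
      _ = M2 * (ε * U ^ n) := by ring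
  exact le_of_mul_le_mul_left (h9.trans h11) hM2'


end Lb1aux

/-- **LB1.** The product of the local densities is rarely small. -/
theorem t_LB1 (h : S_LOC1) : S_LB1 := Lb1aux.t_LB0 h (Pool.Agent.Y953.SX.t_ORT Pool.Agent.Y379.GP.t_SP)

end

end Pool.Agent.N879.PZ
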