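import Pool.Agent.N879.PZ.Stm
import Pool.Agent.N879.QM.Mvg
import Pool.Agent.Y379.GP.Sp

set_option autoImplicit false

/-!
Project PZ (helper879), part LC: large sieve over the shifts (helper134).
-/

namespace Pool.Agent.N879.PZ

open Complex Filter Topology MeasureTheory Set
open Pool.Agent.Y969.GP (ff V V1 ht lam PS FR co cr PX mk mB)

namespace Lcaux

theorem cont_sum (S : Finset (ℕ × ℕ)) (b : ℕ × ℕ → ℂ) :
    Continuous fun c : ℝ => ‖∑ p ∈ S, b p * ee c p‖ ^ 2 := by
  refine (Continuous.norm ?_).pow 2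
  refine continuous_finsetSum _ fun p _ => continuous_const.mul ?_
  unfold ee
  fun_prop

theorem sum_enum (S : Finset (ℕ × ℕ)) (f : ℕ × ℕ → ℂ) :
    ∑ p ∈ S, f p = ∑ i : Fin S.card, f (S.equivFin.symm i) := by
  rw [← Finset.sum_coe_sort S f]
  exact (Equiv.sum_comp S.equivFin.symm (fun p : S => f p)).symm

theorem sum_enumR (S : Finset (ℕ × ℕ)) (f : ℕ × ℕ → ℝ) :
    ∑ p ∈ S, f p = ∑ i : Fin S.card, f (S.equivFin.symm i) := by
  rw [← Finset.sum_coe_sort S f]
  exact (Equiv.sum_comp S.equivFin.symm (fun p : S => f p)).symm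

end Lcaux

open Lcaux in
theorem t_LC : S_LC := by
  obtain ⟨C, hC, hM⟩ := Pool.Agent.N879.QM.t_MVG
  have hSP := Pool.Agent.Y379.GP.t_SP.1
  refine ⟨2 * C, by positivity, ?_⟩
  intro K U S b hK hU hS
  have hK0 : (0 : ℝ) < K := by exact_mod_cast hK
  have hU0 : (0 : ℝ) < U := by linarith
  have h1 := hM S.card (fun i => -lam (S.equivFin.symm i)) (fun i => b (S.equivFin.symm i)) U
    (1 / (2 * (K : ℝ))) hU0 (by positivity) (by
      intro i j hij
      have h2 := hSP K (S.equivFin.symm j) (S.equivFin.symm i) (hS (S.equivFin.symm j).2)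
        (hS (S.equivFin.symm i).2) (by
          intro h
          exact hij (S.equivFin.symm.injective (Subtype.ext h)).symm)
      have h3 : -lam (S.equivFin.symm i) - -lam (S.equivFin.symm j) =
          lam (S.equivFin.symm j) - lam (S.equivFin.symm i) := by ring
      rw [h3]
      exact h2)
  have hfun : ∀ c : ℝ, ‖∑ p ∈ S, b p * ee c p‖ ^ 2 =
      ‖∑ i : Fin S.card, b (S.equivFin.symm i) *
        Complex.exp (-(I * (c * -lam (S.equivFin.symm i) : ℝ)))‖ ^ 2 := by
    intro c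
    rw [sum_enum S fun p => b p * ee c p]
    congr 2
    refine Finset.sum_congr rfl fun i _ => ?_
    unfold ee
    congr 2
    push_cast
    ring
  have h2 : ∫ c in (0 : ℝ)..U, ‖∑ p ∈ S, b p * ee c p‖ ^ 2 ≤
      ∫ c in (-U)..U, ‖∑ p ∈ S, b p * ee c p‖ ^ 2 := by
    have hi : ∀ x y : ℝ, IntervalIntegrable (fun c : ℝ => ‖∑ p ∈ S, b p * ee c p‖ ^ 2) volume x y :=
      fun x y => (cont_sum S b).intervalIntegrable x y
    rw [← intervalIntegral.integral_add_adjacent_intervals (hi (-U) 0) (hi 0 U)]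
    have h3 : 0 ≤ ∫ c in (-U)..0, ‖∑ p ∈ S, b p * ee c p‖ ^ 2 :=
      intervalIntegral.integral_nonneg (by linarith) fun c _ => by positivity
    linarith
  refine h2.trans ?_
  rw [intervalIntegral.integral_congr (g := fun c => ‖∑ i : Fin S.card, b (S.equivFin.symm i) *
        Complex.exp (-(I * (c * -lam (S.equivFin.symm i) : ℝ)))‖ ^ 2) fun c _ => hfun c]
  refine h1.trans ?_
  rw [sum_enumR S fun p => ‖b p‖ ^ 2]
  refine mul_le_mul_of_nonneg_right ?_ (Finset.sum_nonneg fun i _ => by positivity)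
  have h4 : 1 / (1 / (2 * (K : ℝ))) = 2 * K := by
    field_simp
  rw [h4]
  nlinarith

end Pool.Agent.N879.PZ
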