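import Pool.Agent.N879.PZ.Stm
import Pool.Agent.Y969.SM.Bas
import Pool.Agent.Y363.GP.ZL

set_option autoImplicit false

/-!
Project PZ (helper879): the leading term of the model (leaf LED, by helper300).
-/

namespace Pool.Agent.N879.PZ

open Complex Filter Topology MeasureTheory Set
open Pool.Agent.Y969.GP (ff ht lam FR mB)
open Pool.Agent.Y969.SM (mB_int ff_cont)

noncomputable section

namespace Ledaux

/-- telescoping -/
lemma tele {R : Type} [CommRing R] : ∀ (n : ℕ) (x y : Fin n → R),
    ∏ i, x i - ∏ i, y i = ∑ j, ∏ i, (if i < j then y i else if i = j then x i - y i else x i) := by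
  intro n
  induction n with
  | zero => intro x y; simp
  | succ n ih =>
    intro x y
    rw [Fin.sum_univ_succ, Fin.prod_univ_succ, Fin.prod_univ_succ (f := y)]
    have h1 := ih (fun i => x i.succ) (fun i => y i.succ)
    have h2 : ∏ i, (if i < (0 : Fin (n + 1)) then y i else if i = 0 then x i - y i else x i) =
        (x 0 - y 0) * ∏ i : Fin n, x i.succ := by
      rw [Fin.prod_univ_succ]
      simp [Fin.succ_ne_zero]
    have h3 : ∀ j : Fin n, ∏ i, (if i < j.succ then y i else if i = j.succ then x i - y i else x i) =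
        y 0 * ∏ i : Fin n, (if i < j then y i.succ else if i = j then x i.succ - y i.succ
          else x i.succ) := by
      intro j
      rw [Fin.prod_univ_succ]
      simp [Fin.succ_lt_succ_iff]
    rw [h2, Finset.sum_congr rfl fun j _ => h3 j, ← Finset.mul_sum, ← h1]
    ring

/-- Cauchy-Schwarz on a window -/
lemma ws {h : ℝ → ℂ} (hc : Continuous h) {U b t : ℝ} (hU : 0 < U) (hb : 0 < b)
    (h2 : ∫ c in (0 : ℝ)..U, ‖h (t + c)‖ ^ 2 ≤ b ^ 2 * U) :
    ∫ c in (0 : ℝ)..U, ‖h (t + c)‖ ≤ b * U := by
  have c1 : Continuous fun c : ℝ => ‖h (t + c)‖ := (hc.comp (continuous_const.add continuous_id)).norm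
  have i1 : IntervalIntegrable (fun c : ℝ => ‖h (t + c)‖) volume 0 U := c1.intervalIntegrable _ _
  have i2 : IntervalIntegrable (fun c : ℝ => ‖h (t + c)‖ ^ 2) volume 0 U :=
    (c1.pow 2).intervalIntegrable _ _
  calc ∫ c in (0 : ℝ)..U, ‖h (t + c)‖
      ≤ ∫ c in (0 : ℝ)..U, ((2 * b)⁻¹ * ‖h (t + c)‖ ^ 2 + b / 2) := by
        refine intervalIntegral.integral_mono_on hU.le i1
          ((i2.const_mul _).add (_root_.intervalIntegrable_const)) fun c _ => ?_
        have h3 : 0 ≤ (‖h (t + c)‖ - b) ^ 2 / (2 * b) := by positivity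
        have h4 : (2 * b)⁻¹ * ‖h (t + c)‖ ^ 2 + b / 2 - ‖h (t + c)‖ =
            (‖h (t + c)‖ - b) ^ 2 / (2 * b) := by
          field_simp; ring
        linarith
    _ = (2 * b)⁻¹ * (∫ c in (0 : ℝ)..U, ‖h (t + c)‖ ^ 2) + b / 2 * U := by
        rw [intervalIntegral.integral_add (i2.const_mul _) (_root_.intervalIntegrable_const),
          intervalIntegral.integral_const_mul, intervalIntegral.integral_const, smul_eq_mul]
        ring
    _ ≤ (2 * b)⁻¹ * (b ^ 2 * U) + b / 2 * U := by gcongr
    _ = b * U := by field_simp; ring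

lemma ee_cont (p : ℕ × ℕ) : Continuous fun u : ℝ => ee u p := by
  unfold ee
  fun_prop

lemma P1_cont (N : ℕ) : Continuous (P1 N) := by
  unfold P1
  exact continuous_finset_sum _ fun p _ => continuous_const.mul (ee_cont p)

lemma DN_cont (N : ℕ) : Continuous (DN N) := by
  unfold DN
  refine continuous_finset_sum _ fun p hp => Continuous.mul ?_ (ee_cont p)
  refine Complex.continuous_ofReal.comp (continuous_const.mul (Continuous.add ?_ continuous_const))
  have hp0 : 0 < ht p := by
    unfold Pool.Agent.Y969.GP.FR Pool.Agent.Y969.GP.PS at hp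
    simp only [Finset.mem_filter, Finset.mem_product, Finset.mem_Icc] at hp
    unfold Pool.Agent.Y969.GP.ht
    have h1 : 0 < p.1 := by omega
    have h2 : 0 < p.2 := by omega
    positivity
  refine Continuous.log (by fun_prop) fun u => ?_
  have : 0 < max u 1 := lt_max_of_lt_right one_pos
  positivity

lemma prod_bd {n : ℕ} (j : Fin n) {p q : ℝ} (hq : q ≠ 0) :
    (∏ i : Fin n, if i = j then p else q) = q ^ n * (p / q) := by
  have h1 : ∀ i : Fin n, (if i = j then p else q) = q * (if i = j then p / q else 1) := by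
    intro i
    split_ifs
    · field_simp
    · simp
  rw [Finset.prod_congr rfl fun i _ => h1 i, Finset.prod_mul_distrib, Finset.prod_const,
    Finset.card_univ, Fintype.card_fin, Finset.prod_ite_eq']
  simp

end Ledaux

open Ledaux in
/-- the leading term of the model -/
theorem t_LED (h1 : S_FUB) (h2 : S_WIN) : S_LED := by
  intro n
  obtain ⟨C, hC, hW⟩ := h2
  obtain ⟨C', hC', hS⟩ := Pool.Agent.Y363.GP.t_SM
  refine ⟨(n + 1) * (√C + 1) ^ n * C', by positivity, fun T U a N hP => ?_⟩
  have hP' := hP
  obtain ⟨hT, hU, hUT, ha, haT, hN, -, -⟩ := hP'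
  have hT0 : 0 < T := by linarith
  have ha0 : 0 < a := lt_of_lt_of_le (Real.rpow_pos_of_pos hT0 _) ha
  have hU0 : 0 < U := by linarith
  have hlT : 0 < Real.log T := Real.log_pos (by linarith)
  have hlN : 0 ≤ Real.log N := Real.log_nonneg (by exact_mod_cast hN)
  have hlTa : 0 ≤ Real.log (T / a) := Real.log_nonneg ((one_le_div ha0).2 haT)
  set L : ℝ := 1 + Real.log N with hL
  have hL1 : 1 ≤ L := by linarith
  set Q : ℝ := 1 + Real.log (T / a) with hQ
  have hQ1 : 1 ≤ Q := by linarith
  set s : ℝ := √C with hs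
  have hs0 : 0 < s := Real.sqrt_pos.2 hC
  have hss : s ^ 2 = C := Real.sq_sqrt hC.le
  have cf := DN_cont N
  have cg : Continuous fun u : ℝ => (Real.log T : ℂ) * P1 N u := continuous_const.mul (P1_cont N)
  have cw : Continuous fun u : ℝ => (ff u : ℂ) := Complex.continuous_ofReal.comp ff_cont
  -- the functions
  let H : Fin n → Fin n → ℝ → ℂ := fun j i u =>
    if i < j then (Real.log T : ℂ) * P1 N u else if i = j then DN N u - (Real.log T : ℂ) * P1 N u
      else DN N u
  have hH : ∀ j i, Continuous (H j i) := by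
    intro j i
    change Continuous fun u => if i < j then (Real.log T : ℂ) * P1 N u else if i = j then
      DN N u - (Real.log T : ℂ) * P1 N u else DN N u
    split_ifs
    · exact cg
    · exact cf.sub cg
    · exact cf
  have hwin : ∀ j i, ∀ t ∈ Icc a T, ∫ c in (0 : ℝ)..U, ‖H j i (t + c)‖ ≤
      (if i = j then s * L ^ 2 * Q * U else s * L ^ 2 * Real.log T * U) := by
    intro j i t ht'
    obtain ⟨w1, w2, w3⟩ := hW T U a N hP t ht'.1 ht'.2
    have e1 : (∫ c in (0 : ℝ)..U, ‖(Real.log T : ℂ) * P1 N (t + c)‖) ≤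
        s * L ^ 2 * Real.log T * U := by
      refine ws (h := fun u => (Real.log T : ℂ) * P1 N u) cg hU0 (by positivity) ?_
      have h3 : ∀ c : ℝ, ‖(Real.log T : ℂ) * P1 N (t + c)‖ ^ 2 =
          Real.log T ^ 2 * ‖P1 N (t + c)‖ ^ 2 := fun c => by
        rw [norm_mul, mul_pow, Complex.norm_real, Real.norm_eq_abs, sq_abs]
      simp only [h3]
      rw [intervalIntegral.integral_const_mul]
      calc Real.log T ^ 2 * ∫ c in (0 : ℝ)..U, ‖P1 N (t + c)‖ ^ 2
          ≤ Real.log T ^ 2 * (C * U * L ^ 2) := by gcongr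
        _ ≤ Real.log T ^ 2 * (C * U * L ^ 4) := by
          gcongr
          norm_num
        _ = (s * L ^ 2 * Real.log T) ^ 2 * U := by rw [← hss]; ring
    have e2 : (∫ c in (0 : ℝ)..U, ‖DN N (t + c)‖) ≤ s * L ^ 2 * Real.log T * U := by
      refine ws cf hU0 (by positivity) (w2.trans (le_of_eq ?_))
      rw [← hss]; ring
    have e3 : (∫ c in (0 : ℝ)..U, ‖DN N (t + c) - (Real.log T : ℂ) * P1 N (t + c)‖) ≤
        s * L ^ 2 * Q * U := by
      refine ws (h := fun u => DN N u - (Real.log T : ℂ) * P1 N u) (cf.sub cg) hU0 (by positivity)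
        (w3.trans (le_of_eq ?_))
      rw [← hss]; ring
    by_cases hij : i < j
    · have hne : i ≠ j := ne_of_lt hij
      rw [if_neg hne]
      have : ∀ c, H j i (t + c) = (Real.log T : ℂ) * P1 N (t + c) := fun c => if_pos hij
      simp only [this]
      exact e1
    · by_cases hij' : i = j
      · rw [if_pos hij']
        have : ∀ c, H j i (t + c) = DN N (t + c) - (Real.log T : ℂ) * P1 N (t + c) := fun c => by
          show (if i < j then _ else if i = j then _ else _) = _
          rw [if_neg hij, if_pos hij']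
        simp only [this]
        exact e3
      · rw [if_neg hij']
        have : ∀ c, H j i (t + c) = DN N (t + c) := fun c => by
          show (if i < j then _ else if i = j then _ else _) = _
          rw [if_neg hij, if_neg hij']
        simp only [this]
        exact e2
  -- one term
  have hff : ∫ t in Icc a T, ff t ≤ C' * T * Real.log T := by
    refine le_trans ?_ (hS T (by linarith))
    rw [intervalIntegral.integral_of_le (by linarith)]
    refine setIntegral_mono_set ?_ ?_ ?_
    · exact (ff_cont.intervalIntegrable 0 (2 * T)).1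
    · exact Filter.Eventually.of_forall fun t => by
        show (0 : ℝ) ≤ ff t
        unfold Pool.Agent.Y969.GP.ff
        positivity
    · refine HasSubset.Subset.eventuallyLE ?_
      intro t ht'
      exact ⟨lt_of_lt_of_le ha0 ht'.1, by linarith [ht'.2]⟩
  have hff0 : ∀ t, 0 ≤ ff t := fun t => by
    unfold Pool.Agent.Y969.GP.ff
    positivity
  have hWb : Wb a T fun t => (ff t : ℂ) := by
    refine ⟨cw.measurable, ?_⟩
    obtain ⟨M, hM⟩ := (isCompact_Icc (a := a) (b := T)).exists_bound_of_continuousOn cw.continuousOn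
    exact ⟨M, hM⟩
  have hterm : ∀ j, ∫ c, ‖∫ t in Icc a T, (ff t : ℂ) * ∏ i, H j i (t + c i)‖ ∂(mB n 0 U) ≤
      (s ^ n * C') * (L ^ (2 * n) * Q * Real.log T ^ n * T * U ^ n) := by
    intro j
    refine (h1 n a T U (Icc a T) (fun t => (ff t : ℂ)) (H j) haT hU0 measurableSet_Icc
      Subset.rfl hWb (hH j)).trans ?_
    have hb : ∀ t ∈ Icc a T, ‖(ff t : ℂ)‖ * ∏ i, ∫ c in (0 : ℝ)..U, ‖H j i (t + c)‖ ≤
        ff t * ((s * L ^ 2 * Real.log T * U) ^ n * (Q / Real.log T)) := by
      intro t ht'
      rw [Complex.norm_real, Real.norm_of_nonneg (hff0 t)]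
      refine mul_le_mul_of_nonneg_left ?_ (hff0 t)
      have h3 : (∏ i, ∫ c in (0 : ℝ)..U, ‖H j i (t + c)‖) ≤
          ∏ i : Fin n, (if i = j then s * L ^ 2 * Q * U else s * L ^ 2 * Real.log T * U) :=
        Finset.prod_le_prod (fun i _ => intervalIntegral.integral_nonneg hU0.le
          fun c _ => norm_nonneg _) fun i _ => hwin j i t ht'
      refine h3.trans (le_of_eq ?_)
      rw [prod_bd j (by positivity)]
      congr 1
      field_simp
    have hI : IntegrableOn (fun t => ff t * ((s * L ^ 2 * Real.log T * U) ^ n * (Q / Real.log T)))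
        (Icc a T) := (ff_cont.mul continuous_const).integrableOn_Icc
    calc ∫ t in Icc a T, ‖(ff t : ℂ)‖ * ∏ i, ∫ c in (0 : ℝ)..U, ‖H j i (t + c)‖
        ≤ ∫ t in Icc a T, ff t * ((s * L ^ 2 * Real.log T * U) ^ n * (Q / Real.log T)) := by
          refine integral_mono_of_nonneg ?_ hI ?_
          · exact Filter.Eventually.of_forall fun t => mul_nonneg (norm_nonneg _)
              (Finset.prod_nonneg fun i _ => intervalIntegral.integral_nonneg hU0.le
                fun c _ => norm_nonneg _)
          · exact (ae_restrict_iff' measurableSet_Icc).2 (Filter.Eventually.of_forall hb)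
      _ = (∫ t in Icc a T, ff t) * ((s * L ^ 2 * Real.log T * U) ^ n * (Q / Real.log T)) := by
          rw [integral_mul_const]
      _ ≤ (C' * T * Real.log T) * ((s * L ^ 2 * Real.log T * U) ^ n * (Q / Real.log T)) := by
          gcongr
      _ = (s ^ n * C') * (L ^ (2 * n) * Q * Real.log T ^ n * T * U ^ n) := by
          rw [pow_mul]
          field_simp
          ring
  -- the sum
  have hjc : ∀ j, Continuous fun c : Fin n → ℝ => ∫ t in Icc a T, (ff t : ℂ) *
      ∏ i, H j i (t + c i) := by
    intro j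
    refine continuous_parametric_integral_of_continuous ?_ isCompact_Icc
    refine (cw.comp continuous_snd).mul (continuous_finset_prod _ fun i _ => ?_)
    exact (hH j i).comp (continuous_snd.add ((continuous_apply i).comp continuous_fst))
  have hsum : ∀ c : Fin n → ℝ, (∫ t in Icc a T, (ff t : ℂ) * (∏ j : Fin n, DN N (t + c j) -
      ∏ j : Fin n, ((Real.log T : ℂ) * P1 N (t + c j)))) =
      ∑ j, ∫ t in Icc a T, (ff t : ℂ) * ∏ i, H j i (t + c i) := by
    intro c
    rw [← integral_finset_sum]
    · refine integral_congr_ae (Filter.Eventually.of_forall fun t => ?_)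
      show (ff t : ℂ) * (∏ j : Fin n, DN N (t + c j) -
        ∏ j : Fin n, ((Real.log T : ℂ) * P1 N (t + c j))) = _
      rw [tele, Finset.mul_sum]
    · intro j _
      refine Continuous.integrableOn_Icc ?_
      exact cw.mul (continuous_finset_prod _ fun i _ =>
        (hH j i).comp (continuous_id.add continuous_const))
  have hmain : ∫ c, ‖∫ t in Icc a T, (ff t : ℂ) * (∏ j : Fin n, DN N (t + c j) -
      ∏ j : Fin n, ((Real.log T : ℂ) * P1 N (t + c j)))‖ ∂(mB n 0 U) ≤
      ∑ j : Fin n, ∫ c, ‖∫ t in Icc a T, (ff t : ℂ) * ∏ i, H j i (t + c i)‖ ∂(mB n 0 U) := by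
    rw [← integral_finset_sum]
    · refine integral_mono_of_nonneg (Filter.Eventually.of_forall fun c => norm_nonneg _) ?_
        (Filter.Eventually.of_forall fun c => ?_)
      · exact integrable_finset_sum _ fun j _ => mB_int (hjc j).norm 0 U
      · show ‖_‖ ≤ _
        rw [hsum c]
        exact norm_sum_le _ _
    · intro j _
      exact mB_int (hjc j).norm 0 U
  refine hmain.trans ((Finset.sum_le_sum fun j _ => hterm j).trans ?_)
  rw [Finset.sum_const, Finset.card_univ, Fintype.card_fin, nsmul_eq_mul]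
  have h5 : s ^ n ≤ (s + 1) ^ n := pow_le_pow_left₀ hs0.le (by linarith) n
  have h6 : (0 : ℝ) ≤ L ^ (2 * n) * Q * Real.log T ^ n * T * U ^ n := by positivity
  calc (n : ℝ) * ((s ^ n * C') * (L ^ (2 * n) * Q * Real.log T ^ n * T * U ^ n))
      ≤ ((n : ℝ) + 1) * (((s + 1) ^ n * C') * (L ^ (2 * n) * Q * Real.log T ^ n * T * U ^ n)) := by
        gcongr
        linarith
    _ = _ := by ring

end

end Pool.Agent.N879.PZ
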