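import Pool.Agent.N879.PZ.Stm
import Pool.Agent.Y852.SX.Loc

/-!
Project PZ (helper879), part LOC1: the local density as a Fourier series.
-/

set_option autoImplicit false

namespace Pool.Agent.N879.PZ

namespace Loc1aux

open Finset Filter Topology MeasureTheory Complex
open Pool.Agent.TH806
open Pool.Agent.Y969.SM (kx)
open Pool.Agent.Y852.SX (tm tm_eq tm_norm prod_summable tm_hasSum inv_pk rp rp_sq rp_pos rp_lt
  cpow_ec cpow_ec0 npos n_cont)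

noncomputable section

/-- the density -/
def qd2 (r x : ℝ) : ℝ := (‖(1 - (r : ℂ) * ec x)‖ ^ 2)⁻¹

lemma qd2_cont {r : ℝ} (h0 : 0 ≤ r) (h1 : r < 1) : Continuous (qd2 r) := by
  unfold qd2
  refine Continuous.inv₀ ((n_cont r).pow 2) fun x => ?_
  have := npos h0 h1 x
  have : 0 < ‖(1 - (r : ℂ) * ec x)‖ := by linarith
  positivity

lemma qd2_nonneg (r x : ℝ) : 0 ≤ qd2 r x := by unfold qd2; positivity

lemma qd2_le {r : ℝ} (h0 : 0 ≤ r) (h1 : r < 1) (x : ℝ) : qd2 r x ≤ ((1 - r)⁻¹) ^ 2 := by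
  unfold qd2
  have h2 : 0 < 1 - r := by linarith
  rw [← inv_pow]
  exact pow_le_pow_left₀ (by positivity) (inv_anti₀ h2 (npos h0 h1 x)) 2

/-- the closed form of the Fourier coefficient -/
def Bq2 (r : ℝ) (m : ℤ) : ℝ := r ^ m.natAbs / (1 - r ^ 2)

theorem Aq2_eq {r : ℝ} (h0 : 0 ≤ r) (h1 : r < 1) (m : ℤ) :
    ∫ θ, ec (m * θ) * ((qd2 r θ : ℝ) : ℂ) ∂uu = ((Bq2 r m : ℝ) : ℂ) := by
  have hr : ‖(r:ℂ)‖ < 1 := by rw [Complex.norm_real, Real.norm_of_nonneg h0]; exact h1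
  have e : ∀ θ : ℝ, ec (m * θ) * ((qd2 r θ : ℝ) : ℂ) =
      ec (m * θ) * Pk (r:ℂ) θ * (((1 - r ^ 2 : ℝ) : ℂ))⁻¹ := by
    intro θ
    rw [qd2, inv_pk h0 h1, mul_assoc]
  simp_rw [e]
  rw [integral_mul_const, int_Pk hr m, Bq2]
  push_cast
  rw [div_eq_mul_inv]

/-- integration term by term -/
theorem int_tm {n : ℕ} {r : ℝ} (h0 : 0 ≤ r) (h1 : r < 1) (a : Fin n → ℝ) :
    ∫ θ, ((qd2 r θ : ℝ) : ℂ) * ∏ j, Pk (r:ℂ) (θ - a j) ∂uu =
      ∑' k : Fin n → ℤ, ((Bq2 r (∑ j, k j) : ℝ) : ℂ) *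
        ((∏ j, (r:ℂ) ^ (k j).natAbs) * ∏ j, ec (-(k j * a j))) := by
  have hqc := qd2_cont h0 h1
  have hec := ec_cont
  have hcont : ∀ k : Fin n → ℤ, Continuous (fun θ => ((qd2 r θ : ℝ) : ℂ) * tm r a k θ) := by
    intro k
    simp_rw [tm_eq]
    fun_prop
  have hint : ∀ k : Fin n → ℤ, Integrable (fun θ => ((qd2 r θ : ℝ) : ℂ) * tm r a k θ) uu := by
    intro k
    refine integrable_uu (B := ((1 - r)⁻¹) ^ 2 * ∏ j, r ^ (k j).natAbs) (hcont k) fun x => ?_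
    rw [norm_mul, tm_norm h0, Complex.norm_real, Real.norm_of_nonneg (qd2_nonneg r x)]
    have : 0 ≤ ∏ j, r ^ (k j).natAbs := prod_nonneg fun _ _ => by positivity
    exact mul_le_mul_of_nonneg_right (qd2_le h0 h1 x) this
  have hnorm : ∀ k : Fin n → ℤ, ∫ θ, ‖((qd2 r θ : ℝ) : ℂ) * tm r a k θ‖ ∂uu =
      (∫ θ, qd2 r θ ∂uu) * ∏ j, r ^ (k j).natAbs := by
    intro k
    rw [← integral_mul_const]
    congr 1
    funext θ
    rw [norm_mul, tm_norm h0, Complex.norm_real, Real.norm_of_nonneg (qd2_nonneg r θ)]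
  have hs := hasSum_integral_of_summable_integral_norm (μ := uu)
    (F := fun (k : Fin n → ℤ) (θ : ℝ) => ((qd2 r θ : ℝ) : ℂ) * tm r a k θ) hint (by
      simp_rw [hnorm]
      exact (prod_summable n h0 h1).mul_left _)
  have e1 : ∀ θ, ∑' k : Fin n → ℤ, ((qd2 r θ : ℝ) : ℂ) * tm r a k θ =
      ((qd2 r θ : ℝ) : ℂ) * ∏ j, Pk (r:ℂ) (θ - a j) := by
    intro θ
    rw [tsum_mul_left, (tm_hasSum h0 h1 a θ).tsum_eq]
  have e2 : ∀ k : Fin n → ℤ, ∫ θ, ((qd2 r θ : ℝ) : ℂ) * tm r a k θ ∂uu =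
      ((Bq2 r (∑ j, k j) : ℝ) : ℂ) * ((∏ j, (r:ℂ) ^ (k j).natAbs) * ∏ j, ec (-(k j * a j))) := by
    intro k
    rw [← Aq2_eq h0 h1, ← integral_mul_const]
    congr 1
    funext θ
    rw [tm_eq]
    ring
  have h3 := hs.tsum_eq
  simp_rw [e1] at h3
  rw [← h3]
  exact tsum_congr e2

lemma Bq2_nonneg {r : ℝ} (h0 : 0 ≤ r) (h1 : r < 1) (m : ℤ) : 0 ≤ Bq2 r m := by
  have hr2 : 0 < (1:ℝ) - r ^ 2 := by nlinarith
  unfold Bq2
  positivity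

theorem loc_eq {n : ℕ} (p : ℕ) (hp : p.Prime) (c : Fin n → ℝ) :
    ((loc1 c p : ℝ) : ℂ) = ((1 - rp p ^ 2 : ℝ) : ℂ) *
      ∫ θ, ((qd2 (rp p) θ : ℝ) : ℂ) *
        ∏ j, Pk (rp p : ℂ) (θ - c j * Real.log p / (2 * Real.pi)) ∂uu := by
  have h0 := (rp_pos p).le
  have h1 := rp_lt p hp
  have hr2 : (1:ℝ) - rp p ^ 2 ≠ 0 := by nlinarith
  have hr2c : ((1 - rp p ^ 2 : ℝ) : ℂ) ≠ 0 := by rw [Complex.ofReal_ne_zero]; exact hr2
  rw [loc1, ← rp_sq p hp]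
  rw [Complex.ofReal_mul, ← intervalIntegral.integral_ofReal]
  have e : ∀ θ : ℝ, ((1 / (‖1 - cexp (2 * Real.pi * I * θ) * (p : ℂ) ^ (-(1 / 2) : ℂ)‖ ^ 2 *
      ∏ j, ‖1 - cexp (2 * Real.pi * I * θ) * (p : ℂ) ^ (-(1 / 2 + I * c j))‖ ^ 2) : ℝ) : ℂ) =
      (((qd2 (rp p) θ : ℝ) : ℂ) *
        ∏ j, Pk (rp p : ℂ) (θ - c j * Real.log p / (2 * Real.pi))) *
        (((1 - rp p ^ 2 : ℝ) : ℂ)⁻¹) ^ n := by
    intro θ
    simp_rw [cpow_ec p hp, cpow_ec0 p hp]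
    have e1 : (1 / (‖1 - (rp p : ℂ) * ec θ‖ ^ 2 *
      ∏ j, ‖1 - (rp p : ℂ) * ec (θ - c j * Real.log p / (2 * Real.pi))‖ ^ 2) : ℝ) =
      qd2 (rp p) θ * ∏ j, (‖1 - (rp p : ℂ) * ec (θ - c j * Real.log p / (2 * Real.pi))‖ ^ 2)⁻¹ := by
      rw [prod_inv_distrib, one_div, mul_inv, qd2]
    rw [e1, Complex.ofReal_mul, Complex.ofReal_prod]
    simp_rw [inv_pk h0 h1]
    rw [prod_mul_distrib, prod_const, card_univ, Fintype.card_fin]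
    ring
  simp_rw [e]
  rw [← uu_int, integral_mul_const]
  have e2 : (((1 - rp p ^ 2) ^ (n + 1) : ℝ) : ℂ) =
      ((1 - rp p ^ 2 : ℝ) : ℂ) * ((1 - rp p ^ 2 : ℝ) : ℂ) ^ n := by
    rw [← pow_succ', ← Complex.ofReal_pow]
  rw [e2, inv_pow, mul_assoc]
  congr 1
  rw [mul_comm, mul_assoc, inv_mul_cancel₀ (pow_ne_zero n hr2c), mul_one]

theorem lc1_eq {n : ℕ} (p : ℕ) (hp : p.Prime) (k : Fin n → ℤ) :
    lc1 p k = (1 - rp p ^ 2) * (Bq2 (rp p) (∑ j, k j) * ∏ j, rp p ^ (k j).natAbs) := by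
  have hp0 : (0:ℝ) < p := by exact_mod_cast hp.pos
  have h1 := rp_lt p hp
  have h0 := rp_pos p
  have hr2 : (1:ℝ) - rp p ^ 2 ≠ 0 := by nlinarith
  have e1 : (p : ℝ) ^ (-((kx k : ℝ) / 2)) = rp p ^ (∑ j, k j).natAbs *
      ∏ j, rp p ^ (k j).natAbs := by
    rw [Real.rpow_def_of_pos hp0, prod_pow_eq_pow_sum, ← pow_add, rp, ← Real.exp_nat_mul]
    congr 1
    unfold kx
    push_cast
    ring
  rw [lc1, e1, Bq2]
  field_simp

lemma lc1_sum (n p : ℕ) (hp : p.Prime) : Summable fun k : Fin n → ℤ => lc1 p k := by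
  have h0 := (rp_pos p).le
  have h1 := rp_lt p hp
  have hr2 : (0:ℝ) < 1 - rp p ^ 2 := by nlinarith
  refine Summable.of_nonneg_of_le (fun k => ?_) (fun k => ?_) (prod_summable n h0 h1)
  · unfold lc1; positivity
  · rw [lc1_eq p hp k, Bq2]
    have h3 : 0 ≤ ∏ j, rp p ^ (k j).natAbs := prod_nonneg fun _ _ => by positivity
    have h4 : (1 - rp p ^ 2) * (rp p ^ (∑ j, k j).natAbs / (1 - rp p ^ 2) *
        ∏ j, rp p ^ (k j).natAbs) = rp p ^ (∑ j, k j).natAbs * ∏ j, rp p ^ (k j).natAbs := by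
      field_simp
    rw [h4]
    exact mul_le_of_le_one_left h3 (pow_le_one₀ h0 h1.le)

end

end Loc1aux

open Finset Complex in
open Pool.Agent.TH806 in
open Pool.Agent.Y852.SX (rp rp_pos rp_lt) in
open Loc1aux in
theorem t_LOC1 : S_LOC1 := by
  intro n p hp c
  have h0 := (rp_pos p).le
  have h1 := rp_lt p hp
  refine ⟨lc1_sum n p hp, ?_⟩
  rw [Loc1aux.loc_eq p hp c, Loc1aux.int_tm h0 h1, ← tsum_mul_left]
  refine tsum_congr fun k => ?_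
  have h2 := congrArg (fun x : ℝ => (x : ℂ)) (lc1_eq p hp k)
  have e1 : ∏ j, ec (-((k j : ℝ) * (c j * Real.log p / (2 * Real.pi)))) =
      ∏ j, cexp (-(I * ((c j * Real.log p * k j : ℝ) : ℂ))) := by
    apply prod_congr rfl
    intro j _
    rw [ec]
    congr 1
    have hpi : (Real.pi : ℂ) ≠ 0 := by exact_mod_cast Real.pi_ne_zero
    push_cast
    field_simp
  rw [e1, ← mul_assoc, ← mul_assoc]
  congr 1
  push_cast at h2 ⊢
  rw [h2]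
  ring

end Pool.Agent.N879.PZ
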