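import Pool.Agent.N879.PZ.Stm
import Pool.Agent.Y587.GP.V
import Pool.Agent.Y125.GP.LSW
import Pool.Agent.Y379.GP.Sp

set_option autoImplicit false

/-! PZ/LT: the large sieve over `t` with amplitudes, and its dual (helper124). -/

namespace Pool.Agent.N879.PZ

open Complex Filter Topology MeasureTheory Set
open Pool.Agent.Y969.GP (ff V V1 ht lam PS FR co cr PX mk mB S_LSW)

noncomputable section

namespace Ltaux

/-- the large sieve in one variable -/
lemma lsw_one (h : S_LSW) : ∃ C : ℝ, 0 < C ∧ ∀ (X : ℕ) (a T : ℝ), 1 ≤ X → 1 ≤ T → 0 ≤ a → a ≤ T →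
    ∀ (A A' : ℕ × ℕ → ℝ → ℂ) (b : ℕ × ℕ → ℂ) (w : ℕ × ℕ → ℝ),
    (∀ p ∈ FR X, ∀ x ∈ Icc a T, HasDerivAt (A p) (A' p x) x) →
    (∀ p ∈ FR X, ContinuousOn (A' p) (Icc a T)) →
    (∀ p ∈ FR X, ∀ x ∈ Icc a T, ‖A p x‖ ≤ w p) →
    (∀ p ∈ FR X, ∫ x in a..T, ‖A' p x‖ ≤ w p) →
    ∫ x in Icc a T, ‖∑ q ∈ FR X, b q * (A q x * cexp (I * ((x * lam q : ℝ) : ℂ)))‖ ^ 2 ≤
      C * ((T + X) * (1 + Real.log X)) * ∑ q ∈ FR X, ‖b q‖ ^ 2 * w q ^ 2 := by
  obtain ⟨C, hC, h1⟩ := h 1
  refine ⟨C, hC, ?_⟩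
  intro X a T hX hT ha haT A A' b w hA hA' hw hw'
  have h2 := h1 X a T hX hT ha haT (fun _ => A) (fun _ => A') (fun q => b (q 0)) (fun _ => w)
    (fun _ => hA) (fun _ => hA') (fun _ => hw) (fun _ => hw')
  have hsum : ∀ {M : Type} [AddCommMonoid M] (g : ℕ × ℕ → M),
      ∑ q ∈ Fintype.piFinset (fun _ : Fin 1 => FR X), g (q 0) = ∑ q ∈ FR X, g q := by
    intro M _ g
    refine Finset.sum_nbij' (fun q => q 0) (fun p _ => p) ?_ ?_ ?_ ?_ ?_
    · intro q hq
      exact Fintype.mem_piFinset.1 hq 0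
    · intro p hp
      exact Fintype.mem_piFinset.2 fun _ => hp
    · intro q _
      funext i
      rw [Subsingleton.elim i 0]
    · intro p _; rfl
    · intro q _; rfl
  simp only [Fin.prod_univ_one, pow_one] at h2
  rw [hsum (fun q => ‖b q‖ ^ 2 * w q ^ 2)] at h2
  have h3 : ∀ c : Fin 1 → ℝ, ∑ q ∈ Fintype.piFinset (fun _ : Fin 1 => FR X),
      b (q 0) * (A (q 0) (c 0) * cexp (I * ((c 0 * lam (q 0) : ℝ) : ℂ))) =
      ∑ q ∈ FR X, b q * (A q (c 0) * cexp (I * ((c 0 * lam q : ℝ) : ℂ))) := fun c =>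
    hsum (fun q => b q * (A q (c 0) * cexp (I * ((c 0 * lam q : ℝ) : ℂ))))
  simp only [h3] at h2
  have h4 := (measurePreserving_funUnique (volume.restrict (Icc a T)) (Fin 1)).integral_comp'
    (g := fun x : ℝ => ‖∑ q ∈ FR X, b q * (A q x * cexp (I * ((x * lam q : ℝ) : ℂ)))‖ ^ 2)
  have h5 : ∫ c, ‖∑ q ∈ FR X, b q * (A q (c 0) * cexp (I * ((c 0 * lam q : ℝ) : ℂ)))‖ ^ 2 ∂(mB 1 a T) =
      ∫ x in Icc a T, ‖∑ q ∈ FR X, b q * (A q x * cexp (I * ((x * lam q : ℝ) : ℂ)))‖ ^ 2 := by
    rw [← h4]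
    rfl
  rw [h5] at h2
  exact h2

lemma wb_int {a T : ℝ} (haT : a ≤ T) {F g : ℝ → ℂ} (hF : Wb a T F) (hg : ContinuousOn g (Icc a T)) :
    IntervalIntegrable (fun t => F t * g t) volume a T := by
  obtain ⟨hm, M, hM⟩ := hF
  obtain ⟨B, hB⟩ := isCompact_Icc.exists_bound_of_continuousOn hg
  rw [intervalIntegrable_iff_integrableOn_Icc_of_le haT]
  refine Integrable.of_bound (μ := volume.restrict (Icc a T)) ?_ (M * B) ?_
  · exact hm.aestronglyMeasurable.mul (hg.aestronglyMeasurable measurableSet_Icc)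
  · rw [ae_restrict_iff' measurableSet_Icc]
    refine Filter.Eventually.of_forall fun t ht => ?_
    rw [norm_mul]
    exact mul_le_mul (hM t ht) (hB t ht) (norm_nonneg _) ((norm_nonneg _).trans (hM t ht))

lemma wb_sq {a T : ℝ} (haT : a ≤ T) {F : ℝ → ℂ} (hF : Wb a T F) :
    IntervalIntegrable (fun t => ‖F t‖ ^ 2) volume a T := by
  obtain ⟨hm, M, hM⟩ := hF
  rw [intervalIntegrable_iff_integrableOn_Icc_of_le haT]
  refine Measure.integrableOn_of_bounded (M := M ^ 2) ?_ ?_ ?_
  · exact isCompact_Icc.measure_lt_top.ne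
  · exact (hm.norm.pow_const 2).aestronglyMeasurable
  · rw [ae_restrict_iff' measurableSet_Icc]
    refine Filter.Eventually.of_forall fun t ht => ?_
    rw [norm_pow, norm_norm]
    exact pow_le_pow_left₀ (norm_nonneg _) (hM t ht) 2

end Ltaux

open Ltaux in
theorem t_LT : S_LT := by
  have hV := Pool.Agent.Y587.GP.t_V
  have hSP := Pool.Agent.Y379.GP.t_SP
  obtain ⟨C, hC, h1⟩ := lsw_one (Pool.Agent.Y125.GP.t_LSW hSP)
  refine ⟨C, hC, ?_⟩
  intro K a T w S A A' hK hT ha haT hw hS hA hA' hAw hA'w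
  have hK' : (1 : ℝ) ≤ K := by exact_mod_cast hK
  have hlK : 0 ≤ Real.log K := Real.log_nonneg hK'
  have hcontA : ∀ p ∈ S, ContinuousOn (A p) (Icc a T) := fun p hp x hx =>
    (hA p hp x hx).continuousAt.continuousWithinAt
  have hee : ∀ p, Continuous fun t : ℝ => ee t p := by
    intro p
    unfold ee
    fun_prop
  have hI : ∀ b : ℕ × ℕ → ℂ, ∫ t in a..T, ‖∑ p ∈ S, b p * (A p t * ee t p)‖ ^ 2 ≤
      C * ((T + K) * (1 + Real.log K)) * w ^ 2 * ∑ p ∈ S, ‖b p‖ ^ 2 := by
    intro b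
    classical
    have h2 := h1 K a T hK hT ha haT (fun p => if p ∈ S then A p else fun _ => 0)
      (fun p => if p ∈ S then A' p else fun _ => 0) (fun p => if p ∈ S then b p else 0) (fun _ => w)
      ?_ ?_ ?_ ?_
    · have h3 : ∀ t : ℝ, ∑ q ∈ FR K, (if q ∈ S then b q else 0) *
          ((if q ∈ S then A q else fun _ => 0) t * cexp (I * ((t * lam q : ℝ) : ℂ))) =
          ∑ p ∈ S, b p * (A p t * ee t p) := by
        intro t
        rw [← Finset.sum_subset hS (f := fun q => (if q ∈ S then b q else 0) *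
          ((if q ∈ S then A q else fun _ => 0) t * cexp (I * ((t * lam q : ℝ) : ℂ))))]
        · refine Finset.sum_congr rfl fun q hq => ?_
          simp only [if_pos hq]
          rfl
        · intro q _ hq
          simp only [if_neg hq, zero_mul]
      have h4 : ∑ q ∈ FR K, ‖(if q ∈ S then b q else 0)‖ ^ 2 * w ^ 2 = w ^ 2 * ∑ p ∈ S, ‖b p‖ ^ 2 := by
        rw [← Finset.sum_subset hS (f := fun q => ‖(if q ∈ S then b q else 0)‖ ^ 2 * w ^ 2)]
        · rw [Finset.mul_sum]
          refine Finset.sum_congr rfl fun q hq => ?_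
          simp only [if_pos hq]
          ring
        · intro q _ hq
          simp only [if_neg hq, norm_zero]
          ring
      simp only [h3, h4] at h2
      rw [intervalIntegral.integral_of_le haT, ← integral_Icc_eq_integral_Ioc, mul_assoc]
      exact h2
    · intro p _ x hx
      by_cases hp : p ∈ S
      · simp only [if_pos hp]
        exact hA p hp x hx
      · simp only [if_neg hp]
        exact hasDerivAt_const x 0
    · intro p _
      by_cases hp : p ∈ S
      · simp only [if_pos hp]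
        exact hA' p hp
      · simp only [if_neg hp]
        exact continuousOn_const
    · intro p _ x hx
      by_cases hp : p ∈ S
      · simp only [if_pos hp]
        exact hAw p hp x hx
      · simp only [if_neg hp, norm_zero]
        exact hw
    · intro p _
      by_cases hp : p ∈ S
      · simp only [if_pos hp]
        exact hA'w p hp
      · simp only [if_neg hp, norm_zero, intervalIntegral.integral_zero]
        exact hw
  refine ⟨hI, ?_⟩
  intro F hF
  have hF2 : 0 ≤ ∫ t in a..T, ‖F t‖ ^ 2 :=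
    intervalIntegral.integral_nonneg haT fun t _ => by positivity
  set D : ℝ := C * ((T + K) * (1 + Real.log K)) * w ^ 2 with hD
  rcases eq_or_lt_of_le hw with hw0 | hw0
  · -- `w = 0`
    have hz : ∀ p ∈ S, ∫ t in a..T, F t * (A p t * ee t p) = 0 := by
      intro p hp
      have : ∀ t ∈ uIcc a T, F t * (A p t * ee t p) = (fun _ => (0 : ℂ)) t := by
        intro t ht
        rw [uIcc_of_le haT] at ht
        have h3 : A p t = 0 := by
          have := hAw p hp t ht
          rw [← hw0] at this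
          exact norm_le_zero_iff.1 this
        simp [h3]
      rw [intervalIntegral.integral_congr this]
      simp
    have h3 : ∑ p ∈ S, ‖∫ t in a..T, F t * (A p t * ee t p)‖ ^ 2 = 0 :=
      Finset.sum_eq_zero fun p hp => by rw [hz p hp]; simp
    rw [h3, hD, ← hw0]
    simp
  · have hDpos : 0 < D := by
      rw [hD]
      have : 0 < T + K := by linarith
      positivity
    set v : ℕ × ℕ → ℂ := fun p => ∫ t in a..T, F t * (A p t * ee t p) with hv
    set y : ℕ × ℕ → ℂ := fun p => (starRingEnd ℂ) (v p) with hy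
    set G : ℝ → ℂ := fun t => ∑ p ∈ S, y p * (A p t * ee t p) with hG
    have hGc : ContinuousOn G (Icc a T) := by
      rw [hG]
      refine continuousOn_finsetSum _ fun p hp => ?_
      exact continuousOn_const.mul ((hcontA p hp).mul (hee p).continuousOn)
    set Z : ℝ := ∑ p ∈ S, ‖v p‖ ^ 2 with hZ
    have hyv : ∀ p, ‖y p‖ = ‖v p‖ := fun p => by rw [hy]; exact Complex.norm_conj _
    have hGI : ∫ t in a..T, ‖G t‖ ^ 2 ≤ D * Z := by
      have := hI y
      simp only [hyv] at this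
      exact this
    have e1 : (Z : ℂ) = ∫ t in a..T, F t * G t := by
      have e2 : ∀ t : ℝ, F t * G t = ∑ p ∈ S, y p * (F t * (A p t * ee t p)) := by
        intro t
        rw [hG]
        simp only
        rw [Finset.mul_sum]
        refine Finset.sum_congr rfl fun p _ => ?_
        ring
      simp only [e2]
      rw [intervalIntegral.integral_finsetSum]
      · rw [hZ]
        push_cast
        refine Finset.sum_congr rfl fun p _ => ?_
        rw [intervalIntegral.integral_const_mul]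
        change ((‖v p‖ : ℝ) : ℂ) ^ 2 = (starRingEnd ℂ) (v p) * v p
        rw [mul_comm, Complex.mul_conj, Complex.normSq_eq_norm_sq]
        push_cast
        rfl
      · intro p hp
        exact (wb_int haT hF ((hcontA p hp).mul (hee p).continuousOn)).const_mul _
    have e3 : Z ≤ ∫ t in a..T, ‖F t * G t‖ := by
      have h3 : ‖((Z : ℝ) : ℂ)‖ ≤ ∫ t in a..T, ‖F t * G t‖ := by
        rw [e1]
        exact intervalIntegral.norm_integral_le_integral_norm haT
      rw [Complex.norm_real, Real.norm_eq_abs] at h3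
      exact (le_abs_self Z).trans h3
    have hG2 : IntervalIntegrable (fun t => ‖G t‖ ^ 2) volume a T :=
      (hGc.norm.pow 2).intervalIntegrable_of_Icc haT
    have e4 : ∫ t in a..T, ‖F t * G t‖ ≤ ∫ t in a..T, (D / 2 * ‖F t‖ ^ 2 + (1 / (2 * D)) * ‖G t‖ ^ 2) := by
      refine intervalIntegral.integral_mono_on haT (wb_int haT hF hGc).norm
        (((wb_sq haT hF).const_mul _).add (hG2.const_mul _)) ?_
      intro t _
      rw [norm_mul]
      have h5 : 0 ≤ (D * ‖F t‖ - ‖G t‖) ^ 2 := sq_nonneg _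
      have h6 : D / 2 * ‖F t‖ ^ 2 + (1 / (2 * D)) * ‖G t‖ ^ 2 - ‖F t‖ * ‖G t‖ =
          (D * ‖F t‖ - ‖G t‖) ^ 2 / (2 * D) := by
        field_simp
        ring
      have h7 : 0 ≤ (D * ‖F t‖ - ‖G t‖) ^ 2 / (2 * D) := by positivity
      linarith
    have e5 : ∫ t in a..T, (D / 2 * ‖F t‖ ^ 2 + (1 / (2 * D)) * ‖G t‖ ^ 2) =
        D / 2 * (∫ t in a..T, ‖F t‖ ^ 2) + (1 / (2 * D)) * ∫ t in a..T, ‖G t‖ ^ 2 := by
      rw [intervalIntegral.integral_add ((wb_sq haT hF).const_mul _) (hG2.const_mul _),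
        intervalIntegral.integral_const_mul, intervalIntegral.integral_const_mul]
    have e6 : (1 / (2 * D)) * ∫ t in a..T, ‖G t‖ ^ 2 ≤ Z / 2 := by
      calc (1 / (2 * D)) * ∫ t in a..T, ‖G t‖ ^ 2 ≤ (1 / (2 * D)) * (D * Z) := by
            refine mul_le_mul_of_nonneg_left hGI (by positivity)
        _ = Z / 2 := by
            field_simp
    linarith

end

end Pool.Agent.N879.PZ
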