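import Pool.Agent.N879.PZ.Stm
import Pool.Agent.Y969.SM.Bas
import Pool.Agent.Y81.SX.T0
import Pool.Agent.Y953.SX.Ort
import Pool.Agent.Y76.SX.ARI
import Pool.Agent.Y379.GP.Sp

set_option autoImplicit false

/-!
Project PZ (helper879), part MSQ (helper163): mean square of the low part.
-/

namespace Pool.Agent.N879.PZ

open Complex Filter Topology MeasureTheory Set
open Pool.Agent.Y969.GP (ff V V1 ht lam PS FR co cr PX mk mB)
open Pool.Agent.Y969.SM (kx)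
open Pool.Agent.W184.NZ (w1)

noncomputable section

namespace Msqaux

open Pool.Agent.Y81.SX.T0 (HL mem_FR ht_pos one_le_ht HL_fst HL_snd prod_ht LY LY_eq card_S)

/-- the reduced pair of the products -/
def pq {n : ℕ} (q : Fin n → ℕ × ℕ) : ℕ × ℕ :=
  ((HL q).1 / Nat.gcd (HL q).1 (HL q).2, (HL q).2 / Nat.gcd (HL q).1 (HL q).2)

lemma gpos {n : ℕ} {q : Fin n → ℕ × ℕ} (h : ∀ j, 1 ≤ (q j).1) :
    0 < Nat.gcd (HL q).1 (HL q).2 := Nat.gcd_pos_of_pos_left _ (HL_fst h)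

lemma pq_fst {n : ℕ} {q : Fin n → ℕ × ℕ} (h : ∀ j, 1 ≤ (q j).1) : 1 ≤ (pq q).1 :=
  Nat.div_pos (Nat.le_of_dvd (HL_fst h) (Nat.gcd_dvd_left _ _)) (gpos h)

lemma pq_snd {n : ℕ} {q : Fin n → ℕ × ℕ} (h : ∀ j, 1 ≤ (q j).1) (h' : ∀ j, 1 ≤ (q j).2) :
    1 ≤ (pq q).2 :=
  Nat.div_pos (Nat.le_of_dvd (HL_snd h') (Nat.gcd_dvd_right _ _)) (gpos h)

lemma pq_cop {n : ℕ} {q : Fin n → ℕ × ℕ} (h : ∀ j, 1 ≤ (q j).1) :
    Nat.Coprime (pq q).1 (pq q).2 := Nat.coprime_div_gcd_div_gcd (gpos h)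

lemma cast1 {n : ℕ} (q : Fin n → ℕ × ℕ) (h : ∀ j, 1 ≤ (q j).1) :
    ((pq q).1 : ℝ) = (HL q).1 / Nat.gcd (HL q).1 (HL q).2 :=
  Nat.cast_div (Nat.gcd_dvd_left _ _) (by have := gpos h; exact_mod_cast this.ne')

lemma cast2 {n : ℕ} (q : Fin n → ℕ × ℕ) (h : ∀ j, 1 ≤ (q j).1) :
    ((pq q).2 : ℝ) = (HL q).2 / Nat.gcd (HL q).1 (HL q).2 :=
  Nat.cast_div (Nat.gcd_dvd_right _ _) (by have := gpos h; exact_mod_cast this.ne')

lemma ht_pq {n : ℕ} (q : Fin n → ℕ × ℕ) (h : ∀ j, 1 ≤ (q j).1) :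
    ht (pq q) = (∏ j, ht (q j)) / (Nat.gcd (HL q).1 (HL q).2 : ℝ) ^ 2 := by
  unfold ht
  rw [cast1 q h, cast2 q h]
  have := prod_ht q
  unfold ht at this
  rw [this]
  ring

lemma lam_pq {n : ℕ} (q : Fin n → ℕ × ℕ) (h : ∀ j, 1 ≤ (q j).1) (h' : ∀ j, 1 ≤ (q j).2) :
    lam (pq q) = ∑ j, lam (q j) := by
  have hg : (0 : ℝ) < Nat.gcd (HL q).1 (HL q).2 := by
    have := gpos h
    exact_mod_cast this
  have h1 : (0 : ℝ) < (HL q).1 := by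
    have := HL_fst h
    exact_mod_cast this
  have h2 : (0 : ℝ) < (HL q).2 := by
    have := HL_snd h'
    exact_mod_cast this
  unfold lam
  rw [cast1 q h, cast2 q h, Real.log_div h1.ne' hg.ne', Real.log_div h2.ne' hg.ne',
    Finset.sum_sub_distrib]
  have e1 : Real.log ((HL q).1 : ℝ) = ∑ j, Real.log ((q j).1 : ℝ) := by
    unfold HL
    dsimp only
    rw [Nat.cast_prod, Real.log_prod]
    intro j _
    have := h j
    have h3 : (0 : ℝ) < (q j).1 := by exact_mod_cast this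
    exact h3.ne'
  have e2 : Real.log ((HL q).2 : ℝ) = ∑ j, Real.log ((q j).2 : ℝ) := by
    unfold HL
    dsimp only
    rw [Nat.cast_prod, Real.log_prod]
    intro j _
    have := h' j
    have h3 : (0 : ℝ) < (q j).2 := by exact_mod_cast this
    exact h3.ne'
  rw [e1, e2]
  ring

lemma ee_pq {n : ℕ} (q : Fin n → ℕ × ℕ) (h : ∀ j, 1 ≤ (q j).1) (h' : ∀ j, 1 ≤ (q j).2) (t : ℝ) :
    ee t (pq q) = ∏ j, ee t (q j) := by
  unfold ee
  rw [← Complex.exp_sum, lam_pq q h h']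
  congr 1
  push_cast
  rw [Finset.mul_sum, Finset.mul_sum]

lemma ee_cont (p : ℕ × ℕ) : Continuous fun t : ℝ => ee t p := by
  unfold ee
  fun_prop

/-- the coefficients of the tuple -/
def sq0 {n : ℕ} (q : Fin n → ℕ × ℕ) : ℝ := ∏ j, (√(ht (q j)))⁻¹

lemma sq0_eq {n : ℕ} (q : Fin n → ℕ × ℕ) (h : ∀ j, 0 ≤ ht (q j)) :
    sq0 q = (√(∏ j, ht (q j)))⁻¹ := by
  unfold sq0
  rw [Finset.prod_inv_distrib, Real.sqrt_prod _ fun j _ => h j]

lemma prod_P1 {n : ℕ} (N : ℕ) (c : Fin n → ℝ) (t : ℝ) :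
    ∏ j, P1 N (t + c j) = ∑ q ∈ Fintype.piFinset (fun _ : Fin n => FR N),
      ((sq0 q : ℝ) : ℂ) * (∏ j, cexp (I * ((c j * lam (q j) : ℝ) : ℂ))) * ee t (pq q) := by
  unfold P1
  rw [Finset.prod_univ_sum]
  refine Finset.sum_congr rfl fun q hq => ?_
  have hq' := fun j => mem_FR.1 (Fintype.mem_piFinset.1 hq j)
  rw [ee_pq q (fun j => (hq' j).1.1) (fun j => (hq' j).2.1.1), Finset.prod_mul_distrib, mul_assoc]
  congr 1
  · unfold sq0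
    push_cast
    rfl
  · rw [← Finset.prod_mul_distrib]
    refine Finset.prod_congr rfl fun j _ => ?_
    unfold ee
    rw [← Complex.exp_add]
    congr 1
    push_cast
    ring

/-- the coefficient of the tuple -/
def vq (a T : ℝ) {n : ℕ} (q : Fin n → ℕ × ℕ) : ℂ :=
  ((sq0 q : ℝ) : ℂ) * ∫ t in Icc a T, (ff t : ℂ) * ee t (pq q)

lemma int_eq {n : ℕ} (N : ℕ) (a T : ℝ) (c : Fin n → ℝ) :
    ∫ t in Icc a T, (ff t : ℂ) * ∏ j, P1 N (t + c j) =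
      ∑ q ∈ Fintype.piFinset (fun _ : Fin n => FR N),
        vq a T q * ∏ j, cexp (I * ((c j * lam (q j) : ℝ) : ℂ)) := by
  have hff : Continuous fun t : ℝ => ((ff t : ℝ) : ℂ) :=
    Complex.continuous_ofReal.comp Pool.Agent.Y969.SM.ff_cont
  have hint : ∀ q : Fin n → ℕ × ℕ, IntegrableOn (fun t : ℝ => (ff t : ℂ) * ee t (pq q)) (Icc a T) :=
    fun q => (hff.mul (ee_cont _)).continuousOn.integrableOn_compact isCompact_Icc
  have e1 : ∀ t : ℝ, (ff t : ℂ) * ∏ j, P1 N (t + c j) =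
      ∑ q ∈ Fintype.piFinset (fun _ : Fin n => FR N),
        (((sq0 q : ℝ) : ℂ) * ∏ j, cexp (I * ((c j * lam (q j) : ℝ) : ℂ))) *
          ((ff t : ℂ) * ee t (pq q)) := by
    intro t
    rw [prod_P1, Finset.mul_sum]
    refine Finset.sum_congr rfl fun q _ => ?_
    ring
  simp_rw [e1]
  rw [integral_finsetSum _ fun q _ => (hint q).const_mul _]
  refine Finset.sum_congr rfl fun q _ => ?_
  rw [integral_const_mul]
  unfold vq
  ring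

/-- the coefficients of the difference -/
def aq (Y : ℕ) (a T : ℝ) {n : ℕ} (q : Fin n → ℕ × ℕ) : ℂ :=
  vq a T q - if ∏ j, ht (q j) ≤ Y then ((T * Real.log T * w1 (HL q) : ℝ) : ℂ) else 0

lemma diff_eq {n N Y : ℕ} (hYN : Y ≤ N) (a T : ℝ) (c : Fin n → ℝ) :
    (∫ t in Icc a T, (ff t : ℂ) * ∏ j, P1 N (t + c j)) - ((T * Real.log T : ℝ) : ℂ) * BY1 n Y c =
      ∑ q ∈ Fintype.piFinset (fun _ : Fin n => FR N),
        aq Y a T q * ∏ j, cexp (I * ((c j * lam (q j) : ℝ) : ℂ)) := by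
  rw [int_eq]
  have e : BY1 n Y c = ∑ q ∈ LY n Y, (w1 (HL q) : ℂ) *
    ∏ j, cexp (I * ((c j * lam (q j) : ℝ) : ℂ)) := rfl
  rw [e, ← LY_eq hYN, Finset.sum_filter, Finset.mul_sum, ← Finset.sum_sub_distrib]
  refine Finset.sum_congr rfl fun q _ => ?_
  unfold aq
  split_ifs with h
  · push_cast; ring
  · simp

lemma w1_eq {n : ℕ} (q : Fin n → ℕ × ℕ) :
    w1 (HL q) = (Nat.gcd (HL q).1 (HL q).2 : ℝ) / ∏ j, ht (q j) := by
  rw [prod_ht]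
  rfl

/-- the error of the coefficient -/
lemma vq_err {C T a : ℝ} (hC : 0 < C)
    (hTW : ∀ p : ℕ × ℕ, 1 ≤ p.1 → 1 ≤ p.2 → Nat.Coprime p.1 p.2 → ht p ≤ T ^ (1 / 16 : ℝ) →
      ‖(∫ t in a..T, (ff t : ℂ) * ee t p) - ((T * Real.log T * (√(ht p))⁻¹ : ℝ) : ℂ)‖ ≤
      C * T * (1 + Real.log (ht p) + a / T * Real.log T) * (√(ht p))⁻¹ + C * T ^ (15 / 16 : ℝ))
    (haT : a ≤ T) (hT : 1 ≤ T) (ha0 : a / T * Real.log T ≤ 1) {n N : ℕ} (hN : 1 ≤ N)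
    (hNT : (N : ℝ) ^ n ≤ T ^ (1 / 16 : ℝ))
    {q : Fin n → ℕ × ℕ} (hq : q ∈ Fintype.piFinset (fun _ : Fin n => FR N)) :
    ‖vq a T q - ((T * Real.log T * w1 (HL q) : ℝ) : ℂ)‖ ≤
      C * T * (2 + n * Real.log N) * w1 (HL q) + C * T ^ (15 / 16 : ℝ) := by
  have hq' := fun j => mem_FR.1 (Fintype.mem_piFinset.1 hq j)
  have h1 : ∀ j, 1 ≤ (q j).1 := fun j => (hq' j).1.1
  have h2 : ∀ j, 1 ≤ (q j).2 := fun j => (hq' j).2.1.1
  have hP1 : 1 ≤ ∏ j, ht (q j) := by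
    calc (1 : ℝ) = ∏ _j : Fin n, (1 : ℝ) := by simp
      _ ≤ _ := Finset.prod_le_prod (fun _ _ => zero_le_one) fun j _ => one_le_ht (h1 j) (h2 j)
  have hPN : ∏ j, ht (q j) ≤ (N : ℝ) ^ n := by
    calc ∏ j, ht (q j) ≤ ∏ _j : Fin n, (N : ℝ) :=
          Finset.prod_le_prod (fun j _ => (ht_pos (h1 j) (h2 j)).le) fun j _ => by
            have := (hq' j).2.2.1
            unfold ht
            exact_mod_cast this
      _ = _ := by simp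
  obtain ⟨P, hP⟩ : ∃ P, P = ∏ j, ht (q j) := ⟨_, rfl⟩
  obtain ⟨g, hg⟩ : ∃ g : ℝ, g = (Nat.gcd (HL q).1 (HL q).2 : ℝ) := ⟨_, rfl⟩
  have hg1 : 1 ≤ g := by
    rw [hg]
    have := gpos (q := q) h1
    exact_mod_cast this
  have hg0 : 0 < g := by linarith
  rw [← hP] at hP1 hPN
  have hP0 : 0 < P := by linarith
  have e1 : ht (pq q) = P / g ^ 2 := by rw [ht_pq q h1, hP, hg]
  have e2 : sq0 q = (√P)⁻¹ := by
    rw [sq0_eq q fun j => (ht_pos (h1 j) (h2 j)).le, hP]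
  have e3 : (√(ht (pq q)))⁻¹ = g / √P := by
    rw [e1, Real.sqrt_div hP0.le, Real.sqrt_sq hg0.le, inv_div]
  have e4 : w1 (HL q) = (√P)⁻¹ * (g / √P) := by
    rw [w1_eq, ← hP, ← hg]
    have : √P * √P = P := Real.mul_self_sqrt hP0.le
    have h0 : √P ≠ 0 := (Real.sqrt_pos.2 hP0).ne'
    field_simp
    rw [sq, this]
  have hle : ht (pq q) ≤ P := by
    rw [e1]
    exact div_le_self hP0.le (one_le_pow₀ hg1)
  have h3 := hTW (pq q) (pq_fst h1) (pq_snd h1 h2) (pq_cop h1) (hle.trans (hPN.trans hNT))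
  have hI : ∫ t in Icc a T, (ff t : ℂ) * ee t (pq q) = ∫ t in a..T, (ff t : ℂ) * ee t (pq q) := by
    rw [intervalIntegral.integral_of_le haT, integral_Icc_eq_integral_Ioc]
  have e5 : vq a T q - ((T * Real.log T * w1 (HL q) : ℝ) : ℂ) =
      (((√P)⁻¹ : ℝ) : ℂ) * ((∫ t in a..T, (ff t : ℂ) * ee t (pq q)) -
        ((T * Real.log T * (√(ht (pq q)))⁻¹ : ℝ) : ℂ)) := by
    unfold vq
    rw [hI, e2, e3, e4]
    push_cast
    ring
  have hs0 : 0 ≤ (√P)⁻¹ := by positivity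
  have hs1 : (√P)⁻¹ ≤ 1 := by
    apply inv_le_one_of_one_le₀
    rw [Real.one_le_sqrt]
    exact hP1
  rw [e5, norm_mul, Complex.norm_real, Real.norm_of_nonneg hs0]
  have h4 : Real.log (ht (pq q)) ≤ n * Real.log N := by
    rw [← Real.log_pow]
    exact Real.log_le_log (ht_pos (pq_fst h1) (pq_snd h1 h2)) (hle.trans hPN)
  have hT0 : 0 < T := by linarith
  calc (√P)⁻¹ * ‖(∫ t in a..T, (ff t : ℂ) * ee t (pq q)) -
        ((T * Real.log T * (√(ht (pq q)))⁻¹ : ℝ) : ℂ)‖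
      ≤ (√P)⁻¹ * (C * T * (1 + Real.log (ht (pq q)) + a / T * Real.log T) * (√(ht (pq q)))⁻¹ +
          C * T ^ (15 / 16 : ℝ)) := mul_le_mul_of_nonneg_left h3 hs0
    _ = C * T * (1 + Real.log (ht (pq q)) + a / T * Real.log T) * w1 (HL q) +
          (√P)⁻¹ * (C * T ^ (15 / 16 : ℝ)) := by rw [e3, e4]; ring
    _ ≤ C * T * (2 + n * Real.log N) * w1 (HL q) + 1 * (C * T ^ (15 / 16 : ℝ)) := by
        have hw : 0 ≤ w1 (HL q) := by rw [e4]; positivity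
        have h5 : 1 + Real.log (ht (pq q)) + a / T * Real.log T ≤ 2 + n * Real.log N := by linarith
        exact add_le_add (mul_le_mul_of_nonneg_right (mul_le_mul_of_nonneg_left h5 (by positivity)) hw)
          (mul_le_mul_of_nonneg_right hs1 (by positivity))
    _ = _ := by rw [one_mul]

lemma ev_pow (m : ℕ) {s c : ℝ} (hs : 0 < s) (hc : 0 < c) :
    ∀ᶠ T : ℝ in atTop, Real.log T ^ m ≤ c * T ^ s := by
  have h := (isLittleO_log_rpow_rpow_atTop (m : ℝ) hs).bound hc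
  filter_upwards [h, eventually_ge_atTop (1 : ℝ)] with T hT hT1
  have h0 : 0 ≤ Real.log T := Real.log_nonneg hT1
  have h1 : 0 ≤ T ^ s := Real.rpow_nonneg (by linarith) s
  rw [Real.rpow_natCast, Real.norm_of_nonneg (by positivity), Real.norm_of_nonneg h1] at hT
  exact hT

/-- the weight of the tuple -/
def Rq {n : ℕ} (q : Fin n → ℕ × ℕ) : ℝ :=
  (∏ j, ht (q j)) ^ (-2 + 1 / 4 : ℝ) * (Nat.gcd (∏ j, (q j).1) (∏ j, (q j).2) : ℝ) ^ 2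

lemma w1_sq {n : ℕ} (q : Fin n → ℕ × ℕ) (hP : 0 < ∏ j, ht (q j)) :
    w1 (HL q) ^ 2 = (∏ j, ht (q j)) ^ (-(1 / 4) : ℝ) * Rq q := by
  rw [w1_eq]
  unfold Rq
  rw [← mul_assoc, ← Real.rpow_add hP, div_pow]
  have e : (-(1 / 4) + (-2 + 1 / 4) : ℝ) = -((2 : ℕ) : ℝ) := by push_cast; ring
  rw [e, Real.rpow_neg hP.le, Real.rpow_natCast]
  have e2 : ((Nat.gcd (HL q).1 (HL q).2 : ℕ) : ℝ) =
    ((Nat.gcd (∏ j, (q j).1) (∏ j, (q j).2) : ℕ) : ℝ) := rfl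
  rw [e2]
  ring

lemma Rq_nonneg {n : ℕ} (q : Fin n → ℕ × ℕ) (hP : 0 < ∏ j, ht (q j)) : 0 ≤ Rq q := by
  unfold Rq
  positivity

end Msqaux

open Msqaux in
open Pool.Agent.Y81.SX.T0 (HL mem_FR ht_pos one_le_ht HL_fst HL_snd prod_ht LY LY_eq card_S) in
theorem t_MSQ (h : S_TW) : S_MSQ := by
  obtain ⟨C, hC, hTW⟩ := h
  have hORT := Pool.Agent.Y953.SX.t_ORT Pool.Agent.Y379.GP.t_SP
  intro n C1 B2 ε hC1 hB2 hε
  obtain ⟨C2, hC2, hAR⟩ := Pool.Agent.Y76.SX.t_ARI n (1 / 4) (by norm_num)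
  have hY : ∀ᶠ Y : ℕ in atTop, 2 * C2 * (Y : ℝ) ^ (-(1 / 4) : ℝ) ≤ ε / 4 ∧ 1 ≤ Y := by
    have l1 : Tendsto (fun Y : ℕ => 2 * C2 * (Y : ℝ) ^ (-(1 / 4) : ℝ)) atTop (𝓝 (2 * C2 * 0)) :=
      ((tendsto_rpow_neg_atTop (by norm_num : (0 : ℝ) < 1 / 4)).comp tendsto_natCast_atTop_atTop).const_mul _
    rw [mul_zero] at l1
    exact (l1.eventually (ge_mem_nhds (by positivity))).and (eventually_ge_atTop 1)
  obtain ⟨Y₀, hY₀⟩ := eventually_atTop.1 hY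
  refine ⟨Y₀, fun Y hYY => ?_⟩
  obtain ⟨hY1, hY2⟩ := hY₀ Y hYY
  have hlog : Tendsto Real.log atTop atTop := Real.tendsto_log_atTop
  obtain ⟨D, hD⟩ : ∃ D : ℝ, D = 2 + 2 * n * C1 := ⟨_, rfl⟩
  have hD0 : 0 < D := by rw [hD]; positivity
  filter_upwards [eventually_ge_atTop (3 : ℝ), hlog.eventually_ge_atTop ((Y : ℝ) + 1),
    hlog.eventually_ge_atTop (32 * C ^ 2 * C2 * D ^ 2 / ε), hlog.eventually_ge_atTop 1,
    ev_pow (C1 * n) (s := 1 / 16) (c := 1) (by norm_num) one_pos,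
    ev_pow (C1 * (2 * n)) (s := 1 / 8) (c := ε / (32 * C ^ 2)) (by norm_num) (by positivity)]
    with T gT gY gL gL1 g1 g2
  intro U a N hN ha hU hPar
  obtain ⟨p1, p2, p3, p4, p5, p6, p7, p8⟩ := hPar
  obtain ⟨L, hL⟩ : ∃ L, L = Real.log T := ⟨_, rfl⟩
  rw [← hL] at gY gL gL1 g1 g2 hN ha
  have hT0 : (0 : ℝ) < T := by linarith
  have hT1 : (1 : ℝ) ≤ T := by linarith
  have hL0 : 0 < L := by linarith
  have hNL : (N : ℝ) ≤ L ^ C1 := by rw [hN]; exact Nat.floor_le (by positivity)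
  have hN1' : (1 : ℝ) ≤ N := by exact_mod_cast p6
  have hYN : Y ≤ N := by
    rw [hN]
    apply Nat.le_floor
    calc (Y : ℝ) ≤ L := by linarith
      _ = L ^ 1 := (pow_one _).symm
      _ ≤ L ^ C1 := pow_le_pow_right₀ gL1 hC1
  have hNn : (N : ℝ) ^ n ≤ T ^ (1 / 16 : ℝ) := by
    calc (N : ℝ) ^ n ≤ (L ^ C1) ^ n := pow_le_pow_left₀ (by positivity) hNL n
      _ = L ^ (C1 * n) := (pow_mul _ _ _).symm
      _ ≤ 1 * T ^ (1 / 16 : ℝ) := g1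
      _ = _ := one_mul _
  have haT : a / T * Real.log T ≤ 1 := by
    rw [ha, ← hL]
    have e : T / L ^ B2 / T * L = L / L ^ B2 := by field_simp
    rw [e, div_le_one (by positivity)]
    calc L = L ^ 1 := (pow_one _).symm
      _ ≤ L ^ B2 := pow_le_pow_right₀ gL1 hB2
  simp_rw [diff_eq hYN a T]
  refine (hORT n N U (aq Y a T) p6 hU).trans ?_
  have hU0 : 0 ≤ U ^ n := by
    have : 0 ≤ U := by linarith
    positivity
  -- the size of the logarithms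
  obtain ⟨K, hK⟩ : ∃ K : ℝ, K = 2 + n * Real.log N := ⟨_, rfl⟩
  have hlogN : 0 ≤ Real.log N := Real.log_nonneg hN1'
  have hK0 : 0 ≤ K := by rw [hK]; positivity
  have hK2 : K ^ 2 ≤ D ^ 2 * L := by
    have s1 : Real.log N ≤ 2 * C1 * √L := by
      calc Real.log N ≤ Real.log (L ^ C1) := Real.log_le_log (by linarith) hNL
        _ = C1 * Real.log L := Real.log_pow _ _
        _ ≤ C1 * (L ^ (1 / 2 : ℝ) / (1 / 2)) := by
            gcongr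
            exact Real.log_le_rpow_div hL0.le (by norm_num)
        _ = 2 * C1 * √L := by rw [Real.sqrt_eq_rpow]; ring
    have s2 : 1 ≤ √L := by rw [Real.one_le_sqrt]; exact gL1
    have s3 : K ≤ D * √L := by
      rw [hK, hD]
      have : (n : ℝ) * Real.log N ≤ n * (2 * C1 * √L) := by gcongr
      nlinarith
    calc K ^ 2 ≤ (D * √L) ^ 2 := pow_le_pow_left₀ hK0 s3 2
      _ = D ^ 2 * L := by rw [mul_pow, Real.sq_sqrt hL0.le]
  -- the coefficients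
  have hcoef : ∀ q ∈ Fintype.piFinset (fun _ : Fin n => FR N), ‖aq Y a T q‖ ^ 2 ≤
      (4 * C ^ 2 * T ^ 2 * K ^ 2 + 2 * (T * L) ^ 2 * (Y : ℝ) ^ (-(1 / 4) : ℝ)) * Rq q +
        4 * C ^ 2 * T ^ (15 / 8 : ℝ) := by
    intro q hq
    have hq' := fun j => mem_FR.1 (Fintype.mem_piFinset.1 hq j)
    have hP1 : 1 ≤ ∏ j, ht (q j) := by
      calc (1 : ℝ) = ∏ _j : Fin n, (1 : ℝ) := by simp
        _ ≤ _ := Finset.prod_le_prod (fun _ _ => zero_le_one) fun j _ =>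
          one_le_ht (hq' j).1.1 (hq' j).2.1.1
    have hP0 : 0 < ∏ j, ht (q j) := by linarith
    have hR := Rq_nonneg q hP0
    have hw := w1_sq q hP0
    have hw0 : 0 ≤ w1 (HL q) := by rw [w1_eq]; positivity
    have hwR : w1 (HL q) ^ 2 ≤ Rq q := by
      rw [hw]
      exact mul_le_of_le_one_left hR (Real.rpow_le_one_of_one_le_of_nonpos hP1 (by norm_num))
    have herr := vq_err hC (fun p c1 c2 c3 c4 => hTW T a p gT p4 p5 c1 c2 c3 c4) p5 hT1 haT p6 hNn hq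
    rw [← hK] at herr
    obtain ⟨E, hE⟩ : ∃ E : ℂ, E = vq a T q - ((T * Real.log T * w1 (HL q) : ℝ) : ℂ) := ⟨_, rfl⟩
    rw [← hE] at herr
    have hE2 : ‖E‖ ^ 2 ≤ 2 * C ^ 2 * T ^ 2 * K ^ 2 * Rq q + 2 * C ^ 2 * T ^ (15 / 8 : ℝ) := by
      have e0 : (T ^ (15 / 16 : ℝ)) ^ 2 = T ^ (15 / 8 : ℝ) := by
        rw [← Real.rpow_natCast, ← Real.rpow_mul hT0.le]
        norm_num
      calc ‖E‖ ^ 2 ≤ (C * T * K * w1 (HL q) + C * T ^ (15 / 16 : ℝ)) ^ 2 :=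
            pow_le_pow_left₀ (norm_nonneg _) herr 2
        _ ≤ 2 * (C * T * K * w1 (HL q)) ^ 2 + 2 * (C * T ^ (15 / 16 : ℝ)) ^ 2 := by
            nlinarith [sq_nonneg (C * T * K * w1 (HL q) - C * T ^ (15 / 16 : ℝ))]
        _ = 2 * C ^ 2 * T ^ 2 * K ^ 2 * w1 (HL q) ^ 2 + 2 * C ^ 2 * (T ^ (15 / 16 : ℝ)) ^ 2 := by ring
        _ ≤ _ := by
            rw [e0]
            gcongr
    have hYnn : 0 ≤ (Y : ℝ) ^ (-(1 / 4) : ℝ) := by positivity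
    by_cases hPY : ∏ j, ht (q j) ≤ Y
    · have e1 : aq Y a T q = E := by
        unfold aq
        rw [if_pos hPY, hE]
      rw [e1]
      have n1 : 0 ≤ 2 * C ^ 2 * T ^ 2 * K ^ 2 * Rq q := by positivity
      have n2 : 0 ≤ 2 * C ^ 2 * T ^ (15 / 8 : ℝ) := by positivity
      have n3 : 0 ≤ 2 * (T * L) ^ 2 * (Y : ℝ) ^ (-(1 / 4) : ℝ) * Rq q := by positivity
      linarith
    · have e1 : aq Y a T q = E + ((T * L * w1 (HL q) : ℝ) : ℂ) := by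
        unfold aq
        rw [if_neg hPY, hE, hL]
        ring
      have hwY : w1 (HL q) ^ 2 ≤ (Y : ℝ) ^ (-(1 / 4) : ℝ) * Rq q := by
        rw [hw]
        refine mul_le_mul_of_nonneg_right ?_ hR
        refine Real.rpow_le_rpow_of_nonpos ?_ (not_le.1 hPY).le (by norm_num)
        exact_mod_cast hY2
      have hn2 : ‖((T * L * w1 (HL q) : ℝ) : ℂ)‖ ^ 2 ≤ (T * L) ^ 2 * ((Y : ℝ) ^ (-(1 / 4) : ℝ) * Rq q) := by
        rw [Complex.norm_real, Real.norm_of_nonneg (by positivity), mul_pow]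
        exact mul_le_mul_of_nonneg_left hwY (by positivity)
      rw [e1]
      have h6 : ‖E + ((T * L * w1 (HL q) : ℝ) : ℂ)‖ ^ 2 ≤
          2 * ‖E‖ ^ 2 + 2 * ‖((T * L * w1 (HL q) : ℝ) : ℂ)‖ ^ 2 := by
        have h7 := norm_add_le E ((T * L * w1 (HL q) : ℝ) : ℂ)
        have h8 := norm_nonneg (E + ((T * L * w1 (HL q) : ℝ) : ℂ))
        nlinarith [sq_nonneg (‖E‖ - ‖((T * L * w1 (HL q) : ℝ) : ℂ)‖)]
      linarith
  have hsumR : ∑ q ∈ Fintype.piFinset (fun _ : Fin n => FR N), Rq q ≤ C2 := hAR N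
  have hcard : ((Fintype.piFinset (fun _ : Fin n => FR N)).card : ℝ) ≤ (L ^ (C1 * (2 * n))) := by
    calc ((Fintype.piFinset (fun _ : Fin n => FR N)).card : ℝ) ≤ (((N ^ 2) ^ n : ℕ) : ℝ) := by
          exact_mod_cast card_S n N
      _ = (N : ℝ) ^ (2 * n) := by push_cast; rw [pow_mul]
      _ ≤ (L ^ C1) ^ (2 * n) := pow_le_pow_left₀ (by positivity) hNL _
      _ = _ := (pow_mul _ _ _).symm
  have htot : ∑ q ∈ Fintype.piFinset (fun _ : Fin n => FR N), ‖aq Y a T q‖ ^ 2 ≤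
      ε / 2 * (T * L) ^ 2 := by
    refine (Finset.sum_le_sum hcoef).trans ?_
    rw [Finset.sum_add_distrib, ← Finset.mul_sum, Finset.sum_const, nsmul_eq_mul]
    have i1 : 4 * C ^ 2 * T ^ 2 * K ^ 2 * C2 ≤ ε / 8 * (T * L) ^ 2 := by
      have i2 : 32 * C ^ 2 * C2 * D ^ 2 ≤ L * ε := by
        rwa [div_le_iff₀ hε] at gL
      calc 4 * C ^ 2 * T ^ 2 * K ^ 2 * C2 ≤ 4 * C ^ 2 * T ^ 2 * (D ^ 2 * L) * C2 := by gcongr
        _ = T ^ 2 * L / 8 * (32 * C ^ 2 * C2 * D ^ 2) := by ring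
        _ ≤ T ^ 2 * L / 8 * (L * ε) := mul_le_mul_of_nonneg_left i2 (by positivity)
        _ = _ := by ring
    have i3 : 2 * (T * L) ^ 2 * (Y : ℝ) ^ (-(1 / 4) : ℝ) * C2 ≤ ε / 4 * (T * L) ^ 2 := by
      calc 2 * (T * L) ^ 2 * (Y : ℝ) ^ (-(1 / 4) : ℝ) * C2
          = (T * L) ^ 2 * (2 * C2 * (Y : ℝ) ^ (-(1 / 4) : ℝ)) := by ring
        _ ≤ (T * L) ^ 2 * (ε / 4) := mul_le_mul_of_nonneg_left hY1 (by positivity)
        _ = _ := by ring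
    have i4 : ((Fintype.piFinset (fun _ : Fin n => FR N)).card : ℝ) * (4 * C ^ 2 * T ^ (15 / 8 : ℝ)) ≤
        ε / 8 * (T * L) ^ 2 := by
      have e3 : T ^ (1 / 8 : ℝ) * T ^ (15 / 8 : ℝ) = T ^ 2 := by
        rw [← Real.rpow_add hT0, ← Real.rpow_natCast T 2]
        norm_num
      calc ((Fintype.piFinset (fun _ : Fin n => FR N)).card : ℝ) * (4 * C ^ 2 * T ^ (15 / 8 : ℝ))
          ≤ (ε / (32 * C ^ 2) * T ^ (1 / 8 : ℝ)) * (4 * C ^ 2 * T ^ (15 / 8 : ℝ)) :=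
            mul_le_mul_of_nonneg_right (hcard.trans g2) (by positivity)
        _ = ε / 8 * (T ^ (1 / 8 : ℝ) * T ^ (15 / 8 : ℝ)) := by field_simp; ring
        _ = ε / 8 * (T ^ 2 * 1) := by rw [e3, mul_one]
        _ ≤ ε / 8 * (T ^ 2 * L ^ 2) := by
            have : 1 ≤ L ^ 2 := one_le_pow₀ gL1
            gcongr
        _ = _ := by ring
    have i5 : (4 * C ^ 2 * T ^ 2 * K ^ 2 + 2 * (T * L) ^ 2 * (Y : ℝ) ^ (-(1 / 4) : ℝ)) *
        ∑ q ∈ Fintype.piFinset (fun _ : Fin n => FR N), Rq q ≤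
        (4 * C ^ 2 * T ^ 2 * K ^ 2 + 2 * (T * L) ^ 2 * (Y : ℝ) ^ (-(1 / 4) : ℝ)) * C2 :=
      mul_le_mul_of_nonneg_left hsumR (by positivity)
    have i6 : (4 * C ^ 2 * T ^ 2 * K ^ 2 + 2 * (T * L) ^ 2 * (Y : ℝ) ^ (-(1 / 4) : ℝ)) * C2 =
      4 * C ^ 2 * T ^ 2 * K ^ 2 * C2 + 2 * (T * L) ^ 2 * (Y : ℝ) ^ (-(1 / 4) : ℝ) * C2 := by ring
    linarith
  rw [← hL]
  calc 2 * U ^ n * ∑ q ∈ Fintype.piFinset (fun _ : Fin n => FR N), ‖aq Y a T q‖ ^ 2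
      ≤ 2 * U ^ n * (ε / 2 * (T * L) ^ 2) := mul_le_mul_of_nonneg_left htot (by positivity)
    _ = _ := by ring

end

end Pool.Agent.N879.PZ
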