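import Pool.Agent.N879.PZ.Stm
import Pool.Agent.Y969.SM.Bas

set_option autoImplicit false

/-! Project PZ: the small `t` and the irregular points (by helper386). -/

namespace Pool.Agent.N879.PZ

open Complex Filter Topology MeasureTheory Set
open Pool.Agent.Y969.GP (ff V V1 ht lam PS FR co cr PX mk mB)
open Pool.Agent.Y969.SM (ff_cont)

noncomputable section

namespace Smlaux

theorem ff_nonneg (u : ℝ) : 0 ≤ ff u := by
  unfold ff
  positivity

theorem nff (u : ℝ) : ‖(ff u : ℂ)‖ = ff u := by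
  rw [Complex.norm_real, Real.norm_of_nonneg (ff_nonneg u)]

/-- Cauchy-Schwarz -/
theorem cs {μ : Measure ℝ} [IsFiniteMeasure μ] {f : ℝ → ℝ} (h1 : Integrable f μ)
    (h2 : Integrable (fun x => f x ^ 2) μ) :
    (∫ x, f x ∂μ) ^ 2 ≤ μ.real univ * ∫ x, f x ^ 2 ∂μ := by
  have key : ∀ s : ℝ, 0 ≤ μ.real univ * (s * s) + (-2 * ∫ x, f x ∂μ) * s + ∫ x, f x ^ 2 ∂μ := by
    intro s
    have h3 : 0 ≤ ∫ x, (f x - s) ^ 2 ∂μ := integral_nonneg fun x => sq_nonneg _
    have h4 : ∫ x, (f x - s) ^ 2 ∂μ =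
        (∫ x, f x ^ 2 ∂μ) - 2 * s * (∫ x, f x ∂μ) + s ^ 2 * μ.real univ := by
      have e : (fun x => (f x - s) ^ 2) = fun x => (f x ^ 2 - 2 * s * f x) + s ^ 2 := by
        funext x
        ring
      have i1 : Integrable (fun x => f x ^ 2 - 2 * s * f x) μ := h2.sub (h1.const_mul _)
      rw [e, integral_add i1 (integrable_const _), integral_sub h2 (h1.const_mul _),
        integral_const_mul, integral_const, smul_eq_mul]
      ring
    rw [h4] at h3
    linarith
  have h5 := discrim_le_zero key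
  unfold discrim at h5
  nlinarith

theorem cs_int {U : ℝ} (hU : 0 ≤ U) {f : ℝ → ℝ} (hf : Continuous f) {B : ℝ}
    (hB : 0 ≤ B) (h : ∫ c in (0:ℝ)..U, f c ^ 2 ≤ U * B ^ 2) : ∫ c in (0:ℝ)..U, f c ≤ U * B := by
  rw [intervalIntegral.integral_of_le hU] at h ⊢
  have h1 : IntegrableOn f (Ioc 0 U) :=
    (hf.integrableOn_Icc (a := 0) (b := U)).mono_set Ioc_subset_Icc_self
  have h2 : IntegrableOn (fun x => f x ^ 2) (Ioc 0 U) :=
    ((hf.pow 2).integrableOn_Icc (a := 0) (b := U)).mono_set Ioc_subset_Icc_self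
  have h3 := cs (μ := volume.restrict (Ioc 0 U)) h1 h2
  have h4 : (volume.restrict (Ioc 0 U)).real univ = U := by
    rw [measureReal_restrict_apply_univ, Real.volume_real_Ioc_of_le hU, sub_zero]
  rw [h4] at h3
  have h5 : (∫ x in Ioc 0 U, f x) ^ 2 ≤ (U * B) ^ 2 := by
    refine h3.trans ?_
    calc U * ∫ x in Ioc 0 U, f x ^ 2 ≤ U * (U * B ^ 2) := mul_le_mul_of_nonneg_left h hU
      _ = (U * B) ^ 2 := by ring
  exact (le_abs_self _).trans (abs_le_of_sq_le_sq h5 (mul_nonneg hU hB))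

theorem win {U W : ℝ} (hU : 0 < U) (hW : 0 ≤ W) {t : ℝ} (ht : t ∈ Gs U W) :
    ∫ c in (0:ℝ)..U, ff (t + c) ≤ U * √W := by
  refine cs_int hU.le (f := fun c => ff (t + c)) (ff_cont.comp (by fun_prop)) (Real.sqrt_nonneg _) ?_
  rw [Real.sq_sqrt hW]
  have h1 : ∫ u in t..(t + U), ff u ^ 2 ≤ U * W := ht
  have h2 : ∫ c in (0:ℝ)..U, ff (t + c) ^ 2 = ∫ u in t..(t + U), ff u ^ 2 := by
    have := intervalIntegral.integral_comp_add_left (fun u => ff u ^ 2) t (a := 0) (b := U)
    rw [this, add_zero]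
  rw [h2]
  exact h1

theorem Gs_meas (U W : ℝ) : MeasurableSet (Gs U W) := by
  have h1 : Continuous fun t : ℝ => ∫ u in t..(t + U), ff u ^ 2 := by
    have h2 : (fun t : ℝ => ∫ u in t..(t + U), ff u ^ 2) =
        fun t : ℝ => ∫ c in (0:ℝ)..U, ff (t + c) ^ 2 := by
      funext t
      have := intervalIntegral.integral_comp_add_left (fun u => ff u ^ 2) t (a := 0) (b := U)
      rw [this, add_zero]
    rw [h2]
    refine intervalIntegral.continuous_parametric_intervalIntegral_of_continuous' ?_ _ _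
    exact (ff_cont.comp (by fun_prop : Continuous fun p : ℝ × ℝ => p.1 + p.2)).pow 2
  exact (isClosed_le h1 continuous_const).measurableSet

theorem ff_Wb (a b : ℝ) : Wb a b fun t => (ff t : ℂ) := by
  have h : Continuous fun t => (ff t : ℂ) := Complex.continuous_ofReal.comp ff_cont
  exact ⟨h.measurable, isCompact_Icc.exists_bound_of_continuousOn h.continuousOn⟩

theorem log_one {T : ℝ} (hT : 3 ≤ T) : 1 ≤ Real.log T := by
  have h1 : Real.exp 1 ≤ T := by
    have := Real.exp_one_lt_d9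
    linarith
  rw [← Real.log_exp 1]
  exact Real.log_le_log (Real.exp_pos 1) h1

theorem one_le_a {T a : ℝ} (hT : 3 ≤ T) (ha : T ^ (7 / 8 : ℝ) ≤ a) : 1 ≤ a := by
  refine le_trans ?_ ha
  exact Real.one_le_rpow (by linarith) (by norm_num)

theorem wcont {g : ℝ → ℂ} (hg : Continuous g) (U : ℝ) :
    Continuous fun t : ℝ => ∫ c in (0:ℝ)..U, ‖g (t + c)‖ := by
  refine intervalIntegral.continuous_parametric_intervalIntegral_of_continuous' ?_ _ _
  exact (hg.comp (by fun_prop : Continuous fun p : ℝ × ℝ => p.1 + p.2)).norm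

/-- the common part -/
theorem common (h1 : S_FUB) {n : ℕ} {a b U M : ℝ} {D : Set ℝ} {g : ℝ → ℂ} (hab : a ≤ b)
    (hU : 0 < U) (hD : MeasurableSet D) (hDs : D ⊆ Icc a b) (hg : Continuous g)
    (hM : ∀ t ∈ D, ∫ c in (0:ℝ)..U, ‖g (t + c)‖ ≤ M) :
    ∫ c, ‖∫ t in D, (ff t : ℂ) * ∏ j : Fin n, g (t + c j)‖ ∂(mB n 0 U) ≤
      (∫ t in D, ff t) * M ^ n := by
  refine (h1 n a b U D (fun t => (ff t : ℂ)) (fun _ => g) hab hU hD hDs (ff_Wb a b)
    (fun _ => hg)).trans ?_
  simp only [Finset.prod_const, Finset.card_univ, Fintype.card_fin, nff]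
  rw [← integral_mul_const]
  refine setIntegral_mono_on ?_ ?_ hD fun t ht => ?_
  · have h2 : Continuous fun t : ℝ => ff t * (∫ c in (0:ℝ)..U, ‖g (t + c)‖) ^ n :=
      ff_cont.mul ((wcont hg U).pow n)
    exact (h2.integrableOn_Icc (a := a) (b := b)).mono_set hDs
  · have h2 : Continuous fun t : ℝ => ff t * M ^ n := ff_cont.mul continuous_const
    exact (h2.integrableOn_Icc (a := a) (b := b)).mono_set hDs
  · refine mul_le_mul_of_nonneg_left ?_ (ff_nonneg t)
    refine pow_le_pow_left₀ ?_ (hM t ht) n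
    exact intervalIntegral.integral_nonneg hU.le fun c _ => norm_nonneg _

theorem sqrt_pow_le {L : ℝ} (hL : 1 ≤ L) (A : ℕ) : √(L ^ A) ≤ L ^ A := by
  have h1 : 1 ≤ L ^ A := one_le_pow₀ hL
  rw [Real.sqrt_le_left (by linarith)]
  nlinarith

theorem DN_cont (N : ℕ) : Continuous (DN N) := by
  unfold DN ee
  refine continuous_finsetSum _ fun p hp => ?_
  have hp' : p.1 ≠ 0 ∧ p.2 ≠ 0 := by
    unfold Pool.Agent.Y969.GP.FR Pool.Agent.Y969.GP.PS at hp
    simp only [Finset.mem_filter, Finset.mem_product, Finset.mem_Icc] at hp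
    omega
  have hht : ht p ≠ 0 := by
    unfold Pool.Agent.Y969.GP.ht
    have h1 : (p.1 : ℝ) ≠ 0 := by exact_mod_cast hp'.1
    have h2 : (p.2 : ℝ) ≠ 0 := by exact_mod_cast hp'.2
    positivity
  refine Continuous.mul ?_ (by fun_prop)
  refine Complex.continuous_ofReal.comp ?_
  refine continuous_const.mul (Continuous.add ?_ continuous_const)
  refine Continuous.log (by fun_prop) fun u => ?_
  have h3 : (0:ℝ) < max u 1 := lt_max_of_lt_right one_pos
  have h4 := Real.pi_pos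
  positivity

end Smlaux

open Smlaux

/-- SML -/
theorem t_SML (h1 : S_FUB) (h2 : S_M4L) : S_SML := by
  obtain ⟨C, A, hC, hM4⟩ := h2
  intro n
  refine ⟨√(3 * C), A, by positivity, ?_⟩
  rintro T U a W N ⟨hT, hU, -, ha, haT, -⟩ hW
  have ha1 := one_le_a hT ha
  have hL := log_one hT
  have hU0 : 0 < U := by linarith
  have hDm : MeasurableSet (Gs U W ∩ Icc 0 a) := (Gs_meas U W).inter measurableSet_Icc
  have hcf : Continuous fun t => (ff t : ℂ) := Complex.continuous_ofReal.comp ff_cont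
  have h3 := common h1 (n := n) (a := 0) (b := a) (U := U) (M := U * √W)
    (D := Gs U W ∩ Icc 0 a) (g := fun t => (ff t : ℂ)) (by linarith) hU0 hDm
    inter_subset_right hcf (fun t ht => by
      simp only [nff]
      exact win hU0 (by linarith) ht.1)
  refine h3.trans ?_
  refine mul_le_mul_of_nonneg_right ?_ (by positivity)
  -- the integral of `ff` over `[0,a]`
  have h4 : ∫ t in Gs U W ∩ Icc 0 a, ff t ≤ ∫ t in Icc 0 a, ff t := by
    refine setIntegral_mono_set (ff_cont.integrableOn_Icc) ?_ ?_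
    · exact Eventually.of_forall fun t => ff_nonneg t
    · exact Eventually.of_forall fun t ht => ht.2
  refine h4.trans ?_
  have h5 : ∫ t in Icc 0 a, ff t = ∫ t in (0:ℝ)..a, ff t := by
    rw [intervalIntegral.integral_of_le (by linarith), integral_Icc_eq_integral_Ioc]
  rw [h5]
  have h6 : ∫ t in (0:ℝ)..a, ff t ^ 2 ≤ a * (√(3 * C) * √(Real.log T ^ A)) ^ 2 := by
    have h7 : ∫ t in (0:ℝ)..a, ff t ^ 2 ≤ ∫ t in (0:ℝ)..(max a 3), ff t ^ 2 := by
      refine intervalIntegral.integral_mono_interval le_rfl (by linarith) (le_max_left _ _) ?_ ?_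
      · exact Eventually.of_forall fun t => sq_nonneg _
      · exact (ff_cont.pow 2).intervalIntegrable _ _
    refine h7.trans ((hM4 (max a 3) (le_max_right _ _)).trans ?_)
    rw [mul_pow, Real.sq_sqrt (by positivity), Real.sq_sqrt (by positivity)]
    have h8 : max a 3 ≤ 3 * a := max_le (by linarith) (by linarith)
    have h9 : max a 3 ≤ T := max_le haT hT
    have h10 : Real.log (max a 3) ^ A ≤ Real.log T ^ A := by
      refine pow_le_pow_left₀ ?_ ?_ A
      · exact Real.log_nonneg (le_max_of_le_right (by norm_num))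
      · exact Real.log_le_log (lt_max_of_lt_right (by norm_num)) h9
    have h11 : 0 ≤ Real.log (max a 3) ^ A :=
      pow_nonneg (Real.log_nonneg (le_max_of_le_right (by norm_num))) A
    calc C * max a 3 * Real.log (max a 3) ^ A ≤ C * (3 * a) * Real.log T ^ A := by gcongr
      _ = a * (3 * C * Real.log T ^ A) := by ring
  have h7 := cs_int (by linarith) ff_cont (by positivity) h6
  refine h7.trans ?_
  have h8 := sqrt_pow_le hL A
  calc a * (√(3 * C) * √(Real.log T ^ A)) ≤ a * (√(3 * C) * Real.log T ^ A) := by gcongr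
    _ = √(3 * C) * a * Real.log T ^ A := by ring

/-- GCD -/
theorem t_GCD (h1 : S_FUB) (h2 : S_M4L) (h3 : S_WIN) (h4 : S_GCM) : S_GCD := by
  obtain ⟨C1, A1, hC1, hM4⟩ := h2
  obtain ⟨C2, hC2, hWIN⟩ := h3
  obtain ⟨C3, A3, hC3, hGCM⟩ := h4
  intro n
  refine ⟨√(C3 * C1) * (4 * √C2) ^ n, A3 + A1 + 3 * n, by positivity, ?_⟩
  intro T U a W N hP hW
  have hWN := hWIN T U a N hP
  obtain ⟨hT, hU, hUT, ha, haT, hN1, hNT, -⟩ := hP
  have ha1 := one_le_a hT ha
  have hL := log_one hT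
  have hU0 : 0 < U := by linarith
  have hT1 : (1:ℝ) ≤ T := by linarith
  have hUT' : U ≤ T := by
    refine hUT.trans ?_
    calc T ^ (1 / 4 : ℝ) ≤ T ^ (1 : ℝ) := Real.rpow_le_rpow_of_exponent_le hT1 (by norm_num)
      _ = T := Real.rpow_one T
  have hNL : Real.log N ≤ Real.log T := by
    have h5 : (N : ℝ) ≤ T := by
      refine hNT.trans ?_
      calc T ^ (1 / 16 : ℝ) ≤ T ^ (1 : ℝ) := Real.rpow_le_rpow_of_exponent_le hT1 (by norm_num)
        _ = T := Real.rpow_one T
    refine Real.log_le_log ?_ h5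
    exact_mod_cast hN1
  have hNL0 : 0 ≤ Real.log N := Real.log_natCast_nonneg N
  have hDm : MeasurableSet (Icc a T \ Gs U W) := measurableSet_Icc.diff (Gs_meas U W)
  set L := Real.log T with hLdef
  have h5 := common h1 (n := n) (a := a) (b := T) (U := U) (M := U * (√C2 * (4 * L ^ 3)))
    (D := Icc a T \ Gs U W) (g := DN N) haT hU0 hDm sdiff_subset (DN_cont N) (fun t ht => by
      refine cs_int hU0.le (f := fun c => ‖DN N (t + c)‖)
        ((DN_cont N).comp (by fun_prop)).norm (by positivity) ?_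
      refine (hWN t ht.1.1 ht.1.2).2.1.trans ?_
      have h6 : 1 + Real.log N ≤ 2 * L := by linarith
      have h7 : (1 + Real.log N) ^ 4 ≤ (2 * L) ^ 4 := pow_le_pow_left₀ (by linarith) h6 4
      calc C2 * U * (1 + Real.log N) ^ 4 * L ^ 2 ≤ C2 * U * (2 * L) ^ 4 * L ^ 2 := by gcongr
        _ = U * (√C2 * (4 * L ^ 3)) ^ 2 := by
          have h8 := Real.sq_sqrt hC2.le
          calc C2 * U * (2 * L) ^ 4 * L ^ 2 = (√C2) ^ 2 * U * (2 * L) ^ 4 * L ^ 2 := by rw [h8]
            _ = U * (√C2 * (4 * L ^ 3)) ^ 2 := by ring)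
  refine h5.trans ?_
  -- the integral of `ff` over the irregular points
  have hsub : Icc a T \ Gs U W ⊆ Icc 0 T \ Gs U W := fun t ht => ⟨⟨by
    have := ht.1.1
    linarith, ht.1.2⟩, ht.2⟩
  have hvol : volume (Icc a T \ Gs U W) ≤ ENNReal.ofReal (C3 * T * L ^ A3 / W) :=
    (measure_mono hsub).trans (hGCM T U W hT hU hUT' hW)
  have hfin : volume (Icc a T \ Gs U W) < ⊤ := lt_of_le_of_lt hvol ENNReal.ofReal_lt_top
  have hfm : IsFiniteMeasure (volume.restrict (Icc a T \ Gs U W)) :=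
    ⟨by rwa [Measure.restrict_apply_univ]⟩
  have hi1 : IntegrableOn ff (Icc a T \ Gs U W) :=
    (ff_cont.integrableOn_Icc (a := a) (b := T)).mono_set sdiff_subset
  have hi2 : IntegrableOn (fun t => ff t ^ 2) (Icc a T \ Gs U W) :=
    ((ff_cont.pow 2).integrableOn_Icc (a := a) (b := T)).mono_set sdiff_subset
  have h6 := cs (μ := volume.restrict (Icc a T \ Gs U W)) hi1 hi2
  have h7 : (volume.restrict (Icc a T \ Gs U W)).real univ ≤ C3 * T * L ^ A3 / W := by
    rw [measureReal_restrict_apply_univ]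
    exact ENNReal.toReal_le_of_le_ofReal (by positivity) hvol
  have h8 : ∫ t in Icc a T \ Gs U W, ff t ^ 2 ≤ C1 * T * L ^ A1 := by
    refine le_trans ?_ (hM4 T hT)
    rw [intervalIntegral.integral_of_le (by linarith), ← integral_Icc_eq_integral_Ioc]
    refine setIntegral_mono_set ((ff_cont.pow 2).integrableOn_Icc) ?_ ?_
    · exact Eventually.of_forall fun t => sq_nonneg _
    · refine Eventually.of_forall fun t ht => ?_
      exact (hsub ht).1
  have h9 : (∫ t in Icc a T \ Gs U W, ff t) ^ 2 ≤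
      (√(C3 * C1) * √(L ^ (A3 + A1)) * T * (√W)⁻¹) ^ 2 := by
    refine h6.trans ?_
    have h10 : 0 ≤ ∫ t in Icc a T \ Gs U W, ff t ^ 2 := integral_nonneg fun t => sq_nonneg _
    calc _ ≤ (C3 * T * L ^ A3 / W) * (C1 * T * L ^ A1) := by gcongr
      _ = _ := by
        rw [mul_pow, mul_pow, mul_pow, Real.sq_sqrt (by positivity), Real.sq_sqrt (by positivity),
          inv_pow, Real.sq_sqrt (by linarith), pow_add]
        field_simp
  have h10 : ∫ t in Icc a T \ Gs U W, ff t ≤ √(C3 * C1) * √(L ^ (A3 + A1)) * T * (√W)⁻¹ :=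
    (le_abs_self _).trans (abs_le_of_sq_le_sq h9 (by positivity))
  have h11 := sqrt_pow_le hL (A3 + A1)
  calc (∫ t in Icc a T \ Gs U W, ff t) * (U * (√C2 * (4 * L ^ 3))) ^ n
      ≤ (√(C3 * C1) * √(L ^ (A3 + A1)) * T * (√W)⁻¹) * (U * (√C2 * (4 * L ^ 3))) ^ n := by gcongr
    _ ≤ (√(C3 * C1) * L ^ (A3 + A1) * T * (√W)⁻¹) * (U * (√C2 * (4 * L ^ 3))) ^ n := by gcongr
    _ = √(C3 * C1) * (4 * √C2) ^ n * L ^ (A3 + A1 + 3 * n) * T * (√W)⁻¹ * U ^ n := by
      rw [show (U * (√C2 * (4 * L ^ 3))) ^ n = U ^ n * (4 * √C2) ^ n * L ^ (3 * n) by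
        rw [pow_mul, ← mul_pow, ← mul_pow]
        congr 1
        ring, pow_add L (A3 + A1) (3 * n)]
      ring

end

end Pool.Agent.N879.PZ
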