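import Pool.Agent.N879.PZ.Stm

set_option autoImplicit false

/-!
Project PZ, leaf WIN (helper773, for helper879): windows of the model.
-/

namespace Pool.Agent.N879.PZ

open Complex Filter Topology MeasureTheory Set
open Pool.Agent.Y969.GP (ff V V1 ht lam PS FR co cr PX mk mB)

noncomputable section

namespace Winaux

theorem ee_add (t c : ℝ) (p : ℕ × ℕ) : ee (t + c) p = ee t p * ee c p := by
  unfold ee
  rw [← Complex.exp_add]
  congr 1
  push_cast
  ring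

theorem norm_ee (t : ℝ) (p : ℕ × ℕ) : ‖ee t p‖ = 1 := by
  unfold ee
  rw [Complex.norm_exp]
  simp

theorem ee_cont (t : ℝ) (p : ℕ × ℕ) : Continuous fun c : ℝ => ee (t + c) p := by
  unfold ee
  fun_prop

theorem FR_mem {N : ℕ} {p : ℕ × ℕ} (hp : p ∈ FR N) : 1 ≤ ht p ∧ ht p ≤ N := by
  unfold FR PS at hp
  simp only [Finset.mem_filter, Finset.mem_product, Finset.mem_Icc] at hp
  obtain ⟨⟨⟨⟨h1, -⟩, ⟨h3, -⟩⟩, h5⟩, -⟩ := hp
  unfold ht
  have h6 : 1 ≤ p.1 * p.2 := Nat.one_le_iff_ne_zero.2 (Nat.mul_ne_zero (by omega) (by omega))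
  constructor
  · exact_mod_cast h6
  · exact_mod_cast h5

theorem sum_FR_le (X : ℕ) : ∑ q ∈ FR X, (ht q)⁻¹ ≤ (1 + Real.log X) ^ 2 := by
  have h1 : ∑ m ∈ Finset.Icc 1 X, ((m : ℝ))⁻¹ ≤ 1 + Real.log X := by
    have h1 := harmonic_le_one_add_log X
    have h2 : ∑ m ∈ Finset.Icc 1 X, ((m : ℝ))⁻¹ = ((harmonic X : ℚ) : ℝ) := by
      rw [harmonic_eq_sum_Icc]
      push_cast
      ring
    rw [h2]; exact h1
  have h0 : 0 ≤ ∑ m ∈ Finset.Icc 1 X, ((m : ℝ))⁻¹ := Finset.sum_nonneg fun m _ => by positivity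
  calc ∑ q ∈ FR X, (ht q)⁻¹ ≤ ∑ q ∈ Finset.Icc 1 X ×ˢ Finset.Icc 1 X, (ht q)⁻¹ := by
        refine Finset.sum_le_sum_of_subset_of_nonneg ?_ ?_
        · exact (Finset.filter_subset _ _).trans (Finset.filter_subset _ _)
        · intro q _ _
          unfold ht
          positivity
    _ = (∑ m ∈ Finset.Icc 1 X, ((m : ℝ))⁻¹) * ∑ m ∈ Finset.Icc 1 X, ((m : ℝ))⁻¹ := by
        rw [Finset.sum_product, Finset.sum_mul]
        refine Finset.sum_congr rfl fun m _ => ?_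
        rw [Finset.mul_sum]
        refine Finset.sum_congr rfl fun n _ => ?_
        unfold ht
        rw [mul_inv]
    _ ≤ (1 + Real.log X) * (1 + Real.log X) := by
        gcongr
    _ = _ := by ring

/-- a polynomial with real coefficients -/
def Q (N : ℕ) (w : ℕ × ℕ → ℝ) (u : ℝ) : ℂ := ∑ p ∈ FR N, ((w p : ℝ) : ℂ) * ee u p

theorem Q_cont (N : ℕ) (w : ℕ × ℕ → ℝ) (t : ℝ) : Continuous fun c : ℝ => Q N w (t + c) := by
  unfold Q
  exact continuous_finsetSum _ fun p _ => continuous_const.mul (ee_cont t p)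

theorem Q_int (C : ℝ) (hC : 0 < C) (h : ∀ (K : ℕ) (U : ℝ) (S : Finset (ℕ × ℕ)) (b : ℕ × ℕ → ℂ),
    1 ≤ K → 1 ≤ U → S ⊆ FR K →
    ∫ c in (0 : ℝ)..U, ‖∑ p ∈ S, b p * ee c p‖ ^ 2 ≤ C * (U + K) * ∑ p ∈ S, ‖b p‖ ^ 2)
    (N : ℕ) (U t : ℝ) (w : ℕ × ℕ → ℝ) (hN : 1 ≤ N) (hU : 1 ≤ U) (hNU : (N : ℝ) ≤ U) :
    ∫ c in (0 : ℝ)..U, ‖Q N w (t + c)‖ ^ 2 ≤ 2 * C * U * ∑ p ∈ FR N, w p ^ 2 := by
  have h1 := h N U (FR N) (fun p => ((w p : ℝ) : ℂ) * ee t p) hN hU (Finset.Subset.refl _)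
  have h2 : ∀ c : ℝ, ∑ p ∈ FR N, ((w p : ℝ) : ℂ) * ee t p * ee c p = Q N w (t + c) := by
    intro c
    unfold Q
    refine Finset.sum_congr rfl fun p _ => ?_
    rw [ee_add]
    ring
  simp only [h2] at h1
  refine h1.trans ?_
  have h3 : ∑ p ∈ FR N, ‖((w p : ℝ) : ℂ) * ee t p‖ ^ 2 = ∑ p ∈ FR N, w p ^ 2 := by
    refine Finset.sum_congr rfl fun p _ => ?_
    rw [norm_mul, norm_ee, mul_one, Complex.norm_real, Real.norm_eq_abs, sq_abs]
  rw [h3]
  have h4 : 0 ≤ ∑ p ∈ FR N, w p ^ 2 := Finset.sum_nonneg fun p _ => sq_nonneg _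
  refine mul_le_mul_of_nonneg_right ?_ h4
  nlinarith

/-- the coefficient of the second part -/
def w2 (p : ℕ × ℕ) : ℝ :=
  (√(ht p))⁻¹ * (2 * Real.eulerMascheroniConstant - Real.log (2 * Real.pi * ht p))

theorem sum1 (N : ℕ) : ∑ p ∈ FR N, ((√(ht p))⁻¹) ^ 2 ≤ (1 + Real.log N) ^ 2 := by
  refine le_trans (le_of_eq ?_) (sum_FR_le N)
  refine Finset.sum_congr rfl fun p hp => ?_
  rw [inv_pow, Real.sq_sqrt (by linarith [(FR_mem hp).1])]

theorem log2pi : Real.log (2 * Real.pi) ≤ 2 := by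
  rw [Real.log_le_iff_le_exp (by positivity)]
  have h1 := Real.pi_lt_d2
  have h2 : (2.7 : ℝ) ^ 2 ≤ Real.exp 2 := by
    have h3 : Real.exp 2 = Real.exp 1 ^ 2 := by
      rw [← Real.exp_nat_mul]
      norm_num
    rw [h3]
    have := Real.exp_one_gt_d9
    gcongr
    linarith
  norm_num at h1 h2
  linarith

theorem w2_le {N : ℕ} {p : ℕ × ℕ} (hp : p ∈ FR N) :
    w2 p ^ 2 ≤ 4 * (1 + Real.log N) ^ 2 * ((√(ht p))⁻¹) ^ 2 := by
  obtain ⟨h1, h2⟩ := FR_mem hp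
  have h3 : Real.log (2 * Real.pi * ht p) = Real.log (2 * Real.pi) + Real.log (ht p) :=
    Real.log_mul (by positivity) (by linarith)
  have h4 : 0 ≤ Real.log (ht p) := Real.log_nonneg h1
  have h5 : Real.log (ht p) ≤ Real.log N := Real.log_le_log (by linarith) h2
  have h6 : 0 ≤ Real.log (2 * Real.pi) := Real.log_nonneg (by
    have := Real.pi_gt_three
    linarith)
  have h7 := log2pi
  have h8 : Real.eulerMascheroniConstant < 2 / 3 := Real.eulerMascheroniConstant_lt_two_thirds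
  have h9 : 1 / 2 < Real.eulerMascheroniConstant := Real.one_half_lt_eulerMascheroniConstant
  have h10 : |2 * Real.eulerMascheroniConstant - Real.log (2 * Real.pi * ht p)| ≤
      2 * (1 + Real.log N) := by
    rw [h3, abs_le]
    constructor <;> linarith
  unfold w2
  rw [mul_pow, mul_comm]
  refine mul_le_mul_of_nonneg_right ?_ (sq_nonneg _)
  rw [← sq_abs]
  calc |2 * Real.eulerMascheroniConstant - Real.log (2 * Real.pi * ht p)| ^ 2 ≤
      (2 * (1 + Real.log N)) ^ 2 := by gcongr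
    _ = _ := by ring

theorem sum2 (N : ℕ) : ∑ p ∈ FR N, w2 p ^ 2 ≤ 4 * (1 + Real.log N) ^ 4 := by
  calc ∑ p ∈ FR N, w2 p ^ 2 ≤ ∑ p ∈ FR N, 4 * (1 + Real.log N) ^ 2 * ((√(ht p))⁻¹) ^ 2 :=
        Finset.sum_le_sum fun p hp => w2_le hp
    _ = 4 * (1 + Real.log N) ^ 2 * ∑ p ∈ FR N, ((√(ht p))⁻¹) ^ 2 := by rw [Finset.mul_sum]
    _ ≤ 4 * (1 + Real.log N) ^ 2 * (1 + Real.log N) ^ 2 := by
        gcongr
        exact sum1 N
    _ = _ := by ring

theorem DN_eq (N : ℕ) (u : ℝ) (hu : 1 ≤ u) :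
    DN N u = ((Real.log u : ℝ) : ℂ) * P1 N u + Q N w2 u := by
  unfold DN P1 Q
  rw [Finset.mul_sum, ← Finset.sum_add_distrib]
  refine Finset.sum_congr rfl fun p hp => ?_
  obtain ⟨h1, h2⟩ := FR_mem hp
  rw [max_eq_left hu, Real.log_div (by linarith) (by positivity)]
  unfold w2
  push_cast
  ring

theorem P1_eq (N : ℕ) (u : ℝ) : P1 N u = Q N (fun p => (√(ht p))⁻¹) u := rfl

theorem int_le (U : ℝ) (hU : 0 ≤ U) (f g : ℝ → ℝ) (hf : ∀ c, 0 ≤ f c) (hg : Continuous g)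
    (h : ∀ c, 0 ≤ c → c ≤ U → f c ≤ g c) : ∫ c in (0 : ℝ)..U, f c ≤ ∫ c in (0 : ℝ)..U, g c := by
  rw [intervalIntegral.integral_of_le hU, intervalIntegral.integral_of_le hU]
  refine integral_mono_of_nonneg (Eventually.of_forall hf) ?_ ?_
  · exact (hg.integrableOn_Icc).mono_set Ioc_subset_Icc_self
  · filter_upwards [ae_restrict_mem measurableSet_Ioc] with c hc
    exact h c hc.1.le hc.2

/-- the common part of the second and the third bound -/
theorem comb (N : ℕ) (U t L I1 I2 : ℝ) (hU : 0 ≤ U) (f : ℝ → ℂ) (l : ℝ → ℝ)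
    (hf : ∀ c, 0 ≤ c → c ≤ U → f c = ((l c : ℝ) : ℂ) * P1 N (t + c) + Q N w2 (t + c))
    (hl : ∀ c, 0 ≤ c → c ≤ U → |l c| ≤ L)
    (h1 : ∫ c in (0 : ℝ)..U, ‖P1 N (t + c)‖ ^ 2 ≤ I1)
    (h2 : ∫ c in (0 : ℝ)..U, ‖Q N w2 (t + c)‖ ^ 2 ≤ I2) :
    ∫ c in (0 : ℝ)..U, ‖f c‖ ^ 2 ≤ 2 * L ^ 2 * I1 + 2 * I2 := by
  have hP : Continuous fun c : ℝ => ‖P1 N (t + c)‖ ^ 2 := by
    simp only [P1_eq]
    exact (Q_cont N _ t).norm.pow 2
  have hQ : Continuous fun c : ℝ => ‖Q N w2 (t + c)‖ ^ 2 := (Q_cont N _ t).norm.pow 2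
  have h3 : ∫ c in (0 : ℝ)..U, ‖f c‖ ^ 2 ≤
      ∫ c in (0 : ℝ)..U, (2 * L ^ 2 * ‖P1 N (t + c)‖ ^ 2 + 2 * ‖Q N w2 (t + c)‖ ^ 2) := by
    refine int_le U hU _ _ (fun c => sq_nonneg _)
      ((continuous_const.mul hP).add (continuous_const.mul hQ)) fun c hc0 hcU => ?_
    rw [hf c hc0 hcU]
    have h4 : ‖((l c : ℝ) : ℂ) * P1 N (t + c) + Q N w2 (t + c)‖ ≤
        |l c| * ‖P1 N (t + c)‖ + ‖Q N w2 (t + c)‖ := by
      refine (norm_add_le _ _).trans ?_
      rw [norm_mul, Complex.norm_real, Real.norm_eq_abs]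
    have h5 : |l c| * ‖P1 N (t + c)‖ ≤ L * ‖P1 N (t + c)‖ :=
      mul_le_mul_of_nonneg_right (hl c hc0 hcU) (norm_nonneg _)
    have h6 : ‖((l c : ℝ) : ℂ) * P1 N (t + c) + Q N w2 (t + c)‖ ^ 2 ≤
        (L * ‖P1 N (t + c)‖ + ‖Q N w2 (t + c)‖) ^ 2 :=
      pow_le_pow_left₀ (norm_nonneg _) (h4.trans (by linarith)) 2
    nlinarith [sq_nonneg (L * ‖P1 N (t + c)‖ - ‖Q N w2 (t + c)‖)]
  refine h3.trans ?_
  have e1 : IntervalIntegrable (fun c : ℝ => 2 * L ^ 2 * ‖P1 N (t + c)‖ ^ 2) volume 0 U :=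
    (continuous_const.mul hP).intervalIntegrable _ _
  have e2 : IntervalIntegrable (fun c : ℝ => 2 * ‖Q N w2 (t + c)‖ ^ 2) volume 0 U :=
    (continuous_const.mul hQ).intervalIntegrable _ _
  rw [intervalIntegral.integral_add e1 e2, intervalIntegral.integral_const_mul,
    intervalIntegral.integral_const_mul]
  have h7 : 2 * L ^ 2 * ∫ c in (0 : ℝ)..U, ‖P1 N (t + c)‖ ^ 2 ≤ 2 * L ^ 2 * I1 :=
    mul_le_mul_of_nonneg_left h1 (by positivity)
  linarith

end Winaux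

open Winaux in
/-- windows of the model -/
theorem t_WIN (h : S_LC) : S_WIN := by
  obtain ⟨C, hC, h⟩ := h
  refine ⟨100 * C, by positivity, ?_⟩
  rintro T U a N ⟨hT, hU, hUT, haT, haT', hN, -, hNU⟩ t hat htT
  have hN' : (1 : ℝ) ≤ N := by exact_mod_cast hN
  have hlN : 0 ≤ Real.log N := Real.log_nonneg hN'
  have h1 : ∫ c in (0 : ℝ)..U, ‖P1 N (t + c)‖ ^ 2 ≤ 2 * C * U * (1 + Real.log N) ^ 2 := by
    simp only [P1_eq]
    refine (Q_int C hC h N U t _ hN hU hNU).trans ?_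
    exact mul_le_mul_of_nonneg_left (sum1 N) (by positivity)
  have h2 : ∫ c in (0 : ℝ)..U, ‖Q N w2 (t + c)‖ ^ 2 ≤ 2 * C * U * (4 * (1 + Real.log N) ^ 4) := by
    refine (Q_int C hC h N U t _ hN hU hNU).trans ?_
    exact mul_le_mul_of_nonneg_left (sum2 N) (by positivity)
  have hT0 : 0 < T := by linarith
  have ha1 : 1 ≤ a := le_trans (Real.one_le_rpow (by linarith) (by norm_num)) haT
  have ha0 : 0 < a := by linarith
  have hUT' : U ≤ T := hUT.trans (by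
    calc T ^ (1 / 4 : ℝ) ≤ T ^ (1 : ℝ) := Real.rpow_le_rpow_of_exponent_le (by linarith) (by norm_num)
      _ = T := Real.rpow_one T)
  have hlT : 1 ≤ Real.log T := by
    rw [Real.le_log_iff_exp_le hT0]
    have := Real.exp_one_lt_d9
    norm_num at this
    linarith
  have hl2 : Real.log 2 ≤ 1 := by
    have := Real.log_two_lt_d9
    norm_num at this
    linarith
  have hl20 : 0 ≤ Real.log 2 := Real.log_nonneg (by norm_num)
  have hu : ∀ c, 0 ≤ c → c ≤ U → 1 ≤ t + c ∧ Real.log a ≤ Real.log (t + c) ∧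
      Real.log (t + c) ≤ Real.log 2 + Real.log T := by
    intro c hc0 hcU
    refine ⟨by linarith, Real.log_le_log ha0 (by linarith), ?_⟩
    rw [← Real.log_mul (by norm_num) (by linarith)]
    exact Real.log_le_log (by linarith) (by linarith)
  have hla : 0 ≤ Real.log a := Real.log_nonneg ha1
  have hp1 : 1 ≤ (1 + Real.log N) ^ 2 := one_le_pow₀ (by linarith)
  have hp2 : (1 + Real.log N) ^ 2 ≤ (1 + Real.log N) ^ 4 :=
    pow_le_pow_right₀ (by linarith) (by norm_num)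
  have hCU : 0 < C * U := by positivity
  refine ⟨h1.trans ?_, ?_, ?_⟩
  · refine mul_le_mul_of_nonneg_right ?_ (by positivity)
    nlinarith
  · refine (comb N U t (2 * Real.log T) _ _ (by linarith) (fun c => DN N (t + c))
      (fun c => Real.log (t + c)) (fun c hc0 hcU => DN_eq N _ (hu c hc0 hcU).1) ?_ h1 h2).trans ?_
    · intro c hc0 hcU
      obtain ⟨h3, h4, h5⟩ := hu c hc0 hcU
      rw [abs_of_nonneg (by linarith)]
      linarith
    · have h6 : 1 ≤ Real.log T ^ 2 := one_le_pow₀ hlT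
      have h7 : (1 + Real.log N) ^ 2 * Real.log T ^ 2 ≤ (1 + Real.log N) ^ 4 * Real.log T ^ 2 :=
        mul_le_mul_of_nonneg_right hp2 (by positivity)
      have h8 : (1 + Real.log N) ^ 4 ≤ (1 + Real.log N) ^ 4 * Real.log T ^ 2 :=
        le_mul_of_one_le_right (by positivity) h6
      calc 2 * (2 * Real.log T) ^ 2 * (2 * C * U * (1 + Real.log N) ^ 2) +
            2 * (2 * C * U * (4 * (1 + Real.log N) ^ 4)) =
          C * U * (16 * ((1 + Real.log N) ^ 2 * Real.log T ^ 2) + 16 * (1 + Real.log N) ^ 4) := by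
            ring
        _ ≤ C * U * (16 * ((1 + Real.log N) ^ 4 * Real.log T ^ 2) +
            84 * ((1 + Real.log N) ^ 4 * Real.log T ^ 2)) := by
            refine mul_le_mul_of_nonneg_left ?_ hCU.le
            have : 0 ≤ (1 + Real.log N) ^ 4 * Real.log T ^ 2 := by positivity
            linarith
        _ = _ := by ring
  · have hTa : Real.log (T / a) = Real.log T - Real.log a :=
      Real.log_div (by linarith) (by linarith)
    have hTa0 : 0 ≤ Real.log (T / a) := Real.log_nonneg (by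
      rw [le_div_iff₀ ha0]
      linarith)
    refine (comb N U t (1 + Real.log (T / a)) _ _ (by linarith)
      (fun c => DN N (t + c) - (Real.log T : ℂ) * P1 N (t + c))
      (fun c => Real.log (t + c) - Real.log T) ?_ ?_ h1 h2).trans ?_
    · intro c hc0 hcU
      rw [DN_eq N _ (hu c hc0 hcU).1]
      push_cast
      ring
    · intro c hc0 hcU
      obtain ⟨h3, h4, h5⟩ := hu c hc0 hcU
      rw [abs_le]
      constructor <;> linarith
    · have h6 : 1 ≤ (1 + Real.log (T / a)) ^ 2 := one_le_pow₀ (by linarith)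
      have h7 : (1 + Real.log N) ^ 2 * (1 + Real.log (T / a)) ^ 2 ≤
          (1 + Real.log N) ^ 4 * (1 + Real.log (T / a)) ^ 2 :=
        mul_le_mul_of_nonneg_right hp2 (by positivity)
      have h8 : (1 + Real.log N) ^ 4 ≤ (1 + Real.log N) ^ 4 * (1 + Real.log (T / a)) ^ 2 :=
        le_mul_of_one_le_right (by positivity) h6
      calc 2 * (1 + Real.log (T / a)) ^ 2 * (2 * C * U * (1 + Real.log N) ^ 2) +
            2 * (2 * C * U * (4 * (1 + Real.log N) ^ 4)) =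
          C * U * (4 * ((1 + Real.log N) ^ 2 * (1 + Real.log (T / a)) ^ 2) +
            16 * (1 + Real.log N) ^ 4) := by
            ring
        _ ≤ C * U * (4 * ((1 + Real.log N) ^ 4 * (1 + Real.log (T / a)) ^ 2) +
            96 * ((1 + Real.log N) ^ 4 * (1 + Real.log (T / a)) ^ 2)) := by
            refine mul_le_mul_of_nonneg_left ?_ hCU.le
            have : 0 ≤ (1 + Real.log N) ^ 4 * (1 + Real.log (T / a)) ^ 2 := by positivity
            linarith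
        _ = _ := by ring

end

end Pool.Agent.N879.PZ
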