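import Pool.Agent.N879.PZ.Stm
import Pool.Agent.Y514.SX.ZE
import Pool.Agent.Y96.SX.ZM

set_option autoImplicit false

/-! Project PZ, job ZE1: the product of the local densities against the zeta factors. -/

namespace Pool.Agent.N879.PZ

namespace Ze1aux

open Finset Filter Topology MeasureTheory Complex
open Pool.Agent.Y969.GP (mB)
open Pool.Agent.Y969.SM (Py S_ZM)
open Pool.Agent.Y514.SX (pb Wn real_bad Bd box_bad inv_est box_compl)

noncomputable section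

/-- bounds for the double products -/
theorem pb2 {n : ℕ} (f : ℝ → ℝ) (c : Fin n → ℝ) (L H : ℝ) (hL0 : 0 ≤ L) (hL1 : L ≤ 1)
    (hH : 1 ≤ H) (h1 : ∀ j, L ≤ f (c j) ∧ f (c j) ≤ H)
    (h2 : ∀ i j, i ≠ j → L ≤ f (c i - c j) ∧ f (c i - c j) ≤ H) :
    L ^ (2 * n + 2 * (n * n)) ≤ (∏ j, f (c j) ^ 2) * ∏ i, ∏ j ∈ Finset.Ioi i, f (c i - c j) ^ 2 ∧
      (∏ j, f (c j) ^ 2) * ∏ i, ∏ j ∈ Finset.Ioi i, f (c i - c j) ^ 2 ≤
        H ^ (2 * n + 2 * (n * n)) := by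
  have hH0 : 0 ≤ H := by linarith
  have a := pb Finset.univ (fun j => f (c j) ^ 2) (L ^ 2) (H ^ 2) (by positivity)
    (pow_le_one₀ hL0 hL1) (one_le_pow₀ hH) n (by simp) fun j _ =>
      ⟨pow_le_pow_left₀ hL0 (h1 j).1 2, pow_le_pow_left₀ (hL0.trans (h1 j).1) (h1 j).2 2⟩
  have b : ∀ i : Fin n, (L ^ 2) ^ n ≤ ∏ j ∈ Finset.Ioi i, f (c i - c j) ^ 2 ∧
      ∏ j ∈ Finset.Ioi i, f (c i - c j) ^ 2 ≤ (H ^ 2) ^ n := by
    intro i
    refine pb (Finset.Ioi i) (fun j => f (c i - c j) ^ 2) (L ^ 2) (H ^ 2) (by positivity)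
      (pow_le_one₀ hL0 hL1) (one_le_pow₀ hH) n ?_ fun j hj => ?_
    · calc (Finset.Ioi i).card ≤ (Finset.univ : Finset (Fin n)).card :=
          Finset.card_le_card (Finset.subset_univ _)
        _ = n := by simp
    · have hij : i ≠ j := (Finset.mem_Ioi.1 hj).ne
      have h3 := h2 i j hij
      exact ⟨pow_le_pow_left₀ hL0 h3.1 2, pow_le_pow_left₀ (hL0.trans h3.1) h3.2 2⟩
  have b2 := pb Finset.univ (fun i : Fin n => ∏ j ∈ Finset.Ioi i, f (c i - c j) ^ 2)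
    ((L ^ 2) ^ n) ((H ^ 2) ^ n) (by positivity) (pow_le_one₀ (by positivity)
      (pow_le_one₀ hL0 hL1)) (one_le_pow₀ (one_le_pow₀ hH)) n (by simp) fun i _ => b i
  have e : ∀ x : ℝ, x ^ (2 * n + 2 * (n * n)) = (x ^ 2) ^ n * ((x ^ 2) ^ n) ^ n := by
    intro x
    ring
  rw [e, e]
  have hA : 0 ≤ ∏ j, f (c j) ^ 2 := le_trans (by positivity) a.1
  have hB : 0 ≤ ∏ i, ∏ j ∈ Finset.Ioi i, f (c i - c j) ^ 2 := le_trans (by positivity) b2.1
  exact ⟨mul_le_mul a.1 b2.1 (by positivity) hA, mul_le_mul a.2 b2.2 hB (by positivity)⟩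

/-- the product of the Euler factors -/
theorem ep_prod {n : ℕ} (y : ℝ) (c : Fin n → ℝ) :
    ∏ p ∈ (Finset.range (⌊y⌋₊ + 1)).filter Nat.Prime, ep1 c p =
      (∏ j, ‖Py y (c j)‖ ^ 2) * ∏ i, ∏ j ∈ Finset.Ioi i, ‖Py y (c i - c j)‖ ^ 2 := by
  unfold ep1 Py
  rw [Finset.prod_mul_distrib, Finset.prod_comm]
  congr 1
  · refine Finset.prod_congr rfl fun j _ => ?_
    rw [norm_prod, Finset.prod_pow]
  · rw [Finset.prod_comm]
    refine Finset.prod_congr rfl fun i _ => ?_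
    rw [Finset.prod_comm]
    refine Finset.prod_congr rfl fun j _ => ?_
    rw [norm_prod, Finset.prod_pow]
    push_cast
    rfl

theorem zp_ep {n : ℕ} (y : ℝ) (c : Fin n → ℝ) :
    zp1 c * ∏ p ∈ (Finset.range (⌊y⌋₊ + 1)).filter Nat.Prime, ep1 c p =
      (∏ j, Wn y (c j) ^ 2) * ∏ i, ∏ j ∈ Finset.Ioi i, Wn y (c i - c j) ^ 2 := by
  rw [ep_prod]
  unfold zp1 Wn
  rw [mul_mul_mul_comm, ← Finset.prod_mul_distrib, ← Finset.prod_mul_distrib]
  congr 1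
  · exact Finset.prod_congr rfl fun j _ => by rw [mul_pow]
  · refine Finset.prod_congr rfl fun i _ => ?_
    rw [← Finset.prod_mul_distrib]
    refine Finset.prod_congr rfl fun j _ => ?_
    rw [mul_pow]
    push_cast
    rfl

theorem zp_bd {n : ℕ} (c : Fin n → ℝ) (M : ℝ) (hM : 1 ≤ M)
    (h1 : ∀ j, ‖riemannZeta (1 + I * (c j : ℝ))‖ ≤ M)
    (h2 : ∀ i j, i ≠ j → ‖riemannZeta (1 + I * ((c i - c j : ℝ) : ℂ))‖ ≤ M) :
    0 ≤ zp1 c ∧ zp1 c ≤ M ^ (2 * n + 2 * (n * n)) := by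
  constructor
  · unfold zp1
    positivity
  · have h := (pb2 (fun x : ℝ => ‖riemannZeta (1 + I * (x : ℂ))‖) c 0 M le_rfl zero_le_one hM
      (fun j => ⟨norm_nonneg _, h1 j⟩) (fun i j hij => ⟨norm_nonneg _, h2 i j hij⟩)).2
    refine le_trans (le_of_eq ?_) h
    unfold zp1
    congr 1
    refine Finset.prod_congr rfl fun i _ => Finset.prod_congr rfl fun j _ => ?_
    push_cast
    rfl

theorem det_est {n : ℕ} (c : Fin n → ℝ) (y C d M : ℝ) (hM : 1 ≤ M)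
    (hd0 : 0 < d) (hd1 : d ≤ 1 / 2) (hN : ((2 * n + 2 * (n * n) : ℕ) : ℝ) * d ≤ 1 / 2)
    (hG0 : 0 ≤ ∏ p ∈ (Finset.range (⌊y⌋₊ + 1)).filter Nat.Prime, loc1 c p * ep1 c p)
    (hG1 : ∏ p ∈ (Finset.range (⌊y⌋₊ + 1)).filter Nat.Prime, loc1 c p * ep1 c p ≤ C)
    (hG2 : |(∏ p ∈ (Finset.range (⌊y⌋₊ + 1)).filter Nat.Prime, loc1 c p * ep1 c p) - AA1 c| ≤ C / y)
    (h1 : ∀ j, |Wn y (c j) - 1| ≤ d ∧ ‖riemannZeta (1 + I * (c j : ℝ))‖ ≤ M)
    (h2 : ∀ i j, i ≠ j → |Wn y (c i - c j) - 1| ≤ d ∧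
      ‖riemannZeta (1 + I * ((c i - c j : ℝ) : ℂ))‖ ≤ M) :
    |SS1 y c - zp1 c * AA1 c| ≤ M ^ (2 * n + 2 * (n * n)) *
      (C * (2 * ((2 * n + 2 * (n * n) : ℕ) : ℝ) * d) + C / y) := by
  set N : ℕ := 2 * n + 2 * (n * n) with hNdef
  set Ep := ∏ p ∈ (Finset.range (⌊y⌋₊ + 1)).filter Nat.Prime, ep1 c p with hEp
  set G := ∏ p ∈ (Finset.range (⌊y⌋₊ + 1)).filter Nat.Prime, loc1 c p * ep1 c p with hG
  have hGE : G = SS1 y c * Ep := by
    rw [hG, Finset.prod_mul_distrib]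
    rfl
  have hab : ∀ x : ℝ, |x - 1| ≤ d → 1 - d ≤ x ∧ x ≤ 1 + d := by
    intro x hx
    obtain ⟨a, b⟩ := abs_le.1 hx
    exact ⟨by linarith, by linarith⟩
  have hw := pb2 (Wn y) c (1 - d) (1 + d) (by linarith) (by linarith) (by linarith)
    (fun j => hab _ (h1 j).1) (fun i j hij => hab _ (h2 i j hij).1)
  rw [← zp_ep, ← hEp] at hw
  obtain ⟨hw0, hw1⟩ := inv_est N d (zp1 c * Ep) hd0 hd1 hN hw.1 hw.2
  obtain ⟨hz0, hz1⟩ := zp_bd c M hM (fun j => (h1 j).2) (fun i j hij => (h2 i j hij).2)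
  have hE0 : Ep ≠ 0 := fun h => by rw [h, mul_zero] at hw0; exact lt_irrefl _ hw0
  have hzne : zp1 c ≠ 0 := fun h => by rw [h, zero_mul] at hw0; exact lt_irrefl _ hw0
  have e : SS1 y c - zp1 c * AA1 c =
      zp1 c * (G * (1 / (zp1 c * Ep) - 1) + (G - AA1 c)) := by
    rw [hGE]
    field_simp
    ring
  rw [e, abs_mul, abs_of_nonneg hz0]
  refine mul_le_mul hz1 ?_ (abs_nonneg _) (by positivity)
  refine (abs_add_le _ _).trans (add_le_add ?_ hG2)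
  rw [abs_mul, abs_of_nonneg hG0]
  exact mul_le_mul hG1 hw1 (abs_nonneg _) (hG0.trans hG1)

theorem t_aux (h1 : S_AA1) (h2 : S_ZM) : S_ZE1 := by
  intro n ε hε
  obtain ⟨C, hC, hAA⟩ := h1 n
  obtain ⟨hZ1, C₁, hC₁, hZ2⟩ := h2
  set N : ℕ := 2 * n + 2 * (n * n) with hN
  set K : ℝ := ((n + n * n : ℕ) : ℝ) with hK
  have hK0 : 0 ≤ K := Nat.cast_nonneg _
  have hN0 : (0 : ℝ) ≤ N := Nat.cast_nonneg _
  set M : ℝ := 1 + 6 * K * C₁ / ε with hM
  have hM1 : 1 ≤ M := by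
    have : 0 ≤ 6 * K * C₁ / ε := by positivity
    linarith
  have hM0 : 0 < M := by linarith
  have hMN : 0 < M ^ N := pow_pos hM0 N
  set d : ℝ := min (1 / (2 * (N + 1))) (ε / (3 * (M ^ N * C * (2 * N) + 1))) with hd
  have hd0 : 0 < d := lt_min (by positivity) (by positivity)
  have hd1 : d ≤ 1 / (2 * (N + 1)) := min_le_left _ _
  have hd2 : d ≤ ε / (3 * (M ^ N * C * (2 * N) + 1)) := min_le_right _ _
  have hdh : d ≤ 1 / 2 := by
    refine hd1.trans ?_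
    apply one_div_le_one_div_of_le (by norm_num)
    linarith
  have hNd : (N : ℝ) * d ≤ 1 / 2 := by
    rw [le_div_iff₀ (by positivity)] at hd1
    nlinarith
  have hCd : M ^ N * (C * (2 * N * d)) ≤ ε / 3 := by
    rw [le_div_iff₀ (by positivity)] at hd2
    nlinarith
  set ε₁ : ℝ := ε * d ^ 2 / (6 * (K + 1)) with hε₁
  have hε₁0 : 0 < ε₁ := by positivity
  filter_upwards [hZ1 ε₁ hε₁0, hZ2, eventually_ge_atTop (1 : ℝ), eventually_ge_atTop (6 * K / ε),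
    Real.tendsto_log_atTop.eventually_ge_atTop 1,
    Real.tendsto_log_atTop.eventually_gt_atTop (3 * (M ^ N * C) / ε)] with U hI1 hI2 hU1 hU2 hl1 hl2
  obtain ⟨R, hR1, hR2, hR3⟩ := real_bad U d M (ε₁ * U) (C₁ * U) (Real.log U) hU1 hd0 hM0 hI1 hI2
  have hU0 : 0 < U := by linarith
  have hl0 : 0 < Real.log U := by linarith
  -- the good set
  have hsub : {c : Fin n → ℝ | ε ≤ |SS1 (Real.log U) c - zp1 c * AA1 c|} ⊆
      Bd R ∪ {c | ¬ ∀ j, 0 ≤ c j ∧ c j ≤ U} := by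
    intro c hc
    by_contra hcon
    rw [Set.mem_union, not_or] at hcon
    obtain ⟨hc1, hc2⟩ := hcon
    have hc2' : ∀ j, 0 ≤ c j ∧ c j ≤ U := not_not.1 hc2
    have hc3 : ∀ j, c j ∉ R := fun j h => hc1 (Or.inl ⟨j, h⟩)
    have hc4 : ∀ i j, i ≠ j → c i - c j ∉ R := fun i j hij h => hc1 (Or.inr ⟨i, j, hij, h⟩)
    have hA := hAA c
    have key := det_est c (Real.log U) C d M hM1 hd0 hdh hNd (hA.2.2.1 _ hl1).1
      (hA.2.2.1 _ hl1).2 (hA.2.1 _ hl1)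
      (fun j => hR3 _ (by rw [abs_of_nonneg (hc2' j).1]; exact (hc2' j).2) (hc3 j))
      (fun i j hij => hR3 _ (by
        rw [abs_le]
        constructor
        · linarith [(hc2' i).1, (hc2' j).2]
        · linarith [(hc2' i).2, (hc2' j).1]) (hc4 i j hij))
    have h3 : M ^ N * (C / Real.log U) < ε / 3 := by
      rw [mul_div_assoc', div_lt_iff₀ hl0]
      rw [div_lt_iff₀ hε] at hl2
      linarith
    have h4 : M ^ N * (C * (2 * (N : ℝ) * d) + C / Real.log U) < ε := by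
      rw [mul_add]
      linarith
    have hc5 : ε ≤ |SS1 (Real.log U) c - zp1 c * AA1 c| := hc
    linarith
  set X : ℝ := 2 * (ε₁ * U / d ^ 2 + C₁ * U / M ^ 2) + 2 with hX
  have hX0 : 0 ≤ X := by positivity
  have h5 : (mB n 0 U) {c : Fin n → ℝ | ε ≤ |SS1 (Real.log U) c - zp1 c * AA1 c|} ≤
      ENNReal.ofReal (K * (X * U ^ (n - 1))) := by
    calc _ ≤ (mB n 0 U) (Bd R) + (mB n 0 U) {c | ¬ ∀ j, 0 ≤ c j ∧ c j ≤ U} :=
          (measure_mono hsub).trans (measure_union_le _ _)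
      _ = (mB n 0 U) (Bd R) := by rw [box_compl, add_zero]
      _ ≤ (n + n * n : ℕ) * (volume R * ENNReal.ofReal U ^ (n - 1)) := box_bad n U R hR1
      _ ≤ (n + n * n : ℕ) * (ENNReal.ofReal X * ENNReal.ofReal U ^ (n - 1)) := by
          gcongr
      _ = ENNReal.ofReal (K * (X * U ^ (n - 1))) := by
          rw [ENNReal.ofReal_mul hK0, ENNReal.ofReal_mul hX0, ENNReal.ofReal_pow hU0.le, hK,
            ENNReal.ofReal_natCast]
  have h6 : (mB n 0 U).real {c : Fin n → ℝ | ε ≤ |SS1 (Real.log U) c - zp1 c * AA1 c|} ≤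
      K * (X * U ^ (n - 1)) := ENNReal.toReal_le_of_le_ofReal (by positivity) h5
  refine h6.trans ?_
  -- the numbers
  have h7 : K * X ≤ ε * U := by
    have a1 : K * (2 * (ε₁ * U / d ^ 2)) ≤ ε / 3 * U := by
      have : K * (2 * (ε₁ * U / d ^ 2)) = (K / (K + 1)) * (ε / 3) * U := by
        rw [hε₁]
        field_simp
        ring
      rw [this]
      have h8 : K / (K + 1) ≤ 1 := by rw [div_le_one (by positivity)]; linarith
      have h9 : 0 ≤ ε / 3 * U := by positivity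
      nlinarith
    have a2 : K * (2 * (C₁ * U / M ^ 2)) ≤ ε / 3 * U := by
      have h8 : 6 * K * C₁ ≤ ε * M ^ 2 := by
        have h9 : 6 * K * C₁ / ε ≤ M := by linarith
        rw [div_le_iff₀ hε] at h9
        have h10 : M ≤ M ^ 2 := by nlinarith
        nlinarith
      have : K * (2 * (C₁ * U / M ^ 2)) = (6 * K * C₁) * U / (3 * M ^ 2) := by
        field_simp
        ring
      rw [this, div_le_iff₀ (by positivity)]
      nlinarith
    have a3 : K * 2 ≤ ε / 3 * U := by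
      rw [div_le_iff₀ hε] at hU2
      linarith
    have : K * X = K * (2 * (ε₁ * U / d ^ 2)) + K * (2 * (C₁ * U / M ^ 2)) + K * 2 := by
      rw [hX]; ring
    rw [this]
    linarith
  rcases Nat.eq_zero_or_pos n with h0 | h0
  · subst h0
    have : K = 0 := by rw [hK]; simp
    rw [this, zero_mul]
    positivity
  · have e : U ^ n = U * U ^ (n - 1) := by
      rw [← pow_succ']
      congr 1
      omega
    rw [e]
    calc K * (X * U ^ (n - 1)) = (K * X) * U ^ (n - 1) := by ring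
      _ ≤ (ε * U) * U ^ (n - 1) := mul_le_mul_of_nonneg_right h7 (by positivity)
      _ = ε * (U * U ^ (n - 1)) := by ring

end

end Ze1aux

/-- ZE1: the product of the local densities against the zeta factors -/
theorem t_ZE1 (h1 : S_AA1) : S_ZE1 := Ze1aux.t_aux h1 Pool.Agent.Y96.SX.t_ZM

end Pool.Agent.N879.PZ
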