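import Pool.Agent.N879.PZ.Stm
import Pool.Agent.Y969.SM.Bas

set_option autoImplicit false

/-! Project PZ: assembly, first part (parameters, continuity, splitting). -/

namespace Pool.Agent.N879.PZ

open Complex Filter Topology MeasureTheory Set
open Pool.Agent.Y969.GP (ff V V1 ht lam PS FR co cr PX mk mB)
open Pool.Agent.Y969.SM (kx ff_cont mB_int mB_cs mB_const mB_mass)
open Pool.Agent.W184.NZ (w1)

noncomputable section

variable {n : ℕ}

/-! ### Continuity -/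

lemma lam_cont_ee (p : ℕ × ℕ) : Continuous fun u : ℝ => ee u p := by
  unfold ee
  fun_prop

lemma P1_cont (N : ℕ) : Continuous (P1 N) := by
  unfold P1
  exact continuous_finsetSum _ fun p _ => continuous_const.mul (lam_cont_ee p)

lemma DN_cont (N : ℕ) : Continuous (DN N) := by
  unfold DN
  refine continuous_finsetSum _ fun p hp => Continuous.mul ?_ (lam_cont_ee p)
  refine Complex.continuous_ofReal.comp (continuous_const.mul (Continuous.add ?_ continuous_const))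
  have hp' : p ∈ FR N := hp
  have h0 : (0 : ℝ) < ht p := by
    have h1 : p ∈ PS N := by
      unfold FR at hp'
      exact (Finset.mem_filter.1 hp').1
    unfold PS at h1
    rw [Finset.mem_filter, Finset.mem_product, Finset.mem_Icc, Finset.mem_Icc] at h1
    obtain ⟨⟨⟨a, _⟩, ⟨b, _⟩⟩, _⟩ := h1
    unfold ht
    have ha : (0 : ℝ) < p.1 := by exact_mod_cast a
    have hb : (0 : ℝ) < p.2 := by exact_mod_cast b
    positivity
  refine Continuous.log (by fun_prop) fun u => ?_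
  have : (0 : ℝ) < max u 1 := lt_of_lt_of_le one_pos (le_max_right _ _)
  have hpi := Real.pi_pos
  positivity

lemma ffC_cont : Continuous fun u : ℝ => ((ff u : ℝ) : ℂ) := Complex.continuous_ofReal.comp ff_cont

lemma Gs_meas (U W : ℝ) : MeasurableSet (Gs U W) := by
  unfold Gs
  refine (isClosed_le ?_ continuous_const).measurableSet
  have h2 : Continuous fun u : ℝ => ff u ^ 2 := ff_cont.pow 2
  have h1 : ∀ t : ℝ, ∫ u in t..(t + U), ff u ^ 2 =
      (∫ u in (0 : ℝ)..(t + U), ff u ^ 2) - ∫ u in (0 : ℝ)..t, ff u ^ 2 := by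
    intro t
    rw [intervalIntegral.integral_interval_sub_left]
    · exact (h2.intervalIntegrable _ _)
    · exact (h2.intervalIntegrable _ _)
  simp only [h1]
  have h3 : Continuous fun x : ℝ => ∫ u in (0 : ℝ)..x, ff u ^ 2 :=
    intervalIntegral.continuous_primitive (fun a b => h2.intervalIntegrable a b) 0
  exact (h3.comp (by fun_prop)).sub h3

lemma Wb_ff (a b : ℝ) : Wb a b fun t => ((ff t : ℝ) : ℂ) := by
  refine ⟨ffC_cont.measurable, ?_⟩
  obtain ⟨M, hM⟩ := isCompact_Icc.exists_bound_of_continuousOn (s := Icc a b) ffC_cont.continuousOn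
  exact ⟨M, hM⟩

/-! ### Splitting -/

/-- integrability of the products -/
lemma prod_int {a b : ℝ} {D : Set ℝ} (hD : D ⊆ Icc a b) (g : Fin n → ℝ → ℂ) (hg : ∀ j, Continuous (g j))
    (c : Fin n → ℝ) : IntegrableOn (fun t => ((ff t : ℝ) : ℂ) * ∏ j, g j (t + c j)) D := by
  refine IntegrableOn.mono_set ?_ hD
  refine ContinuousOn.integrableOn_compact isCompact_Icc (Continuous.continuousOn ?_)
  exact ffC_cont.mul (continuous_finsetProd _ fun j _ => (hg j).comp (by fun_prop))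

lemma MG_split {T U W a : ℝ} (ha : 0 ≤ a) (haT : a ≤ T) (N : ℕ) (c : Fin n → ℝ) :
    ((MG T U W c : ℝ) : ℂ) =
      (∫ t in Gs U W ∩ Icc 0 a, ((ff t : ℝ) : ℂ) * ∏ j, ((ff (t + c j) : ℝ) : ℂ)) +
      (∫ t in Gs U W ∩ Icc a T, ((ff t : ℝ) : ℂ) * (∏ j, ((ff (t + c j) : ℝ) : ℂ) - ∏ j, DN N (t + c j))) -
      (∫ t in Icc a T \ Gs U W, ((ff t : ℝ) : ℂ) * ∏ j, DN N (t + c j)) +
      (∫ t in Icc a T, ((ff t : ℝ) : ℂ) * (∏ j, DN N (t + c j) - ∏ j, ((Real.log T : ℂ) * P1 N (t + c j)))) +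
      (Real.log T : ℂ) ^ n * ∫ t in Icc a T, ((ff t : ℝ) : ℂ) * ∏ j, P1 N (t + c j) := by
  have hG := Gs_meas U W
  have i1 := prod_int (n := n) (D := Gs U W ∩ Icc 0 a) inter_subset_right (fun _ u => ((ff u : ℝ) : ℂ))
    (fun _ => ffC_cont) c
  have i2 := prod_int (n := n) (D := Gs U W ∩ Icc a T) inter_subset_right (fun _ u => ((ff u : ℝ) : ℂ))
    (fun _ => ffC_cont) c
  have i3 := prod_int (n := n) (D := Gs U W ∩ Icc a T) inter_subset_right (fun _ => DN N)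
    (fun _ => DN_cont N) c
  have i4 := prod_int (n := n) (D := Icc a T) (Subset.refl _) (fun _ => DN N) (fun _ => DN_cont N) c
  have i5 := prod_int (n := n) (D := Icc a T) (Subset.refl _) (fun _ u => (Real.log T : ℂ) * P1 N u)
    (fun _ => continuous_const.mul (P1_cont N)) c
  have e0 : ((MG T U W c : ℝ) : ℂ) =
      ∫ t in Gs U W ∩ Icc 0 T, ((ff t : ℝ) : ℂ) * ∏ j, ((ff (t + c j) : ℝ) : ℂ) := by
    unfold MG
    refine (integral_complex_ofReal (μ := volume.restrict (Gs U W ∩ Icc 0 T))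
      (f := fun t => ff t * ∏ j, ff (t + c j))).symm.trans ?_
    refine integral_congr_ae (Eventually.of_forall fun t => ?_)
    simp only [ofReal_mul, ofReal_prod]
  have e1 : Gs U W ∩ Icc 0 T = (Gs U W ∩ Icc 0 a) ∪ (Gs U W ∩ Icc a T) := by
    rw [← inter_union_distrib_left, Icc_union_Icc_eq_Icc ha haT]
  have e2 : ∫ t in Gs U W ∩ Icc 0 T, ((ff t : ℝ) : ℂ) * ∏ j, ((ff (t + c j) : ℝ) : ℂ) =
      (∫ t in Gs U W ∩ Icc 0 a, ((ff t : ℝ) : ℂ) * ∏ j, ((ff (t + c j) : ℝ) : ℂ)) +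
      ∫ t in Gs U W ∩ Icc a T, ((ff t : ℝ) : ℂ) * ∏ j, ((ff (t + c j) : ℝ) : ℂ) := by
    rw [e1]
    refine integral_union_ae ?_ (hG.inter measurableSet_Icc).nullMeasurableSet i1 i2
    refine measure_mono_null (t := {a}) ?_ Real.volume_singleton
    rintro t ⟨⟨_, h1⟩, ⟨_, h2⟩⟩
    exact le_antisymm h1.2 h2.1
  have e3 : ∫ t in Gs U W ∩ Icc a T, ((ff t : ℝ) : ℂ) * (∏ j, ((ff (t + c j) : ℝ) : ℂ) - ∏ j, DN N (t + c j)) =
      (∫ t in Gs U W ∩ Icc a T, ((ff t : ℝ) : ℂ) * ∏ j, ((ff (t + c j) : ℝ) : ℂ)) -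
      ∫ t in Gs U W ∩ Icc a T, ((ff t : ℝ) : ℂ) * ∏ j, DN N (t + c j) := by
    rw [← integral_sub i2 i3]
    simp only [mul_sub]
  have e4 : (∫ t in Gs U W ∩ Icc a T, ((ff t : ℝ) : ℂ) * ∏ j, DN N (t + c j)) +
      (∫ t in Icc a T \ Gs U W, ((ff t : ℝ) : ℂ) * ∏ j, DN N (t + c j)) =
      ∫ t in Icc a T, ((ff t : ℝ) : ℂ) * ∏ j, DN N (t + c j) := by
    rw [inter_comm]
    exact integral_inter_add_diff hG i4
  have e5 : ∫ t in Icc a T, ((ff t : ℝ) : ℂ) * (∏ j, DN N (t + c j) - ∏ j, ((Real.log T : ℂ) * P1 N (t + c j))) =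
      (∫ t in Icc a T, ((ff t : ℝ) : ℂ) * ∏ j, DN N (t + c j)) -
      ∫ t in Icc a T, ((ff t : ℝ) : ℂ) * ∏ j, ((Real.log T : ℂ) * P1 N (t + c j)) := by
    rw [← integral_sub i4 i5]
    simp only [mul_sub]
  have e6 : ∫ t in Icc a T, ((ff t : ℝ) : ℂ) * ∏ j, ((Real.log T : ℂ) * P1 N (t + c j)) =
      (Real.log T : ℂ) ^ n * ∫ t in Icc a T, ((ff t : ℝ) : ℂ) * ∏ j, P1 N (t + c j) := by
    rw [← integral_const_mul]
    refine integral_congr_ae (Eventually.of_forall fun t => ?_)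
    simp only [Finset.prod_mul_distrib, Finset.prod_const, Finset.card_univ, Fintype.card_fin]
    ring
  rw [e0, e2, e3, e5, ← e4, e6]
  ring

/-! ### Logarithms -/

lemma ev_log (f : ℝ → Prop) (h : ∀ᶠ x : ℝ in atTop, f x) : ∀ᶠ T : ℝ in atTop, f (Real.log T) :=
  Real.tendsto_log_atTop.eventually h

/-- powers of `log L` are small -/
lemma log_pow_small (m : ℕ) {ε : ℝ} (hε : 0 < ε) : ∀ᶠ L : ℝ in atTop, (1 + Real.log L) ^ m ≤ ε * L := by
  have h1 := (Real.isLittleO_pow_log_id_atTop (n := m)).def (show 0 < ε / 2 ^ m by positivity)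
  filter_upwards [h1, Real.tendsto_log_atTop.eventually_ge_atTop 1, eventually_ge_atTop 1] with L h2 h3 h4
  have h5 : (0 : ℝ) ≤ Real.log L := by linarith
  rw [Real.norm_of_nonneg (by positivity), id, Real.norm_of_nonneg (by linarith)] at h2
  calc (1 + Real.log L) ^ m ≤ (2 * Real.log L) ^ m := pow_le_pow_left₀ (by linarith) (by linarith) m
    _ = 2 ^ m * Real.log L ^ m := by rw [mul_pow]
    _ ≤ 2 ^ m * (ε / 2 ^ m * L) := mul_le_mul_of_nonneg_left h2 (by positivity)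
    _ = ε * L := by field_simp

/-- powers of `log T` against powers of `T` -/
lemma pow_log_le (m : ℕ) {s : ℝ} (hs : 0 < s) : ∀ᶠ T : ℝ in atTop, Real.log T ^ m ≤ T ^ s := by
  have h1 := (isLittleO_log_rpow_rpow_atTop (m : ℝ) hs).def (show (0 : ℝ) < 1 by norm_num)
  filter_upwards [h1, eventually_ge_atTop 1] with T h2 h3
  have h5 : (0 : ℝ) ≤ Real.log T := Real.log_nonneg h3
  rw [Real.norm_of_nonneg (by positivity), Real.norm_of_nonneg (by positivity), Real.rpow_natCast, one_mul] at h2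
  exact h2

/-- the parameters are admissible -/
lemma par_ev (n C1 B2 C0 : ℕ) (h1 : 1 ≤ C1) (hC0 : (2 * n + 1) * C1 + 1 ≤ C0) : ∀ᶠ T : ℝ in atTop, ∀ U : ℝ,
    Real.log T ^ C0 ≤ U → U ≤ T ^ (1 / 4 : ℝ) →
    4 * ((⌊Real.log T ^ C1⌋₊ : ℕ) : ℝ) ^ (2 * n + 1) ≤ U ∧
    Par T U (T / Real.log T ^ B2) ⌊Real.log T ^ C1⌋₊ ∧ Real.log T ^ C1 / 2 ≤ (⌊Real.log T ^ C1⌋₊ : ℕ) := by
  filter_upwards [pow_log_le C1 (show (0 : ℝ) < 1 / 16 by norm_num), pow_log_le B2 (show (0 : ℝ) < 1 / 8 by norm_num),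
    Real.tendsto_log_atTop.eventually_ge_atTop 4, eventually_ge_atTop 3] with T g1 g2 g3 g4
  intro U hU hU2
  have hL1 : (1 : ℝ) ≤ Real.log T := by linarith
  have hL0 : (0 : ℝ) < Real.log T := by linarith
  have hT0 : (0 : ℝ) < T := by linarith
  set L := Real.log T with hL
  have hx : (1 : ℝ) ≤ L ^ C1 := one_le_pow₀ hL1
  set N : ℕ := ⌊L ^ C1⌋₊ with hN
  have hN1 : 1 ≤ N := Nat.le_floor (by simpa using hx)
  have hN1' : (1 : ℝ) ≤ N := by exact_mod_cast hN1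
  have hNle : (N : ℝ) ≤ L ^ C1 := Nat.floor_le (by positivity)
  have hNlt := Nat.lt_floor_add_one (L ^ C1)
  rw [← hN] at hNlt
  have hNhalf : L ^ C1 / 2 ≤ (N : ℝ) := by linarith
  have k1 : 4 * (N : ℝ) ^ (2 * n + 1) ≤ U := by
    refine le_trans ?_ hU
    calc 4 * (N : ℝ) ^ (2 * n + 1) ≤ L * (L ^ C1) ^ (2 * n + 1) := by gcongr
      _ = L ^ ((2 * n + 1) * C1 + 1) := by rw [← pow_mul, pow_succ', mul_comm C1]
      _ ≤ L ^ C0 := pow_le_pow_right₀ hL1 hC0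
  have k2 : (N : ℝ) ≤ U := by
    refine le_trans ?_ k1
    calc (N : ℝ) ≤ (N : ℝ) ^ (2 * n + 1) := le_self_pow₀ hN1' (by omega)
      _ ≤ 4 * (N : ℝ) ^ (2 * n + 1) := by
          have : (0 : ℝ) ≤ (N : ℝ) ^ (2 * n + 1) := by positivity
          linarith
  refine ⟨k1, ⟨g4, by linarith, hU2, ?_, ?_, hN1, hNle.trans g1, k2⟩, hNhalf⟩
  · rw [le_div_iff₀ (by positivity)]
    calc T ^ (7 / 8 : ℝ) * L ^ B2 ≤ T ^ (7 / 8 : ℝ) * T ^ (1 / 8 : ℝ) := by gcongr
      _ = T := by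
          rw [← Real.rpow_add hT0]; norm_num
  · exact div_le_self hT0.le (one_le_pow₀ hL1)

end

end Pool.Agent.N879.PZ
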