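import Pool.Agent.N879.PZ.Asm1

set_option autoImplicit false

/-! Project PZ: assembly, second part (the theorem in the mean). -/

namespace Pool.Agent.N879.PZ

open Complex Filter Topology MeasureTheory Set
open Pool.Agent.Y969.GP (ff V V1 ht lam PS FR co cr PX mk mB)
open Pool.Agent.Y969.SM (kx ff_cont mB_int mB_cs mB_const mB_mass)
open Pool.Agent.W184.NZ (w1)

noncomputable section

variable {n : ℕ}

/-- the theorem in the mean, with the size of the exceptional set of points -/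
def S_MEAN2 : Prop := ∀ n B : ℕ, ∃ C₀ B₀ : ℕ, 1 ≤ C₀ ∧
  (∀ᶠ T : ℝ in atTop, ∀ U : ℝ, Real.log T ^ C₀ ≤ U → U ≤ T ^ (1 / 4 : ℝ) →
    volume (Icc 0 T \ Gs U (Real.log T ^ B₀)) ≤ ENNReal.ofReal (T / Real.log T ^ B)) ∧
  ∀ ε : ℝ, 0 < ε → ∃ Y₀ : ℕ, ∀ Y : ℕ, Y₀ ≤ Y → ∀ᶠ T : ℝ in atTop,
  ∀ U : ℝ, Real.log T ^ C₀ ≤ U → U ≤ T ^ (1 / 4 : ℝ) →
  ∫ c, ‖((MG T U (Real.log T ^ B₀) c / (T * Real.log T ^ (n + 1)) : ℝ) : ℂ) - BY1 n Y c‖ ∂(mB n 0 U) ≤ ε * U ^ n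

/-- the theorem, with the size of the exceptional set of points -/
def S_MAIN2 : Prop := ∀ n B : ℕ, ∃ C₀ B₀ : ℕ, ∀ ε : ℝ, 0 < ε → ∀ᶠ T : ℝ in atTop, ∀ U : ℝ,
  Real.log T ^ C₀ ≤ U → U ≤ T ^ (1 / 4 : ℝ) →
  volume (Icc 0 T \ Gs U (Real.log T ^ B₀)) ≤ ENNReal.ofReal (T / Real.log T ^ B) ∧
  volume {c : Fin n → ℝ | (∀ j, 0 ≤ c j ∧ c j ≤ U) ∧
    ¬ |MG T U (Real.log T ^ B₀) c / (zp1 c * AA1 c * (T * Real.log T ^ (n + 1))) - 1| ≤ ε} ≤
      ENNReal.ofReal (ε * U ^ n)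

lemma BY1_cont (n Y : ℕ) : Continuous (BY1 n Y) := by
  unfold BY1
  refine continuous_finsetSum _ fun q _ => continuous_const.mul (continuous_finsetProd _ fun j _ => ?_)
  fun_prop

/-- the piece of the small `t` -/
def F1 (n : ℕ) (U W a : ℝ) (c : Fin n → ℝ) : ℂ :=
  ∫ t in Gs U W ∩ Icc 0 a, ((ff t : ℝ) : ℂ) * ∏ j, ((ff (t + c j) : ℝ) : ℂ)

/-- the replacement -/
def F2 (n : ℕ) (T U W a : ℝ) (N : ℕ) (c : Fin n → ℝ) : ℂ :=
  ∫ t in Gs U W ∩ Icc a T, ((ff t : ℝ) : ℂ) * (∏ j, ((ff (t + c j) : ℝ) : ℂ) - ∏ j, DN N (t + c j))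

/-- the irregular points -/
def F3 (n : ℕ) (T U W a : ℝ) (N : ℕ) (c : Fin n → ℝ) : ℂ :=
  ∫ t in Icc a T \ Gs U W, ((ff t : ℝ) : ℂ) * ∏ j, DN N (t + c j)

/-- the lower order terms -/
def F4 (n : ℕ) (T a : ℝ) (N : ℕ) (c : Fin n → ℝ) : ℂ :=
  ∫ t in Icc a T, ((ff t : ℝ) : ℂ) * (∏ j, DN N (t + c j) - ∏ j, ((Real.log T : ℂ) * P1 N (t + c j)))

/-- the main term -/
def F5 (n : ℕ) (T a : ℝ) (N : ℕ) (c : Fin n → ℝ) : ℂ :=
  ∫ t in Icc a T, ((ff t : ℝ) : ℂ) * ∏ j, P1 N (t + c j)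

lemma cont1 (hCTG : S_CTG) {U W a : ℝ} (ha : 0 ≤ a) : Continuous (F1 n U W a) :=
  hCTG n 0 a _ _ (fun _ u => ((ff u : ℝ) : ℂ)) ha ((Gs_meas U W).inter measurableSet_Icc) inter_subset_right
    (Wb_ff 0 a) fun _ => ffC_cont

lemma cont2 (hCTG : S_CTG) {T U W a : ℝ} (haT : a ≤ T) (N : ℕ) : Continuous (F2 n T U W a N) := by
  have h1 : F2 n T U W a N = fun c =>
      (∫ t in Gs U W ∩ Icc a T, ((ff t : ℝ) : ℂ) * ∏ j, ((ff (t + c j) : ℝ) : ℂ)) -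
      ∫ t in Gs U W ∩ Icc a T, ((ff t : ℝ) : ℂ) * ∏ j, DN N (t + c j) := by
    funext c
    have i2 := prod_int (n := n) (D := Gs U W ∩ Icc a T) inter_subset_right (fun _ u => ((ff u : ℝ) : ℂ))
      (fun _ => ffC_cont) c
    have i3 := prod_int (n := n) (D := Gs U W ∩ Icc a T) inter_subset_right (fun _ => DN N)
      (fun _ => DN_cont N) c
    unfold F2
    rw [← integral_sub i2 i3]
    simp only [mul_sub]
  rw [h1]
  exact (hCTG n a T _ _ (fun _ u => ((ff u : ℝ) : ℂ)) haT ((Gs_meas U W).inter measurableSet_Icc)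
    inter_subset_right (Wb_ff a T) fun _ => ffC_cont).sub
    (hCTG n a T _ _ (fun _ => DN N) haT ((Gs_meas U W).inter measurableSet_Icc) inter_subset_right (Wb_ff a T)
    fun _ => DN_cont N)

lemma cont3 (hCTG : S_CTG) {T U W a : ℝ} (haT : a ≤ T) (N : ℕ) : Continuous (F3 n T U W a N) :=
  hCTG n a T _ _ (fun _ => DN N) haT (measurableSet_Icc.diff (Gs_meas U W)) sdiff_subset (Wb_ff a T)
    fun _ => DN_cont N

lemma cont4 (hCTG : S_CTG) {T a : ℝ} (haT : a ≤ T) (N : ℕ) : Continuous (F4 n T a N) := by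
  have h1 : F4 n T a N = fun c =>
      (∫ t in Icc a T, ((ff t : ℝ) : ℂ) * ∏ j, DN N (t + c j)) -
      ∫ t in Icc a T, ((ff t : ℝ) : ℂ) * ∏ j, ((Real.log T : ℂ) * P1 N (t + c j)) := by
    funext c
    have i4 := prod_int (n := n) (D := Icc a T) (Subset.refl _) (fun _ => DN N) (fun _ => DN_cont N) c
    have i5 := prod_int (n := n) (D := Icc a T) (Subset.refl _) (fun _ u => (Real.log T : ℂ) * P1 N u)
      (fun _ => continuous_const.mul (P1_cont N)) c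
    unfold F4
    rw [← integral_sub i4 i5]
    simp only [mul_sub]
  rw [h1]
  exact (hCTG n a T _ _ (fun _ => DN N) haT measurableSet_Icc (Subset.refl _) (Wb_ff a T)
    fun _ => DN_cont N).sub
    (hCTG n a T _ _ (fun _ u => (Real.log T : ℂ) * P1 N u) haT measurableSet_Icc (Subset.refl _) (Wb_ff a T)
    fun _ => continuous_const.mul (P1_cont N))

lemma cont5 (hCTG : S_CTG) {T a : ℝ} (haT : a ≤ T) (N : ℕ) : Continuous (F5 n T a N) :=
  hCTG n a T _ _ (fun _ => P1 N) haT measurableSet_Icc (Subset.refl _) (Wb_ff a T) fun _ => P1_cont N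

/-- the five pieces together -/
lemma pieces (hCTG : S_CTG) {T U W a b : ℝ} {N Y : ℕ} (ha : 0 ≤ a) (haT : a ≤ T) (hT : 0 < T)
    (hL : 0 < Real.log T) (hU : 0 ≤ U)
    (h1 : ∫ c, ‖F1 n U W a c‖ ∂(mB n 0 U) ≤ b * (T * Real.log T ^ (n + 1)) * U ^ n)
    (h2 : ∫ c, ‖F2 n T U W a N c‖ ∂(mB n 0 U) ≤ b * (T * Real.log T ^ (n + 1)) * U ^ n)
    (h3 : ∫ c, ‖F3 n T U W a N c‖ ∂(mB n 0 U) ≤ b * (T * Real.log T ^ (n + 1)) * U ^ n)
    (h4 : ∫ c, ‖F4 n T a N c‖ ∂(mB n 0 U) ≤ b * (T * Real.log T ^ (n + 1)) * U ^ n)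
    (h5 : ∫ c, ‖F5 n T a N c - ((T * Real.log T : ℝ) : ℂ) * BY1 n Y c‖ ∂(mB n 0 U) ≤
      b * (T * Real.log T) * U ^ n) :
    ∫ c, ‖((MG T U W c / (T * Real.log T ^ (n + 1)) : ℝ) : ℂ) - BY1 n Y c‖ ∂(mB n 0 U) ≤ 5 * b * U ^ n := by
  set D : ℝ := T * Real.log T ^ (n + 1) with hD
  have hD0 : 0 < D := by positivity
  have c1 := cont1 (n := n) hCTG (U := U) (W := W) ha
  have c2 := cont2 (n := n) hCTG (U := U) (W := W) haT N
  have c3 := cont3 (n := n) hCTG (U := U) (W := W) haT N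
  have c4 := cont4 (n := n) hCTG haT N
  have c5 : Continuous fun c => F5 n T a N c - ((T * Real.log T : ℝ) : ℂ) * BY1 n Y c :=
    (cont5 (n := n) hCTG haT N).sub (continuous_const.mul (BY1_cont n Y))
  have i1 := mB_int c1.norm 0 U
  have i2 := mB_int c2.norm 0 U
  have i3 := mB_int c3.norm 0 U
  have i4 := mB_int c4.norm 0 U
  have i5 := mB_int c5.norm 0 U
  have key : ∀ c : Fin n → ℝ, ((MG T U W c / D : ℝ) : ℂ) - BY1 n Y c =
      ((D⁻¹ : ℝ) : ℂ) * (F1 n U W a c + F2 n T U W a N c - F3 n T U W a N c + F4 n T a N c +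
        (Real.log T : ℂ) ^ n * (F5 n T a N c - ((T * Real.log T : ℝ) : ℂ) * BY1 n Y c)) := by
    intro c
    have e := MG_split (n := n) (U := U) (W := W) ha haT N c
    have hDc : ((D : ℝ) : ℂ) ≠ 0 := by exact_mod_cast hD0.ne'
    have e2 : ((D : ℝ) : ℂ) = (T : ℂ) * (Real.log T : ℂ) ^ (n + 1) := by rw [hD]; push_cast; ring
    have e3 : ((MG T U W c : ℝ) : ℂ) = F1 n U W a c + F2 n T U W a N c - F3 n T U W a N c + F4 n T a N c +
        (Real.log T : ℂ) ^ n * F5 n T a N c := by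
      rw [e]; rfl
    have e4 : F1 n U W a c + F2 n T U W a N c - F3 n T U W a N c + F4 n T a N c +
        (Real.log T : ℂ) ^ n * (F5 n T a N c - ((T * Real.log T : ℝ) : ℂ) * BY1 n Y c) =
        ((MG T U W c : ℝ) : ℂ) - (D : ℂ) * BY1 n Y c := by
      rw [e3, e2]
      push_cast
      ring
    rw [e4, ofReal_div, ofReal_inv, mul_sub, ← mul_assoc, inv_mul_cancel₀ hDc, one_mul, div_eq_inv_mul]
  have bd : ∀ c : Fin n → ℝ, ‖((MG T U W c / D : ℝ) : ℂ) - BY1 n Y c‖ ≤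
      D⁻¹ * (‖F1 n U W a c‖ + ‖F2 n T U W a N c‖ + ‖F3 n T U W a N c‖ + ‖F4 n T a N c‖ +
        Real.log T ^ n * ‖F5 n T a N c - ((T * Real.log T : ℝ) : ℂ) * BY1 n Y c‖) := by
    intro c
    rw [key c, norm_mul, Complex.norm_real, Real.norm_of_nonneg (by positivity)]
    refine mul_le_mul_of_nonneg_left ?_ (by positivity)
    refine (norm_add_le _ _).trans (add_le_add ((norm_add_le _ _).trans (add_le_add_left
      ((norm_sub_le _ _).trans (add_le_add_left (norm_add_le _ _) _)) _)) ?_)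
    rw [norm_mul, norm_pow, Complex.norm_real, Real.norm_of_nonneg hL.le]
  have hfin : ∫ c, ‖((MG T U W c / D : ℝ) : ℂ) - BY1 n Y c‖ ∂(mB n 0 U) ≤
      ∫ c, D⁻¹ * (‖F1 n U W a c‖ + ‖F2 n T U W a N c‖ + ‖F3 n T U W a N c‖ + ‖F4 n T a N c‖ +
        Real.log T ^ n * ‖F5 n T a N c - ((T * Real.log T : ℝ) : ℂ) * BY1 n Y c‖) ∂(mB n 0 U) := by
    refine integral_mono_of_nonneg (Eventually.of_forall fun c => norm_nonneg _) ?_ (Eventually.of_forall bd)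
    exact ((((i1.add i2).add i3).add i4).add (i5.const_mul _)).const_mul _
  refine hfin.trans ?_
  have j2 : Integrable (fun c => ‖F1 n U W a c‖ + ‖F2 n T U W a N c‖) (mB n 0 U) := i1.add i2
  have j3 : Integrable (fun c => ‖F1 n U W a c‖ + ‖F2 n T U W a N c‖ + ‖F3 n T U W a N c‖) (mB n 0 U) := j2.add i3
  have j4 : Integrable (fun c => ‖F1 n U W a c‖ + ‖F2 n T U W a N c‖ + ‖F3 n T U W a N c‖ + ‖F4 n T a N c‖)
    (mB n 0 U) := j3.add i4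
  rw [integral_const_mul, integral_add j4 (i5.const_mul _),
    integral_add j3 i4, integral_add j2 i3, integral_add i1 i2, integral_const_mul]
  have h5' : Real.log T ^ n * ∫ c, ‖F5 n T a N c - ((T * Real.log T : ℝ) : ℂ) * BY1 n Y c‖ ∂(mB n 0 U) ≤
      b * D * U ^ n := by
    calc _ ≤ Real.log T ^ n * (b * (T * Real.log T) * U ^ n) := mul_le_mul_of_nonneg_left h5 (by positivity)
      _ = b * D * U ^ n := by rw [hD]; ring
  rw [inv_mul_le_iff₀ hD0]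
  nlinarith

end

end Pool.Agent.N879.PZ
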