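import Pool.Agent.N879.PZ.Asm2

set_option autoImplicit false

/-! Project PZ: assembly, third part (the theorem in the mean). -/

namespace Pool.Agent.N879.PZ

open Complex Filter Topology MeasureTheory Set
open Pool.Agent.Y969.GP (ff V V1 ht lam PS FR co cr PX mk mB)
open Pool.Agent.Y969.SM (kx ff_cont mB_int mB_cs mB_const mB_mass)
open Pool.Agent.W184.NZ (w1)

noncomputable section

variable {n : ℕ}

lemma bd1 {C3 b T U L : ℝ} {A3 B0 : ℕ} (hC : 0 < C3) (hT : 0 < T) (hU : 0 < U) (hL : 1 ≤ L) (hb : C3 ≤ b * L) :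
    C3 * (T / L ^ (A3 + n * B0 + 1)) * L ^ A3 * (U * √(L ^ B0)) ^ n ≤ b * (T * L ^ (n + 1)) * U ^ n := by
  have hL0 : 0 < L := by linarith
  have h1 : √(L ^ B0) ≤ L ^ B0 := by
    have : (1 : ℝ) ≤ L ^ B0 := one_le_pow₀ hL
    rw [Real.sqrt_le_left (by positivity)]
    nlinarith
  calc C3 * (T / L ^ (A3 + n * B0 + 1)) * L ^ A3 * (U * √(L ^ B0)) ^ n
      ≤ C3 * (T / L ^ (A3 + n * B0 + 1)) * L ^ A3 * (U * L ^ B0) ^ n := by gcongr
    _ = C3 * T * U ^ n * L⁻¹ := by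
        rw [mul_pow, ← pow_mul, mul_comm B0 n, pow_succ L (A3 + n * B0), pow_add]
        field_simp
    _ ≤ b * L * T * U ^ n * L⁻¹ := by gcongr
    _ = b * (T * 1) * U ^ n := by field_simp
    _ ≤ b * (T * L ^ (n + 1)) * U ^ n := by
        have hb0 : 0 < b := by
          by_contra h
          push Not at h
          nlinarith
        have : (1 : ℝ) ≤ L ^ (n + 1) := one_le_pow₀ hL
        gcongr

lemma bd3 {C4 b T U L : ℝ} {A4 B0 : ℕ} (hC : 0 < C4) (hT : 0 < T) (hU : 0 < U) (hL : 1 ≤ L) (hb : C4 ≤ b * L)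
    (hB : 2 * (A4 + 1) ≤ B0) :
    C4 * L ^ A4 * T * (√(L ^ B0))⁻¹ * U ^ n ≤ b * (T * L ^ (n + 1)) * U ^ n := by
  have hL0 : 0 < L := by linarith
  have h1 : L ^ (A4 + 1) ≤ √(L ^ B0) := by
    apply Real.le_sqrt_of_sq_le
    rw [← pow_mul, mul_comm]
    exact pow_le_pow_right₀ hL hB
  have h2 : (√(L ^ B0))⁻¹ ≤ (L ^ (A4 + 1))⁻¹ := by
    rw [inv_le_inv₀ (lt_of_lt_of_le (by positivity) h1) (by positivity)]
    exact h1
  calc C4 * L ^ A4 * T * (√(L ^ B0))⁻¹ * U ^ n ≤ C4 * L ^ A4 * T * (L ^ (A4 + 1))⁻¹ * U ^ n := by gcongr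
    _ = C4 * T * U ^ n * L⁻¹ := by
        rw [pow_succ]
        field_simp
    _ ≤ b * L * T * U ^ n * L⁻¹ := by gcongr
    _ = b * (T * 1) * U ^ n := by field_simp
    _ ≤ b * (T * L ^ (n + 1)) * U ^ n := by
        have hb0 : 0 < b := by
          by_contra h
          push Not at h
          nlinarith
        have : (1 : ℝ) ≤ L ^ (n + 1) := one_le_pow₀ hL
        gcongr

lemma bd2 {C1 C7 b T U L N : ℝ} {A1 A7 B0 c1 : ℕ} (hC1 : 0 < C1) (hC7 : 0 < C7) (hT : 0 < T) (hU : 0 < U)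
    (hL : 1 ≤ L) (hb : 4 ^ (n + 1) * C1 * C7 ≤ b ^ 2 * L) (hn : 1 ≤ n) (hc : c1 = A1 + A7 + (B0 + 4) * n + 2)
    (hN : L ^ c1 / 2 ≤ N) (hNU : N ≤ U) :
    4 ^ n * (C1 * L ^ A1 * (T * (U / N + 1))) * (U * L ^ (B0 + 4)) ^ (n - 1) * (C7 * T * L ^ A7) ≤
      (b * (T * L ^ (n + 1))) ^ 2 * U ^ n := by
  have hL0 : 0 < L := by linarith
  have hN0 : 0 < N := lt_of_lt_of_le (by positivity) hN
  obtain ⟨m, rfl⟩ : ∃ m, n = m + 1 := ⟨n - 1, by omega⟩
  rw [Nat.add_sub_cancel]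
  have h1 : U / N + 1 ≤ 4 * U / L ^ c1 := by
    have h2 : 1 ≤ U / N := by rw [le_div_iff₀ hN0]; linarith
    have h3 : U / N ≤ 2 * U / L ^ c1 := by
      rw [div_le_div_iff₀ hN0 (by positivity)]
      nlinarith
    calc U / N + 1 ≤ 2 * (U / N) := by linarith
      _ ≤ 2 * (2 * U / L ^ c1) := by gcongr
      _ = 4 * U / L ^ c1 := by ring
  have h4 : L ^ (A1 + A7 + (B0 + 4) * m) ≤ L ^ c1 := pow_le_pow_right₀ hL (by rw [hc]; nlinarith)
  calc 4 ^ (m + 1) * (C1 * L ^ A1 * (T * (U / N + 1))) * (U * L ^ (B0 + 4)) ^ m * (C7 * T * L ^ A7)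
      ≤ 4 ^ (m + 1) * (C1 * L ^ A1 * (T * (4 * U / L ^ c1))) * (U * L ^ (B0 + 4)) ^ m * (C7 * T * L ^ A7) := by
        gcongr
    _ = (4 ^ (m + 1 + 1) * C1 * C7) * T ^ 2 * U ^ (m + 1) * (L ^ (A1 + A7 + (B0 + 4) * m) / L ^ c1) := by
        rw [mul_pow, ← pow_mul, pow_add L (A1 + A7), pow_add L A1 A7, pow_succ (4 : ℝ) (m + 1)]
        ring
    _ ≤ (b ^ 2 * L) * T ^ 2 * U ^ (m + 1) * 1 := by
        have : L ^ (A1 + A7 + (B0 + 4) * m) / L ^ c1 ≤ 1 := by
          rw [div_le_one (by positivity)]; exact h4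
        gcongr
    _ ≤ (b * (T * L ^ (m + 1 + 1))) ^ 2 * U ^ (m + 1) := by
        have h5 : L ≤ (L ^ (m + 1 + 1)) ^ 2 := by
          rw [← pow_mul]
          exact le_self_pow₀ hL (by omega)
        calc (b ^ 2 * L) * T ^ 2 * U ^ (m + 1) * 1 = b ^ 2 * T ^ 2 * U ^ (m + 1) * L := by ring
          _ ≤ b ^ 2 * T ^ 2 * U ^ (m + 1) * (L ^ (m + 1 + 1)) ^ 2 := by gcongr
          _ = _ := by ring

/-- logarithms of the parameters -/
lemma log_par {C1 B2 : ℕ} {L : ℝ} (hL : 1 ≤ L) {N : ℕ} (hN1 : 1 ≤ N) (hN : (N : ℝ) ≤ L ^ C1) :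
    1 + Real.log N ≤ (1 + C1) * (1 + Real.log L) ∧ 0 ≤ Real.log N ∧
    1 + Real.log (L ^ B2) ≤ (1 + B2) * (1 + Real.log L) := by
  have hlL : 0 ≤ Real.log L := Real.log_nonneg hL
  have hN1' : (1 : ℝ) ≤ N := by exact_mod_cast hN1
  have h1 : Real.log N ≤ C1 * Real.log L := by
    rw [← Real.log_pow]
    exact Real.log_le_log (by linarith) hN
  have h2 : (0 : ℝ) ≤ C1 := Nat.cast_nonneg _
  have h3 : (0 : ℝ) ≤ B2 := Nat.cast_nonneg _
  refine ⟨by nlinarith, Real.log_nonneg hN1', ?_⟩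
  rw [Real.log_pow]
  nlinarith

theorem t_MEAN2 (hKER : S_KER) (hTELC : S_TELC) (hCTG : S_CTG) (hM4L : S_M4L) (hWIN : S_WIN) (hGCM : S_GCM)
    (hSML : S_SML) (hGCD : S_GCD) (hLED : S_LED) (hMSQ : S_MSQ) : S_MEAN2 := by
  intro n B
  obtain ⟨C1, A1, hC1, hKER⟩ := hKER
  obtain ⟨C7, A7, hC7, hM4L⟩ := hM4L
  obtain ⟨Cw, hCw, hWIN⟩ := hWIN
  obtain ⟨C2, A2, hC2, hGCM⟩ := hGCM
  obtain ⟨C3, A3, hC3, hSML⟩ := hSML n
  obtain ⟨C4, A4, hC4, hGCD⟩ := hGCD n
  obtain ⟨C5, hC5, hLED⟩ := hLED n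
  set B0 : ℕ := 2 * A4 + A2 + B + 4 with hB0
  set B2 : ℕ := A3 + n * B0 + 1 with hB2
  set c1 : ℕ := A1 + A7 + (B0 + 4) * n + 2 with hc1
  set C0 : ℕ := (2 * n + 1) * c1 + 1 with hC0
  have hc1' : 1 ≤ c1 := by omega
  refine ⟨C0, B0, by omega, ?_, ?_⟩
  · filter_upwards [eventually_ge_atTop 3, Real.tendsto_log_atTop.eventually_ge_atTop (max 1 C2)] with T hT hL
    intro U hU hU2
    have hL1 : 1 ≤ Real.log T := (le_max_left _ _).trans hL
    have hL2 : C2 ≤ Real.log T := (le_max_right _ _).trans hL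
    set L := Real.log T with hLdef
    have hL0 : 0 < L := by linarith
    have hU1 : 1 ≤ U := (one_le_pow₀ hL1).trans hU
    have hUT : U ≤ T := by
      refine hU2.trans ?_
      calc T ^ (1 / 4 : ℝ) ≤ T ^ (1 : ℝ) := Real.rpow_le_rpow_of_exponent_le (by linarith) (by norm_num)
        _ = T := Real.rpow_one T
    refine (hGCM T U (L ^ B0) hT hU1 hUT (one_le_pow₀ hL1)).trans (ENNReal.ofReal_le_ofReal ?_)
    rw [← hLdef, div_le_div_iff₀ (by positivity) (by positivity)]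
    calc C2 * T * L ^ A2 * L ^ B ≤ L * T * L ^ A2 * L ^ B := by gcongr
      _ = T * L ^ (A2 + B + 1) := by ring
      _ ≤ T * L ^ B0 := by
          have : L ^ (A2 + B + 1) ≤ L ^ B0 := pow_le_pow_right₀ hL1 (by omega)
          gcongr
  · intro ε hε
    set b : ℝ := ε / 5 with hb
    have hb0 : 0 < b := by positivity
    obtain ⟨Y₀, hMSQ⟩ := hMSQ n c1 B2 (b ^ 2) hc1' (by omega) (by positivity)
    refine ⟨Y₀, fun Y hY => ?_⟩
    have ev1 := ev_log _ (log_pow_small (2 * n + 1)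
      (show 0 < b / (C5 * (1 + c1) ^ (2 * n) * (1 + B2)) by positivity))
    have ev2 := ev_log _ (log_pow_small 4 (show (0 : ℝ) < 1 / (1 + c1) ^ 4 by positivity))
    filter_upwards [hMSQ Y hY, par_ev n c1 B2 C0 hc1' (by omega), ev1, ev2, eventually_ge_atTop 3,
      Real.tendsto_log_atTop.eventually_ge_atTop (max (max 1 Cw) (max (C3 / b) (max (C4 / b)
        (4 ^ (n + 1) * C1 * C7 / b ^ 2))))] with T hMSQ hpar ev1 ev2 hT3 hL
    intro U hU hU2
    obtain ⟨hNU, hPar, hNhalf⟩ := hpar U hU hU2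
    have hL1 : 1 ≤ Real.log T := ((le_max_left _ _).trans (le_max_left _ _)).trans hL
    have hLw : Cw ≤ Real.log T := ((le_max_right _ _).trans (le_max_left _ _)).trans hL
    have hL3 : C3 / b ≤ Real.log T := ((le_max_left _ _).trans (le_max_right _ _)).trans hL
    have hL4 : C4 / b ≤ Real.log T :=
      ((le_max_left _ _).trans ((le_max_right _ _).trans (le_max_right _ _))).trans hL
    have hL5 : 4 ^ (n + 1) * C1 * C7 / b ^ 2 ≤ Real.log T :=
      ((le_max_right _ _).trans ((le_max_right _ _).trans (le_max_right _ _))).trans hL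
    rw [div_le_iff₀' (by positivity)] at hL3 hL4 hL5
    have hMSQ := hMSQ U (T / Real.log T ^ B2) ⌊Real.log T ^ c1⌋₊ rfl rfl hNU hPar
    set L := Real.log T with hLdef
    have hL0 : 0 < L := by linarith
    set N : ℕ := ⌊L ^ c1⌋₊ with hN
    set a : ℝ := T / L ^ B2 with ha
    have hT0 : 0 < T := by linarith
    obtain ⟨_, hU1, _, haL, haT, hN1, _, hNU'⟩ := hPar
    have hPar : Par T U a N := ⟨by assumption, hU1, by assumption, haL, haT, hN1, by assumption, hNU'⟩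
    have ha0 : 0 ≤ a := by positivity
    have hU0 : 0 < U := by linarith
    have hW1 : (1 : ℝ) ≤ L ^ B0 := one_le_pow₀ hL1
    have hNle : (N : ℝ) ≤ L ^ c1 := Nat.floor_le (by positivity)
    obtain ⟨lg1, lg0, lg2⟩ := log_par (C1 := c1) (B2 := B2) hL1 hN1 hNle
    have hlL : 0 ≤ Real.log L := Real.log_nonneg hL1
    have hTa : T / a = L ^ B2 := by
      rw [ha]; field_simp
    -- the windows
    have win : ∀ t : ℝ, a ≤ t → t ≤ T → ∫ c in (0 : ℝ)..U, ‖DN N (t + c)‖ ^ 2 ≤ U * L ^ (B0 + 4) := by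
      intro t h1 h2
      refine (hWIN T U a N hPar t h1 h2).2.1.trans ?_
      rw [← hLdef]
      have h3 : (1 + Real.log N) ^ 4 ≤ L := by
        calc (1 + Real.log N) ^ 4 ≤ ((1 + c1) * (1 + Real.log L)) ^ 4 := pow_le_pow_left₀ (by linarith) lg1 4
          _ = (1 + c1) ^ 4 * (1 + Real.log L) ^ 4 := by rw [mul_pow]
          _ ≤ (1 + c1) ^ 4 * (1 / (1 + c1) ^ 4 * L) := mul_le_mul_of_nonneg_left ev2 (by positivity)
          _ = L := by field_simp
      calc Cw * U * (1 + Real.log N) ^ 4 * L ^ 2 ≤ L * U * L * L ^ 2 := by gcongr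
        _ = U * L ^ 4 := by ring
        _ ≤ U * L ^ (B0 + 4) := by
            have : L ^ 4 ≤ L ^ (B0 + 4) := pow_le_pow_right₀ hL1 (by omega)
            gcongr
    have winf : ∀ t ∈ Gs U (L ^ B0), ∫ c in (0 : ℝ)..U, ‖((ff (t + c) : ℝ) : ℂ)‖ ^ 2 ≤ U * L ^ (B0 + 4) := by
      intro t ht
      have h1 : ∫ c in (0 : ℝ)..U, ‖((ff (t + c) : ℝ) : ℂ)‖ ^ 2 = ∫ u in t..(t + U), ff u ^ 2 := by
        have h2 : ∀ c : ℝ, ‖((ff (t + c) : ℝ) : ℂ)‖ ^ 2 = (fun u => ff u ^ 2) (t + c) := by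
          intro c
          rw [Complex.norm_real, Real.norm_eq_abs, sq_abs]
        simp only [h2]
        rw [intervalIntegral.integral_comp_add_left (fun u => ff u ^ 2) t, add_zero]
      rw [h1]
      have h3 : ∫ u in t..(t + U), ff u ^ 2 ≤ U * L ^ B0 := ht
      refine h3.trans ?_
      have : L ^ B0 ≤ L ^ (B0 + 4) := pow_le_pow_right₀ hL1 (by omega)
      gcongr
    -- the pieces
    have p1 : ∫ c, ‖F1 n U (L ^ B0) a c‖ ∂(mB n 0 U) ≤ b * (T * L ^ (n + 1)) * U ^ n :=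
      (hSML T U a (L ^ B0) N hPar hW1).trans (bd1 hC3 hT0 hU0 hL1 hL3)
    have p3 : ∫ c, ‖F3 n T U (L ^ B0) a N c‖ ∂(mB n 0 U) ≤ b * (T * L ^ (n + 1)) * U ^ n :=
      (hGCD T U a (L ^ B0) N hPar hW1).trans (bd3 hC4 hT0 hU0 hL1 hL4 (by omega))
    have p4 : ∫ c, ‖F4 n T a N c‖ ∂(mB n 0 U) ≤ b * (T * L ^ (n + 1)) * U ^ n := by
      refine (hLED T U a N hPar).trans ?_
      rw [hTa, ← hLdef]
      have h3 : C5 * (1 + Real.log N) ^ (2 * n) * (1 + Real.log (L ^ B2)) ≤ b * L := by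
        calc C5 * (1 + Real.log N) ^ (2 * n) * (1 + Real.log (L ^ B2))
            ≤ C5 * ((1 + c1) * (1 + Real.log L)) ^ (2 * n) * ((1 + B2) * (1 + Real.log L)) := by
              have h4 : (0 : ℝ) ≤ 1 + Real.log N := by linarith
              have h5 : (0 : ℝ) ≤ 1 + Real.log (L ^ B2) := by
                rw [Real.log_pow]; positivity
              gcongr
          _ = C5 * (1 + c1) ^ (2 * n) * (1 + B2) * (1 + Real.log L) ^ (2 * n + 1) := by
              rw [mul_pow, pow_succ]; ring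
          _ ≤ C5 * (1 + c1) ^ (2 * n) * (1 + B2) * (b / (C5 * (1 + c1) ^ (2 * n) * (1 + B2)) * L) :=
              mul_le_mul_of_nonneg_left ev1 (by positivity)
          _ = b * L := by field_simp
      calc C5 * (1 + Real.log N) ^ (2 * n) * (1 + Real.log (L ^ B2)) * L ^ n * T * U ^ n
          ≤ b * L * L ^ n * T * U ^ n := by gcongr
        _ = b * (T * L ^ (n + 1)) * U ^ n := by ring
    have p5 : ∫ c, ‖F5 n T a N c - ((T * L : ℝ) : ℂ) * BY1 n Y c‖ ∂(mB n 0 U) ≤ b * (T * L) * U ^ n := by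
      refine mB_cs hU0.le ((cont5 hCTG haT N).sub (continuous_const.mul (BY1_cont n Y))) (by positivity) ?_
      refine hMSQ.trans (le_of_eq ?_)
      ring
    have p2 : ∫ c, ‖F2 n T U (L ^ B0) a N c‖ ∂(mB n 0 U) ≤ b * (T * L ^ (n + 1)) * U ^ n := by
      rcases Nat.eq_zero_or_pos n with hn | hn
      · subst hn
        have h0 : ∀ c : Fin 0 → ℝ, F2 0 T U (L ^ B0) a N c = 0 := by
          intro c
          unfold F2
          simp
        simp only [h0, norm_zero, integral_zero]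
        positivity
      · refine mB_cs hU0.le (cont2 hCTG haT N) (by positivity) ?_
        have hmon : ∫ t in Gs U (L ^ B0) ∩ Icc a T, ‖((ff t : ℝ) : ℂ)‖ ^ 2 ≤ C7 * T * L ^ A7 := by
          have hc : Continuous fun t : ℝ => ‖((ff t : ℝ) : ℂ)‖ ^ 2 := ffC_cont.norm.pow 2
          calc ∫ t in Gs U (L ^ B0) ∩ Icc a T, ‖((ff t : ℝ) : ℂ)‖ ^ 2
              ≤ ∫ t in Icc 0 T, ‖((ff t : ℝ) : ℂ)‖ ^ 2 := by
                refine setIntegral_mono_set (hc.continuousOn.integrableOn_compact isCompact_Icc)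
                  (Eventually.of_forall fun t => by positivity) ?_
                exact (HasSubset.Subset.eventuallyLE fun t ht => ⟨ha0.trans ht.2.1, ht.2.2⟩)
            _ = ∫ t in (0 : ℝ)..T, ff t ^ 2 := by
                rw [intervalIntegral.integral_of_le hT0.le, integral_Icc_eq_integral_Ioc]
                refine integral_congr_ae (Eventually.of_forall fun t => ?_)
                simp only [Complex.norm_real, Real.norm_eq_abs, sq_abs]
            _ ≤ C7 * T * L ^ A7 := hM4L T hT3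
        have hK : ∀ F : ℝ → ℂ, Wb a T F → ∫ c in (0 : ℝ)..U,
            ‖∫ t in a..T, F t * (((ff (t + c) : ℝ) : ℂ) - DN N (t + c))‖ ^ 2 ≤
            (C1 * L ^ A1 * (T * (U / N + 1))) * ∫ t in a..T, ‖F t‖ ^ 2 := fun F hF => hKER T U a N F hPar hF
        have hT' := hTELC n a T U (C1 * L ^ A1 * (T * (U / N + 1))) (U * L ^ (B0 + 4)) (Gs U (L ^ B0))
          (fun t => ((ff t : ℝ) : ℂ)) (fun u => ((ff u : ℝ) : ℂ)) (DN N) haT hU0 (by positivity) (by positivity)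
          (Gs_meas _ _) (Wb_ff a T) ffC_cont (DN_cont N) hK (fun t ht _ => winf t ht)
          (fun t _ ht => win t ht.1 ht.2)
        refine hT'.trans ?_
        calc 4 ^ n * (C1 * L ^ A1 * (T * (U / N + 1))) * (U * L ^ (B0 + 4)) ^ (n - 1) *
              ∫ t in Gs U (L ^ B0) ∩ Icc a T, ‖((ff t : ℝ) : ℂ)‖ ^ 2
            ≤ 4 ^ n * (C1 * L ^ A1 * (T * (U / N + 1))) * (U * L ^ (B0 + 4)) ^ (n - 1) *
              (C7 * T * L ^ A7) := by gcongr
          _ ≤ _ := bd2 hC1 hC7 hT0 hU0 hL1 hL5 hn hc1 hNhalf hNU'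
    have := pieces (n := n) hCTG (U := U) (W := L ^ B0) (b := b) (N := N) (Y := Y) ha0 haT hT0 hL0 hU0.le p1 p2 p3 p4 p5
    refine this.trans (le_of_eq ?_)
    rw [hb]; ring

end

end Pool.Agent.N879.PZ
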