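import Pool.Agent.N879.PZ.Asm3
import Pool.Agent.Y969.SM.Rel

set_option autoImplicit false

/-! Project PZ: assembly, fourth part (the theorem for almost all shifts). -/

namespace Pool.Agent.N879.PZ

open Complex Filter Topology MeasureTheory Set
open Pool.Agent.Y969.GP (ff V V1 ht lam PS FR co cr PX mk mB)
open Pool.Agent.Y969.SM (kx ff_cont mB_int mB_cs mB_const mB_mass mB_markov mB_eq loc_ne)
open Pool.Agent.W184.NZ (w1)

noncomputable section

variable {n : ℕ}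

lemma loc1_cont {p : ℕ} (hp : 2 ≤ p) : Continuous fun c : Fin n → ℝ => loc1 c p := by
  unfold loc1
  refine continuous_const.mul ?_
  refine intervalIntegral.continuous_parametric_intervalIntegral_of_continuous' ?_ _ _
  have hp0 : (p : ℂ) ≠ 0 := by exact_mod_cast (by omega : p ≠ 0)
  have hne : ∀ (θ : ℝ) (s : ℂ), s.re = -(1 / 2) → ‖1 - cexp (2 * Real.pi * I * θ) * (p : ℂ) ^ s‖ ≠ 0 :=
    fun θ s hs => norm_ne_zero_iff.mpr (loc_ne hp θ s hs)
  refine continuous_const.div ?_ ?_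
  · refine Continuous.mul ?_ ?_
    · refine (Continuous.norm ?_).pow 2
      fun_prop
    · refine continuous_finsetProd _ fun j _ => (Continuous.norm ?_).pow 2
      refine continuous_const.sub (Continuous.mul (by fun_prop) ?_)
      refine Continuous.const_cpow (by fun_prop) (Or.inl hp0)
  · rintro ⟨c, θ⟩
    refine mul_ne_zero (pow_ne_zero _ (hne θ _ ?_)) (Finset.prod_ne_zero_iff.mpr fun j _ => pow_ne_zero _ (hne θ _ ?_))
    · norm_num
    · simp

lemma SS1_cont (y : ℝ) : Continuous fun c : Fin n → ℝ => SS1 y c := by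
  unfold SS1
  refine continuous_finsetProd _ fun p hp => loc1_cont ?_
  rw [Finset.mem_filter] at hp
  exact hp.2.two_le

lemma MG_cont (hCTG : S_CTG) {T U W : ℝ} (hT : 0 ≤ T) : Continuous fun c : Fin n → ℝ => MG T U W c := by
  have h1 : Continuous fun c : Fin n → ℝ =>
      ∫ t in Gs U W ∩ Icc 0 T, ((ff t : ℝ) : ℂ) * ∏ j, ((ff (t + c j) : ℝ) : ℂ) :=
    hCTG n 0 T _ _ (fun _ u => ((ff u : ℝ) : ℂ)) hT ((Gs_meas U W).inter measurableSet_Icc) inter_subset_right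
      (Wb_ff 0 T) fun _ => ffC_cont
  have h2 : (fun c : Fin n → ℝ => MG T U W c) = fun c => (∫ t in Gs U W ∩ Icc 0 T,
      ((ff t : ℝ) : ℂ) * ∏ j, ((ff (t + c j) : ℝ) : ℂ)).re := by
    funext c
    have e0 : ((MG T U W c : ℝ) : ℂ) =
        ∫ t in Gs U W ∩ Icc 0 T, ((ff t : ℝ) : ℂ) * ∏ j, ((ff (t + c j) : ℝ) : ℂ) := by
      unfold MG
      refine (integral_complex_ofReal (μ := volume.restrict (Gs U W ∩ Icc 0 T))
        (f := fun t => ff t * ∏ j, ff (t + c j))).symm.trans ?_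
      refine integral_congr_ae (Eventually.of_forall fun t => ?_)
      simp only [ofReal_mul, ofReal_prod]
    rw [← e0, ofReal_re]
  rw [h2]
  exact continuous_re.comp h1

theorem t_MAIN2 (hCTG : S_CTG) (h1 : S_MEAN2) (h0 : S_EUL1) (h2 : S_LB1) (h3 : S_ZE1) : S_MAIN2 := by
  intro n B
  obtain ⟨C₀, B₀, hC₀, hV, h1⟩ := h1 n B
  refine ⟨C₀, B₀, fun ε hε => ?_⟩
  obtain ⟨η, hη, h2⟩ := h2 n (ε / 4) (by positivity)
  set δ₂ : ℝ := ε * η / 8 with hδ₂
  set δ₁ : ℝ := min (min (η / 2) (ε * η / 8)) (ε / 4) with hδ₁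
  have hδ₁0 : 0 < δ₁ := lt_min (lt_min (by positivity) (by positivity)) (by positivity)
  have d1 : δ₁ ≤ η / 2 := (min_le_left _ _).trans (min_le_left _ _)
  have d2 : δ₁ ≤ ε * η / 8 := (min_le_left _ _).trans (min_le_right _ _)
  have d3 : δ₁ ≤ ε / 4 := min_le_right _ _
  have hδ₂0 : 0 < δ₂ := by positivity
  obtain ⟨Y₁, h1⟩ := h1 (δ₂ * (ε / 8)) (by positivity)
  obtain ⟨Y₂, h0⟩ := h0 n (δ₂ * (ε / 8)) (by positivity)
  have h1 := h1 (max Y₁ Y₂) (le_max_left _ _)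
  have h0 := h0 (max Y₁ Y₂) (le_max_right _ _)
  obtain ⟨U₀, hU₀⟩ := eventually_atTop.1 (h0.and (h2.and (h3 n δ₁ hδ₁0)))
  filter_upwards [h1, hV, eventually_ge_atTop (1:ℝ), Real.tendsto_log_atTop.eventually_ge_atTop (max 1 U₀)]
    with T h1 hV hT1 hLL
  intro U hU hU2
  refine ⟨hV U hU hU2, ?_⟩
  have hL1 : 1 ≤ Real.log T := (le_max_left _ _).trans hLL
  have hUU : U₀ ≤ U := by
    refine ((le_max_right _ _).trans hLL).trans (le_trans ?_ hU)
    exact le_self_pow₀ hL1 (by omega)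
  obtain ⟨h0, h2, h3⟩ := hU₀ U hUU
  have h1 := h1 U hU hU2
  have hT0 : 0 < T := by linarith
  have hU1 : 1 ≤ U := (one_le_pow₀ hL1).trans hU
  have hU0 : 0 < U := by linarith
  set D := Real.log T ^ (n + 1) with hD
  have hDp : 0 < D := by positivity
  have hTD : 0 < T * D := by positivity
  have hUn : 0 < U ^ n := by positivity
  set W := Real.log T ^ B₀ with hW
  have hMc : Continuous fun c : Fin n → ℝ => MG T U W c := MG_cont hCTG hT0.le
  have hSS := SS1_cont (n := n) (Real.log U)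
  have hWc : Continuous fun c : Fin n → ℝ => |MG T U W c / (T * D) - SS1 (Real.log U) c| := by fun_prop
  have hmean : ∫ c : Fin n → ℝ, |MG T U W c / (T * D) - SS1 (Real.log U) c| ∂(mB n 0 U) ≤
      δ₂ * (ε / 4) * U ^ n := by
    have c1 : Continuous fun c : Fin n → ℝ => ‖((MG T U W c / (T * D) : ℝ) : ℂ) - BY1 n (max Y₁ Y₂) c‖ :=
      ((Complex.continuous_ofReal.comp (hMc.div_const _)).sub (BY1_cont n _)).norm
    have c2 : Continuous fun c : Fin n → ℝ => ‖BY1 n (max Y₁ Y₂) c - ((SS1 (Real.log U) c : ℝ) : ℂ)‖ :=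
      ((BY1_cont n _).sub (Complex.continuous_ofReal.comp hSS)).norm
    calc ∫ c : Fin n → ℝ, |MG T U W c / (T * D) - SS1 (Real.log U) c| ∂(mB n 0 U)
        ≤ ∫ c : Fin n → ℝ, (‖((MG T U W c / (T * D) : ℝ) : ℂ) - BY1 n (max Y₁ Y₂) c‖ +
          ‖BY1 n (max Y₁ Y₂) c - ((SS1 (Real.log U) c : ℝ) : ℂ)‖) ∂(mB n 0 U) := by
          refine integral_mono (mB_int hWc 0 U) (mB_int (c1.add c2) 0 U) fun c => ?_
          have e : |MG T U W c / (T * D) - SS1 (Real.log U) c| =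
              ‖((MG T U W c / (T * D) : ℝ) : ℂ) - ((SS1 (Real.log U) c : ℝ) : ℂ)‖ := by
            rw [← ofReal_sub, Complex.norm_real, Real.norm_eq_abs]
          rw [e]
          exact norm_sub_le_norm_sub_add_norm_sub _ _ _
      _ = (∫ c : Fin n → ℝ, ‖((MG T U W c / (T * D) : ℝ) : ℂ) - BY1 n (max Y₁ Y₂) c‖ ∂(mB n 0 U)) +
          ∫ c : Fin n → ℝ, ‖BY1 n (max Y₁ Y₂) c - ((SS1 (Real.log U) c : ℝ) : ℂ)‖ ∂(mB n 0 U) :=
          integral_add (mB_int c1 0 U) (mB_int c2 0 U)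
      _ ≤ δ₂ * (ε / 8) * U ^ n + δ₂ * (ε / 8) * U ^ n := add_le_add h1 h0
      _ = δ₂ * (ε / 4) * U ^ n := by ring
  have hk := mB_markov hWc (fun c => abs_nonneg _) hmean hδ₂0
  have hk' : (mB n 0 U).real {c | δ₂ ≤ |MG T U W c / (T * D) - SS1 (Real.log U) c|} ≤ ε / 4 * U ^ n := by
    refine hk.trans (le_of_eq ?_)
    field_simp
  have hsub : {c : Fin n → ℝ | (∀ j, 0 ≤ c j ∧ c j ≤ U) ∧
      ¬ |MG T U W c / (zp1 c * AA1 c * (T * D)) - 1| ≤ ε} ⊆
      (({c | SS1 (Real.log U) c ≤ η} ∪ {c | δ₁ ≤ |SS1 (Real.log U) c - zp1 c * AA1 c|}) ∪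
        {c | δ₂ ≤ |MG T U W c / (T * D) - SS1 (Real.log U) c|}) ∩ Set.Icc (fun _ => 0) (fun _ => U) := by
    rintro c ⟨hc, hbad⟩
    refine ⟨?_, fun j => (hc j).1, fun j => (hc j).2⟩
    by_contra hcon
    simp only [Set.mem_union, Set.mem_ofPred_eq, not_or, not_le] at hcon
    obtain ⟨⟨q1, q2⟩, q3⟩ := hcon
    apply hbad
    set G := zp1 c * AA1 c with hG
    have hG1 : η / 2 ≤ G := by
      have := (abs_lt.mp q2).2
      linarith
    have hG0 : 0 < G := by linarith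
    have e1 : MG T U W c / (G * (T * D)) - 1 = (MG T U W c / (T * D) - G) / G := by
      field_simp
    have e2 : |MG T U W c / (T * D) - G| ≤ δ₂ + δ₁ := by
      have e3 : MG T U W c / (T * D) - G = (MG T U W c / (T * D) - SS1 (Real.log U) c) +
          (SS1 (Real.log U) c - G) := by ring
      rw [e3]
      exact (abs_add_le _ _).trans (add_le_add q3.le q2.le)
    rw [e1, abs_div, abs_of_pos hG0, div_le_iff₀ hG0]
    calc |MG T U W c / (T * D) - G| ≤ δ₂ + δ₁ := e2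
      _ ≤ ε * (η / 2) := by
          rw [hδ₂]
          nlinarith
      _ ≤ ε * G := by gcongr
  have hreal : (mB n 0 U).real (({c | SS1 (Real.log U) c ≤ η} ∪ {c | δ₁ ≤ |SS1 (Real.log U) c - zp1 c * AA1 c|}) ∪
        {c | δ₂ ≤ |MG T U W c / (T * D) - SS1 (Real.log U) c|}) ≤ ε * U ^ n := by
    refine (measureReal_union_le _ _).trans ?_
    have := measureReal_union_le (μ := mB n 0 U) {c | SS1 (Real.log U) c ≤ η}
      {c | δ₁ ≤ |SS1 (Real.log U) c - zp1 c * AA1 c|}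
    have h5 : δ₁ * U ^ n ≤ ε / 4 * U ^ n := by gcongr
    have h6 : 0 < ε * U ^ n := by positivity
    linarith
  calc _ ≤ volume ((({c | SS1 (Real.log U) c ≤ η} ∪ {c | δ₁ ≤ |SS1 (Real.log U) c - zp1 c * AA1 c|}) ∪
        {c | δ₂ ≤ |MG T U W c / (T * D) - SS1 (Real.log U) c|}) ∩ Set.Icc (fun _ => 0) (fun _ => U)) :=
        measure_mono hsub
    _ = (mB n 0 U) (({c | SS1 (Real.log U) c ≤ η} ∪ {c | δ₁ ≤ |SS1 (Real.log U) c - zp1 c * AA1 c|}) ∪
        {c | δ₂ ≤ |MG T U W c / (T * D) - SS1 (Real.log U) c|}) := by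
        rw [mB_eq, Measure.restrict_apply' measurableSet_Icc]
    _ ≤ _ := by
        rw [← ENNReal.ofReal_toReal (measure_ne_top (mB n 0 U) _)]
        exact ENNReal.ofReal_le_ofReal hreal

end

end Pool.Agent.N879.PZ
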